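import Mathlib

set_option autoImplicit false

namespace Pool.Agent.Zk54

/-- N2. No small subgroups -/
theorem exists_far {A : Type*} [NormedRing A] [NormedAlgebra ℝ A] (g : A) (hg : g ≠ 1) :
    ∃ k : ℕ, 1 / 2 ≤ ‖g ^ (2 ^ k) - 1‖ := by
  by_contra hc
  push Not at hc
  have h0 : 0 < ‖g - 1‖ := norm_pos_iff.2 (sub_ne_zero.2 hg)
  have step : ∀ k : ℕ, (3 / 2 : ℝ) * ‖g ^ (2 ^ k) - 1‖ ≤ ‖g ^ (2 ^ (k + 1)) - 1‖ := by
    intro k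
    set x := g ^ (2 ^ k) - 1 with hx
    have e : g ^ (2 ^ (k + 1)) - 1 = (2 : ℝ) • x + x * x := by
      have : g ^ (2 ^ (k + 1)) = g ^ (2 ^ k) * g ^ (2 ^ k) := by
        rw [← pow_add]; congr 1; ring
      rw [this, two_smul, hx]
      noncomm_ring
    have h1 : ‖(2 : ℝ) • x‖ = 2 * ‖x‖ := by rw [norm_smul]; norm_num
    have h2 : ‖x * x‖ ≤ ‖x‖ * ‖x‖ := norm_mul_le x x
    have h3 : ‖x‖ < 1 / 2 := hc k
    have h4 : ‖(2 : ℝ) • x‖ ≤ ‖(2 : ℝ) • x + x * x‖ + ‖x * x‖ := by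
      have := norm_sub_le ((2 : ℝ) • x + x * x) (x * x)
      simpa using this
    rw [e]
    nlinarith [norm_nonneg x]
  have grow : ∀ k : ℕ, (3 / 2 : ℝ) ^ k * ‖g - 1‖ ≤ ‖g ^ (2 ^ k) - 1‖ := by
    intro k
    induction k with
    | zero => simp
    | succ k ih =>
      calc (3 / 2 : ℝ) ^ (k + 1) * ‖g - 1‖ = 3 / 2 * ((3 / 2 : ℝ) ^ k * ‖g - 1‖) := by ring
        _ ≤ 3 / 2 * ‖g ^ (2 ^ k) - 1‖ := by gcongr
        _ ≤ _ := step k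
  obtain ⟨n, hn⟩ := pow_unbounded_of_one_lt (1 / 2 / ‖g - 1‖) (by norm_num : (1 : ℝ) < 3 / 2)
  have h5 := grow n
  have h6 := hc n
  have h7 : 1 / 2 < (3 / 2 : ℝ) ^ n * ‖g - 1‖ := by
    rw [div_lt_iff₀ h0] at hn
    exact hn
  linarith

end Pool.Agent.Zk54
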