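import Mathlib

/-!
Position of a convex body of `ℝ³`: after an affine automorphism it contains the standard simplex
and lies in the cube `|x i| ≤ 1`.
-/

set_option autoImplicit false

open Set Module

namespace Pool.Agent.Zk54

/-- three-dimensional Euclidean space -/
abbrev E3' : Type := EuclideanSpace ℝ (Fin 3)

theorem exists_position {L : Set E3'} (hL : Convex ℝ L) (hc : IsCompact L)
    (hi : (interior L).Nonempty) :
    ∃ h : E3' ≃ᵃ[ℝ] E3', (∀ x : E3', (∀ i, 0 ≤ x i) → ∑ i, x i ≤ 1 → x ∈ h '' L) ∧
      ∀ x ∈ h '' L, ∀ i, |x i| ≤ 1 := by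
  classical
  let e : Basis (Fin 3) ℝ E3' := (EuclideanSpace.basisFun (Fin 3) ℝ).toBasis
  let f : E3' × (Fin 3 → E3') → ℝ := fun p => |e.det (fun i => p.2 i - p.1)|
  have hdc : Continuous (fun w : Fin 3 → E3' => e.det w) := by
    simp only [Basis.det_apply]
    refine Continuous.matrix_det ?_
    refine continuous_pi fun i => continuous_pi fun j => ?_
    simp only [Basis.toMatrix_apply]
    exact (LinearMap.continuous_of_finiteDimensional (e.coord i)).comp (continuous_apply j)
  have hf : Continuous f := by
    refine (hdc.comp ?_).abs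
    fun_prop
  have hcomp : IsCompact (L ×ˢ Set.pi univ (fun _ : Fin 3 => L)) :=
    hc.prod (isCompact_univ_pi fun _ => hc)
  obtain ⟨x0, hx0⟩ := hi
  have hne : (L ×ˢ Set.pi univ (fun _ : Fin 3 => L)).Nonempty :=
    ⟨(x0, fun _ => x0), interior_subset hx0, fun _ _ => interior_subset hx0⟩
  obtain ⟨⟨v0, v⟩, ⟨hv0, hv⟩, hmax⟩ := hcomp.exists_isMaxOn hne hf.continuousOn
  have hv' : ∀ i, v i ∈ L := fun i => hv i (mem_univ i)
  have hpos : 0 < f (v0, v) := by
    obtain ⟨r, hr, hball⟩ := Metric.mem_nhds_iff.1 (mem_interior_iff_mem_nhds.1 hx0)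
    have h1 : f (x0, fun i => x0 + (r / 2) • e i) ≤ f (v0, v) := by
      refine hmax ⟨interior_subset hx0, fun i _ => hball ?_⟩
      simp only [e, Metric.mem_ball, dist_self_add_left, norm_smul, Real.norm_eq_abs,
        OrthonormalBasis.coe_toBasis, OrthonormalBasis.norm_eq_one, mul_one]
      rw [abs_of_pos (by positivity)]
      linarith
    refine lt_of_lt_of_le ?_ h1
    have h2 : e.det (fun i => (x0 + (r / 2) • e i) - x0) = (r / 2) ^ 3 := by
      have : (fun i => (x0 + (r / 2) • e i) - x0) = fun i => (fun _ => r / 2) i • e i := by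
        funext i; simp
      rw [this, AlternatingMap.map_smul_univ, Basis.det_self]
      simp [div_pow]
    change 0 < |e.det (fun i => (x0 + (r / 2) • e i) - x0)|
    rw [h2]
    positivity
  set w : Fin 3 → E3' := fun i => v i - v0 with hw
  have hD : e.det w ≠ 0 := by
    intro h0
    have : f (v0, v) = |e.det w| := rfl
    rw [this, h0] at hpos
    simp at hpos
  obtain ⟨hli, hsp⟩ := (Module.Basis.is_basis_iff_det e).2 (isUnit_iff_ne_zero.2 hD)
  let b := Basis.mk hli hsp.ge
  have hb : ∀ i, b i = w i := fun i => by simp [b]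
  let lin : E3' ≃ₗ[ℝ] E3' := b.equivFun.trans (WithLp.linearEquiv 2 ℝ (Fin 3 → ℝ)).symm
  let h : E3' ≃ᵃ[ℝ] E3' := (AffineEquiv.constVAdd ℝ E3' (-v0)).trans lin.toAffineEquiv
  have hh : ∀ y i, h y i = b.coord i (y - v0) := by
    intro y i
    simp [h, lin, sub_eq_neg_add]
  refine ⟨h, fun x hx hs => ?_, ?_⟩
  · refine ⟨v0 + ∑ i, x i • w i, ?_, ?_⟩
    · have h3 := hL.sum_mem (t := (Finset.univ : Finset (Option (Fin 3))))
        (w := fun o => o.elim (1 - ∑ i, x i) (fun i => x i))
        (z := fun o => o.elim v0 v) (by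
          intro o _
          cases o with
          | none => simpa using hs
          | some i => simpa using hx i) (by
          rw [Fintype.sum_option]; simp) (by
          intro o _
          cases o with
          | none => exact hv0
          | some i => exact hv' i)
      rw [Fintype.sum_option] at h3
      simp only [Option.elim_none, Option.elim_some] at h3
      convert h3 using 1
      simp only [hw, smul_sub, Finset.sum_sub_distrib, ← Finset.sum_smul, sub_smul, one_smul]
      abel
    · ext i
      rw [hh]
      simp only [add_sub_cancel_left, ← hb, Basis.coord_apply]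
      rw [Basis.repr_sum_self]
  · rintro _ ⟨y, hy, rfl⟩ i
    rw [hh]
    have h4 := congrArg (fun φ : E3' →ₗ[ℝ] ℝ => φ (y - v0))
      (e.det_smul_mk_coord_eq_det_update hli hsp.ge i)
    simp only [LinearMap.smul_apply, smul_eq_mul, MultilinearMap.toLinearMap_apply] at h4
    have h5 : Function.update w i (y - v0) = fun j => Function.update v i y j - v0 := by
      funext j
      by_cases hj : j = i
      · subst hj; simp
      · simp [hj, hw]
    have h6 : f (v0, Function.update v i y) ≤ f (v0, v) := by
      refine hmax ⟨hv0, fun j _ => ?_⟩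
      by_cases hj : j = i
      · subst hj; simpa using hy
      · simpa [hj] using hv' j
    have h7 : |e.det w * b.coord i (y - v0)| ≤ |e.det w| := by
      have h8 : e.det w * b.coord i (y - v0) = e.det (Function.update w i (y - v0)) := h4
      rw [h8, h5]
      exact h6
    rw [abs_mul] at h7
    have h9 : 0 < |e.det w| := abs_pos.2 hD
    nlinarith [abs_nonneg (b.coord i (y - v0))]

end Pool.Agent.Zk54
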