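import Pool.Agent.Zk54.Defs
import Pool.Agent.Zk54.NearPos
import Pool.Agent.Zk54.Far

/-!
Uniform neighbourhoods of the class of bodies with a symmetry.
-/

set_option autoImplicit false

open Set Topology Filter Module

namespace Pool.Agent.Zk54

theorem cov8_of_image (h : E3' ≃ᵃ[ℝ] E3') {K : Set E3'} (hK : Cov8 (h '' K)) : Cov8 K := by
  classical
  obtain ⟨T, hT, hc⟩ := hK
  refine ⟨T.image h.linear.symm, Finset.card_image_le.trans hT, fun x hx => ?_⟩
  have h1 := hc ⟨x, hx, rfl⟩
  simp only [mem_iUnion] at h1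
  obtain ⟨t, ht, y, hy, hty⟩ := h1
  have h2 : interior (h '' K) = h '' interior K :=
    (h.toContinuousAffineEquiv.toHomeomorph.image_interior K).symm
  rw [h2] at hy
  obtain ⟨z, hz, rfl⟩ := hy
  simp only [mem_iUnion]
  refine ⟨h.linear.symm t, Finset.mem_image_of_mem _ ht, z, hz, ?_⟩
  show h.linear.symm t + z = x
  have h3 : h (h.linear.symm t + z) = h x := by
    rw [← hty]
    have := h.map_vadd z (h.linear.symm t)
    rw [vadd_eq_add, vadd_eq_add] at this
    rw [this]
    simp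
  exact h.injective h3

theorem ball_subset_of {L : Set E3'} (hL : Convex ℝ L) (hc : IsCompact L) {p : E3'} {r : ℝ}
    (hr : 0 < r) (hne : L.Nonempty)
    (h : ∀ x ∈ Metric.ball p (2 * r), ∃ y ∈ L, dist x y < r) : Metric.ball p r ⊆ L := by
  intro z hz
  by_contra hzL
  obtain ⟨w0, hw0, hmin⟩ := exists_norm_eq_iInf_of_complete_convex hne hc.isComplete hL z
  have hin := (norm_eq_iInf_iff_real_inner_le_zero hL hw0).1 hmin
  have hd : 0 < ‖z - w0‖ := by
    rw [norm_pos_iff, sub_ne_zero]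
    rintro rfl
    exact hzL hw0
  set u : E3' := (‖z - w0‖)⁻¹ • (z - w0) with hu
  have hun : ‖u‖ = 1 := by
    rw [hu, norm_smul, norm_inv, norm_norm, inv_mul_cancel₀ hd.ne']
  obtain ⟨w, hw, hdist⟩ := h (z + r • u) (by
    rw [Metric.mem_ball] at hz ⊢
    calc dist (z + r • u) p ≤ dist (z + r • u) z + dist z p := dist_triangle _ _ _
      _ < r + r := by
        have : dist (z + r • u) z = r := by
          rw [dist_eq_norm, add_sub_cancel_left, norm_smul, hun, mul_one, Real.norm_eq_abs,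
            abs_of_pos hr]
        rw [this]
        linarith
      _ = 2 * r := by ring)
  have h1 : inner ℝ (z + r • u - w) u ≤ ‖z + r • u - w‖ * ‖u‖ := real_inner_le_norm _ _
  rw [hun, mul_one, ← dist_eq_norm] at h1
  have h2 : inner ℝ (z + r • u - w) u = inner ℝ (z - w) u + r := by
    have : z + r • u - w = (z - w) + r • u := by abel
    rw [this, inner_add_left, inner_smul_left, real_inner_self_eq_norm_sq, hun]
    simp
  have h3 : 0 ≤ inner ℝ (z - w) u := by
    have e1 : inner ℝ (z - w) (z - w0) = ‖z - w0‖ ^ 2 - inner ℝ (z - w0) (w - w0) := by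
      have : z - w = (z - w0) - (w - w0) := by abel
      rw [this, inner_sub_left, real_inner_self_eq_norm_sq, real_inner_comm (z - w0) (w - w0)]
    have e2 := hin w hw
    rw [hu, inner_smul_right]
    have : 0 ≤ inner ℝ (z - w) (z - w0) := by
      rw [e1]
      nlinarith [sq_nonneg ‖z - w0‖]
    positivity
  linarith

theorem ultra_lim {X : Type*} [TopologicalSpace X] {s : Set X} (hs : IsCompact s)
    (U : Ultrafilter ℕ) (y : ℕ → X) (hy : ∀ m, y m ∈ s) : ∃ x ∈ s, Tendsto y U (𝓝 x) := by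
  have h1 : ((U.map y : Ultrafilter X) : Filter X) ≤ 𝓟 s := by
    rw [le_principal_iff, Ultrafilter.coe_map, Filter.mem_map]
    exact Filter.Eventually.of_forall hy
  obtain ⟨x, hx, h2⟩ := hs.ultrafilter_le_nhds (U.map y) h1
  exact ⟨x, hx, h2⟩

theorem clm_lim {U : Filter ℕ} {A : ℕ → E3' →L[ℝ] E3'} {A' : E3' →L[ℝ] E3'} {x : ℕ → E3'} {x' : E3'}
    (hA : Tendsto A U (𝓝 A')) (hx : Tendsto x U (𝓝 x')) :
    Tendsto (fun m => A m (x m)) U (𝓝 (A' x')) := by
  have h1 : Continuous fun p : (E3' →L[ℝ] E3') × E3' => p.1 p.2 :=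
    isBoundedBilinearMap_apply.continuous
  exact (h1.tendsto (A', x')).comp (hA.prodMk_nhds hx)

theorem norm_le_two {x : E3'} (hx : ∀ i, |x i| ≤ 1) : ‖x‖ ≤ 2 := by
  rw [EuclideanSpace.norm_eq, Fin.sum_univ_three, Real.sqrt_le_left (by norm_num)]
  have h : ∀ i, ‖x i‖ ^ 2 ≤ 1 := fun i => by
    rw [Real.norm_eq_abs]
    have := hx i
    have := abs_nonneg (x i)
    nlinarith
  linarith [h 0, h 1, h 2]


/-- the normalised situation -/
structure Nrm (ε : ℝ) (L : Set E3') (A : E3' →L[ℝ] E3') (b : E3') (K : Set E3') (c : E3') :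
    Prop where
  conv : Convex ℝ L
  comp : IsCompact L
  simp : ∀ x : E3', (∀ i, 0 ≤ x i) → ∑ i, x i ≤ 1 → x ∈ L
  cube : ∀ x ∈ L, ∀ i, |x i| ≤ 1
  inv : (fun x => A x + b) '' L = L
  det : 0 < A.det
  far : 1 / 2 ≤ ‖A - 1‖
  lo : L ⊆ K
  hi : K ⊆ (fun x => c + (1 + ε) • x) '' L
  bad : ¬ Cov8 K

theorem iterate_affine (A : E3' →L[ℝ] E3') (b : E3') (L : Set E3')
    (h : (fun x => A x + b) '' L = L) (n : ℕ) : ∃ b', (fun x => (A ^ n) x + b') '' L = L := by
  induction n with
  | zero => exact ⟨0, by simp⟩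
  | succ n ih =>
    obtain ⟨b', hb'⟩ := ih
    refine ⟨A b' + b, ?_⟩
    have : (fun x => (A ^ (n + 1)) x + (A b' + b)) =
        (fun x => A x + b) ∘ (fun x => (A ^ n) x + b') := by
      ext1 x
      simp only [Function.comp]
      rw [pow_succ', mul_apply_eq_comp, map_add]
      abel
    rw [this, image_comp, hb', h]

theorem normalize {ε : ℝ} {L : Set E3'} (hL : Convex ℝ L) (hc : IsCompact L)
    (hi : (interior L).Nonempty) {g : E3' →ᵃ[ℝ] E3'} (hg : g '' L = L)
    (hdet : 0 < LinearMap.det g.linear) (hne : ∃ x, g x ≠ x) {K : Set E3'}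
    (hK : ∃ (h : E3' ≃ᵃ[ℝ] E3') (c : E3'), L ⊆ h '' K ∧ h '' K ⊆ (fun x => c + (1 + ε) • x) '' L)
    (hbad : ¬ Cov8 K) : ∃ L' A b K' c', Nrm ε L' A b K' c' := by
  obtain ⟨φ, hφ1, hφ2⟩ := exists_position hL hc hi
  obtain ⟨h, c, hK1, hK2⟩ := hK
  set L' : Set E3' := φ '' L with hL'
  set g1 : E3' →ᵃ[ℝ] E3' := (φ : E3' →ᵃ[ℝ] E3').comp (g.comp (φ.symm : E3' →ᵃ[ℝ] E3')) with hg1
  have hg1a : ∀ x, g1 (φ x) = φ (g x) := by
    intro x
    show φ (g (φ.symm (φ x))) = φ (g x)
    rw [AffineEquiv.symm_apply_apply]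
  have hg1L : g1 '' L' = L' := by
    rw [hL', ← image_comp]
    have : (g1 ∘ φ : E3' → E3') = φ ∘ g := by
      ext1 x
      exact hg1a x
    rw [this, image_comp, hg]
  have hdet1 : LinearMap.det g1.linear = LinearMap.det g.linear := by
    have : g1.linear = (φ.linear : E3' →ₗ[ℝ] E3') ∘ₗ g.linear ∘ₗ (φ.linear.symm : E3' →ₗ[ℝ] E3') :=
      rfl
    rw [this, LinearMap.det_conj]
  set A1 : E3' →L[ℝ] E3' := LinearMap.toContinuousLinearMap g1.linear with hA1
  have hdec : ∀ x, g1 x = A1 x + g1 0 := by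
    intro x
    have h9 := congrFun g1.decomp x
    simp at h9
    exact h9
  have hfun : (fun x => A1 x + g1 0) = (g1 : E3' → E3') := by
    ext1 x
    exact (hdec x).symm
  have hinv1 : (fun x => A1 x + g1 0) '' L' = L' := by rw [hfun, hg1L]
  have h0L : (0 : E3') ∈ L' := hφ1 0 (fun i => by simp) (by simp)
  have hcomp : IsCompact L' := hc.image φ.toContinuousAffineEquiv.continuous
  have hA1ne : A1 ≠ 1 := by
    intro h1
    -- all multiples of the translation vector
    have hmem : ∀ n : ℕ, (n : ℝ) • g1 0 ∈ L' := by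
      intro n
      induction n with
      | zero => simpa using h0L
      | succ n ih =>
        have h2 : (fun x => A1 x + g1 0) ((n : ℝ) • g1 0) ∈ L' := by
          rw [← hinv1]
          exact ⟨_, ih, rfl⟩
        simp only [h1, one_apply_eq_self] at h2
        push_cast
        rw [add_smul, one_smul]
        exact h2
    have hz : g1 0 = 0 := by
      by_contra hz
      obtain ⟨i, hi⟩ : ∃ i, (g1 0) i ≠ 0 := by
        by_contra hcon
        push Not at hcon
        exact hz (PiLp.ext hcon)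
      obtain ⟨n, hn⟩ := exists_nat_gt (1 / |(g1 0) i|)
      have h3 := hφ2 _ (hmem n) i
      rw [PiLp.smul_apply, smul_eq_mul, abs_mul, abs_of_nonneg (Nat.cast_nonneg n)] at h3
      rw [div_lt_iff₀ (abs_pos.2 hi)] at hn
      linarith
    obtain ⟨x, hx⟩ := hne
    apply hx
    apply φ.injective
    rw [← hg1a, hdec, h1, hz]
    simp
  obtain ⟨k, hk⟩ := exists_far A1 hA1ne
  obtain ⟨b', hb'⟩ := iterate_affine A1 (g1 0) L' hinv1 (2 ^ k)
  refine ⟨L', A1 ^ (2 ^ k), b', φ '' (h '' K), φ.linear c - ε • φ 0, ?_⟩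
  refine ⟨hL.affine_image (φ : E3' →ᵃ[ℝ] E3'), hcomp, hφ1, hφ2, hb', ?_, hk, ?_, ?_, ?_⟩
  · have : (A1 ^ (2 ^ k)).det = A1.det ^ (2 ^ k) := by
      induction (2 ^ k) with
      | zero => simp [ContinuousLinearMap.det]
      | succ n ih =>
        rw [pow_succ, pow_succ, ← ih]
        unfold ContinuousLinearMap.det
        rw [← LinearMap.det_comp]
        rfl
    rw [this]
    apply pow_pos
    show 0 < LinearMap.det (A1 : E3' →ₗ[ℝ] E3')
    have : (A1 : E3' →ₗ[ℝ] E3') = g1.linear := rfl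
    rw [this, hdet1]
    exact hdet
  · exact image_mono hK1
  · rintro _ ⟨y, hy, rfl⟩
    obtain ⟨x, hx, hxy⟩ := hK2 hy
    refine ⟨φ x, ⟨x, hx, rfl⟩, ?_⟩
    simp only at hxy ⊢
    rw [← hxy]
    have e1 : ∀ z, φ z = φ.linear z + φ 0 := by
      intro z
      have := congrFun (φ : E3' →ᵃ[ℝ] E3').decomp z
      simpa using this
    rw [e1 (c + (1 + ε) • x), e1 x, map_add, map_smul, smul_add, add_smul, add_smul, one_smul]
    simp only [one_smul]
    abel
  · intro hcov
    exact hbad (cov8_of_image h (cov8_of_image φ hcov))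


theorem limit {ε : ℕ → ℝ} (hε : ∀ m, ε m = 1 / ((m : ℝ) + 1)) (L : ℕ → Set E3')
    (A : ℕ → E3' →L[ℝ] E3') (b : ℕ → E3') (K : ℕ → Set E3') (c : ℕ → E3')
    (hN : ∀ m, Nrm (ε m) (L m) (A m) (b m) (K m) (c m))
    (H : ∀ L : Set E3', Convex ℝ L → IsCompact L → (interior L).Nonempty →
      ∀ g : E3' →ᵃ[ℝ] E3', g '' L = L → 0 < LinearMap.det g.linear → (∃ x, g x ≠ x) → Cov8 L) :
    False := by
  classical
  set U : Ultrafilter ℕ := Ultrafilter.of atTop with hU
  have hUle : (U : Filter ℕ) ≤ atTop := Ultrafilter.of_le atTop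
  have hε0 : Tendsto ε U (𝓝 0) := by
    have h1 : Tendsto ε atTop (𝓝 0) := by
      have : ε = fun m : ℕ => 1 / ((m : ℝ) + 1) := funext hε
      rw [this]
      exact tendsto_one_div_add_atTop_nhds_zero_nat
    exact h1.mono_left hUle
  have hεpos : ∀ m, 0 < ε m := fun m => by rw [hε]; positivity
  -- bounds
  have hLb : ∀ m, ∀ x ∈ L m, ‖x‖ ≤ 2 := fun m x hx => norm_le_two ((hN m).cube x hx)
  have h0 : ∀ m, (0 : E3') ∈ L m := fun m => (hN m).simp 0 (fun i => by simp) (by simp)
  have hgm : ∀ m, ∀ x ∈ L m, A m x + b m ∈ L m := by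
    intro m x hx
    have := (hN m).inv
    rw [← this]
    exact ⟨x, hx, rfl⟩
  have hbb : ∀ m, ‖b m‖ ≤ 2 := by
    intro m
    have := hgm m 0 (h0 m)
    rw [map_zero, zero_add] at this
    exact hLb m _ this
  have hAb : ∀ m, ‖A m‖ ≤ 12 := by
    intro m
    refine ContinuousLinearMap.opNorm_le_bound _ (by norm_num) (fun x => ?_)
    have h1 : ∀ i : Fin 3, ‖A m (EuclideanSpace.single i 1)‖ ≤ 4 := by
      intro i
      have h2 : (EuclideanSpace.single i (1 : ℝ) : E3') ∈ L m := by
        refine (hN m).simp _ (fun j => ?_) ?_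
        · rw [PiLp.single_apply]
          split_ifs <;> norm_num
        · simp
      have h3 := hLb m _ (hgm m _ h2)
      calc ‖A m (EuclideanSpace.single i 1)‖ =
          ‖(A m (EuclideanSpace.single i 1) + b m) - b m‖ := by rw [add_sub_cancel_right]
        _ ≤ ‖A m (EuclideanSpace.single i 1) + b m‖ + ‖b m‖ := norm_sub_le _ _
        _ ≤ 2 + 2 := add_le_add h3 (hbb m)
        _ = 4 := by norm_num
    have h4 : x = ∑ i : Fin 3, x i • (EuclideanSpace.single i (1 : ℝ) : E3') := by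
      ext j
      simp [Fin.sum_univ_three]
      fin_cases j <;> simp
    have h5 : ∀ i : Fin 3, ‖x i‖ ≤ ‖x‖ := fun i => PiLp.norm_apply_le x i
    calc ‖A m x‖ = ‖∑ i : Fin 3, x i • A m (EuclideanSpace.single i (1 : ℝ))‖ := by
          conv_lhs => rw [h4]
          rw [map_sum]
          simp only [map_smul]
      _ ≤ ∑ i : Fin 3, ‖x i • A m (EuclideanSpace.single i (1 : ℝ))‖ := norm_sum_le _ _
      _ ≤ ∑ _i : Fin 3, ‖x‖ * 4 := by
          refine Finset.sum_le_sum fun i _ => ?_
          rw [norm_smul]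
          exact mul_le_mul (h5 i) (h1 i) (norm_nonneg _) (norm_nonneg _)
      _ = 12 * ‖x‖ := by
          rw [Finset.sum_const, Finset.card_univ, Fintype.card_fin]
          simp
          ring
  -- limits
  obtain ⟨A', hA'b, hA'⟩ := ultra_lim (isCompact_closedBall (0 : E3' →L[ℝ] E3') 12) U A
    (fun m => by rw [mem_closedBall_zero_iff]; exact hAb m)
  obtain ⟨b', -, hb'⟩ := ultra_lim (isCompact_closedBall (0 : E3') 2) U b
    (fun m => by rw [mem_closedBall_zero_iff]; exact hbb m)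
  set M : Set E3' := {x | ∀ r > 0, ∀ᶠ m in (U : Filter ℕ), ∃ y ∈ L m, dist x y < r} with hM
  have hMlim : ∀ (y : ℕ → E3') (x : E3'), (∀ m, y m ∈ L m) → Tendsto y U (𝓝 x) → x ∈ M := by
    intro y x hy hx r hr
    filter_upwards [Metric.tendsto_nhds.1 hx r hr] with m hm
    exact ⟨y m, hy m, by rwa [dist_comm]⟩
  have hMseq : ∀ x ∈ M, ∃ y : ℕ → E3', (∀ m, y m ∈ L m) ∧ Tendsto y U (𝓝 x) := by
    intro x hx
    choose y hy hyd using fun m => (hN m).comp.exists_infDist_eq_dist ⟨0, h0 m⟩ x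
    refine ⟨y, hy, ?_⟩
    rw [Metric.tendsto_nhds]
    intro r hr
    filter_upwards [hx r hr] with m hm
    obtain ⟨z, hz, hzd⟩ := hm
    rw [dist_comm, ← hyd m]
    exact (Metric.infDist_le_dist_of_mem hz).trans_lt hzd
  have hMb : ∀ x ∈ M, ‖x‖ ≤ 2 := by
    intro x hx
    obtain ⟨y, hy, hyx⟩ := hMseq x hx
    exact le_of_tendsto hyx.norm (Filter.Eventually.of_forall fun m => hLb m _ (hy m))
  have hMclosed : IsClosed M := by
    apply isClosed_of_closure_subset
    intro x hx r hr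
    obtain ⟨x', hx', hd⟩ := Metric.mem_closure_iff.1 hx (r / 2) (by positivity)
    filter_upwards [hx' (r / 2) (by positivity)] with m hm
    obtain ⟨y, hy, hyd⟩ := hm
    exact ⟨y, hy, (dist_triangle x x' y).trans_lt (by linarith)⟩
  have hMconv : Convex ℝ M := by
    intro x hx x' hx' s t hs ht hst
    obtain ⟨y, hy, hyx⟩ := hMseq x hx
    obtain ⟨y', hy', hyx'⟩ := hMseq x' hx'
    exact hMlim (fun m => s • y m + t • y' m) _ (fun m => (hN m).conv (hy m) (hy' m) hs ht hst)
      ((hyx.const_smul s).add (hyx'.const_smul t))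
  have hMcomp : IsCompact M :=
    Metric.isCompact_of_isClosed_isBounded hMclosed
      (Metric.isBounded_closedBall.subset (fun x hx => by
        rw [mem_closedBall_zero_iff]; exact hMb x hx : M ⊆ Metric.closedBall (0 : E3') 2))
  have hMsimp : ∀ x : E3', (∀ i, 0 ≤ x i) → ∑ i, x i ≤ 1 → x ∈ M := by
    intro x h1 h2
    exact hMlim (fun _ => x) x (fun m => (hN m).simp x h1 h2) tendsto_const_nhds
  have hMint : (interior M).Nonempty := by
    set p : E3' := WithLp.toLp 2 (fun _ => 1 / 4) with hp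
    refine ⟨p, ?_⟩
    rw [mem_interior_iff_mem_nhds, Metric.mem_nhds_iff]
    refine ⟨1 / 12, by norm_num, fun x hx => ?_⟩
    rw [Metric.mem_ball, dist_eq_norm] at hx
    have h1 : ∀ i, |x i - 1 / 4| < 1 / 12 := by
      intro i
      have h2 := PiLp.norm_apply_le (x - p) i
      rw [PiLp.sub_apply, Real.norm_eq_abs] at h2
      exact h2.trans_lt hx
    refine hMsimp x (fun i => ?_) ?_
    · have := (abs_lt.1 (h1 i)).1
      linarith
    · rw [Fin.sum_univ_three]
      linarith [(abs_lt.1 (h1 0)).2, (abs_lt.1 (h1 1)).2, (abs_lt.1 (h1 2)).2]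
  -- uniform closeness
  have hclose1 : ∀ r > 0, ∀ᶠ m in (U : Filter ℕ), ∀ x ∈ M, ∃ y ∈ L m, dist x y < r := by
    intro r hr
    obtain ⟨t, htM, htf, ht⟩ := hMcomp.finite_cover_balls (e := r / 2) (by positivity)
    have h1 : ∀ᶠ m in (U : Filter ℕ), ∀ z ∈ t, ∃ y ∈ L m, dist z y < r / 2 := by
      rw [Filter.eventually_all_finite htf]
      exact fun z hz => htM hz (r / 2) (by positivity)
    filter_upwards [h1] with m hm x hx
    have h2 := ht hx
    simp only [mem_iUnion] at h2
    obtain ⟨z, hz, hxz⟩ := h2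
    obtain ⟨y, hy, hyz⟩ := hm z hz
    rw [Metric.mem_ball] at hxz
    exact ⟨y, hy, (dist_triangle x z y).trans_lt (by linarith)⟩
  have hclose2 : ∀ r > 0, ∀ᶠ m in (U : Filter ℕ), ∀ y ∈ L m, ∃ x ∈ M, dist y x < r := by
    intro r hr
    by_contra hcon
    rw [Ultrafilter.eventually_not.symm] at hcon
    have h1 : ∀ m, ∃ y ∈ L m, (¬ ∀ y ∈ L m, ∃ x ∈ M, dist y x < r) → ∀ x ∈ M, r ≤ dist y x := by
      intro m
      by_cases h : ∀ y ∈ L m, ∃ x ∈ M, dist y x < r
      · exact ⟨0, h0 m, fun h' => absurd h h'⟩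
      · push Not at h
        obtain ⟨y, hy, h2⟩ := h
        exact ⟨y, hy, fun _ => h2⟩
    choose y hy hyr using h1
    obtain ⟨x, -, hx⟩ := ultra_lim (isCompact_closedBall (0 : E3') 2) U y
      (fun m => by rw [mem_closedBall_zero_iff]; exact hLb m _ (hy m))
    have hxM := hMlim y x hy hx
    obtain ⟨m, hm1, hm2⟩ := ((Metric.tendsto_nhds.1 hx r hr).and hcon).exists
    exact absurd hm1 (not_lt.2 (hyr m hm2 x hxM))
  -- the limit symmetry
  have hinv : (fun x => A' x + b') '' M = M := by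
    apply Subset.antisymm
    · rintro _ ⟨x, hx, rfl⟩
      obtain ⟨y, hy, hyx⟩ := hMseq x hx
      exact hMlim (fun m => A m (y m) + b m) _ (fun m => hgm m _ (hy m))
        ((clm_lim hA' hyx).add hb')
    · intro x hx
      obtain ⟨y, hy, hyx⟩ := hMseq x hx
      have h1 : ∀ m, ∃ z ∈ L m, A m z + b m = y m := by
        intro m
        have := hy m
        rw [← (hN m).inv] at this
        exact this
      choose z hz hzy using h1
      obtain ⟨z', -, hz'⟩ := ultra_lim (isCompact_closedBall (0 : E3') 2) U z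
        (fun m => by rw [mem_closedBall_zero_iff]; exact hLb m _ (hz m))
      refine ⟨z', hMlim z z' hz hz', ?_⟩
      have h2 : Tendsto (fun m => A m (z m) + b m) U (𝓝 (A' z' + b')) :=
        (clm_lim hA' hz').add hb'
      have h3 : (fun m => A m (z m) + b m) = y := funext hzy
      rw [h3] at h2
      exact tendsto_nhds_unique h2 hyx
  have hdet0 : 0 ≤ A'.det := by
    have h1 : Tendsto (fun m => (A m).det) U (𝓝 A'.det) :=
      (ContinuousLinearMap.continuous_det.tendsto A').comp hA'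
    exact ge_of_tendsto h1 (Filter.Eventually.of_forall fun m => (hN m).det.le)
  have hdet : 0 < A'.det := by
    rcases hdet0.lt_or_eq with h | h
    · exact h
    exfalso
    have h1 : MeasureTheory.volume (A' '' M) = 0 := by
      have h' : LinearMap.det (A' : E3' →ₗ[ℝ] E3') = 0 := h.symm
      rw [MeasureTheory.Measure.addHaar_image_continuousLinearMap, h']
      simp
    have h2 : (fun x => A' x + b') '' M = (fun x => x + b') '' (A' '' M) := by
      rw [← image_comp]; rfl
    have h3 : MeasureTheory.volume M = 0 := by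
      rw [← hinv, h2]
      rw [image_add_right, MeasureTheory.measure_preimage_add_right]
      exact h1
    have h4 : 0 < MeasureTheory.volume (interior M) :=
      isOpen_interior.measure_pos _ hMint
    have h5 := MeasureTheory.measure_mono (μ := MeasureTheory.volume) (interior_subset (s := M))
    rw [h3] at h5
    exact absurd h5 (not_le.2 h4)
  have hfar : 1 / 2 ≤ ‖A' - 1‖ := by
    have h1 : Tendsto (fun m => ‖A m - 1‖) U (𝓝 ‖A' - 1‖) := (hA'.sub tendsto_const_nhds).norm
    exact ge_of_tendsto h1 (Filter.Eventually.of_forall fun m => (hN m).far)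
  set g : E3' →ᵃ[ℝ] E3' := (A' : E3' →ₗ[ℝ] E3').toAffineMap + AffineMap.const ℝ E3' b' with hg
  have hgx : ∀ x, g x = A' x + b' := fun x => rfl
  have hglin : g.linear = (A' : E3' →ₗ[ℝ] E3') := by
    rw [hg, AffineMap.add_linear]
    simp
  have hcov : Cov8 M := by
    refine H M hMconv hMcomp hMint g ?_ ?_ ?_
    · have : (g : E3' → E3') = fun x => A' x + b' := funext hgx
      rw [this]
      exact hinv
    · rw [hglin]
      exact hdet
    · by_contra hcon
      push Not at hcon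
      have hb0 : b' = 0 := by
        have := hcon 0
        rw [hgx, map_zero, zero_add] at this
        exact this
      have hA1 : A' = 1 := by
        ext1 x
        have := hcon x
        rw [hgx, hb0, add_zero] at this
        rw [this]
        rfl
      rw [hA1, sub_self, norm_zero] at hfar
      norm_num at hfar
  -- the cover of the bodies near `M`
  obtain ⟨S, hS8, hS⟩ := hcov
  obtain ⟨δ, hδ, hδS⟩ := lebesgue_number_lemma_of_metric (ι := S) (s := M)
    (c := fun t => (fun x => (t : E3') + x) '' interior M) hMcomp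
    (fun t => (isOpenMap_add_left (t : E3')) _ isOpen_interior) (by
      intro x hx
      have := hS hx
      simp only [mem_iUnion] at this
      obtain ⟨t, ht, hxt⟩ := this
      exact mem_iUnion.2 ⟨⟨t, ht⟩, hxt⟩)
  have hr : 0 < δ / 3 := by positivity
  obtain ⟨m, ⟨hm1, hm2⟩, hm3⟩ := (((hclose1 (δ / 3) hr).and (hclose2 (δ / 6) (by positivity))).and
    (Metric.tendsto_nhds.1 hε0 (δ / 24) (by positivity))).exists
  have hεm : ε m < δ / 24 := by
    rw [Real.dist_0_eq_abs, abs_of_pos (hεpos m)] at hm3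
    exact hm3
  apply (hN m).bad
  refine ⟨S, hS8, fun y hy => ?_⟩
  -- the centre is small
  have hc : ∀ i, |(c m) i| ≤ ε m := by
    intro i
    have hcont : ContinuousOn (fun x : E3' => x i) (L m) := by fun_prop
    obtain ⟨x1, hx1, hmax⟩ := (hN m).comp.exists_isMaxOn ⟨0, h0 m⟩ hcont
    obtain ⟨x2, hx2, hmin⟩ := (hN m).comp.exists_isMinOn ⟨0, h0 m⟩ hcont
    obtain ⟨y1, hy1, he1⟩ := (hN m).hi ((hN m).lo hx1)
    obtain ⟨y2, hy2, he2⟩ := (hN m).hi ((hN m).lo hx2)
    have f1 : (c m) i + (1 + ε m) * y1 i = x1 i := by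
      have := congrArg (fun v : E3' => v i) he1
      simpa using this
    have f2 : (c m) i + (1 + ε m) * y2 i = x2 i := by
      have := congrArg (fun v : E3' => v i) he2
      simpa using this
    have g1 : y1 i ≤ x1 i := hmax hy1
    have g2 : x2 i ≤ y2 i := hmin hy2
    have k1 := abs_le.1 ((hN m).cube x1 hx1 i)
    have k2 := abs_le.1 ((hN m).cube x2 hx2 i)
    have hp := hεpos m
    rw [abs_le]
    constructor
    · nlinarith
    · nlinarith
  have hcn : ‖c m‖ ≤ 2 * ε m := by
    have h1 : ∀ i, |((ε m)⁻¹ • c m) i| ≤ 1 := by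
      intro i
      rw [PiLp.smul_apply, smul_eq_mul, abs_mul, abs_of_pos (inv_pos.2 (hεpos m)),
        inv_mul_le_iff₀ (hεpos m), mul_one]
      exact hc i
    have h2 := norm_le_two h1
    rw [norm_smul, norm_inv, Real.norm_eq_abs, abs_of_pos (hεpos m), inv_mul_le_iff₀ (hεpos m)] at h2
    linarith
  obtain ⟨x, hx, hxy⟩ := (hN m).hi hy
  have hyx : dist y x ≤ 4 * ε m := by
    rw [dist_eq_norm, ← hxy]
    have : c m + (1 + ε m) • x - x = c m + ε m • x := by
      rw [add_smul, one_smul]; abel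
    simp only
    rw [this]
    calc ‖c m + ε m • x‖ ≤ ‖c m‖ + ‖ε m • x‖ := norm_add_le _ _
      _ ≤ 2 * ε m + ε m * 2 := by
        refine add_le_add hcn ?_
        rw [norm_smul, Real.norm_eq_abs, abs_of_pos (hεpos m)]
        exact mul_le_mul_of_nonneg_left (hLb m x hx) (hεpos m).le
      _ = 4 * ε m := by ring
  obtain ⟨z, hz, hxz⟩ := hm2 x hx
  have hyz : dist y z < δ / 3 := (dist_triangle y x z).trans_lt (by linarith)
  obtain ⟨t, ht⟩ := hδS z hz
  simp only [mem_iUnion]
  refine ⟨t, t.2, y - t, ?_, by simp⟩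
  have hball : Metric.ball (y - t) (δ / 3) ⊆ L m := by
    refine ball_subset_of (hN m).conv (hN m).comp hr ⟨0, h0 m⟩ (fun w hw => ?_)
    apply hm1
    have h1 : w + t ∈ Metric.ball z δ := by
      rw [Metric.mem_ball] at hw ⊢
      have h2 : dist (w + t) y = dist w (y - t) := by
        rw [dist_eq_norm, dist_eq_norm]
        congr 1
        abel
      calc dist (w + t) z ≤ dist (w + t) y + dist y z := dist_triangle _ _ _
        _ < 2 * (δ / 3) + δ / 3 := by rw [h2]; linarith
        _ = δ := by ring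
    obtain ⟨v, hv, hvw⟩ := ht h1
    have : v = w := by
      have h3 : (t : E3') + v = w + t := hvw
      rw [add_comm (t : E3') v] at h3
      exact add_right_cancel h3
    rw [← this]
    exact interior_subset hv
  rw [mem_interior_iff_mem_nhds, Metric.mem_nhds_iff]
  exact ⟨δ / 3, hr, hball.trans (hN m).lo⟩

/-- N3. Uniformity. -/
theorem uniform_near
    (H : ∀ L : Set E3', Convex ℝ L → IsCompact L → (interior L).Nonempty →
      ∀ g : E3' →ᵃ[ℝ] E3', g '' L = L → 0 < LinearMap.det g.linear → (∃ x, g x ≠ x) → Cov8 L) :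
    ∃ ε : ℝ, 0 < ε ∧ ∀ L : Set E3', Convex ℝ L → IsCompact L → (interior L).Nonempty →
      ∀ g : E3' →ᵃ[ℝ] E3', g '' L = L → 0 < LinearMap.det g.linear → (∃ x, g x ≠ x) →
        ∀ K : Set E3', (∃ (h : E3' ≃ᵃ[ℝ] E3') (c : E3'), L ⊆ h '' K ∧
          h '' K ⊆ (fun x => c + (1 + ε) • x) '' L) → Cov8 K := by
  by_contra hcon
  push Not at hcon
  have h1 : ∀ m : ℕ, ∃ L' A b K' c', Nrm (1 / ((m : ℝ) + 1)) L' A b K' c' := by
    intro m
    obtain ⟨L, hL, hc, hi, g, hg, hd, hne, K, hK, hbad⟩ := hcon (1 / ((m : ℝ) + 1)) (by positivity)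
    exact normalize hL hc hi hg hd hne hK hbad
  choose L A b K c hN using h1
  exact limit (fun _ => rfl) L A b K c hN H

end Pool.Agent.Zk54
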