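import Pool.Agent.Zk54.Defs
import Pool.Agent.W867.Cov3.Sym2

/-!
From half-turn symmetric bodies in `ℝ × ℝ × ℝ` to affine symmetries in any three-dimensional space.
-/

set_option autoImplicit false

open Set Topology Filter Module

namespace Pool.Agent.Zk54

/-- an involution `L ≠ 1` of a three-dimensional space with positive determinant is a half-turn -/
theorem exists_coord {V : Type*} [NormedAddCommGroup V] [NormedSpace ℝ V]
    [FiniteDimensional ℝ V] (hdim : finrank ℝ V = 3) (L : V →ₗ[ℝ] V) (hL : ∀ v, L (L v) = v)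
    (hdet : 0 < LinearMap.det L) (h1 : ∃ v, L v ≠ v) :
    ∃ e : V ≃L[ℝ] E, ∀ v, e (L v) = J (e v) := by
  set A : Submodule ℝ V := LinearMap.ker (L + 1) with hA
  set B : Submodule ℝ V := LinearMap.ker (L - 1) with hB
  have memA : ∀ v, v ∈ A ↔ L v = -v := by
    intro v
    rw [hA, LinearMap.mem_ker, LinearMap.add_apply, Module.End.one_apply, add_eq_zero_iff_eq_neg]
  have memB : ∀ v, v ∈ B ↔ L v = v := by
    intro v
    rw [hB, LinearMap.mem_ker, LinearMap.sub_apply, Module.End.one_apply, sub_eq_zero]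
  have hcompl : IsCompl A B := by
    refine ⟨?_, ?_⟩
    · rw [Submodule.disjoint_def]
      intro v hv hv'
      have h2 : -v = v := by rw [← (memA v).1 hv, (memB v).1 hv']
      have h3 : (2 : ℝ) • v = 0 := by
        rw [two_smul]
        nth_rewrite 1 [← h2]
        exact neg_add_cancel v
      exact (smul_eq_zero.1 h3).resolve_left two_ne_zero
    · rw [codisjoint_iff, eq_top_iff]
      intro v _
      rw [Submodule.mem_sup]
      refine ⟨(1 / 2 : ℝ) • (v - L v), ?_, (1 / 2 : ℝ) • (v + L v), ?_, ?_⟩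
      · rw [memA, map_smul, map_sub, hL, ← smul_neg, neg_sub]
      · rw [memB, map_smul, map_add, hL, add_comm]
      · rw [← smul_add, sub_add_add_cancel, ← two_smul ℝ v, smul_smul]
        norm_num
  let f := Submodule.prodEquivOfIsCompl A B hcompl
  have hf : ∀ (a : A) (b : B), f (a, b) = (a : V) + b := fun a b =>
    Submodule.coe_prodEquivOfIsCompl' A B hcompl (a, b)
  have hLf : ∀ (a : A) (b : B), L (f (a, b)) = f (-a, b) := by
    intro a b
    rw [hf, hf, map_add, (memA _).1 a.2, (memB _).1 b.2]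
    rfl
  have hdimAB : finrank ℝ A + finrank ℝ B = 3 := by
    rw [← hdim, ← LinearEquiv.finrank_eq f, finrank_prod]
  have hd : LinearMap.det L = (-1) ^ finrank ℝ A := by
    have h2 : L = f.toLinearMap ∘ₗ
        (LinearMap.prodMap ((-1 : ℝ) • (LinearMap.id : A →ₗ[ℝ] A)) (LinearMap.id : B →ₗ[ℝ] B)) ∘ₗ
          f.symm.toLinearMap := by
      refine LinearMap.ext fun v => ?_
      obtain ⟨⟨a, b⟩, rfl⟩ := f.surjective v
      rw [LinearMap.comp_apply, LinearMap.comp_apply, LinearEquiv.coe_coe, LinearEquiv.coe_coe,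
        LinearEquiv.symm_apply_apply, LinearMap.prodMap_apply, hLf]
      simp
    rw [h2, LinearMap.det_conj, LinearMap.det_prodMap, LinearMap.det_smul, LinearMap.det_id,
      LinearMap.det_id, mul_one, mul_one]
  have hA2 : finrank ℝ A = 2 := by
    have h3 : finrank ℝ A ≤ 3 := by omega
    interval_cases h : finrank ℝ A
    · exfalso
      obtain ⟨v, hv⟩ := h1
      apply hv
      have h4 : A = ⊥ := Submodule.finrank_eq_zero.1 h
      have h5 := hcompl
      rw [h4] at h5
      have h6 : B = ⊤ := by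
        have := h5.sup_eq_top
        rwa [bot_sup_eq] at this
      rw [← memB, h6]
      exact Submodule.mem_top
    · rw [hd] at hdet
      norm_num at hdet
    · rfl
    · rw [hd] at hdet
      norm_num at hdet
  have hB1 : finrank ℝ B = 1 := by omega
  let eA : A ≃ₗ[ℝ] ℝ × ℝ := LinearEquiv.ofFinrankEq A (ℝ × ℝ) (by
    rw [hA2, finrank_prod, finrank_self])
  let eB : B ≃ₗ[ℝ] ℝ := LinearEquiv.ofFinrankEq B ℝ (by rw [hB1, finrank_self])
  let e : V ≃ₗ[ℝ] E := (f.symm.trans (eA.prodCongr eB)).trans (LinearEquiv.prodAssoc ℝ ℝ ℝ ℝ)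
  have he : ∀ (a : A) (b : B), e (f (a, b)) = ((eA a).1, (eA a).2, eB b) := by
    intro a b
    change LinearEquiv.prodAssoc ℝ ℝ ℝ ℝ ((eA.prodCongr eB) (f.symm (f (a, b)))) = _
    rw [LinearEquiv.symm_apply_apply]
    rfl
  refine ⟨e.toContinuousLinearEquiv, fun v => ?_⟩
  change e (L v) = J (e v)
  obtain ⟨⟨a, b⟩, rfl⟩ := f.surjective v
  rw [hLf, he, he, map_neg]
  rfl

/-- Idea: fixed point of `g` in `K` (`Cov3.exists_fixed`), translate; `g.linear = L` is an
involution with `det L > 0`, `L ≠ 1`: `V = ker (L - 1) ⊕ ker (L + 1)` with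
`finrank (ker (L+1)) = 2`; basis gives `V ≃L[ℝ] E` conjugating `L` to `J`. If `g ∘ g ≠ id` use
`Cov3.cov_affine'`. -/
theorem cov_orientation (H : ∀ K : Set E, HB K → Cov8 K) {V : Type*} [NormedAddCommGroup V]
    [NormedSpace ℝ V] [FiniteDimensional ℝ V] (hdim : finrank ℝ V = 3) {K : Set V}
    (hK : Convex ℝ K) (hc : IsCompact K) (hint : (interior K).Nonempty) (g : V →ᵃ[ℝ] V)
    (hg : g '' K = K) (hdet : 0 < LinearMap.det g.linear) (h1 : ∃ v, g v ≠ v) : Cov8 K := by
  by_cases h2 : ∃ v, g (g v) ≠ v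
  · exact Pool.Agent.W867.Cov3.cov_affine' hdim hK hc hint g hg (Or.inl ⟨hdet, h2⟩)
  push Not at h2
  have hgK : ∀ x ∈ K, g x ∈ K := fun x hx => by
    rw [← hg]
    exact mem_image_of_mem g hx
  obtain ⟨c, hcK, hgc⟩ :=
    Pool.Agent.W867.Cov3.exists_fixed g hK hc (hint.mono interior_subset) hgK
  have hgv : ∀ v, g (c + v) = c + g.linear v := by
    intro v
    have := g.map_vadd c v
    simp only [vadd_eq_add] at this
    rw [add_comm, this, hgc, add_comm]
  have himg : (fun x => -c + x) '' K = {v | c + v ∈ K} := by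
    ext v
    constructor
    · rintro ⟨x, hx, rfl⟩
      change c + (-c + x) ∈ K
      rwa [add_neg_cancel_left]
    · intro hv
      exact ⟨c + v, hv, neg_add_cancel_left _ _⟩
  have hL : ∀ v, g.linear (g.linear v) = v := by
    intro v
    have h3 := h2 (c + v)
    rw [hgv, hgv] at h3
    exact add_left_cancel h3
  have hL1 : ∃ v, g.linear v ≠ v := by
    obtain ⟨v, hv⟩ := h1
    refine ⟨-c + v, fun h => hv ?_⟩
    have h3 := hgv (-c + v)
    rw [h, add_neg_cancel_left] at h3
    exact h3
  obtain ⟨e, he⟩ := exists_coord hdim g.linear hL hdet hL1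
  refine Pool.Agent.W867.Cov3.Cov8.of_translate (-c) ?_
  refine Pool.Agent.W867.Cov3.Cov8.of_image e ?_
  refine H _ ⟨?_, ?_, ?_, ?_⟩
  · exact (hK.translate (-c)).linear_image e.toLinearEquiv.toLinearMap
  · exact (hc.image (by fun_prop)).image e.continuous
  · have h5 : interior ((fun x => -c + x) '' K) = (fun x => -c + x) '' interior K :=
      ((Homeomorph.addLeft (-c)).image_interior K).symm
    have h6 : interior (e '' ((fun x => -c + x) '' K)) = e '' interior ((fun x => -c + x) '' K) :=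
      (e.toHomeomorph.image_interior _).symm
    rw [h6, h5]
    exact (hint.image _).image _
  · rintro _ ⟨v, hv, rfl⟩
    rw [himg] at hv ⊢
    refine ⟨g.linear v, ?_, he v⟩
    change c + g.linear v ∈ K
    rw [← hgv]
    exact hgK _ hv

end Pool.Agent.Zk54
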