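import Pool.Agent.Zk54.Defs

/-!
Convex bodies with a half-turn symmetry: basic tools.
-/

set_option autoImplicit false

open Set Topology Filter

namespace Pool.Agent.Zk54

section gen

variable {V : Type*} [NormedAddCommGroup V] [NormedSpace ℝ V]

theorem Ill.mono {K : Set V} (hK : Convex ℝ K) {v q : V} (hq : q ∈ K) {l m : ℝ}
    (hm : 0 < m) (hml : m ≤ l) (h : q + l • v ∈ interior K) : q + m • v ∈ interior K := by
  have hl : 0 < l := lt_of_lt_of_le hm hml
  have h1 : q + m • v = (1 - m / l) • q + (m / l) • (q + l • v) := by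
    rw [smul_add, smul_smul, div_mul_cancel₀ _ hl.ne', ← add_assoc, ← add_smul]
    congr 1
    rw [sub_add_cancel, one_smul]
  rw [h1]
  have h2 : 0 < m / l := div_pos hm hl
  have h3 : m / l ≤ 1 := (div_le_one hl).2 hml
  exact hK.combo_self_interior_mem_interior hq h (by linarith) h2 (by ring)

/-- finitely many directions illuminating all points: few translates of the interior suffice -/
theorem cover_of_ill {ι : Type*} [Fintype ι] (hι : Fintype.card ι ≤ 8) {K : Set V}
    (hK : Convex ℝ K) (hc : IsCompact K) (v : ι → V) (h : ∀ q ∈ K, ∃ i, Ill K (v i) q) :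
    Cov8 K := by
  classical
  let U : ℕ → Set V := fun n => ⋃ i, {q | q + ((1 : ℝ) / (n + 1)) • v i ∈ interior K}
  have hU : ∀ n, IsOpen (U n) := fun n => isOpen_iUnion fun i =>
    isOpen_interior.preimage (by fun_prop)
  have hcov : K ⊆ ⋃ n, U n := by
    intro q hq
    obtain ⟨i, l, hl, hi⟩ := h q hq
    obtain ⟨n, hn⟩ := exists_nat_one_div_lt hl
    refine mem_iUnion.2 ⟨n, mem_iUnion.2 ⟨i, ?_⟩⟩
    exact Ill.mono hK hq (by positivity) hn.le hi
  obtain ⟨F, hF⟩ := hc.elim_finite_subcover U hU hcov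
  obtain ⟨N, hN⟩ : ∃ N : ℕ, ∀ n ∈ F, n ≤ N := ⟨F.sup id, fun n hn => Finset.le_sup (f := id) hn⟩
  have hall : ∀ q ∈ K, ∃ i, q + ((1 : ℝ) / (N + 1)) • v i ∈ interior K := by
    intro q hq
    obtain ⟨n, hn⟩ := mem_iUnion.1 (hF hq)
    obtain ⟨hnF, hn⟩ := mem_iUnion.1 hn
    obtain ⟨i, hi⟩ := mem_iUnion.1 hn
    refine ⟨i, Ill.mono hK hq (by positivity) ?_ hi⟩
    have : (n : ℝ) ≤ N := by exact_mod_cast hN n hnF
    exact one_div_le_one_div_of_le (by positivity) (by linarith)
  refine ⟨Finset.univ.image fun i => -(((1 : ℝ) / (N + 1)) • v i),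
    Finset.card_image_le.trans hι, ?_⟩
  intro q hq
  obtain ⟨i, hi⟩ := hall q hq
  refine mem_iUnion₂.2 ⟨-(((1 : ℝ) / (N + 1)) • v i),
    Finset.mem_image.2 ⟨i, Finset.mem_univ _, rfl⟩, _, hi, ?_⟩
  simp

theorem cover_of_good {ι : Type*} [Fintype ι] (hι : Fintype.card ι ≤ 8) {K : Set V}
    (hK : Convex ℝ K) (hc : IsCompact K) (v : ι → ℝ → V) (h : ∀ q ∈ K, GoodAt K v q) :
    Cov8 K := by
  have h1 := hc.eventually_forall_of_forall_eventually (x₀ := (0 : ℝ))
    (P := fun t q => 0 < t → q ∈ K → ∃ i, Ill K (v i t) q) h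
  obtain ⟨ε, hε, h2⟩ := Metric.eventually_nhds_iff.1 h1
  have h3 : dist (ε / 2) 0 < ε := by
    rw [Real.dist_eq, sub_zero, abs_of_pos (by linarith)]
    linarith
  refine cover_of_ill hι hK hc (fun i => v i (ε / 2)) fun q hq => ?_
  exact h2 h3 q hq (by linarith) hq

theorem Ill.eventually {K : Set V} {v q : V} (h : Ill K v q) :
    ∀ᶠ p : V × V in 𝓝 (v, q), Ill K p.1 p.2 := by
  obtain ⟨l, hl, hi⟩ := h
  have hcont : ContinuousAt (fun p : V × V => p.2 + l • p.1) (v, q) := by fun_prop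
  exact (hcont.eventually_mem (isOpen_interior.mem_nhds hi)).mono fun p hp => ⟨l, hl, hp⟩

theorem GoodAt.of_ill {ι : Type*} {K : Set V} {v : ι → ℝ → V} {q : V} (i : ι)
    (hv : ContinuousAt (v i) 0) (h : Ill K (v i 0) q) : GoodAt K v q := by
  obtain ⟨l, hl, hi⟩ := h
  have hcont : ContinuousAt (fun p : ℝ × V => p.2 + l • v i p.1) ((0 : ℝ), q) := by
    have h1 : ContinuousAt (fun p : ℝ × V => v i p.1) ((0 : ℝ), q) :=
      ContinuousAt.comp (f := Prod.fst) (x := ((0 : ℝ), q)) hv continuousAt_fst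
    exact continuousAt_snd.add (h1.const_smul l)
  have := hcont.eventually_mem (isOpen_interior.mem_nhds hi)
  exact this.mono fun p hp _ _ => ⟨i, l, hl, hp⟩

theorem Ill.of_interior {K : Set V} {v q : V} (hq : q ∈ interior K) : Ill K v q := by
  have hcont : ContinuousAt (fun l : ℝ => q + l • v) 0 := by fun_prop
  have h1 := hcont.eventually_mem (isOpen_interior.mem_nhds (by simpa using hq))
  obtain ⟨ε, hε, h2⟩ := Metric.eventually_nhds_iff.1 h1
  refine ⟨ε / 2, by linarith, h2 ?_⟩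
  rw [Real.dist_eq, sub_zero, abs_of_pos (by linarith)]
  linarith

/-- generic separation -/
theorem sep_gen {K : Set V} (hK : Convex ℝ K) (hi : (interior K).Nonempty) {p d : V}
    (hp : p ∈ K) (hd : ¬ Ill K d p) :
    ∃ f : V →L[ℝ] ℝ, (∀ q ∈ K, f q ≤ f p) ∧ (∀ q ∈ interior K, f q < f p) ∧ 0 ≤ f d := by
  have hdisj : Disjoint (interior K) ((fun l : ℝ => p + l • d) '' Ioi 0) := by
    rw [Set.disjoint_left]
    rintro x hx ⟨l, hl, rfl⟩
    exact hd ⟨l, hl, hx⟩
  have hconv : Convex ℝ ((fun l : ℝ => p + l • d) '' Ioi 0) := by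
    have : (fun l : ℝ => p + l • d) = AffineMap.lineMap (k := ℝ) p (p + d) := by
      ext l
      simp [AffineMap.lineMap_apply, add_comm]
    rw [this]
    exact (convex_Ioi (0 : ℝ)).affine_image _
  obtain ⟨f, u, hf1, hf2⟩ := geometric_hahn_banach_open hK.interior isOpen_interior hconv hdisj
  have hu : ∀ l : ℝ, 0 < l → u ≤ f p + l * f d := by
    intro l hl
    have := hf2 _ ⟨l, hl, rfl⟩
    simpa using this
  have hle : ∀ q ∈ K, f q ≤ u := by
    intro q hq
    have hq' : q ∈ closure (interior K) := by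
      rw [hK.closure_interior_eq_closure_of_nonempty_interior hi]
      exact subset_closure hq
    have : closure (interior K) ⊆ {x | f x ≤ u} :=
      closure_minimal (fun x hx => (hf1 x hx).le) (isClosed_le f.continuous continuous_const)
    exact this hq'
  have hup : u ≤ f p := by
    by_contra hcon
    push Not at hcon
    by_cases hfd : f d ≤ 0
    · have := hu 1 one_pos
      linarith
    · push Not at hfd
      have := hu ((u - f p) / (2 * f d)) (by
        have : 0 < u - f p := by linarith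
        positivity)
      have h2 : (u - f p) / (2 * f d) * f d = (u - f p) / 2 := by
        field_simp
      linarith
  refine ⟨f, fun q hq => (hle q hq).trans hup, fun q hq => (hf1 q hq).trans_le hup, ?_⟩
  have h1 := hu 1 one_pos
  have h2 := hle p hp
  linarith

end gen

section E3

variable {K : Set E} {z0 z1 : ℝ}

theorem fun_coord (f : E →L[ℝ] ℝ) (q : E) :
    f q = f (1, 0, 0) * q.1 + f (0, 1, 0) * q.2.1 + f (0, 0, 1) * q.2.2 := by
  have h1 : q = q.1 • ((1 : ℝ), (0 : ℝ), (0 : ℝ)) + q.2.1 • ((0 : ℝ), (1 : ℝ), (0 : ℝ)) +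
      q.2.2 • ((0 : ℝ), (0 : ℝ), (1 : ℝ)) := by
    ext <;> simp
  conv_lhs => rw [h1]
  simp only [map_add, map_smul, smul_eq_mul]
  ring

theorem fun_coord2 (f : (ℝ × ℝ) →L[ℝ] ℝ) (q : ℝ × ℝ) :
    f q = f (1, 0) * q.1 + f (0, 1) * q.2 := by
  have h1 : q = q.1 • ((1 : ℝ), (0 : ℝ)) + q.2 • ((0 : ℝ), (1 : ℝ)) := by
    ext <;> simp
  conv_lhs => rw [h1]
  simp only [map_add, map_smul, smul_eq_mul]
  ring

/-- separation: a point which is not illuminated by `d` has a supporting functional which is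
nonnegative at `d` -/
theorem HB.sep (h : HB K) {p d : E} (hp : p ∈ K) (hd : ¬ Ill K d p) :
    ∃ a b c : ℝ, (∀ q ∈ K, a * q.1 + b * q.2.1 + c * q.2.2 ≤ a * p.1 + b * p.2.1 + c * p.2.2) ∧
      (∀ q ∈ interior K, a * q.1 + b * q.2.1 + c * q.2.2 < a * p.1 + b * p.2.1 + c * p.2.2) ∧
      0 ≤ a * d.1 + b * d.2.1 + c * d.2.2 := by
  obtain ⟨f, h1, h2, h3⟩ := sep_gen h.conv h.int hp hd
  refine ⟨f (1, 0, 0), f (0, 1, 0), f (0, 0, 1), fun q hq => ?_, fun q hq => ?_, ?_⟩
  · rw [← fun_coord, ← fun_coord]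
    exact h1 q hq
  · rw [← fun_coord, ← fun_coord]
    exact h2 q hq
  · rw [← fun_coord]
    exact h3

/-- planar separation in the section at height `e` -/
theorem HB.sep2 (h : HB K) {e a b x y : ℝ} (hp : ((x, y, e) : E) ∈ K)
    (hi : (interior {w : ℝ × ℝ | ((w.1, w.2, e) : E) ∈ K}).Nonempty)
    (hd : ¬ PI K e a b (x, y, e)) :
    ∃ m n : ℝ, (m ≠ 0 ∨ n ≠ 0) ∧
      (∀ u v : ℝ, ((u, v, e) : E) ∈ K → m * u + n * v ≤ m * x + n * y) ∧
      0 ≤ m * a + n * b := by
  have hconv : Convex ℝ {w : ℝ × ℝ | ((w.1, w.2, e) : E) ∈ K} := by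
    intro u hu v hv s t hs ht hst
    have := h.conv hu hv hs ht hst
    have h2 : s * e + t * e = e := by rw [← add_mul, hst, one_mul]
    simpa [h2] using this
  have hd' : ¬ Ill {w : ℝ × ℝ | ((w.1, w.2, e) : E) ∈ K} ((a, b) : ℝ × ℝ) ((x, y) : ℝ × ℝ) := by
    rintro ⟨l, hl, hli⟩
    exact hd ⟨l, hl, by simpa using hli⟩
  obtain ⟨f, h1, h2, h3⟩ := sep_gen hconv hi (p := ((x, y) : ℝ × ℝ)) hp hd'
  refine ⟨f (1, 0), f (0, 1), ?_, fun u v huv => ?_, ?_⟩
  · by_contra hcon
    push Not at hcon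
    obtain ⟨w, hw⟩ := hi
    have := h2 w hw
    rw [fun_coord2 f w, fun_coord2 f (x, y), hcon.1, hcon.2] at this
    simp at this
  · have := h1 (u, v) huv
    rw [fun_coord2 f (u, v), fun_coord2 f (x, y)] at this
    exact this
  · rw [fun_coord2] at h3
    exact h3

theorem HB.axis_mem (h : HB K) {p : E} (hp : p ∈ K) : (((0 : ℝ), (0 : ℝ), p.2.2) : E) ∈ K := by
  have := h.conv hp (h.sym p hp) (a := 1 / 2) (b := 1 / 2) (by norm_num) (by norm_num)
    (by norm_num)
  convert this using 1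
  ext
  · simp [J]
  · simp [J]
  · simp only [J, Prod.snd_add, Prod.smul_snd, smul_eq_mul]
    ring

theorem J_cont : Continuous J := by
  unfold J
  fun_prop

theorem J_J (p : E) : J (J p) = p := by
  simp [J]

/-- the half-turn as a homeomorphism -/
def Jh : E ≃ₜ E where
  toFun := J
  invFun := J
  left_inv := J_J
  right_inv := J_J
  continuous_toFun := J_cont
  continuous_invFun := J_cont

theorem HB.int_symm (h : HB K) {p : E} (hp : p ∈ interior K) : J p ∈ interior K := by
  have h1 : J '' K = K := by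
    apply Subset.antisymm
    · rintro _ ⟨q, hq, rfl⟩
      exact h.sym q hq
    · intro q hq
      exact ⟨J q, h.sym q hq, J_J q⟩
  have h2 : J '' interior K = interior (J '' K) := Jh.image_interior K
  rw [h1] at h2
  rw [← h2]
  exact mem_image_of_mem J hp

theorem HB.axis_int (h : HB K) {p : E} (hp : p ∈ interior K) :
    (((0 : ℝ), (0 : ℝ), p.2.2) : E) ∈ interior K := by
  have := h.conv.interior hp (h.int_symm hp) (a := 1 / 2) (b := 1 / 2) (by norm_num)
    (by norm_num) (by norm_num)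
  convert this using 1
  ext
  · simp [J]
  · simp [J]
  · simp only [J, Prod.snd_add, Prod.smul_snd, smul_eq_mul]
    ring

theorem HB.exists_range (h : HB K) : ∃ z0 z1, HB' K z0 z1 := by
  have hne : K.Nonempty := h.int.mono interior_subset
  have hc : ContinuousOn (fun p : E => p.2.2) K := by fun_prop
  obtain ⟨p0, hp0, hmin⟩ := h.comp.exists_isMinOn hne hc
  obtain ⟨p1, hp1, hmax⟩ := h.comp.exists_isMaxOn hne hc
  have hmin' : ∀ p ∈ K, p0.2.2 ≤ p.2.2 := fun p hp => hmin hp
  have hmax' : ∀ p ∈ K, p.2.2 ≤ p1.2.2 := fun p hp => hmax hp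
  obtain ⟨c, hc⟩ := h.int
  have hc' := h.axis_int hc
  have h0 : p0.2.2 < c.2.2 ∧ c.2.2 < p1.2.2 := by
    have hcont : ContinuousAt (fun s : ℝ => (((0 : ℝ), (0 : ℝ), c.2.2 + s) : E)) 0 := by fun_prop
    have h1 := hcont.eventually_mem (isOpen_interior.mem_nhds (by simpa using hc'))
    obtain ⟨ε, hε, h2⟩ := Metric.eventually_nhds_iff.1 h1
    have h3 : dist (ε / 2) 0 < ε := by
      rw [Real.dist_eq, sub_zero, abs_of_pos (by linarith)]
      linarith
    have h4 : dist (-(ε / 2)) 0 < ε := by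
      rw [Real.dist_eq, sub_zero, abs_neg, abs_of_pos (by linarith)]
      linarith
    have h5 := hmax' _ (interior_subset (h2 h3))
    have h6 := hmin' _ (interior_subset (h2 h4))
    simp only at h5 h6
    constructor <;> linarith
  refine ⟨p0.2.2, p1.2.2, { toHB := h, lt := h0.1.trans h0.2, lo := hmin', hi := hmax', ax := ?_, ax0 := h.axis_mem hp0, ax1 := h.axis_mem hp1 }⟩
  intro z hz0 hz1
  rcases lt_trichotomy z c.2.2 with hz | hz | hz
  · have := h.conv.combo_interior_self_mem_interior hc' (h.axis_mem hp0)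
      (a := (z - p0.2.2) / (c.2.2 - p0.2.2)) (b := (c.2.2 - z) / (c.2.2 - p0.2.2))
      (div_pos (by linarith) (by linarith)) (div_nonneg (by linarith) (by linarith)) (by
        have : c.2.2 - p0.2.2 ≠ 0 := by linarith
        field_simp
        ring)
    convert this using 1
    ext
    · simp
    · simp
    · simp only [Prod.snd_add, Prod.smul_snd, smul_eq_mul]
      have : c.2.2 - p0.2.2 ≠ 0 := by linarith
      field_simp
      ring
  · rw [hz]
    exact hc'
  · have := h.conv.combo_interior_self_mem_interior hc' (h.axis_mem hp1)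
      (a := (p1.2.2 - z) / (p1.2.2 - c.2.2)) (b := (z - c.2.2) / (p1.2.2 - c.2.2))
      (div_pos (by linarith) (by linarith)) (div_nonneg (by linarith) (by linarith)) (by
        have : p1.2.2 - c.2.2 ≠ 0 := by linarith
        field_simp
        ring)
    convert this using 1
    ext
    · simp
    · simp
    · simp only [Prod.snd_add, Prod.smul_snd, smul_eq_mul]
      have : p1.2.2 - c.2.2 ≠ 0 := by linarith
      field_simp
      ring

/-- a point which is not a contact point is illuminated vertically -/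
theorem HB.vertical (h : HB K) {p : E} (hp : p ∈ K) (hn : ¬ Con K p) :
    Ill K ((0 : ℝ), (0 : ℝ), (1 : ℝ)) p ∨ Ill K ((0 : ℝ), (0 : ℝ), (-1 : ℝ)) p := by
  by_contra hcon
  push Not at hcon
  obtain ⟨a, b, c, h1, h2, h3⟩ := h.sep hp hcon.1
  obtain ⟨a', b', c', h1', h2', h3'⟩ := h.sep hp hcon.2
  obtain ⟨q, hq⟩ := h.int
  simp only [mul_zero, zero_add, mul_one, mul_neg] at h3 h3'
  have hc' : 0 ≤ -c' := by linarith
  rcases h3.lt_or_eq with hc | hc
  · -- combination `(-c') n + c n'`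
    apply hn
    refine ⟨hp, -c' * a + c * a', -c' * b + c * b', ?_, ?_⟩
    · by_contra h0
      push Not at h0
      have e1 := mul_lt_mul_of_pos_left (h2' q hq) hc
      have e2 := mul_le_mul_of_nonneg_left (h1 q (interior_subset hq)) hc'
      have e3 : (-c' * a + c * a') * q.1 + (-c' * b + c * b') * q.2.1 <
          (-c' * a + c * a') * p.1 + (-c' * b + c * b') * p.2.1 := by linarith
      rw [h0.1, h0.2] at e3
      linarith
    · intro r hr
      have e1 := mul_le_mul_of_nonneg_left (h1' r hr) hc.le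
      have e2 := mul_le_mul_of_nonneg_left (h1 r hr) hc'
      linarith
  · apply hn
    refine ⟨hp, a, b, ?_, ?_⟩
    · by_contra h0
      push Not at h0
      have := h2 q hq
      rw [h0.1, h0.2, ← hc] at this
      linarith
    · intro r hr
      have := h1 r hr
      rw [← hc] at this
      linarith

theorem HB.con_not_ill (_h : HB K) {p : E} (hp : Con K p) (c : ℝ) :
    ¬ Ill K ((0 : ℝ), (0 : ℝ), c) p := by
  rintro ⟨l, hl, hi⟩
  obtain ⟨hpK, a, b, hab, hmax⟩ := hp
  have hcont : ContinuousAt (fun s : ℝ => p + l • (((0 : ℝ), (0 : ℝ), c) : E) +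
      s • ((a, b, 0) : E)) 0 := by fun_prop
  have h1 := hcont.eventually_mem (isOpen_interior.mem_nhds (by simpa using hi))
  obtain ⟨ε, hε, h2⟩ := Metric.eventually_nhds_iff.1 h1
  have h3 : dist (ε / 2) 0 < ε := by
    rw [Real.dist_eq, sub_zero, abs_of_pos (by linarith)]
    linarith
  have h5 := hmax _ (interior_subset (h2 h3))
  simp only [Prod.fst_add, Prod.smul_fst, smul_eq_mul, Prod.snd_add, Prod.smul_snd, mul_zero,
    add_zero] at h5
  have h6 : 0 < ε / 2 * (a ^ 2 + b ^ 2) := by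
    have : 0 < a ^ 2 + b ^ 2 := by
      rcases hab with h | h <;> positivity
    positivity
  nlinarith

theorem Con.symm (h : HB K) {p : E} (hp : Con K p) : Con K (J p) := by
  obtain ⟨hpK, a, b, hab, hmax⟩ := hp
  refine ⟨h.sym p hpK, -a, -b, ?_, fun q hq => ?_⟩
  · rcases hab with h | h
    · left
      simpa using h
    · right
      simpa using h
  · have := hmax _ (h.sym q hq)
    simp only [J] at this ⊢
    linarith

theorem isOpen_ill (K : Set E) (v : E) : IsOpen {p | Ill K v p} := by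
  have : {p | Ill K v p} = ⋃ l ∈ Ioi (0 : ℝ), {p | p + l • v ∈ interior K} := by
    ext p
    simp [Ill]
  rw [this]
  exact isOpen_biUnion fun l _ => isOpen_interior.preimage (by fun_prop)

theorem HB.con_compact (h : HB K) : IsCompact {p | Con K p} := by
  have h1 : {p | Con K p} = (K ∩ {p | Ill K ((0 : ℝ), (0 : ℝ), (1 : ℝ)) p}ᶜ) ∩
      {p | Ill K ((0 : ℝ), (0 : ℝ), (-1 : ℝ)) p}ᶜ := by
    ext p
    constructor
    · intro hp
      exact ⟨⟨hp.1, h.con_not_ill hp 1⟩, h.con_not_ill hp (-1)⟩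
    · rintro ⟨⟨hp, hp1⟩, hp2⟩
      by_contra hn
      rcases h.vertical hp hn with h3 | h3
      · exact hp1 h3
      · exact hp2 h3
  rw [h1]
  exact (h.comp.inter_right (isOpen_ill K _).isClosed_compl).inter_right
    (isOpen_ill K _).isClosed_compl

theorem Ill.symm (h : HB K) {v p : E} (hp : Ill K v p) : Ill K (J v) (J p) := by
  obtain ⟨l, hl, hi⟩ := hp
  refine ⟨l, hl, ?_⟩
  have := h.int_symm hi
  convert this using 1
  ext <;> simp [J] <;> ring

/-- `GoodAt` is invariant under the half-turn if the family of directions is -/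
theorem GoodAt.symm (h : HB K) {ι : Type*} {v : ι → ℝ → E}
    (hv : ∀ i, ∃ j, ∀ t, v j t = J (v i t)) {p : E} (hp : GoodAt K v p) :
    GoodAt K v (J p) := by
  have hcont : Continuous (fun q : ℝ × E => ((q.1, J q.2) : ℝ × E)) :=
    continuous_fst.prodMk (J_cont.comp continuous_snd)
  have h1 : Tendsto (fun q : ℝ × E => ((q.1, J q.2) : ℝ × E)) (𝓝 ((0 : ℝ), J p))
      (𝓝 ((0 : ℝ), p)) := by
    have := hcont.tendsto ((0 : ℝ), J p)
    simpa only [J_J] using this
  have h2 := h1.eventually hp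
  refine h2.mono fun q hq hq0 hqK => ?_
  obtain ⟨i, hi⟩ := hq hq0 (h.sym _ hqK)
  obtain ⟨j, hj⟩ := hv i
  refine ⟨j, ?_⟩
  rw [hj]
  have := hi.symm h
  rwa [J_J] at this

/-- six families for the contact points suffice -/
theorem HB.cover_of_contacts (h : HB K) {ι : Type*} [Fintype ι] (hι : Fintype.card ι ≤ 6)
    (v : ι → ℝ → E) (hv : ∀ p, Con K p → GoodAt K v p) : Cov8 K := by
  let w : ι ⊕ Bool → ℝ → E := fun i t =>
    Sum.elim (fun i => v i t) (fun b => if b then (0, 0, 1) else (0, 0, -1)) i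
  refine cover_of_good (ι := ι ⊕ Bool) (by simpa using hι) h.conv h.comp w fun q hq => ?_
  by_cases hcon : Con K q
  · refine (hv q hcon).mono fun p hp hp0 hpK => ?_
    obtain ⟨i, hi⟩ := hp hp0 hpK
    exact ⟨Sum.inl i, hi⟩
  · rcases h.vertical hq hcon with h1 | h1
    · exact GoodAt.of_ill (Sum.inr true) continuousAt_const (by simpa [w] using h1)
    · exact GoodAt.of_ill (Sum.inr false) continuousAt_const (by simpa [w] using h1)

/-- the family of directions `v i t` (small `t > 0`) illuminates the contact points near `q` -/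
def GoodC {ι : Type*} (K : Set E) (v : ι → ℝ → E) (q : E) : Prop :=
  ∀ᶠ p : ℝ × E in 𝓝 ((0 : ℝ), q), 0 < p.1 → Con K p.2 → ∃ i, Ill K (v i p.1) p.2

theorem GoodAt.goodC {ι : Type*} {v : ι → ℝ → E} {q : E} (h : GoodAt K v q) : GoodC K v q :=
  h.mono fun _ hp h0 hK => hp h0 hK.1

theorem GoodC.symm (h : HB K) {ι : Type*} {v : ι → ℝ → E}
    (hv : ∀ i, ∃ j, ∀ t, v j t = J (v i t)) {p : E} (hp : GoodC K v p) :
    GoodC K v (J p) := by
  have hcont : Continuous (fun q : ℝ × E => ((q.1, J q.2) : ℝ × E)) :=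
    continuous_fst.prodMk (J_cont.comp continuous_snd)
  have h1 : Tendsto (fun q : ℝ × E => ((q.1, J q.2) : ℝ × E)) (𝓝 ((0 : ℝ), J p))
      (𝓝 ((0 : ℝ), p)) := by
    have := hcont.tendsto ((0 : ℝ), J p)
    simpa only [J_J] using this
  have h2 := h1.eventually hp
  refine h2.mono fun q hq hq0 hqK => ?_
  obtain ⟨i, hi⟩ := hq hq0 (hqK.symm h)
  obtain ⟨j, hj⟩ := hv i
  refine ⟨j, ?_⟩
  rw [hj]
  have := hi.symm h
  rwa [J_J] at this

/-- six families for the contact points suffice (only contact points near contact points need to be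
considered) -/
theorem HB.cover_of_goodC (h : HB K) {ι : Type*} [Fintype ι] (hι : Fintype.card ι ≤ 6)
    (v : ι → ℝ → E) (hv : ∀ p, Con K p → GoodC K v p) : Cov8 K := by
  have h1 := h.con_compact.eventually_forall_of_forall_eventually (x₀ := (0 : ℝ))
    (P := fun t q => 0 < t → Con K q → ∃ i, Ill K (v i t) q) hv
  obtain ⟨ε, hε, h2⟩ := Metric.eventually_nhds_iff.1 h1
  have h3 : dist (ε / 2) 0 < ε := by
    rw [Real.dist_eq, sub_zero, abs_of_pos (by linarith)]
    linarith
  let w : ι ⊕ Bool → E := fun i =>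
    Sum.elim (fun i => v i (ε / 2)) (fun b => if b then (0, 0, 1) else (0, 0, -1)) i
  refine cover_of_ill (ι := ι ⊕ Bool) (by simpa using hι) h.conv h.comp w fun q hq => ?_
  by_cases hcon : Con K q
  · obtain ⟨i, hi⟩ := h2 h3 q hcon (by linarith) hcon
    exact ⟨Sum.inl i, hi⟩
  · rcases h.vertical hq hcon with h1 | h1
    · exact ⟨Sum.inr true, by simpa [w] using h1⟩
    · exact ⟨Sum.inr false, by simpa [w] using h1⟩

/-- the cap lemma: near an inner point of the section at the end `e` -/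
theorem cap_z (hK : Convex ℝ K) {σ e c : ℝ} (hc : (((0 : ℝ), (0 : ℝ), c) : E) ∈ interior K)
    (hz : σ * c < σ * e) {y : ℝ × ℝ}
    (hy : {w : ℝ × ℝ | ((w.1, w.2, e) : E) ∈ K} ∈ 𝓝 y) :
    ∀ᶠ p : E in 𝓝 ((y.1, y.2, e) : E), σ * p.2.2 < σ * e → p ∈ interior K := by
  have hd : 0 < σ * e - σ * c := by linarith
  have hσ : σ ≠ 0 := by
    rintro rfl
    simp at hz
  have hec : e - c ≠ 0 := by
    intro h0
    have : e = c := by linarith
    rw [this] at hz
    exact lt_irrefl _ hz
  let κ : E → ℝ := fun p => (e - p.2.2) / (e - c)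
  have hκc : Continuous κ := by
    simp only [κ]
    fun_prop
  have hκ0 : κ (y.1, y.2, e) = 0 := by simp [κ]
  have h1 : ContinuousAt (fun p : E => (((1 - κ p)⁻¹ * p.1, (1 - κ p)⁻¹ * p.2.1) : ℝ × ℝ))
      (y.1, y.2, e) := by
    have h0' : ContinuousAt (fun p : E => 1 - κ p) (y.1, y.2, e) :=
      (continuous_const.sub hκc).continuousAt
    have h0 : ContinuousAt (fun p : E => (1 - κ p)⁻¹) (y.1, y.2, e) :=
      h0'.inv₀ (by rw [hκ0]; norm_num)
    exact (h0.mul continuousAt_fst).prodMk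
      (h0.mul (continuous_fst.comp continuous_snd).continuousAt)
  have h3 : ∀ᶠ p : E in 𝓝 (y.1, y.2, e),
      (((1 - κ p)⁻¹ * p.1, (1 - κ p)⁻¹ * p.2.1) : ℝ × ℝ) ∈
        {w : ℝ × ℝ | ((w.1, w.2, e) : E) ∈ K} := by
    refine h1.eventually_mem ?_
    simp only [hκ0, sub_zero, inv_one, one_mul]
    exact hy
  have h4 : ∀ᶠ p : E in 𝓝 (y.1, y.2, e), κ p < 1 :=
    hκc.continuousAt.eventually_lt continuousAt_const (by rw [hκ0]; norm_num)
  filter_upwards [h3, h4] with p hp3 hp4 hp
  have hκp : 0 < κ p := by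
    have h5 : κ p = (σ * e - σ * p.2.2) / (σ * e - σ * c) := by
      simp only [κ]
      rw [← mul_sub, ← mul_sub, mul_div_mul_left _ _ hσ]
    rw [h5]
    exact div_pos (by linarith) hd
  have h6 : (1 - κ p) ≠ 0 := by linarith
  have h5 := hK.combo_interior_self_mem_interior hc hp3 hκp (by linarith : 0 ≤ 1 - κ p)
    (by ring)
  convert h5 using 1
  ext
  · simp [h6]
  · simp [h6]
  · simp only [Prod.snd_add, Prod.smul_snd, smul_eq_mul]
    have h7 : κ p * (e - c) = e - p.2.2 := div_mul_cancel₀ _ hec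
    linear_combination h7

/-- the cap lemma at the face `x = 1` -/
theorem cap_x (hK : Convex ℝ K) {c : ℝ} (hc : (((0 : ℝ), (0 : ℝ), c) : E) ∈ interior K)
    {y : ℝ × ℝ} (hy : {w : ℝ × ℝ | (((1 : ℝ), w) : E) ∈ K} ∈ 𝓝 y) :
    ∀ᶠ p : E in 𝓝 (((1 : ℝ), y) : E), p.1 < 1 → p ∈ interior K := by
  let κ : E → ℝ := fun p => 1 - p.1
  have hκc : Continuous κ := by
    simp only [κ]
    fun_prop
  have hκ0 : κ (1, y) = 0 := by simp [κ]
  have h1 : ContinuousAt (fun p : E => (((1 - κ p)⁻¹ * p.2.1,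
      (1 - κ p)⁻¹ * (p.2.2 - κ p * c)) : ℝ × ℝ)) (1, y) := by
    have h0' : ContinuousAt (fun p : E => 1 - κ p) (1, y) :=
      (continuous_const.sub hκc).continuousAt
    have h0 : ContinuousAt (fun p : E => (1 - κ p)⁻¹) (1, y) :=
      h0'.inv₀ (by rw [hκ0]; norm_num)
    exact (h0.mul (continuous_fst.comp continuous_snd).continuousAt).prodMk
      (h0.mul ((continuous_snd.comp continuous_snd).sub (hκc.mul continuous_const)).continuousAt)
  have h3 : ∀ᶠ p : E in 𝓝 ((1 : ℝ), y),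
      (((1 - κ p)⁻¹ * p.2.1, (1 - κ p)⁻¹ * (p.2.2 - κ p * c)) : ℝ × ℝ) ∈
        {w : ℝ × ℝ | (((1 : ℝ), w) : E) ∈ K} := by
    refine h1.eventually_mem ?_
    simp only [hκ0, sub_zero, inv_one, one_mul, zero_mul]
    exact hy
  have h4 : ∀ᶠ p : E in 𝓝 ((1 : ℝ), y), κ p < 1 :=
    hκc.continuousAt.eventually_lt continuousAt_const (by rw [hκ0]; norm_num)
  filter_upwards [h3, h4] with p hp3 hp4 hp
  have hκp : 0 < κ p := by
    simp only [κ]
    linarith
  have h6 : (1 - κ p) ≠ 0 := by linarith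
  have h5 := hK.combo_interior_self_mem_interior hc hp3 hκp (by linarith : 0 ≤ 1 - κ p)
    (by ring)
  convert h5 using 1
  ext
  · simp [κ]
  · simp [h6]
  · simp only [Prod.snd_add, Prod.smul_snd, smul_eq_mul]
    field_simp
    ring

/-- bottom end: directions tilted upwards -/
theorem HB'.good_bottom (h : HB' K z0 z1) {ι : Type*} {v : ι → ℝ → E} (i : ι) {a b x y : ℝ}
    (hv : ∀ t, v i t = (a, b, t)) (hp : PI K z0 a b (x, y, z0)) :
    GoodAt K v (x, y, z0) := by
  obtain ⟨l, hl, hi⟩ := hp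
  have hm := h.ax ((z0 + z1) / 2) (by linarith [h.lt]) (by linarith [h.lt])
  have h1 := cap_z h.conv (σ := -1) (e := z0) hm (by linarith [h.lt])
    (mem_interior_iff_mem_nhds.1 hi)
  have hcont : ContinuousAt (fun p : ℝ × E => p.2 + l • ((a, b, p.1) : E))
      ((0 : ℝ), ((x, y, z0) : E)) := by fun_prop
  have h2 : (fun p : ℝ × E => p.2 + l • ((a, b, p.1) : E))
      ((0 : ℝ), ((x, y, z0) : E)) = (x + l * a, y + l * b, z0) := by
    ext <;> simp
  have h3 := hcont.eventually (by rw [h2]; exact h1)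
  refine h3.mono fun p hp hp0 hpK => ⟨i, l, hl, ?_⟩
  rw [hv]
  refine hp ?_
  have h4 := h.lo _ hpK
  simp only [Prod.snd_add, Prod.smul_snd, smul_eq_mul]
  have h5 : 0 < l * p.1 := by positivity
  linarith

/-- top end: directions tilted downwards -/
theorem HB'.good_top (h : HB' K z0 z1) {ι : Type*} {v : ι → ℝ → E} (i : ι) {a b x y : ℝ}
    (hv : ∀ t, v i t = (a, b, -t)) (hp : PI K z1 a b (x, y, z1)) :
    GoodAt K v (x, y, z1) := by
  obtain ⟨l, hl, hi⟩ := hp
  have hm := h.ax ((z0 + z1) / 2) (by linarith [h.lt]) (by linarith [h.lt])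
  have h1 := cap_z h.conv (σ := 1) (e := z1) hm (by linarith [h.lt])
    (mem_interior_iff_mem_nhds.1 hi)
  have hcont : ContinuousAt (fun p : ℝ × E => p.2 + l • ((a, b, -p.1) : E))
      ((0 : ℝ), ((x, y, z1) : E)) := by fun_prop
  have h2 : (fun p : ℝ × E => p.2 + l • ((a, b, -p.1) : E))
      ((0 : ℝ), ((x, y, z1) : E)) = (x + l * a, y + l * b, z1) := by
    ext <;> simp
  have h3 := hcont.eventually (by rw [h2]; exact h1)
  refine h3.mono fun p hp hp0 hpK => ⟨i, l, hl, ?_⟩
  rw [hv]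
  refine hp ?_
  have h4 := h.hi _ hpK
  simp only [Prod.snd_add, Prod.smul_snd, smul_eq_mul]
  have h5 : 0 < l * p.1 := by positivity
  linarith

/-- at an inner height planar illumination is illumination -/
theorem HB'.ill_of_PI (h : HB' K z0 z1) {e a b x y : ℝ} (h0 : z0 < e) (h1 : e < z1)
    (hp : PI K e a b (x, y, e)) : Ill K (a, b, 0) (x, y, e) := by
  obtain ⟨l, hl, hi⟩ := hp
  refine ⟨l, hl, ?_⟩
  have hax := h.ax e h0 h1
  have hcont : ContinuousAt (fun s : ℝ => (((1 + s) * (x + l * a), (1 + s) * (y + l * b)) :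
      ℝ × ℝ)) 0 := by fun_prop
  have h2 := hcont.eventually_mem (isOpen_interior.mem_nhds (by simpa using hi))
  obtain ⟨ε, hε, h3⟩ := Metric.eventually_nhds_iff.1 h2
  have h4 : dist (ε / 2) 0 < ε := by
    rw [Real.dist_eq, sub_zero, abs_of_pos (by linarith)]
    linarith
  have h5 := interior_subset (h3 h4)
  have h6 := h.conv.combo_interior_self_mem_interior hax h5 (a := (ε / 2) / (1 + ε / 2))
    (b := 1 / (1 + ε / 2)) (by positivity) (by positivity) (by field_simp; ring)
  convert h6 using 1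
  have h7 : 1 + ε / 2 ≠ 0 := by positivity
  ext
  · simp only [Prod.fst_add, Prod.smul_fst, smul_eq_mul]
    field_simp
    ring
  · simp only [Prod.fst_add, Prod.smul_fst, Prod.snd_add, Prod.smul_snd, smul_eq_mul]
    field_simp
    ring
  · simp only [Prod.snd_add, Prod.smul_snd, smul_eq_mul]
    field_simp
    ring

/-- inner points of the triangle spanned by `±(x, y, e)` and the axis -/
theorem HB'.mem_tri (h : HB' K z0 z1) {x y e : ℝ} (hp : ((x, y, e) : E) ∈ K) {s z : ℝ}
    (hs : |s| < 1) (h0 : (1 - |s|) * z0 < z - |s| * e) (h1 : z - |s| * e < (1 - |s|) * z1) :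
    ((s * x, s * y, z) : E) ∈ interior K := by
  have h2 : 0 < 1 - |s| := by linarith
  have hax := h.ax ((z - |s| * e) / (1 - |s|)) (by rw [lt_div_iff₀ h2]; linarith)
    (by rw [div_lt_iff₀ h2]; linarith)
  have key : ∀ s' : ℝ, |s'| = |s| → ∀ x' y' : ℝ, ((x', y', e) : E) ∈ K →
      ((|s| * x', |s| * y', z) : E) ∈ interior K := by
    intro s' _ x' y' hx'
    have h6 := h.conv.combo_interior_self_mem_interior hax hx' h2 (abs_nonneg s) (by ring)
    convert h6 using 1
    ext
    · simp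
    · simp
    · simp only [Prod.snd_add, Prod.smul_snd, smul_eq_mul]
      field_simp
      ring
  rcases le_or_gt 0 s with h3 | h3
  · have := key s rfl x y hp
    rwa [abs_of_nonneg h3] at this
  · have := key s rfl (-x) (-y) (h.sym _ hp)
    rw [abs_of_neg h3] at this
    convert this using 2
    · ring
    · congr 1
      ring

/-- wedge: near the face `x = 1` of a body in `x ≤ 1` -/
theorem HB'.good_wedge (h : HB' K z0 z1) (hx : ∀ p ∈ K, p.1 ≤ 1) {ι : Type*} {v : ι → ℝ → E}
    (i : ι) {b c y z : ℝ} {w : ℝ → ℝ × ℝ} (hw : ContinuousAt w 0) (hw0 : w 0 = (b, c))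
    (hv : ∀ t, v i t = (-t, w t)) {l : ℝ} (hl : 0 < l)
    (hp : ((y + l * b, z + l * c) : ℝ × ℝ) ∈ interior {w : ℝ × ℝ | (((1 : ℝ), w) : E) ∈ K}) :
    GoodAt K v (1, y, z) := by
  have hm := h.ax ((z0 + z1) / 2) (by linarith [h.lt]) (by linarith [h.lt])
  have h1 := cap_x h.conv hm (mem_interior_iff_mem_nhds.1 hp)
  have hcont : ContinuousAt (fun p : ℝ × E => p.2 + l • ((-p.1, w p.1) : E))
      ((0 : ℝ), ((1, y, z) : E)) := by
    have h0 : ContinuousAt (fun p : ℝ × E => w p.1) ((0 : ℝ), ((1, y, z) : E)) :=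
      ContinuousAt.comp (f := Prod.fst) (x := ((0 : ℝ), ((1, y, z) : E))) hw continuousAt_fst
    exact continuousAt_snd.add ((continuousAt_fst.neg.prodMk h0).const_smul l)
  have h2 : (fun p : ℝ × E => p.2 + l • ((-p.1, w p.1) : E))
      ((0 : ℝ), ((1, y, z) : E)) = (1, y + l * b, z + l * c) := by
    simp only [hw0]
    ext <;> simp
  have h3 := hcont.eventually (by rw [h2]; exact h1)
  refine h3.mono fun p hp hp0 hpK => ⟨i, l, hl, ?_⟩
  rw [hv]
  refine hp ?_
  have h4 := hx _ hpK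
  simp only [Prod.fst_add, Prod.smul_fst, smul_eq_mul]
  have h5 : 0 < l * p.1 := by positivity
  linarith

/-- contact points illuminated by `e`, `J e` or by four horizontal directions (inside the section
at the bottom): a cover by 8 -/
theorem HB'.cover_tilt (h : HB' K z0 z1) (e : E) (a1 b1 a2 b2 : ℝ)
    (H : ∀ p, Con K p → Ill K e p ∨ Ill K (J e) p ∨
      Ill K (a1, b1, 0) p ∨ Ill K (-a1, -b1, 0) p ∨ Ill K (a2, b2, 0) p ∨
      Ill K (-a2, -b2, 0) p ∨
      (p.2.2 = z0 ∧ (PI K z0 a1 b1 p ∨ PI K z0 (-a1) (-b1) p ∨ PI K z0 a2 b2 p ∨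
        PI K z0 (-a2) (-b2) p))) : Cov8 K := by
  let v : Fin 6 → ℝ → E := ![fun _ => e, fun _ => J e, fun t => (a1, b1, t),
    fun t => (-a1, -b1, t), fun t => (a2, b2, t), fun t => (-a2, -b2, t)]
  refine h.cover_of_contacts (ι := Fin 6) (by simp) v fun p hp => ?_
  rcases H p hp with h1 | h1 | h1 | h1 | h1 | h1 | ⟨hz, h1 | h1 | h1 | h1⟩
  · exact GoodAt.of_ill 0 continuousAt_const h1
  · exact GoodAt.of_ill 1 continuousAt_const h1
  · exact GoodAt.of_ill 2 (by
      change ContinuousAt (fun t : ℝ => ((a1, b1, t) : E)) 0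
      fun_prop) h1
  · exact GoodAt.of_ill 3 (by
      change ContinuousAt (fun t : ℝ => ((-a1, -b1, t) : E)) 0
      fun_prop) h1
  · exact GoodAt.of_ill 4 (by
      change ContinuousAt (fun t : ℝ => ((a2, b2, t) : E)) 0
      fun_prop) h1
  · exact GoodAt.of_ill 5 (by
      change ContinuousAt (fun t : ℝ => ((-a2, -b2, t) : E)) 0
      fun_prop) h1
  · obtain ⟨x, y, z⟩ := p
    simp only at hz
    subst hz
    exact h.good_bottom 2 (fun t => rfl) h1
  · obtain ⟨x, y, z⟩ := p
    simp only at hz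
    subst hz
    exact h.good_bottom 3 (fun t => rfl) h1
  · obtain ⟨x, y, z⟩ := p
    simp only at hz
    subst hz
    exact h.good_bottom 4 (fun t => rfl) h1
  · obtain ⟨x, y, z⟩ := p
    simp only at hz
    subst hz
    exact h.good_bottom 5 (fun t => rfl) h1

end E3

end Pool.Agent.Zk54
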