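import Mathlib

/-!
Convex bodies with a half-turn symmetry: definitions.
-/

set_option autoImplicit false

open Set Topology Filter

namespace Pool.Agent.Zk54

/-- covered by at most 8 translates of the interior -/
def Cov8 {V : Type*} [AddCommGroup V] [TopologicalSpace V] (K : Set V) : Prop :=
  ∃ T : Finset V, T.card ≤ 8 ∧ K ⊆ ⋃ t ∈ T, (fun x => t + x) '' interior K

/-- `q` can be moved into the interior of `K` in the direction `v` -/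
def Ill {V : Type*} [NormedAddCommGroup V] [NormedSpace ℝ V] (K : Set V) (v q : V) : Prop :=
  ∃ l : ℝ, 0 < l ∧ q + l • v ∈ interior K

/-- the family of directions `v i t` (small `t > 0`) illuminates a neighbourhood of `q` -/
def GoodAt {V : Type*} [NormedAddCommGroup V] [NormedSpace ℝ V] {ι : Type*} (K : Set V)
    (v : ι → ℝ → V) (q : V) : Prop :=
  ∀ᶠ p : ℝ × V in 𝓝 ((0 : ℝ), q), 0 < p.1 → p.2 ∈ K → ∃ i, Ill K (v i p.1) p.2

/-- three-space with coordinates `(x, y, z)`; the axis of the half-turn is the `z`-axis -/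
abbrev E : Type := ℝ × ℝ × ℝ

/-- the half-turn about the third axis -/
def J (p : E) : E := (-p.1, -p.2.1, p.2.2)

/-- a convex body invariant under the half-turn -/
structure HB (K : Set E) : Prop where
  conv : Convex ℝ K
  comp : IsCompact K
  int : (interior K).Nonempty
  sym : ∀ p ∈ K, J p ∈ K

/-- `p` is a contact point: a horizontal supporting functional is maximal at `p` -/
def Con (K : Set E) (p : E) : Prop :=
  p ∈ K ∧ ∃ a b : ℝ, (a ≠ 0 ∨ b ≠ 0) ∧ ∀ q ∈ K, a * q.1 + b * q.2.1 ≤ a * p.1 + b * p.2.1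

/-- with the height range -/
structure HB' (K : Set E) (z0 z1 : ℝ) : Prop extends HB K where
  lt : z0 < z1
  lo : ∀ p ∈ K, z0 ≤ p.2.2
  hi : ∀ p ∈ K, p.2.2 ≤ z1
  ax : ∀ z, z0 < z → z < z1 → (((0 : ℝ), (0 : ℝ), z) : E) ∈ interior K
  ax0 : (((0 : ℝ), (0 : ℝ), z0) : E) ∈ K
  ax1 : (((0 : ℝ), (0 : ℝ), z1) : E) ∈ K

/-- planar illumination, inside the section at height `h`, in the direction `(a, b)` -/
def PI (K : Set E) (h a b : ℝ) (q : E) : Prop :=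
  ∃ l : ℝ, 0 < l ∧ ((q.1 + l * a, q.2.1 + l * b) : ℝ × ℝ) ∈
    interior {y : ℝ × ℝ | ((y.1, y.2, h) : E) ∈ K}

/-- the third case: lowest contact level `0`, highest contact level `1` -/
structure YB (K : Set E) (z0 z1 : ℝ) : Prop extends HB' K z0 z1 where
  P0 : (((1 : ℝ), (0 : ℝ), (0 : ℝ)) : E) ∈ K
  P1 : (((0 : ℝ), (1 : ℝ), (1 : ℝ)) : E) ∈ K
  c0 : ∃ c : ℝ, ∀ p ∈ K, p.1 + c * p.2.1 ≤ 1
  c1 : ∃ c : ℝ, ∀ p ∈ K, c * p.1 + p.2.1 ≤ 1
  con : ∀ p, Con K p → 0 ≤ p.2.2 ∧ p.2.2 ≤ 1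
  o0 : (((0 : ℝ), (1 : ℝ), (0 : ℝ)) : E) ∉ K
  o1 : (((1 : ℝ), (0 : ℝ), (1 : ℝ)) : E) ∉ K
  nw1 : (∀ p ∈ K, p.1 - p.2.1 ≤ 1) → ∀ p ∈ K, p.1 - p.2.1 = 1 → p.1 = 1 - p.2.2
  nw2 : (∀ p ∈ K, p.1 + p.2.1 ≤ 1) → ∀ p ∈ K, p.1 + p.2.1 = 1 → p.1 = 1 - p.2.2

/-- the contact point `(1, 0, 0)` is illuminated inside its section with slope `1` or `-1` -/
def Good0 (K : Set E) : Prop :=
  PI K 0 (-1) (-1) ((1 : ℝ), (0 : ℝ), (0 : ℝ)) ∨ PI K 0 (-1) 1 ((1 : ℝ), (0 : ℝ), (0 : ℝ))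

/-- the contact point `(0, 1, 1)` is illuminated inside its section with slope `1` or `-1` -/
def Good1 (K : Set E) : Prop :=
  PI K 1 (-1) (-1) ((0 : ℝ), (1 : ℝ), (1 : ℝ)) ∨ PI K 1 1 (-1) ((0 : ℝ), (1 : ℝ), (1 : ℝ))

/-- the face `x = 1` reaches the lowest and the highest contact level -/
structure UB (K : Set E) (z0 z1 a b : ℝ) : Prop extends HB' K z0 z1 where
  w : ∀ p ∈ K, p.1 ≤ 1
  hab : a ≤ b
  con : ∀ p, Con K p → a ≤ p.2.2 ∧ p.2.2 ≤ b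
  fa : ∃ y : ℝ, (((1 : ℝ), y, a) : E) ∈ K
  fb : ∃ y : ℝ, (((1 : ℝ), y, b) : E) ∈ K

/-- change of coordinates commuting with the half-turn -/
def T (m11 m12 m21 m22 k d : ℝ) (p : E) : E :=
  (m11 * p.1 + m12 * p.2.1, m21 * p.1 + m22 * p.2.1, k * p.2.2 + d)

end Pool.Agent.Zk54
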