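import Pool.Agent.Zk54.Affine

/-!
The final form in `EuclideanSpace ℝ (Fin 3)`, from the theorem for half-turn symmetric bodies.
-/

set_option autoImplicit false

namespace Pool.Agent.Zk54

/-- three-dimensional Euclidean space -/
abbrev E3 : Type := EuclideanSpace ℝ (Fin 3)

/-- the affine self-map `x ↦ M x + b` of `ℝ³` -/
noncomputable def aff (M : Matrix (Fin 3) (Fin 3) ℝ) (b x : E3) : E3 :=
  WithLp.toLp 2 (M.mulVec (WithLp.ofLp x)) + b

/-- All affine symmetries except the identity and the involutions which reverse the orientation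
(point reflections: Lassak; reflections in planes: Dekster). If `g` reverses the orientation and
`g ∘ g ≠ id`, the theorem is applied to `g ∘ g`. -/
theorem fin3 (H : ∀ K : Set E, HB K → Cov8 K)
    (K : Set E3) (hK : Convex ℝ K) (hc : IsCompact K) (hint : (interior K).Nonempty)
    (M : Matrix (Fin 3) (Fin 3) ℝ) (b : E3) (hg : aff M b '' K = K)
    (h : (0 < M.det ∧ ∃ x, aff M b x ≠ x) ∨ ∃ x, aff M b (aff M b x) ≠ x) :
    ∃ T : Finset E3, T.card ≤ 2 ^ 3 ∧ K ⊆ ⋃ t ∈ T, (fun x => t + x) '' interior K := by
  let g : E3 →ᵃ[ℝ] E3 :=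
    { toFun := aff M b
      linear := Matrix.toEuclideanLin M
      map_vadd' := fun p v => by
        simp only [aff, vadd_eq_add, Matrix.toLpLin_apply]
        rw [WithLp.ofLp_add, Matrix.mulVec_add, WithLp.toLp_add]
        abel }
  have hgf : ∀ x, g x = aff M b x := fun x => rfl
  have hdet : LinearMap.det g.linear = M.det := by
    change LinearMap.det (Matrix.toLin (PiLp.basisFun 2 ℝ (Fin 3)) (PiLp.basisFun 2 ℝ (Fin 3)) M) =
      M.det
    rw [LinearMap.det_toLin]
  rcases h with ⟨h1, h2⟩ | h4
  · exact cov_orientation H (by simp) hK hc hint g hg (by rw [hdet]; exact h1) h2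
  · refine cov_orientation H (by simp) hK hc hint (g.comp g) ?_ ?_ ?_
    · have : (g.comp g : E3 → E3) = g ∘ g := rfl
      rw [this, Set.image_comp]
      change g '' (g '' K) = K
      have hg' : g '' K = K := hg
      rw [hg', hg']
    · have h5 := Pool.Agent.W867.Cov3.det_ne_zero hint g hg
      have : (g.comp g).linear = g.linear * g.linear := rfl
      rw [this, map_mul]
      exact mul_self_pos.2 h5
    · exact h4

end Pool.Agent.Zk54
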