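import Pool.Agent.Zk54.Trans

/-!
First case, no deep end, fat face `x = 1`.
-/

set_option autoImplicit false

open Set Topology Filter

namespace Pool.Agent.Zk54

variable {K : Set E} {z0 z1 : ℝ}

namespace UE

/-- compactness: a function which is `< e` off the open set `U` is `< e - ε` off `U` -/
theorem corner (hc : IsCompact K) {U A : Set E} (hU : IsOpen U) (hA : IsClosed A) {g : E → ℝ}
    (hg : Continuous g) {e : ℝ} (h : ∀ p ∈ K, p ∈ A → p ∉ U → g p < e) :
    ∃ ε : ℝ, 0 < ε ∧ ∀ p ∈ K, p ∈ A → e - ε ≤ g p → p ∈ U := by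
  have hS : IsCompact ((K ∩ A) ∩ Uᶜ) := (hc.inter_right hA).inter_right hU.isClosed_compl
  rcases ((K ∩ A) ∩ Uᶜ).eq_empty_or_nonempty with he | hne
  · refine ⟨1, one_pos, fun p hp hpA _ => ?_⟩
    by_contra hpU
    have : p ∈ (K ∩ A) ∩ Uᶜ := ⟨⟨hp, hpA⟩, hpU⟩
    rw [he] at this
    exact this
  · obtain ⟨p0, hp0, hmax⟩ := hS.exists_isMaxOn hne hg.continuousOn
    have h1 := h p0 hp0.1.1 hp0.1.2 hp0.2
    refine ⟨(e - g p0) / 2, by linarith, fun p hp hpA hpe => ?_⟩
    by_contra hpU
    have h2 : g p ≤ g p0 := hmax ⟨⟨hp, hpA⟩, hpU⟩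
    linarith

end UE

/-- Contact levels are `z0` and `z1` themselves, `F = {w | (1, w) ∈ K}` has interior. -/
theorem UB.cov_fat_flat (h : UB K z0 z1 z0 z1)
    (hF : (interior {w : ℝ × ℝ | (((1 : ℝ), w) : E) ∈ K}).Nonempty) : Cov8 K := by
  have hlt := h.lt
  -- the corner points
  obtain ⟨la, hla, hla'⟩ : ∃ y : ℝ, (((1 : ℝ), y, z0) : E) ∈ K ∧
      ∀ y' : ℝ, (((1 : ℝ), y', z0) : E) ∈ K → y ≤ y' := by
    obtain ⟨y0, hy0⟩ := h.fa
    have hS : IsCompact (K ∩ {p : E | p.1 = 1 ∧ p.2.2 = z0}) := by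
      refine h.comp.inter_right ?_
      exact (isClosed_eq (f := fun p : E => p.1) (g := fun _ => (1 : ℝ)) (by fun_prop)
        (by fun_prop)).inter (isClosed_eq (f := fun p : E => p.2.2) (g := fun _ => z0)
        (by fun_prop) (by fun_prop))
    obtain ⟨p0, hp0, hmin⟩ := hS.exists_isMinOn ⟨(1, y0, z0), hy0, rfl, rfl⟩
      (f := fun p : E => p.2.1) (by fun_prop)
    obtain ⟨x, y, z⟩ := p0
    obtain ⟨hK, hx, hz⟩ := hp0
    simp only at hx hz
    subst hx
    subst hz
    exact ⟨y, hK, fun y' hy' => hmin ⟨hy', rfl, rfl⟩⟩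
  obtain ⟨rb, hrb, hrb'⟩ : ∃ y : ℝ, (((1 : ℝ), y, z1) : E) ∈ K ∧
      ∀ y' : ℝ, (((1 : ℝ), y', z1) : E) ∈ K → y' ≤ y := by
    obtain ⟨y0, hy0⟩ := h.fb
    have hS : IsCompact (K ∩ {p : E | p.1 = 1 ∧ p.2.2 = z1}) := by
      refine h.comp.inter_right ?_
      exact (isClosed_eq (f := fun p : E => p.1) (g := fun _ => (1 : ℝ)) (by fun_prop)
        (by fun_prop)).inter (isClosed_eq (f := fun p : E => p.2.2) (g := fun _ => z1)
        (by fun_prop) (by fun_prop))
    obtain ⟨p0, hp0, hmax⟩ := hS.exists_isMaxOn ⟨(1, y0, z1), hy0, rfl, rfl⟩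
      (f := fun p : E => p.2.1) (by fun_prop)
    obtain ⟨x, y, z⟩ := p0
    obtain ⟨hK, hx, hz⟩ := hp0
    simp only at hx hz
    subst hx
    subst hz
    exact ⟨y, hK, fun y' hy' => hmax ⟨hy', rfl, rfl⟩⟩
  -- bound
  obtain ⟨R, hR⟩ : ∃ R : ℝ, ∀ p ∈ K, |p.2.1| ≤ R := by
    obtain ⟨R, hR⟩ := h.comp.exists_bound_of_continuousOn (f := fun p : E => p.2.1) (by fun_prop)
    exact ⟨R, fun p hp => by simpa [Real.norm_eq_abs] using hR p hp⟩
  have hR0 : 0 ≤ R := (abs_nonneg _).trans (hR _ hla)
  -- the line `c`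
  obtain ⟨c', hc'⟩ : ∃ c' : ℝ, la + c' * (z1 - z0) = rb :=
    ⟨(rb - la) / (z1 - z0), by
      have : z1 - z0 ≠ 0 := by linarith
      field_simp
      ring⟩
  have hc : ∀ z : ℝ, z0 ≤ z → z ≤ z1 → (((1 : ℝ), la + c' * (z - z0), z) : E) ∈ K := by
    intro z h0 h1
    have h2 : 0 < z1 - z0 := by linarith
    have := h.conv hla hrb (a := (z1 - z) / (z1 - z0)) (b := (z - z0) / (z1 - z0))
      (div_nonneg (by linarith) h2.le) (div_nonneg (by linarith) h2.le) (by field_simp; ring)
    convert this using 1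
    ext
    · simp only [Prod.fst_add, Prod.smul_fst, smul_eq_mul]
      field_simp
      ring
    · simp only [Prod.fst_add, Prod.smul_fst, Prod.snd_add, Prod.smul_snd, smul_eq_mul]
      rw [← hc']
      field_simp
      ring
    · simp only [Prod.snd_add, Prod.smul_snd, smul_eq_mul]
      field_simp
      ring
  have hint : ∀ x z : ℝ, |x| < 1 → z0 < z → z < z1 →
      ((x, x * (la + c' * (z - z0)), z) : E) ∈ interior K := by
    intro x z hx h0 h1
    have h2 := h.mem_tri (hc z h0.le h1.le) (s := x) (z := z) hx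
      (by nlinarith) (by nlinarith)
    simpa using h2
  -- the fixed directions
  obtain ⟨s, hs0, hs1⟩ : ∃ s : ℝ, 0 < s ∧ s < z1 - z0 := ⟨(z1 - z0) / 2, by linarith, by linarith⟩
  have habs : ∀ x : ℝ, 0 ≤ x → x ≤ 1 → |x - 1 / 2| ≤ 1 / 2 := by
    intro x h0 h1
    rw [abs_le]
    constructor <;> linarith
  have hZ1 : ∀ x : ℝ, 0 ≤ x → x ≤ 1 → Ill K ((-1, -la, s) : E) (x, x * la, z0) := by
    intro x h0 h1
    have h2 := habs x h0 h1
    refine ⟨1 / 2, by norm_num, ?_⟩
    have h3 := h.mem_tri hla (s := x - 1 / 2) (z := z0 + 1 / 2 * s) (by linarith)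
      (by linarith) (by nlinarith)
    convert h3 using 1
    ext
    · simp
      ring
    · simp
      ring
    · simp
  have hZ2 : ∀ x : ℝ, 0 ≤ x → x ≤ 1 → Ill K ((-1, -rb, -s) : E) (x, x * rb, z1) := by
    intro x h0 h1
    have h2 := habs x h0 h1
    refine ⟨1 / 2, by norm_num, ?_⟩
    have h3 := h.mem_tri hrb (s := x - 1 / 2) (z := z1 - 1 / 2 * s) (by linarith)
      (by nlinarith) (by linarith)
    convert h3 using 1
    ext
    · simp
      ring
    · simp
      ring
    · simp
      ring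
  -- neighbourhoods of the corners
  obtain ⟨ε1, hε1, hC1⟩ : ∃ ε : ℝ, 0 < ε ∧ ∀ y z : ℝ, (((1 : ℝ), y, z) : E) ∈ K → y ≤ la →
      z ≤ z0 + ε → Ill K ((-1, -la, s) : E) (1, y, z) := by
    obtain ⟨ε, hε, h1⟩ := UE.corner h.comp (isOpen_ill K ((-1, -la, s) : E))
      (A := {p : E | p.1 = 1 ∧ p.2.1 ≤ la}) ((isClosed_eq (f := fun p : E => p.1)
        (g := fun _ => (1 : ℝ)) (by fun_prop) (by fun_prop)).inter
        (isClosed_le (f := fun p : E => p.2.1) (g := fun _ => la) (by fun_prop) (by fun_prop)))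
      (g := fun p => -p.2.2) (by fun_prop) (e := -z0) (by
        rintro ⟨x, y, z⟩ hp ⟨hx, hy⟩ hU
        simp only at hx hy ⊢
        subst hx
        have hz := h.lo _ hp
        simp only at hz
        rcases hz.lt_or_eq with hz | hz
        · linarith
        · exfalso
          subst hz
          have hy' := hla' y hp
          have : y = la := le_antisymm hy hy'
          subst this
          apply hU
          have := hZ1 1 zero_le_one le_rfl
          simpa using this)
    refine ⟨ε, hε, fun y z hp hy hz => h1 _ hp ⟨rfl, hy⟩ ?_⟩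
    simp only
    linarith
  obtain ⟨ε2, hε2, hC2⟩ : ∃ ε : ℝ, 0 < ε ∧ ∀ y z : ℝ, (((1 : ℝ), y, z) : E) ∈ K → rb ≤ y →
      z1 - ε ≤ z → Ill K ((-1, -rb, -s) : E) (1, y, z) := by
    obtain ⟨ε, hε, h1⟩ := UE.corner h.comp (isOpen_ill K ((-1, -rb, -s) : E))
      (A := {p : E | p.1 = 1 ∧ rb ≤ p.2.1}) ((isClosed_eq (f := fun p : E => p.1)
        (g := fun _ => (1 : ℝ)) (by fun_prop) (by fun_prop)).inter
        (isClosed_le (f := fun _ : E => rb) (g := fun p => p.2.1) (by fun_prop) (by fun_prop)))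
      (g := fun p => p.2.2) (by fun_prop) (e := z1) (by
        rintro ⟨x, y, z⟩ hp ⟨hx, hy⟩ hU
        simp only at hx hy ⊢
        subst hx
        have hz := h.hi _ hp
        simp only at hz
        rcases hz.lt_or_eq with hz | hz
        · exact hz
        · exfalso
          subst hz
          have hy' := hrb' y hp
          have : y = rb := le_antisymm hy' hy
          subst this
          apply hU
          have := hZ2 1 zero_le_one le_rfl
          simpa using this)
    exact ⟨ε, hε, fun y z hp hy hz => h1 _ hp ⟨rfl, hy⟩ hz⟩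
  -- the slope
  obtain ⟨σ, hσ, hσ1, hσ2, hσ3, hσ4⟩ : ∃ σ : ℝ, 0 < σ ∧ σ * |c'| ≤ 1 / 2 ∧
      σ * (4 * R) < (z1 - z0) / 2 ∧ σ * (2 * R) ≤ ε1 ∧ σ * (2 * R) ≤ ε2 := by
    have hM : 0 < |c'| + 4 * R + 1 := by positivity
    have hm : 0 < min (min (1 / 2) ((z1 - z0) / 2)) (min ε1 ε2) :=
      lt_min (lt_min (by norm_num) (by linarith)) (lt_min hε1 hε2)
    have hσ : 0 < min (min (1 / 2) ((z1 - z0) / 2)) (min ε1 ε2) / (|c'| + 4 * R + 1) :=
      div_pos hm hM
    have he : min (min (1 / 2) ((z1 - z0) / 2)) (min ε1 ε2) / (|c'| + 4 * R + 1) *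
        (|c'| + 4 * R + 1) = min (min (1 / 2) ((z1 - z0) / 2)) (min ε1 ε2) :=
      div_mul_cancel₀ _ hM.ne'
    set σ : ℝ := min (min (1 / 2) ((z1 - z0) / 2)) (min ε1 ε2) / (|c'| + 4 * R + 1) with hσdef
    have h1 : min (min (1 / 2) ((z1 - z0) / 2)) (min ε1 ε2) ≤ 1 / 2 :=
      (min_le_left _ _).trans (min_le_left _ _)
    have h2 : min (min (1 / 2) ((z1 - z0) / 2)) (min ε1 ε2) ≤ (z1 - z0) / 2 :=
      (min_le_left _ _).trans (min_le_right _ _)
    have h3 : min (min (1 / 2) ((z1 - z0) / 2)) (min ε1 ε2) ≤ ε1 :=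
      (min_le_right _ _).trans (min_le_left _ _)
    have h4 : min (min (1 / 2) ((z1 - z0) / 2)) (min ε1 ε2) ≤ ε2 :=
      (min_le_right _ _).trans (min_le_right _ _)
    have a1 : 0 ≤ σ * |c'| := by positivity
    have a2 : 0 ≤ σ * R := by positivity
    have he' : σ * |c'| + 4 * (σ * R) + σ =
        min (min (1 / 2) ((z1 - z0) / 2)) (min ε1 ε2) := by
      rw [← he]
      ring
    refine ⟨σ, hσ, by linarith, by linarith, by linarith, by linarith⟩
  -- generic step for `|x| < 1`
  have key : ∀ τ ρ x y z : ℝ, (τ = 1 ∨ τ = -1) → (ρ = 1 ∨ ρ = -1) → ((x, y, z) : E) ∈ K →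
      |x| < 1 → 0 < τ * (y - x * (la + c' * (z - z0))) →
      (ρ = 1 → z ≤ (z0 + z1) / 2) → (ρ = -1 → (z0 + z1) / 2 ≤ z) →
      Ill K ((0, -τ, ρ * σ) : E) (x, y, z) := by
    intro τ ρ x y z hτ hρ hp hx hpos hup hdown
    have hz0 := h.lo _ hp
    have hz1 := h.hi _ hp
    simp only at hz0 hz1
    have hden : 1 / 2 ≤ 1 + τ * ρ * x * c' * σ := by
      have h1 : |τ * ρ * x * c' * σ| ≤ 1 / 2 := by
        have e1 : |τ| = 1 := by rcases hτ with h | h <;> simp [h]
        have e2 : |ρ| = 1 := by rcases hρ with h | h <;> simp [h]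
        rw [abs_mul, abs_mul, abs_mul, abs_mul, e1, e2, abs_of_pos hσ]
        have h2 : |x| * (σ * |c'|) ≤ 1 * (1 / 2) :=
          mul_le_mul hx.le hσ1 (by positivity) zero_le_one
        nlinarith
      have := (abs_le.1 h1).1
      linarith
    have hden0 : 0 < 1 + τ * ρ * x * c' * σ := by linarith
    set l : ℝ := τ * (y - x * (la + c' * (z - z0))) / (1 + τ * ρ * x * c' * σ) with hldef
    have hl : 0 < l := div_pos hpos hden0
    have hle : l * (1 + τ * ρ * x * c' * σ) = τ * (y - x * (la + c' * (z - z0))) :=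
      div_mul_cancel₀ _ hden0.ne'
    have hlR : l ≤ 4 * R := by
      have e1 : |τ| = 1 := by rcases hτ with h | h <;> simp [h]
      have h1 : τ * (y - x * (la + c' * (z - z0))) ≤ 2 * R := by
        refine (le_abs_self _).trans ?_
        rw [abs_mul, e1, one_mul]
        refine (abs_sub _ _).trans ?_
        have h2 := hR _ hp
        have h3 := hR _ (hc z hz0 hz1)
        simp only at h2 h3
        rw [abs_mul]
        have h4 : |x| * |la + c' * (z - z0)| ≤ 1 * R :=
          mul_le_mul hx.le h3 (abs_nonneg _) zero_le_one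
        linarith
      nlinarith
    have hσl : 0 < l * σ := mul_pos hl hσ
    have hσl2 : l * σ < (z1 - z0) / 2 := by nlinarith
    refine ⟨l, hl, ?_⟩
    have h5 : z0 < z + ρ * (l * σ) ∧ z + ρ * (l * σ) < z1 := by
      rcases hρ with h1 | h1
      · have := hup h1
        subst h1
        constructor <;> linarith
      · have := hdown h1
        subst h1
        constructor <;> linarith
    have h6 := hint x (z + ρ * (l * σ)) hx h5.1 h5.2
    convert h6 using 1
    have hτ2 : τ * τ = 1 := by rcases hτ with h | h <;> simp [h]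
    ext
    · simp
    · simp only [Prod.fst_add, Prod.smul_fst, Prod.snd_add, Prod.smul_snd, smul_eq_mul]
      linear_combination (-τ) * hle + (l * ρ * x * c' * σ + (x * (la + c' * (z - z0)) - y)) * hτ2
    · simp only [Prod.snd_add, Prod.smul_snd, smul_eq_mul]
      ring
  -- the eight families
  let v : Fin 8 → ℝ → E := ![fun t => (-t, -1, σ), fun t => (t, 1, σ), fun t => (-t, 1, -σ),
    fun t => (t, -1, -σ), fun _ => (-1, -la, s), fun _ => (1, la, s), fun _ => (-1, -rb, -s),
    fun _ => (1, rb, -s)]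
  have hv : ∀ i, ∃ j, ∀ t, v j t = J (v i t) := by
    intro i
    fin_cases i
    · exact ⟨1, fun t => by simp [v, J]⟩
    · exact ⟨0, fun t => by simp [v, J]⟩
    · exact ⟨3, fun t => by simp [v, J]⟩
    · exact ⟨2, fun t => by simp [v, J]⟩
    · exact ⟨5, fun t => by simp [v, J]⟩
    · exact ⟨4, fun t => by simp [v, J]⟩
    · exact ⟨7, fun t => by simp [v, J]⟩
    · exact ⟨6, fun t => by simp [v, J]⟩
  have half : ∀ q ∈ K, 0 ≤ q.1 → GoodAt K v q := by
    rintro ⟨x, y, z⟩ hq hx0
    simp only at hx0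
    have hx1 : x ≤ 1 := h.w _ hq
    have hz0 : z0 ≤ z := h.lo _ hq
    have hz1 : z ≤ z1 := h.hi _ hq
    rcases hx1.lt_or_eq with hx1 | hx1
    · have hxabs : |x| < 1 := by
        rw [abs_of_nonneg hx0]
        exact hx1
      by_cases hy : y = x * (la + c' * (z - z0))
      · rcases hz0.lt_or_eq with hz0 | hz0
        · rcases hz1.lt_or_eq with hz1 | hz1
          · refine GoodAt.of_ill 4 continuousAt_const (Ill.of_interior ?_)
            rw [hy]
            exact hint x z hxabs hz0 hz1
          · refine GoodAt.of_ill 6 continuousAt_const ?_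
            subst hz1
            rw [hc'] at hy
            rw [hy]
            exact hZ2 x hx0 hx1.le
        · refine GoodAt.of_ill 4 continuousAt_const ?_
          subst hz0
          rw [sub_self, mul_zero, add_zero] at hy
          rw [hy]
          exact hZ1 x hx0 hx1.le
      · rcases lt_or_gt_of_ne hy with hy | hy
        · rcases le_total z ((z0 + z1) / 2) with hz | hz
          · refine GoodAt.of_ill 1 (by
              change ContinuousAt (fun t : ℝ => ((t, 1, σ) : E)) 0
              fun_prop) ?_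
            have := key (-1) 1 x y z (Or.inr rfl) (Or.inl rfl) hq hxabs (by linarith)
              (fun _ => hz) (fun h => by norm_num at h)
            simpa [v] using this
          · refine GoodAt.of_ill 2 (by
              change ContinuousAt (fun t : ℝ => ((-t, 1, -σ) : E)) 0
              fun_prop) ?_
            have := key (-1) (-1) x y z (Or.inr rfl) (Or.inr rfl) hq hxabs (by linarith)
              (fun h => by norm_num at h) (fun _ => hz)
            simpa [v] using this
        · rcases le_total z ((z0 + z1) / 2) with hz | hz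
          · refine GoodAt.of_ill 0 (by
              change ContinuousAt (fun t : ℝ => ((-t, -1, σ) : E)) 0
              fun_prop) ?_
            have := key 1 1 x y z (Or.inl rfl) (Or.inl rfl) hq hxabs (by linarith)
              (fun _ => hz) (fun h => by norm_num at h)
            simpa [v] using this
          · refine GoodAt.of_ill 3 (by
              change ContinuousAt (fun t : ℝ => ((t, -1, -σ) : E)) 0
              fun_prop) ?_
            have := key 1 (-1) x y z (Or.inl rfl) (Or.inr rfl) hq hxabs (by linarith)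
              (fun h => by norm_num at h) (fun _ => hz)
            simpa [v] using this
    · subst hx1
      by_cases g1 : Ill {w : ℝ × ℝ | (((1 : ℝ), w) : E) ∈ K} ((-1, σ) : ℝ × ℝ) (y, z)
      · obtain ⟨l, hl, hi⟩ := g1
        exact h.good_wedge h.w 0 (w := fun _ => ((-1, σ) : ℝ × ℝ)) continuousAt_const rfl
          (fun t => rfl) hl (by simpa using hi)
      by_cases g2 : Ill {w : ℝ × ℝ | (((1 : ℝ), w) : E) ∈ K} ((1, -σ) : ℝ × ℝ) (y, z)
      · obtain ⟨l, hl, hi⟩ := g2
        exact h.good_wedge h.w 2 (w := fun _ => ((1, -σ) : ℝ × ℝ)) continuousAt_const rfl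
          (fun t => rfl) hl (by simpa using hi)
      have hconv : Convex ℝ {w : ℝ × ℝ | (((1 : ℝ), w) : E) ∈ K} := by
        intro u hu w hw a b ha hb hab
        have := h.conv hu hw ha hb hab
        have h2 : a * 1 + b * 1 = (1 : ℝ) := by linarith
        simpa [h2, hab] using this
      obtain ⟨f1, f1a, f1b, f1c⟩ := sep_gen hconv hF (p := ((y, z) : ℝ × ℝ)) hq g1
      obtain ⟨f2, f2a, f2b, f2c⟩ := sep_gen hconv hF (p := ((y, z) : ℝ × ℝ)) hq g2
      obtain ⟨w0, hw0⟩ := hF
      have s1 := f1b w0 hw0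
      have s2 := f2b w0 hw0
      rw [fun_coord2 f1 w0, fun_coord2 f1 (y, z)] at s1
      rw [fun_coord2 f2 w0, fun_coord2 f2 (y, z)] at s2
      rw [fun_coord2] at f1c f2c
      simp only at s1 s2 f1c f2c
      have t1 : ∀ y' z' : ℝ, (((1 : ℝ), y', z') : E) ∈ K →
          f1 (1, 0) * y' + f1 (0, 1) * z' ≤ f1 (1, 0) * y + f1 (0, 1) * z := by
        intro y' z' hp
        have := f1a (y', z') hp
        rwa [fun_coord2 f1 (y', z'), fun_coord2 f1 (y, z)] at this
      have t2 : ∀ y' z' : ℝ, (((1 : ℝ), y', z') : E) ∈ K →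
          f2 (1, 0) * y' + f2 (0, 1) * z' ≤ f2 (1, 0) * y + f2 (0, 1) * z := by
        intro y' z' hp
        have := f2a (y', z') hp
        rwa [fun_coord2 f2 (y', z'), fun_coord2 f2 (y, z)] at this
      generalize f1 (1, 0) = m1 at s1 t1 f1c
      generalize f1 (0, 1) = n1 at s1 t1 f1c
      generalize f2 (1, 0) = m2 at s2 t2 f2c
      generalize f2 (0, 1) = n2 at s2 t2 f2c
      obtain ⟨β, α, hβ, hα, hsum, hAB⟩ : ∃ β α : ℝ, 0 ≤ β ∧ 0 ≤ α ∧ 0 < β + α ∧
          β * (m1 * -1 + n1 * σ) = α * (m2 * 1 + n2 * -σ) := by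
        by_cases hA : m1 * -1 + n1 * σ = 0
        · exact ⟨1, 0, zero_le_one, le_rfl, by norm_num, by rw [hA]; ring⟩
        · have hA' : 0 < m1 * -1 + n1 * σ := lt_of_le_of_ne f1c (Ne.symm hA)
          exact ⟨m2 * 1 + n2 * -σ, m1 * -1 + n1 * σ, f2c, hA'.le, by linarith, by ring⟩
      have hm : β * m1 + α * m2 = σ * (β * n1 + α * n2) := by linarith
      have tn : ∀ y' z' : ℝ, (((1 : ℝ), y', z') : E) ∈ K →
          (β * n1 + α * n2) * (σ * y' + z') ≤ (β * n1 + α * n2) * (σ * y + z) := by
        intro y' z' hp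
        have e1 := mul_le_mul_of_nonneg_left (t1 y' z' hp) hβ
        have e2 := mul_le_mul_of_nonneg_left (t2 y' z' hp) hα
        have e3 : (β * n1 + α * n2) * (σ * y' + z') =
            (β * m1 + α * m2) * y' + (β * n1 + α * n2) * z' := by
          rw [hm]
          ring
        have e4 : (β * n1 + α * n2) * (σ * y + z) =
            (β * m1 + α * m2) * y + (β * n1 + α * n2) * z := by
          rw [hm]
          ring
        rw [e3, e4]
        linarith
      have hstrict : (β * n1 + α * n2) * (σ * w0.1 + w0.2) < (β * n1 + α * n2) * (σ * y + z) := by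
        have e3 : (β * n1 + α * n2) * (σ * w0.1 + w0.2) =
            (β * m1 + α * m2) * w0.1 + (β * n1 + α * n2) * w0.2 := by
          rw [hm]
          ring
        have e4 : (β * n1 + α * n2) * (σ * y + z) =
            (β * m1 + α * m2) * y + (β * n1 + α * n2) * z := by
          rw [hm]
          ring
        rw [e3, e4]
        rcases hβ.lt_or_eq with hβ' | hβ'
        · have e1 := mul_lt_mul_of_pos_left s1 hβ'
          have e2 := mul_le_mul_of_nonneg_left s2.le hα
          linarith
        · have hα' : 0 < α := by linarith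
          have e1 := mul_le_mul_of_nonneg_left s1.le hβ
          have e2 := mul_lt_mul_of_pos_left s2 hα'
          linarith
      have hyR := hR _ hq
      have hlaR := hR _ hla
      have hrbR := hR _ hrb
      simp only at hyR hlaR hrbR
      have hyR' := abs_le.1 hyR
      have hlaR' := abs_le.1 hlaR
      have hrbR' := abs_le.1 hrbR
      rcases lt_trichotomy (β * n1 + α * n2) 0 with hn | hn | hn
      · -- minimum
        have e1 := tn _ _ hla
        have e2 : σ * y + z ≤ σ * la + z0 := by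
          by_contra hcon
          push Not at hcon
          have := mul_lt_mul_of_neg_left hcon hn
          linarith
        have e3 : σ * y ≤ σ * la := by linarith
        have e4 : y ≤ la := le_of_mul_le_mul_left e3 hσ
        have e5 : σ * (la - y) ≤ σ * (2 * R) := mul_le_mul_of_nonneg_left (by linarith) hσ.le
        exact GoodAt.of_ill 4 continuousAt_const (hC1 y z hq e4 (by linarith))
      · rw [hn] at hstrict
        simp at hstrict
      · have e1 := tn _ _ hrb
        have e2 : σ * rb + z1 ≤ σ * y + z := le_of_mul_le_mul_left e1 hn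
        have e3 : σ * rb ≤ σ * y := by linarith
        have e4 : rb ≤ y := le_of_mul_le_mul_left e3 hσ
        have e5 : σ * (y - rb) ≤ σ * (2 * R) := mul_le_mul_of_nonneg_left (by linarith) hσ.le
        exact GoodAt.of_ill 6 continuousAt_const (hC2 y z hq e4 (by linarith))
  refine cover_of_good (ι := Fin 8) (by simp) h.conv h.comp v fun q hq => ?_
  rcases le_total 0 q.1 with hx | hx
  · exact half q hq hx
  · have h1 := half (J q) (h.sym _ hq) (by simp only [J]; linarith)
    have h2 := h1.symm h.toHB hv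
    rwa [J_J] at h2

end Pool.Agent.Zk54
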