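import Pool.Agent.Zk54.Basic

/-!
Contact points on the horizontal edges of the face `x = 1`.
-/

set_option autoImplicit false

open Set Topology Filter

namespace Pool.Agent.Zk54

variable {K : Set E} {z0 z1 a b : ℝ}

theorem combo3 {V : Type*} [AddCommGroup V] [Module ℝ V] {K : Set V} (hK : Convex ℝ K)
    {p q r : V} (hp : p ∈ K) (hq : q ∈ K) (hr : r ∈ K) {α β γ : ℝ} (hα : 0 ≤ α) (hβ : 0 ≤ β)
    (hγ : 0 < γ) (h1 : α + β + γ = 1) : α • p + β • q + γ • r ∈ K := by
  have h2 : 0 < β + γ := by linarith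
  have h3 := hK hq hr (a := β / (β + γ)) (b := γ / (β + γ)) (by positivity) (by positivity)
    (by field_simp)
  have h4 := hK hp h3 (a := α) (b := β + γ) hα h2.le (by linarith)
  convert h4 using 1
  rw [smul_add, smul_smul, smul_smul, mul_div_cancel₀ _ h2.ne', mul_div_cancel₀ _ h2.ne',
    add_assoc]

theorem quarter_bottom (hK : Convex ℝ K) (hsym : ∀ p ∈ K, J p ∈ K) {a b c y1 y2 ys yb : ℝ}
    (hc : (((0 : ℝ), (0 : ℝ), c) : E) ∈ interior K) (hac : a < c) (hab : a < b)
    (h1 : (((1 : ℝ), y1, a) : E) ∈ K) (h2 : (((1 : ℝ), y2, a) : E) ∈ K)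
    (hb : (((1 : ℝ), yb, b) : E) ∈ K) (hy1 : y1 < ys) (hy2 : ys < y2) :
    ∀ᶠ q : E in 𝓝 (((1 : ℝ), ys, a) : E), q.1 < 1 → a < q.2.2 → q ∈ interior K := by
  have hca : 0 < c - a := by linarith
  have hba : 0 < b - a := by linarith
  have hs : (((1 : ℝ), ys, a) : E) ∈ K := by
    have := hK h1 h2 (a := (y2 - ys) / (y2 - y1)) (b := (ys - y1) / (y2 - y1))
      (div_nonneg (by linarith) (by linarith)) (div_nonneg (by linarith) (by linarith))
      (by
        have : y2 - y1 ≠ 0 := by linarith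
        field_simp
        ring)
    convert this using 1
    have h6 : y2 - y1 ≠ 0 := by linarith
    ext
    · simp only [Prod.fst_add, Prod.smul_fst, smul_eq_mul]
      field_simp
      ring
    · simp only [Prod.fst_add, Prod.smul_fst, Prod.snd_add, Prod.smul_snd, smul_eq_mul]
      field_simp
      ring
    · simp only [Prod.snd_add, Prod.smul_snd, smul_eq_mul]
      field_simp
      ring
  have hs' := hsym _ hs
  let κ : E → ℝ := fun q => min (1 - q.1) ((q.2.2 - a) / (c - a))
  let μ : E → ℝ := fun q => (1 - q.1 - κ q) / 2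
  let ν : E → ℝ := fun q => (q.2.2 - a - κ q * (c - a)) / (b - a)
  let ρ : E → ℝ := fun q => 1 - κ q - μ q - ν q
  let Y : E → ℝ := fun q => (q.2.1 + μ q * ys - ν q * yb) / ρ q
  have hκc : Continuous κ := by
    simp only [κ]
    fun_prop
  have hμc : Continuous μ := by
    simp only [μ]
    fun_prop
  have hνc : Continuous ν := by
    simp only [ν]
    fun_prop
  have hρc : Continuous ρ := by
    simp only [ρ]
    fun_prop
  have hκ0 : κ (1, ys, a) = 0 := by simp [κ]
  have hμ0 : μ (1, ys, a) = 0 := by simp [μ, hκ0]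
  have hν0 : ν (1, ys, a) = 0 := by simp [ν, hκ0]
  have hρ0 : ρ (1, ys, a) = 1 := by simp [ρ, hκ0, hμ0, hν0]
  have hY0 : Y (1, ys, a) = ys := by simp [Y, hμ0, hν0, hρ0]
  have hYc : ContinuousAt Y (1, ys, a) := by
    have e1 : ContinuousAt (fun q : E => q.2.1 + μ q * ys - ν q * yb) (1, ys, a) := by
      fun_prop
    exact e1.div hρc.continuousAt (by rw [hρ0]; norm_num)
  have ev1 : ∀ᶠ q : E in 𝓝 (1, ys, a), 0 < ρ q :=
    hρc.continuousAt.eventually (lt_mem_nhds (by rw [hρ0]; norm_num))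
  have ev2 : ∀ᶠ q : E in 𝓝 (1, ys, a), y1 < Y q :=
    hYc.eventually (lt_mem_nhds (by rw [hY0]; exact hy1))
  have ev3 : ∀ᶠ q : E in 𝓝 (1, ys, a), Y q < y2 :=
    hYc.eventually (gt_mem_nhds (by rw [hY0]; exact hy2))
  filter_upwards [ev1, ev2, ev3] with q q1 q2 q3 hq1 hqa
  have hκ : 0 < κ q := lt_min (by linarith) (div_pos (by linarith) hca)
  have hκ1 : κ q ≤ 1 - q.1 := min_le_left _ _
  have hκ2 : κ q * (c - a) ≤ q.2.2 - a := by
    have : κ q ≤ (q.2.2 - a) / (c - a) := min_le_right _ _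
    rwa [le_div_iff₀ hca] at this
  have hμ : 0 ≤ μ q := by
    simp only [μ]
    linarith
  have hν : 0 ≤ ν q := div_nonneg (by linarith) hba.le
  have hYK : (((1 : ℝ), Y q, a) : E) ∈ K := by
    have := hK h1 h2 (a := (y2 - Y q) / (y2 - y1)) (b := (Y q - y1) / (y2 - y1))
      (div_nonneg (by linarith) (by linarith)) (div_nonneg (by linarith) (by linarith))
      (by
        have : y2 - y1 ≠ 0 := by linarith
        field_simp
        ring)
    convert this using 1
    have h6 : y2 - y1 ≠ 0 := by linarith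
    ext
    · simp only [Prod.fst_add, Prod.smul_fst, smul_eq_mul]
      field_simp
      ring
    · simp only [Prod.fst_add, Prod.smul_fst, Prod.snd_add, Prod.smul_snd, smul_eq_mul]
      field_simp
      ring
    · simp only [Prod.snd_add, Prod.smul_snd, smul_eq_mul]
      field_simp
      ring
  have hρe : ρ q = 1 - κ q - μ q - ν q := rfl
  have hκl : 0 < 1 - κ q := by linarith
  have hr := combo3 hK hs' hb hYK (α := μ q / (1 - κ q)) (β := ν q / (1 - κ q))
    (γ := ρ q / (1 - κ q)) (by positivity) (by positivity) (by positivity) (by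
      field_simp
      linarith)
  have hfin := hK.combo_interior_self_mem_interior hc hr hκ hκl.le (by ring)
  have hμe : 2 * μ q = 1 - q.1 - κ q := by
    simp only [μ]
    ring
  have hνe : ν q * (b - a) = q.2.2 - a - κ q * (c - a) := div_mul_cancel₀ _ hba.ne'
  have hYe : Y q * ρ q = q.2.1 + μ q * ys - ν q * yb := div_mul_cancel₀ _ q1.ne'
  convert hfin using 1
  ext
  · simp only [Prod.fst_add, Prod.smul_fst, smul_eq_mul, J]
    field_simp
    linear_combination -hμe + hρe
  · simp only [Prod.fst_add, Prod.smul_fst, Prod.snd_add, Prod.smul_snd, smul_eq_mul, J]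
    field_simp
    linear_combination -hYe
  · simp only [Prod.snd_add, Prod.smul_snd, smul_eq_mul, J]
    field_simp
    linear_combination -hνe + a * hρe

theorem quarter_top (hK : Convex ℝ K) {a b c y1 y2 ys ya : ℝ}
    (hc : (((0 : ℝ), (0 : ℝ), c) : E) ∈ interior K) (hab : a < b)
    (h1 : (((1 : ℝ), y1, b) : E) ∈ K) (h2 : (((1 : ℝ), y2, b) : E) ∈ K)
    (ha : (((1 : ℝ), ya, a) : E) ∈ K) (hy1 : y1 < ys) (hy2 : ys < y2) :
    ∀ᶠ q : E in 𝓝 (((1 : ℝ), ys, b) : E), q.1 < 1 → q.2.2 - b ≤ (1 - q.1) * (c - b) →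
      q ∈ interior K := by
  have hba : 0 < b - a := by linarith
  let ξ : E → ℝ := fun q => 1 - q.1
  let ν : E → ℝ := fun q => (ξ q * (c - b) - (q.2.2 - b)) / (b - a)
  let ρ : E → ℝ := fun q => 1 - ξ q - ν q
  let Y : E → ℝ := fun q => (q.2.1 - ν q * ya) / ρ q
  have hξc : Continuous ξ := by
    simp only [ξ]
    fun_prop
  have hνc : Continuous ν := by
    simp only [ν]
    fun_prop
  have hρc : Continuous ρ := by
    simp only [ρ]
    fun_prop
  have hξ0 : ξ (1, ys, b) = 0 := by simp [ξ]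
  have hν0 : ν (1, ys, b) = 0 := by simp [ν, hξ0]
  have hρ0 : ρ (1, ys, b) = 1 := by simp [ρ, hξ0, hν0]
  have hY0 : Y (1, ys, b) = ys := by simp [Y, hν0, hρ0]
  have hYc : ContinuousAt Y (1, ys, b) := by
    have e1 : ContinuousAt (fun q : E => q.2.1 - ν q * ya) (1, ys, b) := by
      fun_prop
    exact e1.div hρc.continuousAt (by rw [hρ0]; norm_num)
  have ev1 : ∀ᶠ q : E in 𝓝 (1, ys, b), 0 < ρ q :=
    hρc.continuousAt.eventually (lt_mem_nhds (by rw [hρ0]; norm_num))
  have ev2 : ∀ᶠ q : E in 𝓝 (1, ys, b), y1 < Y q :=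
    hYc.eventually (lt_mem_nhds (by rw [hY0]; exact hy1))
  have ev3 : ∀ᶠ q : E in 𝓝 (1, ys, b), Y q < y2 :=
    hYc.eventually (gt_mem_nhds (by rw [hY0]; exact hy2))
  filter_upwards [ev1, ev2, ev3] with q q1 q2 q3 hq1 hqa
  have hξ : 0 < ξ q := by
    simp only [ξ]
    linarith
  have hν : 0 ≤ ν q := div_nonneg (by simp only [ξ]; linarith) hba.le
  have hYK : (((1 : ℝ), Y q, b) : E) ∈ K := by
    have := hK h1 h2 (a := (y2 - Y q) / (y2 - y1)) (b := (Y q - y1) / (y2 - y1))
      (div_nonneg (by linarith) (by linarith)) (div_nonneg (by linarith) (by linarith))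
      (by
        have : y2 - y1 ≠ 0 := by linarith
        field_simp
        ring)
    convert this using 1
    have h6 : y2 - y1 ≠ 0 := by linarith
    ext
    · simp only [Prod.fst_add, Prod.smul_fst, smul_eq_mul]
      field_simp
      ring
    · simp only [Prod.fst_add, Prod.smul_fst, Prod.snd_add, Prod.smul_snd, smul_eq_mul]
      field_simp
      ring
    · simp only [Prod.snd_add, Prod.smul_snd, smul_eq_mul]
      field_simp
      ring
  have hρe : ρ q = 1 - ξ q - ν q := rfl
  have hκl : 0 < 1 - ξ q := by linarith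
  have hr := hK ha hYK (a := ν q / (1 - ξ q)) (b := ρ q / (1 - ξ q)) (by positivity)
    (by positivity) (by
      field_simp
      linarith)
  have hfin := hK.combo_interior_self_mem_interior hc hr hξ hκl.le (by ring)
  have hξe : ξ q = 1 - q.1 := rfl
  have hνe : ν q * (b - a) = ξ q * (c - b) - (q.2.2 - b) := div_mul_cancel₀ _ hba.ne'
  have hYe : Y q * ρ q = q.2.1 - ν q * ya := div_mul_cancel₀ _ q1.ne'
  convert hfin using 1
  ext
  · simp only [Prod.fst_add, Prod.smul_fst, smul_eq_mul]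
    field_simp
    linear_combination hξe + hρe
  · simp only [Prod.fst_add, Prod.smul_fst, Prod.snd_add, Prod.smul_snd, smul_eq_mul]
    field_simp
    linear_combination -hYe
  · simp only [Prod.snd_add, Prod.smul_snd, smul_eq_mul]
    field_simp
    linear_combination hνe - b * hρe

end Pool.Agent.Zk54
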