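import Pool.Agent.Zk54.UD
import Pool.Agent.Zk54.UE
import Pool.Agent.Zk54.UEdge

/-!
First case, fat face `x = 1`, a deep end.
-/

set_option autoImplicit false

open Set Topology Filter

namespace Pool.Agent.Zk54

variable {K : Set E} {z0 z1 a b : ℝ}

/-- the face `x = 1` -/
def Fc (K : Set E) : Set (ℝ × ℝ) := {w : ℝ × ℝ | (((1 : ℝ), w) : E) ∈ K}

theorem Fc_convex (hK : Convex ℝ K) : Convex ℝ (Fc K) := by
  intro u hu v hv s t hs ht hst
  have := hK hu hv hs ht hst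
  simpa [Fc, hst] using this

/-- points of the face which are not left ends -/
theorem HB'.ill_right (h : HB' K z0 z1) {y y' z yR σ : ℝ} (hp : (((1 : ℝ), y, z) : E) ∈ K)
    (hp' : (((1 : ℝ), y', z) : E) ∈ K) (hy : y' < y) (hR : y ≤ yR) (h0 : z0 < z + σ)
    (h1 : z + σ < z1) : Ill K (-1, -yR, σ) (1, y, z) := by
  by_contra hcon
  obtain ⟨n1, n2, n3, hm, hi, hd⟩ := h.sep hp hcon
  have e1 := hm _ hp'
  have e2 := hi _ (h.ax (z + σ) h0 h1)
  simp only at e1 e2 hd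
  have e3 : 0 ≤ n2 := by
    by_contra hc
    push Not at hc
    have : 0 < (-n2) * (y - y') := mul_pos (by linarith) (by linarith)
    nlinarith
  have e4 : n2 * y ≤ n2 * yR := mul_le_mul_of_nonneg_left hR e3
  nlinarith

theorem HB'.ill_direct (h : HB' K z0 z1) {x y z σ : ℝ} (h0 : z0 < z + σ) (h1 : z + σ < z1) :
    Ill K (-x, -y, σ) (x, y, z) := by
  refine ⟨1, one_pos, ?_⟩
  convert h.ax (z + σ) h0 h1 using 1
  ext <;> simp

theorem UB.edge_bottom (h : UB K z0 z1 a b) (hab : a < b) {s : ℝ} (hs : 0 < s) {ι : Type*}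
    {v : ι → ℝ → E} (i : ι) (hi : ∀ t, v i t = (-t, 1, s * t)) {y y2 : ℝ}
    (hp : (((1 : ℝ), y, a) : E) ∈ K) (hp2 : (((1 : ℝ), y2, a) : E) ∈ K) (hy : y < y2) :
    GoodC K v (1, y, a) := by
  obtain ⟨yb, hyb⟩ := h.fb
  have ha0 : z0 ≤ a := h.lo _ hp
  have hb1 : b ≤ z1 := h.hi _ hyb
  have hev := quarter_bottom (c := (a + z1) / 2) h.conv h.sym
    (h.ax _ (by linarith) (by linarith)) (by linarith) hab hp hp2 hyb
    (ys := y + (y2 - y) / 2) (by linarith) (by linarith)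
  have hcont : ContinuousAt (fun p : ℝ × E => p.2 + ((y2 - y) / 2) • ((-p.1, 1, s * p.1) : E))
      ((0 : ℝ), (((1 : ℝ), y, a) : E)) := by fun_prop
  have h2 : (fun p : ℝ × E => p.2 + ((y2 - y) / 2) • ((-p.1, 1, s * p.1) : E))
      ((0 : ℝ), (((1 : ℝ), y, a) : E)) = (1, y + (y2 - y) / 2, a) := by
    ext <;> simp
  have h3 := hcont.eventually (by rw [h2]; exact hev)
  refine h3.mono fun p hp hp0 hpK => ⟨i, (y2 - y) / 2, by linarith, ?_⟩
  rw [hi]
  have h4 := h.con _ hpK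
  have h5 := h.w _ hpK.1
  have h6 : 0 < (y2 - y) / 2 * p.1 := mul_pos (by linarith) hp0
  have h7 : 0 < (y2 - y) / 2 * (s * p.1) := mul_pos (by linarith) (mul_pos hs hp0)
  refine hp ?_ ?_
  · simp only [Prod.fst_add, Prod.smul_fst, smul_eq_mul]
    linarith
  · simp only [Prod.snd_add, Prod.smul_snd, smul_eq_mul]
    linarith

theorem UB.edge_top (h : UB K z0 z1 a b) (hab : a < b) {s : ℝ} (hs : 0 < s)
    (hs1 : 2 * s ≤ z1 - b) {ι : Type*}
    {v : ι → ℝ → E} (i : ι) (hi : ∀ t, v i t = (-t, 1, s * t)) {y y2 : ℝ}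
    (hp : (((1 : ℝ), y, b) : E) ∈ K) (hp2 : (((1 : ℝ), y2, b) : E) ∈ K) (hy : y < y2) :
    GoodC K v (1, y, b) := by
  obtain ⟨ya, hya⟩ := h.fa
  have ha0 : z0 ≤ a := h.lo _ hya
  have hev := quarter_top (c := (b + z1) / 2) h.conv
    (h.ax _ (by linarith) (by linarith)) hab hp hp2 hya
    (ys := y + (y2 - y) / 2) (by linarith) (by linarith)
  have hcont : ContinuousAt (fun p : ℝ × E => p.2 + ((y2 - y) / 2) • ((-p.1, 1, s * p.1) : E))
      ((0 : ℝ), (((1 : ℝ), y, b) : E)) := by fun_prop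
  have h2 : (fun p : ℝ × E => p.2 + ((y2 - y) / 2) • ((-p.1, 1, s * p.1) : E))
      ((0 : ℝ), (((1 : ℝ), y, b) : E)) = (1, y + (y2 - y) / 2, b) := by
    ext <;> simp
  have h3 := hcont.eventually (by rw [h2]; exact hev)
  refine h3.mono fun p hp hp0 hpK => ⟨i, (y2 - y) / 2, by linarith, ?_⟩
  rw [hi]
  have h4 := h.con _ hpK
  have h5 := h.w _ hpK.1
  have h6 : 0 < (y2 - y) / 2 * p.1 := mul_pos (by linarith) hp0
  refine hp ?_ ?_
  · simp only [Prod.fst_add, Prod.smul_fst, smul_eq_mul]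
    linarith
  · simp only [Prod.fst_add, Prod.smul_fst, Prod.snd_add, Prod.smul_snd, smul_eq_mul]
    have h7 : (y2 - y) / 2 * p.1 * s ≤ (y2 - y) / 2 * p.1 * ((b + z1) / 2 - b) :=
      mul_le_mul_of_nonneg_left (by linarith) h6.le
    have h8 : 0 ≤ (1 - p.2.1) * ((b + z1) / 2 - b) := mul_nonneg (by linarith) (by linarith)
    nlinarith [h4.2]

/-- the levels of interior points of the face -/
theorem UB.int_levels (h : UB K z0 z1 a b) {w : ℝ × ℝ} (hw : w ∈ interior (Fc K)) :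
    a < w.2 ∧ w.2 < b := by
  have hcont : ContinuousAt (fun s : ℝ => ((w.1, w.2 + s) : ℝ × ℝ)) 0 := by fun_prop
  have h1 := hcont.eventually_mem (isOpen_interior.mem_nhds (by simpa using hw))
  obtain ⟨ε, hε, h2⟩ := Metric.eventually_nhds_iff.1 h1
  have h3 : dist (ε / 2) 0 < ε := by
    rw [Real.dist_eq, sub_zero, abs_of_pos (by linarith)]
    linarith
  have h4 : dist (-(ε / 2)) 0 < ε := by
    rw [Real.dist_eq, sub_zero, abs_neg, abs_of_pos (by linarith)]
    linarith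
  have e5 : ((w.1, w.2 + ε / 2) : ℝ × ℝ) ∈ Fc K := interior_subset (h2 h3)
  have e6 : ((w.1, w.2 + -(ε / 2)) : ℝ × ℝ) ∈ Fc K := interior_subset (h2 h4)
  have h5 := UD.face_levels h (p := (1, w.1, w.2 + ε / 2)) e5 rfl
  have h6 := UD.face_levels h (p := (1, w.1, w.2 + -(ε / 2))) e6 rfl
  simp only at h5 h6
  constructor <;> linarith

/-- an interior point of the face at each level strictly between -/
theorem UB.inner (h : UB K z0 z1 a b) (hF : (interior (Fc K)).Nonempty) {z : ℝ} (ha : a < z)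
    (hb : z < b) : ∃ c : ℝ, ((c, z) : ℝ × ℝ) ∈ interior (Fc K) := by
  obtain ⟨w, hw⟩ := hF
  obtain ⟨ya, hya⟩ := h.fa
  obtain ⟨yb, hyb⟩ := h.fb
  have hya' : ((ya, a) : ℝ × ℝ) ∈ Fc K := hya
  have hyb' : ((yb, b) : ℝ × ℝ) ∈ Fc K := hyb
  obtain ⟨hwa, hwb⟩ := h.int_levels hw
  rcases le_total z w.2 with hz | hz
  · have h1 : 0 < w.2 - a := by linarith
    have := (Fc_convex h.conv).combo_interior_self_mem_interior hw hya'
      (a := (z - a) / (w.2 - a)) (b := (w.2 - z) / (w.2 - a)) (div_pos (by linarith) h1)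
      (div_nonneg (by linarith) h1.le) (by field_simp; ring)
    refine ⟨(z - a) / (w.2 - a) * w.1 + (w.2 - z) / (w.2 - a) * ya, ?_⟩
    convert this using 1
    ext
    · simp
    · simp only [Prod.snd_add, Prod.smul_snd, smul_eq_mul]
      field_simp
      ring
  · have h1 : 0 < b - w.2 := by linarith
    have := (Fc_convex h.conv).combo_interior_self_mem_interior hw hyb'
      (a := (b - z) / (b - w.2)) (b := (z - w.2) / (b - w.2)) (div_pos (by linarith) h1)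
      (div_nonneg (by linarith) h1.le) (by field_simp; ring)
    refine ⟨(b - z) / (b - w.2) * w.1 + (z - w.2) / (b - w.2) * yb, ?_⟩
    convert this using 1
    ext
    · simp
    · simp only [Prod.snd_add, Prod.smul_snd, smul_eq_mul]
      field_simp
      ring

/-- an interior point of the face in each column strictly between two points -/
theorem Fc_column (hK : Convex ℝ K) (hF : (interior (Fc K)).Nonempty) {u v : ℝ × ℝ}
    (hu : u ∈ Fc K) (hv : v ∈ Fc K) {y : ℝ} (h1 : u.1 < y) (h2 : y < v.1) :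
    ∃ z : ℝ, ((y, z) : ℝ × ℝ) ∈ interior (Fc K) := by
  obtain ⟨w, hw⟩ := hF
  rcases le_total y w.1 with hz | hz
  · have h1 : 0 < w.1 - u.1 := by linarith
    have := (Fc_convex hK).combo_interior_self_mem_interior hw hu
      (a := (y - u.1) / (w.1 - u.1)) (b := (w.1 - y) / (w.1 - u.1)) (div_pos (by linarith) h1)
      (div_nonneg (by linarith) h1.le) (by field_simp; ring)
    refine ⟨(y - u.1) / (w.1 - u.1) * w.2 + (w.1 - y) / (w.1 - u.1) * u.2, ?_⟩
    convert this using 1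
    ext
    · simp only [Prod.fst_add, Prod.smul_fst, smul_eq_mul]
      field_simp
      ring
    · simp
  · have h1 : 0 < v.1 - w.1 := by linarith
    have := (Fc_convex hK).combo_interior_self_mem_interior hw hv
      (a := (v.1 - y) / (v.1 - w.1)) (b := (y - w.1) / (v.1 - w.1)) (div_pos (by linarith) h1)
      (div_nonneg (by linarith) h1.le) (by field_simp; ring)
    refine ⟨(v.1 - y) / (v.1 - w.1) * w.2 + (y - w.1) / (v.1 - w.1) * v.2, ?_⟩
    convert this using 1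
    ext
    · simp only [Prod.fst_add, Prod.smul_fst, smul_eq_mul]
      field_simp
      ring
    · simp

/-- small horizontal moves from an interior point stay in the interior -/
theorem Fc_move {y z : ℝ} (h : ((y, z) : ℝ × ℝ) ∈ interior (Fc K)) :
    ∃ l : ℝ, 0 < l ∧ ((y + l, z) : ℝ × ℝ) ∈ interior (Fc K) ∧ (((1 : ℝ), y - l, z) : E) ∈ K := by
  have hcont : ContinuousAt (fun s : ℝ => ((y + s, z) : ℝ × ℝ)) 0 := by fun_prop
  have h1 := hcont.eventually_mem (isOpen_interior.mem_nhds (by simpa using h))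
  obtain ⟨ε, hε, h2⟩ := Metric.eventually_nhds_iff.1 h1
  have h3 : dist (ε / 2) 0 < ε := by
    rw [Real.dist_eq, sub_zero, abs_of_pos (by linarith)]
    linarith
  have h4 : dist (-(ε / 2)) 0 < ε := by
    rw [Real.dist_eq, sub_zero, abs_neg, abs_of_pos (by linarith)]
    linarith
  refine ⟨ε / 2, by linarith, h2 h3, ?_⟩
  have := interior_subset (h2 h4)
  simpa [Fc, sub_eq_add_neg] using this

/-- the set `(-t,1,st)`, `(-1,-yR,s)`, `(-1,-y1,s)` and mirror images, vertical directions -/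
theorem UB.cov_right (h : UB K z0 z1 a b) (hb : b < z1) (hF : (interior (Fc K)).Nonempty)
    {yR y1 : ℝ} (hR : ∀ y z : ℝ, (((1 : ℝ), y, z) : E) ∈ K → y ≤ yR)
    (H : ∀ y z : ℝ, (((1 : ℝ), y, z) : E) ∈ K → (z = a ∨ z = b) →
      (∀ y' : ℝ, (((1 : ℝ), y', z) : E) ∈ K → y' = y) → y = y1 ∨ y = yR) : Cov8 K := by
  obtain ⟨w, hw⟩ := hF
  obtain ⟨hwa, hwb⟩ := h.int_levels hw
  have hab : a < b := hwa.trans hwb
  have hF : (interior (Fc K)).Nonempty := ⟨w, hw⟩
  obtain ⟨s, hs⟩ : ∃ s : ℝ, s = (z1 - b) / 2 := ⟨_, rfl⟩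
  have hs0 : 0 < s := by rw [hs]; linarith
  refine h.cover_D hb hs0 (-1, -yR, s) (-1, -y1, s) fun p hp hp1 => ?_
  obtain ⟨x, y, z⟩ := p
  simp only at hp1
  subst hp1
  obtain ⟨hza, hzb⟩ := UD.face_levels h hp rfl
  simp only at hza hzb
  have hz0 := h.lo _ hp
  simp only at hz0
  by_cases hα : ∃ l : ℝ, 0 < l ∧ ((y + l, z) : ℝ × ℝ) ∈ interior (Fc K)
  · obtain ⟨l, hl, hli⟩ := hα
    exact (h.toHB'.good_wedge h.w (i := (0 : Fin 6)) (b := 1) (c := 0)
      (w := fun t => (1, s * t)) (by fun_prop) (by simp) (fun t => rfl) hl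
      (by simpa [Fc] using hli)).goodC
  by_cases hδ : ∃ y' : ℝ, y' < y ∧ (((1 : ℝ), y', z) : E) ∈ K
  · obtain ⟨y', hy', hpy'⟩ := hδ
    refine (GoodAt.of_ill (v := vD s (-1, -yR, s) (-1, -y1, s)) 2 continuousAt_const ?_).goodC
    exact h.toHB'.ill_right hp hpy' hy' (hR _ _ hp) (by linarith) (by linarith)
  push Not at hα hδ
  have hext : z = a ∨ z = b := by
    rcases hza.lt_or_eq with h1 | h1
    · rcases hzb.lt_or_eq with h2 | h2
      · exfalso
        obtain ⟨c, hc⟩ := h.inner hF h1 h2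
        have hc' : ((c, z) : ℝ × ℝ) ∈ Fc K := interior_subset hc
        rcases lt_trichotomy c y with h3 | h3 | h3
        · exact hδ c h3 hc'
        · subst h3
          obtain ⟨l, hl, hl2, _⟩ := Fc_move hc
          exact hα l hl hl2
        · exact hα (c - y) (by linarith) (by simpa using hc)
      · exact Or.inr h2
    · exact Or.inl h1.symm
  by_cases hβ : ∃ y2 : ℝ, y < y2 ∧ (((1 : ℝ), y2, z) : E) ∈ K
  · obtain ⟨y2, hy2, hp2⟩ := hβ
    rcases hext with rfl | rfl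
    · exact h.edge_bottom hab hs0 0 (fun t => rfl) hp hp2 hy2
    · exact h.edge_top hab hs0 (by linarith) 0 (fun t => rfl) hp hp2 hy2
  push Not at hβ
  have huniq : ∀ y' : ℝ, (((1 : ℝ), y', z) : E) ∈ K → y' = y := by
    intro y' hy'
    rcases lt_trichotomy y' y with h1 | h1 | h1
    · exact absurd hy' (hδ y' h1)
    · exact h1
    · exact absurd hy' (hβ y' h1)
  rcases H y z hp hext huniq with rfl | rfl
  · refine (GoodAt.of_ill (v := vD s (-1, -yR, s) (-1, -y, s)) 4 continuousAt_const ?_).goodC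
    exact h.toHB'.ill_direct (by linarith) (by linarith)
  · refine (GoodAt.of_ill (v := vD s (-1, -y, s) (-1, -y1, s)) 2 continuousAt_const ?_).goodC
    exact h.toHB'.ill_direct (by linarith) (by linarith)

/-- both extreme points of the face are not corners -/
theorem UB.cov_noncorner (h : UB K z0 z1 a b) (hb : b < z1) (hF : (interior (Fc K)).Nonempty)
    {ya yb : ℝ} (ha : ∀ y : ℝ, (((1 : ℝ), y, a) : E) ∈ K → y = ya)
    (hb' : ∀ y : ℝ, (((1 : ℝ), y, b) : E) ∈ K → y = yb)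
    (ha1 : ∃ u ∈ Fc K, u.1 < ya) (ha2 : ∃ u ∈ Fc K, ya < u.1)
    (hb1 : ∃ u ∈ Fc K, u.1 < yb) (hb2 : ∃ u ∈ Fc K, yb < u.1) : Cov8 K := by
  refine h.cover_N hb fun p hp hp1 => ?_
  obtain ⟨x, y, z⟩ := p
  simp only at hp1
  subst hp1
  obtain ⟨hza, hzb⟩ := UD.face_levels h hp rfl
  simp only at hza hzb ⊢
  rcases hza.lt_or_eq with h1 | h1
  · rcases hzb.lt_or_eq with h2 | h2
    · obtain ⟨c, hc⟩ := h.inner hF h1 h2
      rcases lt_trichotomy c y with h3 | h3 | h3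
      · exact ⟨y - c, by linarith, Or.inr (Or.inl (by simpa [Fc] using hc))⟩
      · subst h3
        obtain ⟨l, hl, hl2, _⟩ := Fc_move hc
        exact ⟨l, hl, Or.inl hl2⟩
      · exact ⟨c - y, by linarith, Or.inl (by simpa [Fc] using hc)⟩
    · subst h2
      have hy := hb' y hp
      subst hy
      obtain ⟨u, hu, hu1⟩ := hb1
      obtain ⟨v, hv, hv1⟩ := hb2
      obtain ⟨z', hz'⟩ := Fc_column h.conv hF hu hv hu1 hv1
      have := h.int_levels hz'
      simp only at this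
      exact ⟨z - z', by linarith, Or.inr (Or.inr (Or.inr (by simpa [Fc] using hz')))⟩
  · subst h1
    have hy := ha y hp
    subst hy
    obtain ⟨u, hu, hu1⟩ := ha1
    obtain ⟨v, hv, hv1⟩ := ha2
    obtain ⟨z', hz'⟩ := Fc_column h.conv hF hu hv hu1 hv1
    have := h.int_levels hz'
    simp only at this
    exact ⟨z' - a, by linarith, Or.inr (Or.inr (Or.inl (by simpa [Fc] using hz')))⟩

/-- reflection `y → -y` -/
theorem UB.refl_y (h : UB K z0 z1 a b) : UB {p | T 1 0 0 (-1) 1 0 p ∈ K} z0 z1 a b := by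
  have hm : (1 : ℝ) * (-1) - 0 * 0 ≠ 0 := by norm_num
  have hT : ∀ p : E, T 1 0 0 (-1) 1 0 p = (p.1, -p.2.1, p.2.2) := by
    intro p
    simp [T]
  have h1 := h.toHB'.T_pos (d := 0) hm one_pos
  rw [sub_zero, sub_zero, div_one, div_one] at h1
  refine { toHB' := h1, w := ?_, hab := h.hab, con := ?_, fa := ?_, fb := ?_ }
  · intro p hp
    have := h.w _ hp
    rwa [hT] at this
  · intro p hp
    have := h.con _ ((con_T hm one_ne_zero).1 hp)
    rwa [hT] at this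
  · obtain ⟨y, hy⟩ := h.fa
    refine ⟨-y, ?_⟩
    change T 1 0 0 (-1) 1 0 (1, -y, a) ∈ K
    rw [hT]
    simpa using hy
  · obtain ⟨y, hy⟩ := h.fb
    refine ⟨-y, ?_⟩
    change T 1 0 0 (-1) 1 0 (1, -y, b) ∈ K
    rw [hT]
    simpa using hy

/-- upside down -/
theorem UB.refl_z (h : UB K z0 z1 a b) :
    UB {p | T 1 0 0 1 (-1) 0 p ∈ K} (-z1) (-z0) (-b) (-a) := by
  have hm : (1 : ℝ) * 1 - 0 * 0 ≠ 0 := by norm_num
  have hk : (-1 : ℝ) ≠ 0 := by norm_num
  have hT : ∀ p : E, T 1 0 0 1 (-1) 0 p = (p.1, p.2.1, -p.2.2) := by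
    intro p
    simp [T]
  have h1 := h.toHB'.T_neg (k := -1) (d := 0) hm (by norm_num)
  rw [sub_zero, sub_zero, div_neg, div_one, div_neg, div_one] at h1
  refine { toHB' := h1, w := ?_, hab := by linarith [h.hab], con := ?_, fa := ?_, fb := ?_ }
  · intro p hp
    have := h.w _ hp
    rwa [hT] at this
  · intro p hp
    have := h.con _ ((con_T hm hk).1 hp)
    rw [hT] at this
    simp only at this
    constructor <;> linarith
  · obtain ⟨y, hy⟩ := h.fb
    refine ⟨y, ?_⟩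
    change T 1 0 0 1 (-1) 0 (1, y, -b) ∈ K
    rw [hT]
    simpa using hy
  · obtain ⟨y, hy⟩ := h.fa
    refine ⟨y, ?_⟩
    change T 1 0 0 1 (-1) 0 (1, y, -a) ∈ K
    rw [hT]
    simpa using hy

/-- the interior of the face of the reflected bodies -/
theorem Fc_refl_y (hF : (interior (Fc K)).Nonempty) :
    (interior (Fc {p | T 1 0 0 (-1) 1 0 p ∈ K})).Nonempty := by
  obtain ⟨w, hw⟩ := hF
  refine ⟨(-w.1, w.2), ?_⟩
  have hc : Continuous fun u : ℝ × ℝ => ((-u.1, u.2) : ℝ × ℝ) := by fun_prop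
  refine mem_interior.2 ⟨(fun u : ℝ × ℝ => ((-u.1, u.2) : ℝ × ℝ)) ⁻¹' interior (Fc K), ?_,
    isOpen_interior.preimage hc, ?_⟩
  · intro u hu
    have h1 : ((-u.1, u.2) : ℝ × ℝ) ∈ Fc K := interior_subset hu
    have h2 : (((1 : ℝ), -u.1, u.2) : E) ∈ K := h1
    change T 1 0 0 (-1) 1 0 (1, u) ∈ K
    simpa [T] using h2
  · simpa using hw

theorem Fc_refl_z (hF : (interior (Fc K)).Nonempty) :
    (interior (Fc {p | T 1 0 0 1 (-1) 0 p ∈ K})).Nonempty := by
  obtain ⟨w, hw⟩ := hF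
  refine ⟨(w.1, -w.2), ?_⟩
  have hc : Continuous fun u : ℝ × ℝ => ((u.1, -u.2) : ℝ × ℝ) := by fun_prop
  refine mem_interior.2 ⟨(fun u : ℝ × ℝ => ((u.1, -u.2) : ℝ × ℝ)) ⁻¹' interior (Fc K), ?_,
    isOpen_interior.preimage hc, ?_⟩
  · intro u hu
    have h1 : ((u.1, -u.2) : ℝ × ℝ) ∈ Fc K := interior_subset hu
    have h2 : (((1 : ℝ), u.1, -u.2) : E) ∈ K := h1
    change T 1 0 0 1 (-1) 0 (1, u) ∈ K
    simpa [T] using h2
  · simpa using hw

theorem two_vals {a b t1 t2 t3 : ℝ} (h1 : t1 = a ∨ t1 = b) (h2 : t2 = a ∨ t2 = b)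
    (h3 : t3 = a ∨ t3 = b) (h12 : t1 ≠ t2) (h31 : t3 ≠ t1) : t3 = t2 := by
  rcases h1 with h1 | h1 <;> rcases h2 with h2 | h2 <;> rcases h3 with h3 | h3
  · exact h3.trans h2.symm
  · exact absurd (h1.trans h2.symm) h12
  · exact absurd (h3.trans h1.symm) h31
  · exact h3.trans h2.symm
  · exact h3.trans h2.symm
  · exact absurd (h3.trans h1.symm) h31
  · exact absurd (h1.trans h2.symm) h12
  · exact h3.trans h2.symm

theorem UB.cov_fat_top (h : UB K z0 z1 a b) (hb : b < z1)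
    (hF : (interior (Fc K)).Nonempty) : Cov8 K := by
  -- the extreme values of `y` on the face
  have hFc : IsCompact (Fc K) := by
    have h1 : IsCompact (K ∩ {p : E | p.1 = 1}) :=
      h.comp.inter_right (isClosed_eq continuous_fst continuous_const)
    have h2 : Fc K = Prod.snd '' (K ∩ {p : E | p.1 = 1}) := by
      ext w
      constructor
      · intro hw
        exact ⟨(1, w), ⟨hw, rfl⟩, rfl⟩
      · rintro ⟨⟨x, u⟩, ⟨hp, hx⟩, rfl⟩
        change x = 1 at hx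
        subst hx
        exact hp
    rw [h2]
    exact h1.image continuous_snd
  have hne : (Fc K).Nonempty := hF.mono interior_subset
  obtain ⟨uR, huR, hmax⟩ := hFc.exists_isMaxOn hne (f := Prod.fst) continuous_fst.continuousOn
  obtain ⟨uL, huL, hmin⟩ := hFc.exists_isMinOn hne (f := Prod.fst) continuous_fst.continuousOn
  have hR : ∀ y z : ℝ, (((1 : ℝ), y, z) : E) ∈ K → y ≤ uR.1 := fun y z hp =>
    hmax (show ((y, z) : ℝ × ℝ) ∈ Fc K from hp)
  have hL : ∀ y z : ℝ, (((1 : ℝ), y, z) : E) ∈ K → uL.1 ≤ y := fun y z hp =>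
    hmin (show ((y, z) : ℝ × ℝ) ∈ Fc K from hp)
  by_cases hW : ∃ y1 : ℝ, ∀ y z : ℝ, (((1 : ℝ), y, z) : E) ∈ K → (z = a ∨ z = b) →
      (∀ y' : ℝ, (((1 : ℝ), y', z) : E) ∈ K → y' = y) → y = y1 ∨ y = uR.1
  · obtain ⟨y1, hy1⟩ := hW
    exact h.cov_right hb hF hR hy1
  by_cases hW' : ∃ y1 : ℝ, ∀ y z : ℝ, (((1 : ℝ), y, z) : E) ∈ K → (z = a ∨ z = b) →
      (∀ y' : ℝ, (((1 : ℝ), y', z) : E) ∈ K → y' = y) → y = y1 ∨ y = uL.1
  · obtain ⟨y1, hy1⟩ := hW'
    have hT : ∀ y z : ℝ, ((((1 : ℝ), y, z) : E) ∈ {p | T 1 0 0 (-1) 1 0 p ∈ K}) ↔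
        (((1 : ℝ), -y, z) : E) ∈ K := by
      intro y z
      simp [T]
    refine Cov8.of_T (m11 := 1) (m12 := 0) (m21 := 0) (m22 := -1) (k := 1) (d := 0)
      (by norm_num) one_ne_zero ?_
    refine h.refl_y.cov_right hb (Fc_refl_y hF) (yR := -uL.1) (y1 := -y1) ?_ ?_
    · intro y z hp
      have := hL _ _ ((hT y z).1 hp)
      linarith
    · intro y z hp hz hu
      have h2 := hy1 (-y) z ((hT y z).1 hp) hz (fun y' hy' => by
        have := hu (-y') ((hT (-y') z).2 (by rwa [neg_neg]))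
        linarith)
      rcases h2 with h2 | h2
      · left
        linarith
      · right
        linarith
  push Not at hW hW'
  obtain ⟨y1, t1, hp1, ht1, hu1, -, hn1⟩ := hW 0
  obtain ⟨y2, t2, hp2, ht2, hu2, hne2, hn2⟩ := hW y1
  obtain ⟨y3, t3, hp3, ht3, hu3, hne3, hn3⟩ := hW' y1
  obtain ⟨y4, t4, hp4, ht4, hu4, hne4, hn4⟩ := hW' y2
  have h12 : t1 ≠ t2 := by
    intro h0
    rw [h0] at hu1
    exact hne2 (hu1 _ hp2)
  have h13 : t3 ≠ t1 := by
    intro h0
    rw [← h0] at hu1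
    exact hne3 (hu1 _ hp3)
  have h24 : t4 ≠ t2 := by
    intro h0
    rw [← h0] at hu2
    exact hne4 (hu2 _ hp4)
  have h32 : t3 = t2 := two_vals ht1 ht2 ht3 h12 h13
  have h41 : t4 = t1 := two_vals ht2 ht1 ht4 h12.symm h24
  have e3 : y3 = y2 := by
    rw [h32] at hp3
    exact hu2 _ hp3
  have e4 : y4 = y1 := by
    rw [h41] at hp4
    exact hu1 _ hp4
  rw [e3] at hn3
  rw [e4] at hn4
  have q1 : ∃ u ∈ Fc K, u.1 < y1 := ⟨uL, huL, lt_of_le_of_ne (hL _ _ hp1) (Ne.symm hn4)⟩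
  have q2 : ∃ u ∈ Fc K, y1 < u.1 := ⟨uR, huR, lt_of_le_of_ne (hR _ _ hp1) hn1⟩
  have q3 : ∃ u ∈ Fc K, u.1 < y2 := ⟨uL, huL, lt_of_le_of_ne (hL _ _ hp2) (Ne.symm hn3)⟩
  have q4 : ∃ u ∈ Fc K, y2 < u.1 := ⟨uR, huR, lt_of_le_of_ne (hR _ _ hp2) hn2⟩
  rcases ht1 with h0 | h0
  · rcases ht2 with h5 | h5
    · exact absurd (h0.trans h5.symm) h12
    · subst h0
      subst h5
      exact h.cov_noncorner hb hF hu1 hu2 q1 q2 q3 q4
  · rcases ht2 with h5 | h5
    · subst h0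
      subst h5
      exact h.cov_noncorner hb hF hu2 hu1 q3 q4 q1 q2
    · exact absurd (h0.trans h5.symm) h12

theorem UB.cov_fat (h : UB K z0 z1 a b)
    (hF : (interior {w : ℝ × ℝ | (((1 : ℝ), w) : E) ∈ K}).Nonempty) : Cov8 K := by
  have hF' : (interior (Fc K)).Nonempty := hF
  obtain ⟨ya, hya⟩ := h.fa
  obtain ⟨yb, hyb⟩ := h.fb
  have h0 : z0 ≤ a := h.lo _ hya
  have h1 : b ≤ z1 := h.hi _ hyb
  rcases h1.lt_or_eq with h1 | h1
  · exact h.cov_fat_top h1 hF'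
  rcases h0.lt_or_eq with h0 | h0
  · refine Cov8.of_T (m11 := 1) (m12 := 0) (m21 := 0) (m22 := 1) (k := -1) (d := 0)
      (by norm_num) (by norm_num) ?_
    exact h.refl_z.cov_fat_top (by linarith) (Fc_refl_z hF')
  · subst h0
    subst h1
    exact h.cov_fat_flat hF

end Pool.Agent.Zk54
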