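import Pool.Agent.Zk54.Basic

/-!
Third case: the low region.
-/

set_option autoImplicit false

open Set Topology Filter

namespace Pool.Agent.Zk54

variable {K : Set E} {z0 z1 : ℝ}

/-- the algebra behind `YB.low_region`, slope `1` -/
theorem low_alg1 {α β h ρ θ n1 n2 n3 : ℝ} (hα : 0 ≤ α) (hh : 0 ≤ h) (hρ : 2 ≤ ρ) (hθ : 1 < θ)
    (L1 : |α - ρ * β| ≤ 1 - θ * h) (L2 : α + |β| ≤ 1)
    (a : n2 + n3 ≤ n1 * α + n2 * β - n3 * h) (b : -n2 + n3 ≤ n1 * α + n2 * β - n3 * h)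
    (d : -n1 ≤ n1 * α + n2 * β - n3 * h)
    (e : n1 ≤ n3) (f : n1 ≠ 0 ∨ n2 ≠ 0 ∨ n3 ≠ 0) :
    (α = 1 ∧ β = 0 ∧ h = 0) ∨ (α = 0 ∧ β = -(1 / 2) ∧ h = 0) ∨
      (n3 < 0 ∧ n1 = n3 ∧ n2 = -2 * n3 ∧ h = 0 ∧ 2 * β = 1 + α) := by
  have hB : 0 ≤ |β| := abs_nonneg β
  obtain ⟨l1, l2⟩ := abs_le.1 L1
  have hn2 : |n2| ≤ n1 * α + n2 * β - n3 * h - n3 := abs_le.2 ⟨by linarith, by linarith⟩
  have hu : 0 ≤ |n2| := abs_nonneg n2
  have hm : n2 * β ≤ |n2| * |β| := by
    rw [← abs_mul]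
    exact le_abs_self _
  have hβ1 : |β| < 1 := by
    rcases le_total 0 β with h0 | h0
    · rw [abs_of_nonneg h0] at L2 ⊢
      nlinarith [mul_nonneg (by linarith : (0 : ℝ) ≤ ρ - 2) h0, mul_nonneg (by linarith : (0 : ℝ) ≤ θ) hh]
    · rw [abs_of_nonpos h0] at L2 ⊢
      nlinarith [mul_nonneg (by linarith : (0 : ℝ) ≤ ρ - 2) (by linarith : 0 ≤ -β),
        mul_nonneg (by linarith : (0 : ℝ) ≤ θ) hh]
  have hh1 : h < 1 := by
    by_contra hcon
    push Not at hcon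
    have h1 : 0 ≤ 1 - θ * h := (abs_nonneg _).trans L1
    nlinarith
  have hub : 0 ≤ |n2| * (1 - |β|) := mul_nonneg hu (by linarith)
  rcases lt_or_ge 0 n1 with h1 | h1
  · -- `n1 > 0`
    left
    have e1 : n1 * (1 + h) ≤ n3 * (1 + h) := mul_le_mul_of_nonneg_right e (by linarith)
    have e2 : n1 * α ≤ n1 * (1 - |β|) := mul_le_mul_of_nonneg_left (by linarith) h1.le
    have e3 : 0 ≤ n1 * h := mul_nonneg h1.le hh
    have e4 : 0 ≤ n1 * |β| := mul_nonneg h1.le hB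
    have e5 : n1 * h = 0 := by nlinarith
    have e6 : n1 * |β| = 0 := by nlinarith
    have h0 : h = 0 := (mul_eq_zero.1 e5).resolve_left h1.ne'
    have hb0 : |β| = 0 := (mul_eq_zero.1 e6).resolve_left h1.ne'
    have e7 : n1 ≤ n1 * α := by
      rw [h0] at e1 hn2
      rw [hb0] at hub hm
      nlinarith
    have hα1 : 1 ≤ α := by
      by_contra hcon
      push Not at hcon
      nlinarith
    exact ⟨by linarith, abs_eq_zero.1 hb0, h0⟩
  · rcases lt_or_ge n3 0 with h3 | h3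
    · right
      have s1 : -n1 * (1 + α) ≤ n2 * β - n3 * h := by linarith
      have s2 : |n2| - |n2| * |β| + -n1 * α ≤ -n3 * (1 + h) := by linarith
      have s1' : -n1 * (1 + α) + n3 * h ≤ |n2| * |β| := by linarith
      have s1'' : -n3 * (1 + α - h) ≤ |n2| * |β| := by
        have : -n3 * (1 + α) ≤ -n1 * (1 + α) :=
          mul_le_mul_of_nonneg_right (by linarith) (by linarith)
        nlinarith
      have s2'' : |n2| * (1 - |β|) + -n3 * α ≤ -n3 * (1 + h) := by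
        have : -n3 * α ≤ -n1 * α := mul_le_mul_of_nonneg_right (by linarith) hα
        nlinarith
      have s3 : 1 + α - h ≤ 2 * |β| := by
        have e1 := mul_le_mul_of_nonneg_right s1'' (by linarith : 0 ≤ 1 - |β|)
        have e2 := mul_le_mul_of_nonneg_right s2'' hB
        have e3 : -n3 * (1 + α - h) ≤ -n3 * (2 * |β|) := by nlinarith
        exact le_of_mul_le_mul_left e3 (by linarith)
      rcases lt_or_ge β 0 with hb | hb
      · left
        rw [abs_of_neg hb] at s3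
        have e1 : 0 ≤ (ρ - 2) * -β := mul_nonneg (by linarith) (by linarith)
        have e2 : 0 ≤ (θ - 1) * h := mul_nonneg (by linarith) hh
        have e3 : α = 0 := by nlinarith
        have e4 : (θ - 1) * h = 0 := by nlinarith
        have e5 : h = 0 := (mul_eq_zero.1 e4).resolve_left (by linarith)
        rw [e3, e5] at s3
        rw [e3, e5] at l2
        exact ⟨e3, by nlinarith, e5⟩
      · right
        rw [abs_of_nonneg hb] at s3 s2 hβ1 s2'' s1''
        have e1 : 0 ≤ (ρ - 2) * β := mul_nonneg (by linarith) hb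
        have e2 : 0 ≤ (θ - 1) * h := mul_nonneg (by linarith) hh
        have e4 : (θ - 1) * h = 0 := by nlinarith
        have e5 : h = 0 := (mul_eq_zero.1 e4).resolve_left (by linarith)
        rw [e5] at s1 s2 s3 l1 l2 s1'' s2''
        have e6 : 2 * β = 1 + α := by nlinarith
        have hb0 : 0 < β := by linarith
        -- `n2 ≥ 2 j`
        have e7 : -n1 * (2 * β) ≤ n2 * β := by
          rw [e6]; linarith
        have e8 : 2 * -n1 ≤ n2 := by
          have : (2 * -n1) * β ≤ n2 * β := by linarith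
          exact le_of_mul_le_mul_right this hb0
        have e9 : |n2| = n2 := abs_of_nonneg (by linarith)
        rw [e9] at s2
        have hα' : α = 2 * β - 1 := by linarith
        have e10 : 2 * -n1 * (1 - β) ≤ n2 * (1 - β) :=
          mul_le_mul_of_nonneg_right e8 (by linarith)
        have e11 : n1 = n3 := by
          rw [hα'] at s2
          nlinarith
        have e12 : n2 * (1 - β) ≤ (-2 * n3) * (1 - β) := by
          rw [hα', e11] at s2
          nlinarith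
        have e13 : n2 ≤ -2 * n3 := le_of_mul_le_mul_right e12 (by linarith)
        exact ⟨h3, e11, by linarith, e5, e6⟩
    · exfalso
      have e1 : n1 * α ≤ 0 := mul_nonpos_of_nonpos_of_nonneg h1 hα
      have e2 : 0 ≤ n3 * h := mul_nonneg h3 hh
      have e3 : |n2| * (1 - |β|) = 0 := by nlinarith
      have e4 : |n2| = 0 := (mul_eq_zero.1 e3).resolve_right (by linarith)
      have e5 : n2 = 0 := abs_eq_zero.1 e4
      have e6 : n3 = 0 := by
        rw [e4] at hm hn2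
        nlinarith
      rw [e5, e6] at d
      have e7 : n1 = 0 := by nlinarith
      rcases f with f | f | f
      · exact f e7
      · exact f e5
      · exact f e6

/-- the algebra behind `YB.low_region`, near `P0` -/
theorem low_alg2 {α β h t n1 n2 n3 : ℝ} (hα : 1 / 2 < α) (hα1 : α ≤ 1) (hh : 0 ≤ h)
    (hh1 : h < 1 / 4) (hβ : |β| < 1 / 4) (ht : 1 / 2 ≤ t) (ht1 : t < 1)
    (a : n2 + n3 ≤ n1 * α + n2 * β - n3 * h) (b : -n2 + n3 ≤ n1 * α + n2 * β - n3 * h)
    (d : -n1 ≤ n1 * α + n2 * β - n3 * h)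
    (e : n1 ≤ t * n3) (f : n1 ≠ 0 ∨ n2 ≠ 0 ∨ n3 ≠ 0) : False := by
  have hB : 0 ≤ |β| := abs_nonneg β
  have hn2 : |n2| ≤ n1 * α + n2 * β - n3 * h - n3 := abs_le.2 ⟨by linarith, by linarith⟩
  have hu : 0 ≤ |n2| := abs_nonneg n2
  have hm : n2 * β ≤ |n2| * |β| := by
    rw [← abs_mul]
    exact le_abs_self _
  have hub : |n2| * |β| ≤ |n2| * (1 / 4) := mul_le_mul_of_nonneg_left hβ.le hu
  rcases lt_or_ge n3 0 with h3 | h3
  · have e1 : -n3 * (1 / 2) ≤ -n1 := by nlinarith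
    have e2 : -n1 * (3 / 2) ≤ -n1 * (1 + α) := mul_le_mul_of_nonneg_left (by linarith) (by linarith)
    have e3 : -n3 * h ≤ -n3 * (1 / 4) := mul_le_mul_of_nonneg_left hh1.le (by linarith)
    have e4 : n1 * α ≤ 0 := mul_nonpos_of_nonpos_of_nonneg (by linarith) (by linarith)
    nlinarith
  · rcases lt_or_ge 0 n1 with h1 | h1
    · have e1 : n1 * α ≤ n1 := by nlinarith
      have e2 : 0 ≤ n3 * h := mul_nonneg h3 hh
      have h3' : 0 < n3 := by
        rcases h3.lt_or_eq with h | h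
        · exact h
        · rw [← h] at e
          linarith
      have e3 : t * n3 < n3 := by nlinarith
      nlinarith
    · have e1 : n1 * α ≤ 0 := mul_nonpos_of_nonpos_of_nonneg h1 (by linarith)
      have e2 : 0 ≤ n3 * h := mul_nonneg h3 hh
      have e4 : |n2| = 0 := by nlinarith
      have e5 : n2 = 0 := abs_eq_zero.1 e4
      have e6 : n3 = 0 := by
        rw [e4] at hm hn2
        nlinarith
      rw [e5, e6] at d
      have e7 : n1 = 0 := by nlinarith
      rcases f with f | f | f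
      · exact f e7
      · exact f e5
      · exact f e6

theorem low_ne (h : HB K) {p : E} {a b c : ℝ}
    (h2 : ∀ q ∈ interior K, a * q.1 + b * q.2.1 + c * q.2.2 < a * p.1 + b * p.2.1 + c * p.2.2) :
    a ≠ 0 ∨ b ≠ 0 ∨ c ≠ 0 := by
  by_contra hcon
  push Not at hcon
  obtain ⟨q, hq⟩ := h.int
  have := h2 q hq
  rw [hcon.1, hcon.2.1, hcon.2.2] at this
  simp at this

theorem YB.low_one (h : YB K z0 z1) {ρ θ : ℝ} (hρ : 2 ≤ ρ) (hθ : 1 < θ)
    (L1 : ∀ p ∈ K, p.2.2 ≤ 0 → |p.1 - ρ * p.2.1| ≤ 1 + θ * p.2.2)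
    (L2 : ∀ p ∈ K, p.2.2 ≤ 0 → |p.1| + |p.2.1| ≤ 1)
    (L3 : ∃ p ∈ K, 1 + p.2.2 < |p.1 - 2 * p.2.1|) {p : E} (hp : p ∈ K) (hz : p.2.2 ≤ 0)
    (hx : 0 ≤ p.1) (hne : p ≠ (1, 0, 0)) :
    Ill K (-1, 0, 1) p ∨ Ill K (1, 0, 1) p := by
  have key : ∀ q ∈ K, q.2.2 ≤ 0 → 0 ≤ q.1 → ¬ Ill K (-1, 0, 1) q →
      (q.1 = 1 ∧ q.2.1 = 0 ∧ q.2.2 = 0) ∨ (q.1 = 0 ∧ q.2.1 = -(1 / 2) ∧ q.2.2 = 0) := by
    intro q hq hqz hqx hni
    obtain ⟨a, b, c, s1, s2, s3⟩ := h.toHB'.toHB.sep hq hni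
    have f := low_ne h.toHB'.toHB s2
    have e1 := s1 _ h.P1
    have e2 := s1 _ (h.sym _ h.P1)
    have e4 := s1 _ (h.sym _ h.P0)
    simp only [J, mul_zero, mul_one, zero_add, add_zero, neg_zero, mul_neg] at e1 e2 e4 s3
    have l1 := L1 q hq hqz
    have l2 := L2 q hq hqz
    rw [abs_of_nonneg hqx] at l2
    rcases low_alg1 (h := -q.2.2) (n1 := a) (n2 := b) (n3 := c) hqx (by linarith) hρ hθ
      (by rw [mul_neg, sub_neg_eq_add]; exact l1) l2 (by linarith) (by linarith) (by linarith)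
      (by linarith) f with ⟨h1, h2, h3⟩ | ⟨h1, h2, h3⟩ | ⟨h1, h2, h3, h4, h5⟩
    · exact Or.inl ⟨h1, h2, by linarith⟩
    · exact Or.inr ⟨h1, h2, by linarith⟩
    · exfalso
      obtain ⟨r, hr, hlt⟩ := L3
      have g1 := s1 r hr
      have g2 := s1 _ (h.sym r hr)
      simp only [J] at g2
      rw [h2, h3] at g1 g2
      have h4' : q.2.2 = 0 := by linarith
      have h5' : q.2.1 = (1 + q.1) / 2 := by linarith
      rw [h4', h5'] at g1 g2
      have g1' : (-c) * (-(r.1 - 2 * r.2.1)) ≤ (-c) * (1 + r.2.2) := by linarith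
      have g2' : (-c) * (r.1 - 2 * r.2.1) ≤ (-c) * (1 + r.2.2) := by linarith
      have k1 := le_of_mul_le_mul_left g1' (by linarith)
      have k2 := le_of_mul_le_mul_left g2' (by linarith)
      exact absurd (abs_le.2 ⟨by linarith, k2⟩) (not_le.2 hlt)
  by_cases hill : Ill K (-1, 0, 1) p
  · exact Or.inl hill
  · rcases key p hp hz hx hill with ⟨h1, h2, h3⟩ | ⟨h1, h2, h3⟩
    · exfalso
      apply hne
      ext
      · exact h1
      · exact h2
      · exact h3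
    · right
      by_contra hni
      have hni' : ¬ Ill K (-1, 0, 1) (J p) := by
        intro hc
        apply hni
        have := hc.symm h.toHB'.toHB
        rw [J_J] at this
        have h4 : J (-1, 0, 1) = (1, 0, 1) := by simp [J]
        rwa [h4] at this
      have h5 : (J p).1 = 0 := by simp [J, h1]
      have h6 : (J p).2.1 = 1 / 2 := by simp [J, h2]
      have h7 : (J p).2.2 = 0 := by simp [J, h3]
      rcases key (J p) (h.sym p hp) (by rw [h7]) (by rw [h5]) hni' with ⟨k1, -, -⟩ | ⟨-, k2, -⟩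
      · rw [h5] at k1
        norm_num at k1
      · rw [h6] at k2
        norm_num at k2

/-- Proof idea. `G_t = (-1,0,t)`. For `p = (α, β, -h) ∈ K`, `h ≥ 0`, WLOG (by `J`) `α ≥ 0`.
If `G_1` does not illuminate `p` take `n = (n1, n2, n3)` from `HB.sep` (`n ≠ 0` by strictness),
`n3 ≥ n1`, and (i) `n1 α + n2 β - n3 h ≥ |n2| + n3` (points `±P1 = (0,±1,1)`),
(ii) `n1 α + n2 β - n3 h ≥ |n1|` (points `±P0 = (±1,0,0)`). `|β| < 1` by L1, L2.
* `n1 > 0`: `n1 α ≥ |n2| (1 - |β|) + n3 (1 + h) ≥ n1 (1 + h)`, so `α = 1, h = 0, β = 0`: `p = P0`.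
* `n1 ≤ 0, n3 ≥ 0`: (i) gives `n2 = n3 = 0`, then (ii) `n1 = 0`; contradiction.
* `n1 ≤ n3 < 0`: put `j = -n1 ≥ k = -n3 > 0`, `u = |n2|`: `u|β| ≥ j(1+α) - k h ≥ k(1+α-h)`,
  `k(1+h) ≥ u(1-|β|) + k α`; `h < 1` by L1; so `1 + α - h ≤ 2|β|`.
  If `β < 0`: L1 gives `2|β| ≤ ρ|β| ≤ 1 - θh - α`, so `α = h = 0`, `|β| = 1/2` and `n` is
  proportional to `(-1,-2,-1)`: then `|x + 2y| ≤ 1 + z` on `K`; in this case use `(1,0,1)` instead:
  if it also fails at `p`, then (mirror, i.e. `J p`, `β > 0`) `|x - 2y| ≤ 1 + z` on `K`, against L3.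
  If `β > 0`: `ρβ ≤ 1 - θh + α` gives `h = 0`, `2β = 1 + α`, and equality everywhere:
  `n` is proportional to `(-1, 2, -1)`, so `|x - 2y| ≤ 1 + z` on `K`, against L3.
So every `p ≠ ±P0` with `z ≤ 0` is illuminated by `(-1,0,1)` or `(1,0,1)`.
Near `P0` (say `α > 1/2`, `|β| < 1/4`, `h < 1/4`), every `t ∈ [1/2,1)`: `G_t` illuminates `p`
(same computation with `t n3 ≥ n1`: `n1 > 0` gives `α > 1`; `n3 ≥ 0` as before; otherwise
`u|β| ≥ k/2`, `u(1-|β|) ≤ 5k/4`, so `|β| ≥ 2/7`).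
Compactness (`t → 1-`) gives one `t < 1` for all points of `K` with `z ≤ 0`. -/
theorem YB.low_region (h : YB K z0 z1) {ρ θ : ℝ} (hρ : 2 ≤ ρ) (hθ : 1 < θ)
    (L1 : ∀ p ∈ K, p.2.2 ≤ 0 → |p.1 - ρ * p.2.1| ≤ 1 + θ * p.2.2)
    (L2 : ∀ p ∈ K, p.2.2 ≤ 0 → |p.1| + |p.2.1| ≤ 1)
    (L3 : ∃ p ∈ K, 1 + p.2.2 < |p.1 - 2 * p.2.1|) :
    ∃ t : ℝ, 0 < t ∧ t < 1 ∧ ∀ p ∈ K, p.2.2 ≤ 0 →
      Ill K (-1, 0, t) p ∨ Ill K (1, 0, t) p := by
  have hJm : ∀ t : ℝ, J (-1, 0, t) = (1, 0, t) := fun t => by simp [J]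
  have hJp : ∀ t : ℝ, J (1, 0, t) = (-1, 0, t) := fun t => by simp [J]
  have swap : ∀ (t : ℝ) (q : E), Ill K (-1, 0, t) (J q) → Ill K (1, 0, t) q := by
    intro t q hc
    have := hc.symm h.toHB'.toHB
    rwa [J_J, hJm] at this
  have swap' : ∀ (t : ℝ) (q : E), Ill K (1, 0, t) (J q) → Ill K (-1, 0, t) q := by
    intro t q hc
    have := hc.symm h.toHB'.toHB
    rwa [J_J, hJp] at this
  -- near `P0`
  have near : ∀ (t : ℝ) (q : E), 1 / 2 ≤ t → t < 1 → q ∈ K → q.2.2 ≤ 0 → 1 / 2 < q.1 →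
      |q.2.1| < 1 / 4 → -(1 / 4) < q.2.2 → Ill K (-1, 0, t) q := by
    intro t q ht ht1 hq hqz hqx hqy hqz'
    by_contra hni
    obtain ⟨a, b, c, s1, s2, s3⟩ := h.toHB'.toHB.sep hq hni
    have f := low_ne h.toHB'.toHB s2
    have e1 := s1 _ h.P1
    have e2 := s1 _ (h.sym _ h.P1)
    have e4 := s1 _ (h.sym _ h.P0)
    simp only [J, mul_zero, mul_one, zero_add, add_zero, neg_zero, mul_neg] at e1 e2 e4 s3
    have l2 := L2 q hq hqz
    rw [abs_of_pos (by linarith)] at l2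
    have := abs_nonneg q.2.1
    exact low_alg2 (α := q.1) (β := q.2.1) (h := -q.2.2) (t := t) (n1 := a) (n2 := b) (n3 := c)
      hqx (by linarith) (by linarith) (by linarith) hqy ht ht1 (by linarith) (by linarith)
      (by linarith) (by linarith) f
  -- points different from `±P0`
  have away : ∀ q ∈ K, q.2.2 ≤ 0 → q ≠ (1, 0, 0) → q ≠ (-1, 0, 0) →
      Ill K (-1, 0, 1) q ∨ Ill K (1, 0, 1) q := by
    intro q hq hqz h1 h2
    rcases le_total 0 q.1 with h0 | h0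
    · exact h.low_one hρ hθ L1 L2 L3 hq hqz h0 h1
    · have h3 : J q ≠ (1, 0, 0) := by
        intro hc
        apply h2
        rw [← J_J q, hc]
        simp [J]
      rcases h.low_one hρ hθ L1 L2 L3 (h.sym q hq) (by simpa [J] using hqz)
        (by simpa [J] using h0) h3 with h4 | h4
      · exact Or.inr (swap 1 q h4)
      · exact Or.inl (swap' 1 q h4)
  have hC : IsCompact (K ∩ {p : E | p.2.2 ≤ 0}) :=
    h.comp.inter_right (isClosed_le (by fun_prop) continuous_const)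
  have ev := hC.eventually_forall_of_forall_eventually (x₀ := (1 : ℝ))
    (P := fun t q => 1 / 2 < t → t < 1 → q ∈ K → q.2.2 ≤ 0 →
      Ill K (-1, 0, t) q ∨ Ill K (1, 0, t) q) (by
    rintro q ⟨hq, hqz⟩
    have hqz' : q.2.2 ≤ 0 := hqz
    by_cases h1 : q = (1, 0, 0)
    · subst h1
      have c1 : ∀ᶠ x : ℝ × E in 𝓝 ((1 : ℝ), (((1 : ℝ), (0 : ℝ), (0 : ℝ)) : E)), 1 / 2 < x.2.1 :=
        continuousAt_const.eventually_lt (g := fun x : ℝ × E => x.2.1) (by fun_prop) (by norm_num)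
      have c2 : ∀ᶠ x : ℝ × E in 𝓝 ((1 : ℝ), (((1 : ℝ), (0 : ℝ), (0 : ℝ)) : E)),
          |x.2.2.1| < 1 / 4 :=
        ContinuousAt.eventually_lt (f := fun x : ℝ × E => |x.2.2.1|) (by fun_prop)
          continuousAt_const (by norm_num)
      have c3 : ∀ᶠ x : ℝ × E in 𝓝 ((1 : ℝ), (((1 : ℝ), (0 : ℝ), (0 : ℝ)) : E)),
          -(1 / 4) < x.2.2.2 :=
        continuousAt_const.eventually_lt (g := fun x : ℝ × E => x.2.2.2) (by fun_prop)
          (by norm_num)
      filter_upwards [c1, c2, c3] with x x1 x2 x3 y1 y2 y3 y4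
      exact Or.inl (near x.1 x.2 y1.le y2 y3 y4 x1 x2 x3)
    · by_cases h2 : q = (-1, 0, 0)
      · subst h2
        have c1 : ∀ᶠ x : ℝ × E in 𝓝 ((1 : ℝ), (((-1 : ℝ), (0 : ℝ), (0 : ℝ)) : E)),
            x.2.1 < -(1 / 2) :=
          ContinuousAt.eventually_lt (f := fun x : ℝ × E => x.2.1) (by fun_prop)
            continuousAt_const (by norm_num)
        have c2 : ∀ᶠ x : ℝ × E in 𝓝 ((1 : ℝ), (((-1 : ℝ), (0 : ℝ), (0 : ℝ)) : E)),
            |x.2.2.1| < 1 / 4 :=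
          ContinuousAt.eventually_lt (f := fun x : ℝ × E => |x.2.2.1|) (by fun_prop)
            continuousAt_const (by norm_num)
        have c3 : ∀ᶠ x : ℝ × E in 𝓝 ((1 : ℝ), (((-1 : ℝ), (0 : ℝ), (0 : ℝ)) : E)),
            -(1 / 4) < x.2.2.2 :=
          continuousAt_const.eventually_lt (g := fun x : ℝ × E => x.2.2.2) (by fun_prop)
            (by norm_num)
        filter_upwards [c1, c2, c3] with x x1 x2 x3 y1 y2 y3 y4
        refine Or.inr (swap x.1 x.2 (near x.1 (J x.2) y1.le y2 (h.sym _ y3) ?_ ?_ ?_ ?_))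
        · simpa [J] using y4
        · simp only [J]
          linarith
        · simp only [J, abs_neg]
          exact x2
        · simp only [J]
          exact x3
      · rcases away q hq hqz' h1 h2 with h3 | h3
        · have hcont : ContinuousAt (fun x : ℝ × E => (((-1, 0, x.1) : E), x.2))
              ((1 : ℝ), q) := by fun_prop
          have := hcont.eventually h3.eventually
          exact this.mono fun x hx _ _ _ _ => Or.inl hx
        · have hcont : ContinuousAt (fun x : ℝ × E => (((1, 0, x.1) : E), x.2))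
              ((1 : ℝ), q) := by fun_prop
          have := hcont.eventually h3.eventually
          exact this.mono fun x hx _ _ _ _ => Or.inr hx)
  obtain ⟨t, ht, ht'⟩ := ((ev.filter_mono nhdsWithin_le_nhds).and
    (Ioo_mem_nhdsLT (by norm_num : (1 / 2 : ℝ) < 1))).exists
  refine ⟨t, by linarith [ht'.1], ht'.2, fun p hp hpz => ht p ⟨hp, hpz⟩ ht'.1 ht'.2 hp hpz⟩

/-- Thin bottom: `t = 1/2` works. `p = (α,0,0)`, `0 ≤ α ≤ 1`, `n3/2 ≥ n1`,
`n1 α ≥ |n2| + n3`, `n1 α ≥ |n1|`. -/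
theorem YB.low_thin (h : YB K z0 z1) (hz : z0 = 0)
    (ht : ∀ p ∈ K, p.2.2 = 0 → p.2.1 = 0) :
    ∃ t : ℝ, 0 < t ∧ t < 1 ∧ ∀ p ∈ K, p.2.2 ≤ 0 →
      Ill K (-1, 0, t) p ∨ Ill K (1, 0, t) p := by
  have key : ∀ q ∈ K, q.2.2 ≤ 0 → 0 ≤ q.1 → Ill K (-1, 0, 1 / 2) q := by
    intro q hq hqz hqx
    by_contra hni
    have hz0 : q.2.2 = 0 := le_antisymm hqz (by rw [← hz]; exact h.lo q hq)
    have hy0 := ht q hq hz0
    obtain ⟨c0, hc0⟩ := h.c0
    have hx1 := hc0 q hq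
    rw [hy0, mul_zero, add_zero] at hx1
    obtain ⟨a, b, c, s1, s2, s3⟩ := h.toHB'.toHB.sep hq hni
    have f := low_ne h.toHB'.toHB s2
    have e1 := s1 _ h.P1
    have e2 := s1 _ (h.sym _ h.P1)
    have e3 := s1 _ h.P0
    have e4 := s1 _ (h.sym _ h.P0)
    simp only [J, mul_zero, mul_one, zero_add, add_zero, neg_zero, mul_neg, hy0, hz0] at e1 e2 e3 e4 s3
    rcases lt_or_ge 0 a with h1 | h1
    · have : a * q.1 ≤ a := by nlinarith
      linarith
    · have h2 : a = 0 := by nlinarith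
      rw [h2] at e1 e2 s3
      have h3 : c = 0 := by linarith
      have h4 : b = 0 := by linarith
      rcases f with f | f | f
      · exact f h2
      · exact f h4
      · exact f h3
  refine ⟨1 / 2, by norm_num, by norm_num, fun p hp hpz => ?_⟩
  rcases le_total 0 p.1 with h0 | h0
  · exact Or.inl (key p hp hpz h0)
  · right
    have := (key (J p) (h.sym p hp) (by simpa [J] using hpz) (by simpa [J] using h0)).symm
      h.toHB'.toHB
    rw [J_J] at this
    simpa [J] using this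

end Pool.Agent.Zk54
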