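import Pool.Agent.Zk54.Basic

/-!
Third case: slopes `1`, `-1`.
-/

set_option autoImplicit false

open Set Topology Filter

namespace Pool.Agent.Zk54

variable {K : Set E} {z0 z1 : ℝ}

/-! ### auxiliary lemmas -/

theorem YB.m_z0_le (h : YB K z0 z1) : z0 ≤ 0 := h.lo _ h.P0

theorem YB.m_le_z1 (h : YB K z0 z1) : 1 ≤ z1 := h.hi _ h.P1

theorem YB.m_P0' (h : YB K z0 z1) : (((-1 : ℝ), (0 : ℝ), (0 : ℝ)) : E) ∈ K := by
  have := h.sym _ h.P0
  simpa [J] using this

theorem YB.m_P1' (h : YB K z0 z1) : (((0 : ℝ), (-1 : ℝ), (1 : ℝ)) : E) ∈ K := by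
  have := h.sym _ h.P1
  simpa [J] using this

theorem YB.m_c0' (h : YB K z0 z1) : ∃ c : ℝ, |c| ≤ 1 ∧ ∀ p ∈ K, p.1 + c * p.2.1 ≤ 1 := by
  obtain ⟨c, hc⟩ := h.c0
  have h1 := hc _ h.P1
  have h2 := hc _ h.m_P1'
  simp only at h1 h2
  exact ⟨c, abs_le.2 ⟨by linarith, by linarith⟩, hc⟩

theorem YB.m_c1' (h : YB K z0 z1) : ∃ c : ℝ, |c| ≤ 1 ∧ ∀ p ∈ K, c * p.1 + p.2.1 ≤ 1 := by
  obtain ⟨c, hc⟩ := h.c1
  have h1 := hc _ h.P0
  have h2 := hc _ h.m_P0'
  simp only at h1 h2
  exact ⟨c, abs_le.2 ⟨by linarith, by linarith⟩, hc⟩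

theorem YB.abs1 (h : YB K z0 z1) {p : E} (hp : p ∈ K) : |p.1| ≤ 1 + |p.2.1| := by
  obtain ⟨c, hc1, hc⟩ := h.m_c0'
  have h3 := hc _ hp
  have h4 : -p.1 + c * (-p.2.1) ≤ 1 := hc _ (h.sym _ hp)
  have h5 : |c * p.2.1| ≤ |p.2.1| := by
    rw [abs_mul]
    exact mul_le_of_le_one_left (abs_nonneg _) hc1
  have h6 := abs_le.1 h5
  rw [abs_le]
  constructor <;> linarith

theorem YB.abs2 (h : YB K z0 z1) {p : E} (hp : p ∈ K) : |p.2.1| ≤ 1 + |p.1| := by
  obtain ⟨c, hc1, hc⟩ := h.m_c1'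
  have h3 := hc _ hp
  have h4 : c * (-p.1) + -p.2.1 ≤ 1 := hc _ (h.sym _ hp)
  have h5 : |c * p.1| ≤ |p.1| := by
    rw [abs_mul]
    exact mul_le_of_le_one_left (abs_nonneg _) hc1
  have h6 := abs_le.1 h5
  rw [abs_le]
  constructor <;> linarith

/-- the non-wandering conditions for all signs -/
theorem YB.m_nw (h : YB K z0 z1) {s t : ℝ} (hs : s = 1 ∨ s = -1) (ht : t = 1 ∨ t = -1)
    (hK : ∀ q ∈ K, s * q.1 - t * q.2.1 ≤ 1) {q : E} (hq : q ∈ K)
    (he : s * q.1 - t * q.2.1 = 1) : s * q.1 = 1 - q.2.2 := by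
  have hJ : ∀ q : E, q ∈ K → s * (-q.1) - t * (-q.2.1) ≤ 1 := fun q hq => hK _ (h.sym _ hq)
  rcases hs with rfl | rfl <;> rcases ht with rfl | rfl
  · have := h.nw1 (fun p hp => by have := hK p hp; linarith) q hq (by linarith)
    linarith
  · have := h.nw2 (fun p hp => by have := hK p hp; linarith) q hq (by linarith)
    linarith
  · have h1 : (J q).1 = 1 - (J q).2.2 :=
      h.nw2 (fun p hp => by have := hJ p hp; linarith) (J q) (h.sym _ hq) (by
        show -q.1 + -q.2.1 = 1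
        linarith)
    have h2 : -q.1 = 1 - q.2.2 := h1
    linarith
  · have h1 : (J q).1 = 1 - (J q).2.2 :=
      h.nw1 (fun p hp => by have := hJ p hp; linarith) (J q) (h.sym _ hq) (by
        show -q.1 - -q.2.1 = 1
        linarith)
    have h2 : -q.1 = 1 - q.2.2 := h1
    linarith

theorem YB.m_nw' (h : YB K z0 z1) {s t : ℝ} (hs : s = 1 ∨ s = -1) (ht : t = 1 ∨ t = -1)
    (hK : ∀ q ∈ K, s * q.1 - t * q.2.1 ≤ 1) {q : E} (hq : q ∈ K)
    (he : s * q.1 - t * q.2.1 = -1) : s * q.1 = q.2.2 - 1 := by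
  have h1 : s * (-q.1) = 1 - q.2.2 := h.m_nw hs ht hK (h.sym _ hq) (by
    show s * (-q.1) - t * (-q.2.1) = 1
    linarith)
  linarith

/-- functionals at height `e` -/
theorem YB.m_ineq (h : YB K z0 z1) {e m n M : ℝ} (h0 : 0 ≤ e) (h1 : e ≤ 1)
    (H : ∀ u v : ℝ, ((u, v, e) : E) ∈ K → m * u + n * v ≤ M) :
    (1 - e) * |m| + e * |n| ≤ M := by
  have key : ∀ σ τ : ℝ, (((σ : ℝ), (0 : ℝ), (0 : ℝ)) : E) ∈ K →
      (((0 : ℝ), (τ : ℝ), (1 : ℝ)) : E) ∈ K → m * ((1 - e) * σ) + n * (e * τ) ≤ M := by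
    intro σ τ h2 h3
    refine H _ _ ?_
    have h4 := h.conv h2 h3 (sub_nonneg.2 h1) h0 (by ring)
    have h5 : (1 - e) • (((σ : ℝ), (0 : ℝ), (0 : ℝ)) : E) + e • (((0 : ℝ), (τ : ℝ), (1 : ℝ)) : E) =
        ((1 - e) * σ, e * τ, e) := by
      simp
    rwa [h5] at h4
  have k1 := key 1 1 h.P0 h.P1
  have k2 := key 1 (-1) h.P0 h.m_P1'
  have k3 := key (-1) 1 h.m_P0' h.P1
  have k4 := key (-1) (-1) h.m_P0' h.m_P1'
  rcases abs_cases m with ⟨hm, _⟩ | ⟨hm, _⟩ <;> rcases abs_cases n with ⟨hn, _⟩ | ⟨hn, _⟩ <;>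
    rw [hm, hn] <;> linarith

theorem YB.m_core (h : YB K z0 z1) {s t x y e m n : ℝ} (hs : s = 1 ∨ s = -1)
    (ht : t = 1 ∨ t = -1) (hp : ((x, y, e) : E) ∈ K) (h0 : 0 ≤ e) (h1 : e ≤ 1)
    (hx : 0 ≤ s * x) (hy : 0 ≤ t * y) (hd : s * m + t * n ≤ 0)
    (hn : (1 - e) * |m| + e * |n| ≤ m * x + n * y) :
    (s * m ≤ 0 ∧ t * n ≤ 0) ∨
    (0 < s * m ∧ t * n < 0 ∧ s * x = 1 ∧ y = 0 ∧ e * (s * m + t * n) = 0) ∨
    (s * m < 0 ∧ 0 < t * n ∧ x = 0 ∧ t * y = 1 ∧ (1 - e) * (s * m + t * n) = 0) := by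
  have hs2 : s * s = 1 := by rcases hs with rfl | rfl <;> norm_num
  have ht2 : t * t = 1 := by rcases ht with rfl | rfl <;> norm_num
  have hsa : |s| = 1 := by rcases hs with rfl | rfl <;> norm_num
  have hta : |t| = 1 := by rcases ht with rfl | rfl <;> norm_num
  obtain ⟨A, hA⟩ : ∃ A, A = s * m := ⟨_, rfl⟩
  obtain ⟨B, hB⟩ : ∃ B, B = t * n := ⟨_, rfl⟩
  obtain ⟨α, hα⟩ : ∃ α, α = s * x := ⟨_, rfl⟩
  obtain ⟨β, hβ⟩ : ∃ β, β = t * y := ⟨_, rfl⟩
  have em : m * x = A * α := by rw [hA, hα]; linear_combination (-(m * x)) * hs2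
  have en : n * y = B * β := by rw [hB, hβ]; linear_combination (-(n * y)) * ht2
  have am : |m| = |A| := by rw [hA, abs_mul, hsa, one_mul]
  have an : |n| = |B| := by rw [hB, abs_mul, hta, one_mul]
  have ex : x = s * α := by rw [hα]; linear_combination (-x) * hs2
  have ey : y = t * β := by rw [hβ]; linear_combination (-y) * ht2
  have ax : |x| = α := by
    rw [ex, abs_mul, hsa, one_mul, abs_of_nonneg (by rw [hα]; exact hx)]
  have ay : |y| = β := by
    rw [ey, abs_mul, hta, one_mul, abs_of_nonneg (by rw [hβ]; exact hy)]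
  have hab1 : α ≤ 1 + β := by
    have := h.abs1 hp
    simp only [ax, ay] at this
    exact this
  have hab2 : β ≤ 1 + α := by
    have := h.abs2 hp
    simp only [ax, ay] at this
    exact this
  rw [am, an, em, en] at hn
  rw [← hA, ← hB] at hd ⊢
  rw [← hα] at hx ⊢
  rw [← hβ] at hy ⊢
  rcases lt_or_ge 0 A with hA0 | hA0
  · right; left
    have hB0 : B < 0 := by linarith
    rw [abs_of_pos hA0, abs_of_neg hB0] at hn
    have h2 : A * (1 + β) ≤ A * α := by
      have h3 : 0 ≤ (β + e) * (-B - A) := mul_nonneg (by linarith) (by linarith)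
      linarith
    have h3 : 1 + β ≤ α := le_of_mul_le_mul_left h2 hA0
    have h4 : α = 1 + β := le_antisymm hab1 h3
    have hβ0 : β = 0 := by
      by_contra hne
      have hβp : 0 < β := lt_of_le_of_ne hy (Ne.symm hne)
      obtain ⟨c, hc1, hc⟩ := h.m_c0'
      have h5 : α + s * t * c * β ≤ 1 := by
        have h6 : x + c * y ≤ 1 := hc _ hp
        have h7 : -x + c * (-y) ≤ 1 := hc _ (h.sym _ hp)
        rw [ex, ey] at h6 h7
        rcases hs with rfl | rfl
        · linarith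
        · linarith
      have h6 : s * t * c ≤ -1 := by
        have : (s * t * c + 1) * β ≤ 0 := by linarith
        by_contra hcon
        have := mul_pos (show 0 < s * t * c + 1 by linarith) hβp
        linarith
      have h7 : |s * t * c| ≤ 1 := by
        rw [abs_mul, abs_mul, hsa, hta]
        simpa using hc1
      have h8 : s * t * c = -1 := le_antisymm h6 (abs_le.1 h7).1
      have hK : ∀ q ∈ K, s * q.1 - t * q.2.1 ≤ 1 := by
        intro q hq
        have h9 : q.1 + c * q.2.1 ≤ 1 := hc _ hq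
        have h10 : -q.1 + c * (-q.2.1) ≤ 1 := hc _ (h.sym _ hq)
        have h11 : s * c * q.2.1 = - t * q.2.1 := by
          have : s * c = -t := by linear_combination t * h8 - s * c * ht2
          rw [this]
        rcases hs with rfl | rfl
        · linarith
        · linarith
      have h9 := h.m_nw hs ht hK hp (by
        show s * x - t * y = 1
        rw [← hα, ← hβ]
        linarith)
      have h10 : α = 1 - e := by rw [hα]; exact h9
      linarith
    refine ⟨hA0, hB0, by linarith, by rw [ey, hβ0, mul_zero], ?_⟩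
    rw [h4, hβ0] at hn
    have h5 : e * (A + B) ≤ 0 := mul_nonpos_of_nonneg_of_nonpos h0 hd
    linarith
  · rcases lt_or_ge 0 B with hB0 | hB0
    · right; right
      have hA1 : A < 0 := by linarith
      rw [abs_of_neg hA1, abs_of_pos hB0] at hn
      have h2 : B * (1 + α) ≤ B * β := by
        have h3 : 0 ≤ (1 - e + α) * (-A - B) := mul_nonneg (by linarith) (by linarith)
        linarith
      have h3 : 1 + α ≤ β := le_of_mul_le_mul_left h2 hB0
      have h4 : β = 1 + α := le_antisymm hab2 h3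
      have hα0 : α = 0 := by
        by_contra hne
        have hαp : 0 < α := lt_of_le_of_ne hx (Ne.symm hne)
        obtain ⟨c, hc1, hc⟩ := h.m_c1'
        have h5 : s * t * c * α + β ≤ 1 := by
          have h6 : c * x + y ≤ 1 := hc _ hp
          have h7 : c * (-x) + -y ≤ 1 := hc _ (h.sym _ hp)
          rw [ex, ey] at h6 h7
          rcases ht with rfl | rfl
          · linarith
          · linarith
        have h6 : s * t * c ≤ -1 := by
          have : (s * t * c + 1) * α ≤ 0 := by linarith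
          by_contra hcon
          have := mul_pos (show 0 < s * t * c + 1 by linarith) hαp
          linarith
        have h7 : |s * t * c| ≤ 1 := by
          rw [abs_mul, abs_mul, hsa, hta]
          simpa using hc1
        have h8 : s * t * c = -1 := le_antisymm h6 (abs_le.1 h7).1
        have hK : ∀ q ∈ K, s * q.1 - t * q.2.1 ≤ 1 := by
          intro q hq
          have h9 : c * q.1 + q.2.1 ≤ 1 := hc _ hq
          have h10 : c * (-q.1) + -q.2.1 ≤ 1 := hc _ (h.sym _ hq)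
          have h11 : t * c * q.1 = - s * q.1 := by
            have : t * c = -s := by linear_combination s * h8 - t * c * hs2
            rw [this]
          rcases ht with rfl | rfl
          · linarith
          · linarith
        have h9 := h.m_nw' hs ht hK hp (by
          show s * x - t * y = -1
          rw [← hα, ← hβ]
          linarith)
        have h10 : α = e - 1 := by rw [hα]; exact h9
        linarith
      refine ⟨hA1, hB0, by rw [ex, hα0, mul_zero], by linarith, ?_⟩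
      rw [h4, hα0] at hn
      have h5 : (1 - e) * (A + B) ≤ 0 := mul_nonpos_of_nonneg_of_nonpos (by linarith) hd
      linarith
    · exact Or.inl ⟨hA0, hB0⟩

theorem m_exists_sign (x : ℝ) : ∃ s : ℝ, (s = 1 ∨ s = -1) ∧ 0 ≤ s * x := by
  rcases le_total 0 x with h | h
  · exact ⟨1, Or.inl rfl, by linarith⟩
  · exact ⟨-1, Or.inr rfl, by linarith⟩

theorem YB.m_ax' (h : YB K z0 z1) {z : ℝ} (h0 : 0 < z) (h1 : z < 1) :
    (((0 : ℝ), (0 : ℝ), z) : E) ∈ interior K :=
  h.ax z (lt_of_le_of_lt h.m_z0_le h0) (lt_of_lt_of_le h1 h.m_le_z1)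

theorem YB.mid (h : YB K z0 z1) {p : E} (hp : p ∈ K) (h0 : 0 < p.2.2) (h1 : p.2.2 < 1) :
    Ill K (1, 1, 0) p ∨ Ill K (-1, -1, 0) p ∨ Ill K (1, -1, 0) p ∨ Ill K (-1, 1, 0) p := by
  obtain ⟨x, y, e⟩ := p
  simp only at h0 h1
  obtain ⟨s, hs, hx⟩ := m_exists_sign x
  obtain ⟨t, ht, hy⟩ := m_exists_sign y
  have key : Ill K (-s, -t, 0) (x, y, e) := by
    by_contra hno
    obtain ⟨a, b, c, H, Hi, hd⟩ := h.toHB'.toHB.sep hp hno
    simp only at H Hi hd
    have hs2 : s * s = 1 := by rcases hs with rfl | rfl <;> norm_num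
    have ht2 : t * t = 1 := by rcases ht with rfl | rfl <;> norm_num
    have hn : (1 - e) * |a| + e * |b| ≤ a * x + b * y :=
      h.m_ineq h0.le h1.le fun u v huv => by
        have := H _ huv
        simp only at this
        linarith
    have hint := Hi _ (h.m_ax' h0 h1)
    simp only at hint
    have kP0 : ∀ σ : ℝ, (σ = 1 ∨ σ = -1) → a * σ ≤ a * x + b * y + c * e := by
      rintro σ (rfl | rfl)
      · have := H _ h.P0
        simp only at this
        linarith
      · have := H _ h.m_P0'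
        simp only at this
        linarith
    have kP1 : ∀ τ : ℝ, (τ = 1 ∨ τ = -1) → b * τ + c ≤ a * x + b * y + c * e := by
      rintro τ (rfl | rfl)
      · have := H _ h.P1
        simp only at this
        linarith
      · have := H _ h.m_P1'
        simp only at this
        linarith
    have em : a * x = (s * a) * (s * x) := by linear_combination (-(a * x)) * hs2
    have en : b * y = (t * b) * (t * y) := by linear_combination (-(b * y)) * ht2
    rcases h.m_core hs ht hp h0.le h1.le hx hy (m := a) (n := b) (by linarith) hn with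
      ⟨c1, c2⟩ | ⟨c1, c2, c3, c4, c5⟩ | ⟨c1, c2, c3, c4, c5⟩
    · have h2 : a * x + b * y ≤ 0 := by
        rw [em, en]
        have h3 := mul_nonpos_of_nonpos_of_nonneg c1 hx
        have h4 := mul_nonpos_of_nonpos_of_nonneg c2 hy
        linarith
      linarith
    · have h5 : s * a + t * b = 0 := (mul_eq_zero.1 c5).resolve_left h0.ne'
      have h6 : a * x + b * y = s * a := by rw [em, c3, c4]; ring
      have h7 := kP0 s hs
      have h8 := kP1 (-t) (by rcases ht with rfl | rfl <;> norm_num)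
      have hc0 : c = 0 := by
        have h9 : 0 ≤ c * e := by rw [h6] at h7; linarith
        have h10 : c * (1 - e) ≤ 0 := by rw [h6] at h8; linarith
        have h11 : 0 ≤ c := nonneg_of_mul_nonneg_left h9 h0
        have h12 : c ≤ 0 := by
          by_contra hcon
          have := mul_pos (not_le.1 hcon) (show 0 < 1 - e by linarith)
          linarith
        exact le_antisymm h12 h11
      have hK : ∀ q ∈ K, s * q.1 - t * q.2.1 ≤ 1 := by
        intro q hq
        have h9 := H q hq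
        rw [h6, hc0] at h9
        have h10 : a * q.1 + b * q.2.1 = (s * a) * (s * q.1 - t * q.2.1) := by
          linear_combination (-(a * q.1)) * hs2 - (b * q.2.1) * ht2 + (t * q.2.1) * h5
        have h11 : (s * a) * (s * q.1 - t * q.2.1) ≤ (s * a) * 1 := by linarith
        exact le_of_mul_le_mul_left h11 c1
      have h9 := h.m_nw hs ht hK hp (by
        show s * x - t * y = 1
        rw [c3, c4]
        ring)
      simp only at h9
      linarith
    · have h5 : s * a + t * b = 0 :=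
        (mul_eq_zero.1 c5).resolve_left (show (1:ℝ) - e ≠ 0 by linarith)
      have h6 : a * x + b * y = t * b := by rw [em, en, c3, c4]; ring
      have h7 := kP0 (-s) (by rcases hs with rfl | rfl <;> norm_num)
      have h8 := kP1 t ht
      have hc0 : c = 0 := by
        have h9 : 0 ≤ c * e := by rw [h6] at h7; linarith
        have h10 : c * (1 - e) ≤ 0 := by rw [h6] at h8; linarith
        have h11 : 0 ≤ c := nonneg_of_mul_nonneg_left h9 h0
        have h12 : c ≤ 0 := by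
          by_contra hcon
          have := mul_pos (not_le.1 hcon) (show 0 < 1 - e by linarith)
          linarith
        exact le_antisymm h12 h11
      have hK : ∀ q ∈ K, s * q.1 - t * q.2.1 ≤ 1 := by
        intro q hq
        have h9 : a * (-q.1) + b * (-q.2.1) + c * q.2.2 ≤ a * x + b * y + c * e :=
          H (J q) (h.sym _ hq)
        rw [h6, hc0] at h9
        have h10 : a * (-q.1) + b * (-q.2.1) = (t * b) * (s * q.1 - t * q.2.1) := by
          linear_combination (a * q.1) * hs2 + (b * q.2.1) * ht2 - (s * q.1) * h5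
        have h11 : (t * b) * (s * q.1 - t * q.2.1) ≤ (t * b) * 1 := by linarith
        exact le_of_mul_le_mul_left h11 c2
      have h9 := h.m_nw' hs ht hK hp (by
        show s * x - t * y = -1
        rw [c3, c4]
        ring)
      simp only [c3, mul_zero] at h9
      linarith
  rcases hs with rfl | rfl <;> rcases ht with rfl | rfl
  · exact Or.inr (Or.inl key)
  · rw [neg_neg] at key
    exact Or.inr (Or.inr (Or.inr key))
  · rw [neg_neg] at key
    exact Or.inr (Or.inr (Or.inl key))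
  · rw [neg_neg] at key
    exact Or.inl key

/-! ### planar sections -/

/-- the section at height `e` -/
def MSec (K : Set E) (e : ℝ) : Set (ℝ × ℝ) := {w : ℝ × ℝ | ((w.1, w.2, e) : E) ∈ K}

theorem HB.m_sec_conv (h : HB K) (e : ℝ) : Convex ℝ (MSec K e) := by
  intro w1 h1 w2 h2 a b ha hb hab
  have h3 : ((w1.1, w1.2, e) : E) ∈ K := h1
  have h4 : ((w2.1, w2.2, e) : E) ∈ K := h2
  have h5 := h.conv h3 h4 ha hb hab
  have h6 : a • ((w1.1, w1.2, e) : E) + b • ((w2.1, w2.2, e) : E) =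
      ((a • w1 + b • w2).1, (a • w1 + b • w2).2, e) := by
    ext
    · simp
    · simp
    · simp only [Prod.snd_add, Prod.smul_snd, smul_eq_mul]
      rw [← add_mul, hab, one_mul]
  rw [h6] at h5
  exact h5

theorem HB.m_sec_symm (h : HB K) {e : ℝ} {w : ℝ × ℝ} (hw : w ∈ interior (MSec K e)) :
    -w ∈ interior (MSec K e) := by
  have h1 : (Homeomorph.neg (ℝ × ℝ)) ⁻¹' (MSec K e) = MSec K e := by
    ext v
    constructor
    · intro hv
      have h2 : ((-v.1, -v.2, e) : E) ∈ K := hv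
      have h3 := h.sym _ h2
      simpa [J, MSec] using h3
    · intro hv
      have h2 : ((v.1, v.2, e) : E) ∈ K := hv
      exact h.sym _ h2
  rw [← h1, ← Homeomorph.preimage_interior] at hw
  exact hw

theorem HB.m_sec_zero (h : HB K) {e : ℝ} (hi : (interior (MSec K e)).Nonempty) :
    ((0 : ℝ), (0 : ℝ)) ∈ interior (MSec K e) := by
  obtain ⟨w, hw⟩ := hi
  have h1 := (h.m_sec_conv e).interior hw (h.m_sec_symm hw) (show (0:ℝ) ≤ 1/2 by norm_num)
    (show (0:ℝ) ≤ 1/2 by norm_num) (by norm_num)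
  have h2 : (1/2 : ℝ) • w + (1/2 : ℝ) • (-w) = ((0 : ℝ), (0 : ℝ)) := by
    rw [smul_neg, add_neg_cancel]
    rfl
  rwa [h2] at h1

theorem HB.m_sec_pos (h : HB K) {e : ℝ} (hi : (interior (MSec K e)).Nonempty) {m n M : ℝ}
    (hne : m ≠ 0 ∨ n ≠ 0) (H : ∀ u v : ℝ, ((u, v, e) : E) ∈ K → m * u + n * v ≤ M) : 0 < M := by
  have h0 := h.m_sec_zero hi
  have hc : Continuous fun δ : ℝ => ((δ * m, δ * n) : ℝ × ℝ) := by fun_prop
  have h1 : ∀ᶠ δ in 𝓝 (0 : ℝ), ((δ * m, δ * n) : ℝ × ℝ) ∈ interior (MSec K e) := by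
    have h2 : Tendsto (fun δ : ℝ => ((δ * m, δ * n) : ℝ × ℝ)) (𝓝 0) (𝓝 ((0 : ℝ), (0 : ℝ))) := by
      have := hc.tendsto 0
      simpa using this
    exact h2.eventually (isOpen_interior.mem_nhds h0)
  have h2 : ∀ᶠ δ in 𝓝[>] (0 : ℝ), ((δ * m, δ * n) : ℝ × ℝ) ∈ interior (MSec K e) :=
    h1.filter_mono nhdsWithin_le_nhds
  obtain ⟨δ, h3, h4⟩ := (h2.and self_mem_nhdsWithin).exists
  have h5 := H _ _ (interior_subset h3 : ((δ * m, δ * n) : ℝ × ℝ) ∈ MSec K e)
  have h6 : 0 < m * m + n * n := by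
    rcases hne with hm | hn
    · have := mul_self_pos.2 hm
      have := mul_self_nonneg n
      linarith
    · have := mul_self_pos.2 hn
      have := mul_self_nonneg m
      linarith
  have h7 : 0 < δ * (m * m + n * n) := mul_pos h4 h6
  linarith

theorem HB.m_PI_symm (h : HB K) {e a b : ℝ} {q : E} (hq : PI K e a b q) :
    PI K e (-a) (-b) (J q) := by
  obtain ⟨l, hl, h1⟩ := hq
  refine ⟨l, hl, ?_⟩
  have h2 := h.m_sec_symm (e := e) h1
  have h3 : (((J q).1 + l * -a, (J q).2.1 + l * -b) : ℝ × ℝ) =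
      -((q.1 + l * a, q.2.1 + l * b) : ℝ × ℝ) := by
    ext
    · show -q.1 + l * -a = -(q.1 + l * a)
      ring
    · show -q.2.1 + l * -b = -(q.2.1 + l * b)
      ring
  rw [h3]
  exact h2

theorem m_PI_of_ill {e a b x y : ℝ} (hp : Ill K ((a, b, 0) : E) (x, y, e)) :
    PI K e a b (x, y, e) := by
  obtain ⟨l, hl, h1⟩ := hp
  refine ⟨l, hl, ?_⟩
  have hc : Continuous fun w : ℝ × ℝ => ((w.1, w.2, e) : E) := by fun_prop
  have h2 : (fun w : ℝ × ℝ => ((w.1, w.2, e) : E)) ⁻¹' (interior K) ⊆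
      interior {y : ℝ × ℝ | ((y.1, y.2, e) : E) ∈ K} :=
    interior_maximal (fun w hw => show ((w.1, w.2, e) : E) ∈ K from interior_subset hw)
      (isOpen_interior.preimage hc)
  apply h2
  show ((x + l * a, y + l * b, e) : E) ∈ interior K
  have h3 : ((x, y, e) : E) + l • ((a, b, 0) : E) = (x + l * a, y + l * b, e) := by
    ext <;> simp
  rwa [h3] at h1

theorem HB'.m_sec_int (h : HB' K z0 z1) {e : ℝ} (h0 : z0 < e) (h1 : e < z1) :
    (interior (MSec K e)).Nonempty := by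
  have hc : Continuous fun w : ℝ × ℝ => ((w.1, w.2, e) : E) := by fun_prop
  have h2 : (fun w : ℝ × ℝ => ((w.1, w.2, e) : E)) ⁻¹' (interior K) ⊆ interior (MSec K e) :=
    interior_maximal (fun w hw => show ((w.1, w.2, e) : E) ∈ K from interior_subset hw)
      (isOpen_interior.preimage hc)
  exact ⟨((0 : ℝ), (0 : ℝ)), h2 (h.ax e h0 h1)⟩

/-- planar illumination with slopes `1`, `-1`, up to the extreme points of the axes -/
theorem YB.m_level (h : YB K z0 z1) {e : ℝ} (h0 : 0 ≤ e) (h1 : e ≤ 1)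
    (hi : (interior (MSec K e)).Nonempty) {x y : ℝ} (hp : ((x, y, e) : E) ∈ K) :
    (PI K e 1 1 (x, y, e) ∨ PI K e (-1) (-1) (x, y, e) ∨ PI K e 1 (-1) (x, y, e) ∨
      PI K e (-1) 1 (x, y, e)) ∨ ((x = 1 ∨ x = -1) ∧ y = 0) ∨ (x = 0 ∧ (y = 1 ∨ y = -1)) := by
  obtain ⟨s, hs, hx⟩ := m_exists_sign x
  obtain ⟨t, ht, hy⟩ := m_exists_sign y
  have hs2 : s * s = 1 := by rcases hs with rfl | rfl <;> norm_num
  have ht2 : t * t = 1 := by rcases ht with rfl | rfl <;> norm_num
  have key : PI K e (-s) (-t) (x, y, e) ∨ (s * x = 1 ∧ y = 0) ∨ (x = 0 ∧ t * y = 1) := by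
    by_contra hno
    rw [not_or] at hno
    obtain ⟨hno1, hno2⟩ := hno
    obtain ⟨m, n, hmn, H, hd⟩ := h.toHB'.toHB.sep2 hp hi hno1
    have hM := h.toHB'.toHB.m_sec_pos hi hmn H
    have em : m * x = (s * m) * (s * x) := by linear_combination (-(m * x)) * hs2
    have en : n * y = (t * n) * (t * y) := by linear_combination (-(n * y)) * ht2
    rcases h.m_core hs ht hp h0 h1 hx hy (m := m) (n := n) (by linarith) (h.m_ineq h0 h1 H) with
      ⟨c1, c2⟩ | ⟨c1, c2, c3, c4, c5⟩ | ⟨c1, c2, c3, c4, c5⟩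
    · have h3 := mul_nonpos_of_nonpos_of_nonneg c1 hx
      have h4 := mul_nonpos_of_nonpos_of_nonneg c2 hy
      linarith
    · exact hno2 (Or.inl ⟨c3, c4⟩)
    · exact hno2 (Or.inr ⟨c3, c4⟩)
  rcases key with key | ⟨k1, k2⟩ | ⟨k1, k2⟩
  · left
    rcases hs with rfl | rfl <;> rcases ht with rfl | rfl
    · exact Or.inr (Or.inl key)
    · rw [neg_neg] at key
      exact Or.inr (Or.inr (Or.inr key))
    · rw [neg_neg] at key
      exact Or.inr (Or.inr (Or.inl key))
    · rw [neg_neg] at key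
      exact Or.inl key
  · refine Or.inr (Or.inl ⟨?_, k2⟩)
    rcases hs with rfl | rfl
    · left; linarith
    · right; linarith
  · refine Or.inr (Or.inr ⟨k1, ?_⟩)
    rcases ht with rfl | rfl
    · left; linarith
    · right; linarith

theorem YB.level0 (h : YB K z0 z1)
    (hi : (interior {w : ℝ × ℝ | ((w.1, w.2, (0 : ℝ)) : E) ∈ K}).Nonempty) {x y : ℝ}
    (hp : ((x, y, 0) : E) ∈ K) (hne : ((x, y, 0) : E) ≠ (1, 0, 0))
    (hne' : ((x, y, 0) : E) ≠ J (1, 0, 0)) :
    PI K 0 1 1 (x, y, 0) ∨ PI K 0 (-1) (-1) (x, y, 0) ∨ PI K 0 1 (-1) (x, y, 0) ∨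
      PI K 0 (-1) 1 (x, y, 0) := by
  rcases h.m_level le_rfl zero_le_one hi hp with h1 | ⟨h1 | h1, h2⟩ | ⟨h1, h2 | h2⟩
  · exact h1
  · exact absurd (by rw [h1, h2]) hne
  · exact absurd (by rw [h1, h2]; simp [J]) hne'
  · rw [h1, h2] at hp
    exact absurd hp h.o0
  · rw [h1, h2] at hp
    have := h.sym _ hp
    exact absurd (by simpa [J] using this) h.o0

theorem YB.m_level1 (h : YB K z0 z1)
    (hi : (interior {w : ℝ × ℝ | ((w.1, w.2, (1 : ℝ)) : E) ∈ K}).Nonempty) {x y : ℝ}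
    (hp : ((x, y, 1) : E) ∈ K) (hne : ((x, y, 1) : E) ≠ (0, 1, 1))
    (hne' : ((x, y, 1) : E) ≠ J (0, 1, 1)) :
    PI K 1 1 1 (x, y, 1) ∨ PI K 1 (-1) (-1) (x, y, 1) ∨ PI K 1 1 (-1) (x, y, 1) ∨
      PI K 1 (-1) 1 (x, y, 1) := by
  rcases h.m_level zero_le_one le_rfl hi hp with h1 | ⟨h1 | h1, h2⟩ | ⟨h1, h2 | h2⟩
  · exact h1
  · rw [h1, h2] at hp
    exact absurd hp h.o1
  · rw [h1, h2] at hp
    have := h.sym _ hp
    exact absurd (by simpa [J] using this) h.o1
  · exact absurd (by rw [h1, h2]) hne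
  · exact absurd (by rw [h1, h2]; simp [J]) hne'

/-- all points of height `0`, good bottom -/
theorem YB.m_bottom (h : YB K z0 z1) (hg : Good0 K) {x y : ℝ} (hp : ((x, y, 0) : E) ∈ K) :
    PI K 0 1 1 (x, y, 0) ∨ PI K 0 (-1) (-1) (x, y, 0) ∨ PI K 0 1 (-1) (x, y, 0) ∨
      PI K 0 (-1) 1 (x, y, 0) := by
  by_cases h1 : ((x, y, 0) : E) = (1, 0, 0)
  · rw [h1]
    rcases hg with hg | hg
    · exact Or.inr (Or.inl hg)
    · exact Or.inr (Or.inr (Or.inr hg))
  by_cases h2 : ((x, y, 0) : E) = J (1, 0, 0)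
  · rw [h2]
    rcases hg with hg | hg
    · have := h.toHB'.toHB.m_PI_symm hg
      rw [neg_neg] at this
      exact Or.inl this
    · have := h.toHB'.toHB.m_PI_symm hg
      rw [neg_neg] at this
      exact Or.inr (Or.inr (Or.inl this))
  refine h.level0 ?_ hp h1 h2
  rcases hg with ⟨l, -, hg⟩ | ⟨l, -, hg⟩
  · exact ⟨_, hg⟩
  · exact ⟨_, hg⟩

theorem YB.m_top (h : YB K z0 z1) (hg : Good1 K) {x y : ℝ} (hp : ((x, y, 1) : E) ∈ K) :
    PI K 1 1 1 (x, y, 1) ∨ PI K 1 (-1) (-1) (x, y, 1) ∨ PI K 1 1 (-1) (x, y, 1) ∨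
      PI K 1 (-1) 1 (x, y, 1) := by
  by_cases h1 : ((x, y, 1) : E) = (0, 1, 1)
  · rw [h1]
    rcases hg with hg | hg
    · exact Or.inr (Or.inl hg)
    · exact Or.inr (Or.inr (Or.inl hg))
  by_cases h2 : ((x, y, 1) : E) = J (0, 1, 1)
  · rw [h2]
    rcases hg with hg | hg
    · have := h.toHB'.toHB.m_PI_symm hg
      rw [neg_neg] at this
      exact Or.inl this
    · have := h.toHB'.toHB.m_PI_symm hg
      rw [neg_neg] at this
      exact Or.inr (Or.inr (Or.inr this))
  refine h.m_level1 ?_ hp h1 h2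
  rcases hg with ⟨l, -, hg⟩ | ⟨l, -, hg⟩
  · exact ⟨_, hg⟩
  · exact ⟨_, hg⟩

/-- one good end -/
theorem YB.one (h : YB K z0 z1) (hg : Good0 K)
    (T1 : 1 < z1 ∨ ∀ p, Con K p → p.2.2 = 1 → p = (0, 1, 1) ∨ p = J (0, 1, 1)) : Cov8 K := by
  have hP : Ill K ((0 : ℝ), (-1 : ℝ), (-1/2 : ℝ)) (((0 : ℝ), (1 : ℝ), (1 : ℝ)) : E) := by
    refine ⟨1, one_pos, ?_⟩
    have h1 := h.m_ax' (z := 1/2) (by norm_num) (by norm_num)
    have h2 : (((0 : ℝ), (1 : ℝ), (1 : ℝ)) : E) + (1 : ℝ) • (((0 : ℝ), (-1 : ℝ), (-1/2 : ℝ)) : E) =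
        (0, 0, 1/2) := by
      ext
      · simp
      · simp
      · simp only [Prod.snd_add, Prod.smul_snd, smul_eq_mul]
        norm_num
    rwa [h2]
  refine h.toHB'.cover_tilt ((0 : ℝ), (-1 : ℝ), (-1/2 : ℝ)) 1 1 1 (-1) ?_
  rintro ⟨x, y, e⟩ hC
  have hp : ((x, y, e) : E) ∈ K := hC.1
  obtain ⟨he0, he1⟩ := h.con _ hC
  simp only at he0 he1
  rcases eq_or_lt_of_le he0 with h0 | h0
  · rw [← h0] at hp ⊢
    have hb := h.m_bottom hg hp
    rcases eq_or_lt_of_le h.m_z0_le with hz | hz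
    · subst hz
      refine Or.inr (Or.inr (Or.inr (Or.inr (Or.inr (Or.inr ⟨rfl, ?_⟩)))))
      rcases hb with hb | hb | hb | hb
      · exact Or.inl hb
      · exact Or.inr (Or.inl hb)
      · exact Or.inr (Or.inr (Or.inl hb))
      · refine Or.inr (Or.inr (Or.inr ?_))
        rw [neg_neg]
        exact hb
    · have hz1 : (0:ℝ) < z1 := lt_of_lt_of_le one_pos h.m_le_z1
      rcases hb with hb | hb | hb | hb
      · exact Or.inr (Or.inr (Or.inl (h.toHB'.ill_of_PI hz hz1 hb)))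
      · exact Or.inr (Or.inr (Or.inr (Or.inl (h.toHB'.ill_of_PI hz hz1 hb))))
      · exact Or.inr (Or.inr (Or.inr (Or.inr (Or.inl (h.toHB'.ill_of_PI hz hz1 hb)))))
      · refine Or.inr (Or.inr (Or.inr (Or.inr (Or.inr (Or.inl ?_)))))
        rw [neg_neg]
        exact h.toHB'.ill_of_PI hz hz1 hb
  rcases eq_or_lt_of_le he1 with h1 | h1
  · by_cases hP1 : ((x, y, e) : E) = (0, 1, 1)
    · rw [hP1]
      exact Or.inl hP
    by_cases hP2 : ((x, y, e) : E) = J (0, 1, 1)
    · rw [hP2]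
      exact Or.inr (Or.inl (Ill.symm h.toHB'.toHB hP))
    rcases T1 with hz1 | T1
    · subst h1
      have hz0 : z0 < 1 := lt_of_le_of_lt h.m_z0_le one_pos
      rcases h.m_level1 (h.toHB'.m_sec_int hz0 hz1) hp hP1 hP2 with hb | hb | hb | hb
      · exact Or.inr (Or.inr (Or.inl (h.toHB'.ill_of_PI hz0 hz1 hb)))
      · exact Or.inr (Or.inr (Or.inr (Or.inl (h.toHB'.ill_of_PI hz0 hz1 hb))))
      · exact Or.inr (Or.inr (Or.inr (Or.inr (Or.inl (h.toHB'.ill_of_PI hz0 hz1 hb)))))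
      · refine Or.inr (Or.inr (Or.inr (Or.inr (Or.inr (Or.inl ?_)))))
        rw [neg_neg]
        exact h.toHB'.ill_of_PI hz0 hz1 hb
    · rcases T1 _ hC h1 with h2 | h2
      · exact absurd h2 hP1
      · exact absurd h2 hP2
  · rcases h.mid hp h0 h1 with hb | hb | hb | hb
    · exact Or.inr (Or.inr (Or.inl hb))
    · exact Or.inr (Or.inr (Or.inr (Or.inl hb)))
    · exact Or.inr (Or.inr (Or.inr (Or.inr (Or.inl hb))))
    · refine Or.inr (Or.inr (Or.inr (Or.inr (Or.inr (Or.inl ?_)))))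
      rw [neg_neg]
      exact hb

/-- signs -/
def msg (b : Bool) : ℝ := if b then 1 else -1

/-- both ends flat and good: the eight families `(±1,±1,t)`, `(±1,±1,-t)` -/
theorem YB.two (h : YB K 0 1) (hg : Good0 K) (hg' : Good1 K) : Cov8 K := by
  refine cover_of_good (ι := Bool × Bool × Bool) (by simp) h.conv h.comp
    (fun i t => ((msg i.1, msg i.2.1, msg i.2.2 * t) : E)) ?_
  rintro ⟨x, y, e⟩ hp
  have he0 : 0 ≤ e := h.lo _ hp
  have he1 : e ≤ 1 := h.hi _ hp
  rcases eq_or_lt_of_le he0 with h0 | h0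
  · subst h0
    rcases h.m_bottom hg hp with hb | hb | hb | hb
    · exact h.toHB'.good_bottom (true, true, true) (fun t => by simp [msg]) hb
    · exact h.toHB'.good_bottom (false, false, true) (fun t => by simp [msg]) hb
    · exact h.toHB'.good_bottom (true, false, true) (fun t => by simp [msg]) hb
    · exact h.toHB'.good_bottom (false, true, true) (fun t => by simp [msg]) hb
  rcases eq_or_lt_of_le he1 with h1 | h1
  · subst h1
    rcases h.m_top hg' hp with hb | hb | hb | hb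
    · exact h.toHB'.good_top (true, true, false) (fun t => by simp [msg]) hb
    · exact h.toHB'.good_top (false, false, false) (fun t => by simp [msg]) hb
    · exact h.toHB'.good_top (true, false, false) (fun t => by simp [msg]) hb
    · exact h.toHB'.good_top (false, true, false) (fun t => by simp [msg]) hb
  · have hcont : ∀ i : Bool × Bool × Bool,
        ContinuousAt (fun t : ℝ => ((msg i.1, msg i.2.1, msg i.2.2 * t) : E)) 0 := by
      intro i
      fun_prop
    rcases h.mid hp h0 h1 with hb | hb | hb | hb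
    · exact GoodAt.of_ill (true, true, true) (hcont _) (by simpa [msg] using hb)
    · exact GoodAt.of_ill (false, false, true) (hcont _) (by simpa [msg] using hb)
    · exact GoodAt.of_ill (true, false, true) (hcont _) (by simpa [msg] using hb)
    · exact GoodAt.of_ill (false, true, true) (hcont _) (by simpa [msg] using hb)

/-- both low and high region under control: `(∓1,0,t)`, `(0,∓1,-t')` and slopes `±1`, exact -/
theorem YB.final (h : YB K z0 z1)
    (h0 : ∃ t : ℝ, ∀ p ∈ K, p.2.2 ≤ 0 → Ill K (-1, 0, t) p ∨ Ill K (1, 0, t) p)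
    (h1 : ∃ t : ℝ, ∀ p ∈ K, 1 ≤ p.2.2 → Ill K (0, -1, -t) p ∨ Ill K (0, 1, -t) p) :
    Cov8 K := by
  obtain ⟨t, ht⟩ := h0
  obtain ⟨t', ht'⟩ := h1
  let v : Fin 8 → E := ![(-1, 0, t), (1, 0, t), (0, -1, -t'), (0, 1, -t'), (1, 1, 0),
    (-1, -1, 0), (1, -1, 0), (-1, 1, 0)]
  refine cover_of_ill (ι := Fin 8) (by simp) h.conv h.comp v ?_
  intro p hp
  rcases le_or_gt p.2.2 0 with h2 | h2
  · rcases ht p hp h2 with h3 | h3
    · exact ⟨0, h3⟩
    · exact ⟨1, h3⟩
  rcases le_or_gt 1 p.2.2 with h4 | h4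
  · rcases ht' p hp h4 with h3 | h3
    · exact ⟨2, h3⟩
    · exact ⟨3, h3⟩
  rcases h.mid hp h2 h4 with h3 | h3 | h3 | h3
  · exact ⟨4, h3⟩
  · exact ⟨5, h3⟩
  · exact ⟨6, h3⟩
  · exact ⟨7, h3⟩

/-! ### bad bottom -/

theorem YB.m_sec_nonempty (h : YB K z0 z1) {x y : ℝ} (hp : ((x, y, 0) : E) ∈ K) (hy : y ≠ 0) :
    (interior (MSec K 0)).Nonempty := by
  have hsub : {w : ℝ × ℝ | 0 < w.2 / y ∧ w.2 / y < 1 ∧
      |w.1 - (w.2 / y) * x| < 1 - w.2 / y} ⊆ interior (MSec K 0) := by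
    refine interior_maximal ?_ ?_
    · rintro ⟨u, v⟩ ⟨h1, h2, h3⟩
      simp only at h1 h2 h3
      obtain ⟨τ, hτ⟩ : ∃ τ, τ = v / y := ⟨_, rfl⟩
      rw [← hτ] at h1 h2 h3
      have hv : v = τ * y := by rw [hτ]; field_simp
      obtain ⟨c, hc⟩ : ∃ c, c = (u - τ * x) / (1 - τ) := ⟨_, rfl⟩
      have h4 : 0 < 1 - τ := by linarith
      have hu : u = (1 - τ) * c + τ * x := by
        rw [hc]
        field_simp
        ring
      have hc1 : |c| < 1 := by
        rw [hc, abs_div, abs_of_pos h4, div_lt_one h4]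
        exact h3
      have hc2 := abs_lt.1 hc1
      have h5 : ((c, 0, 0) : E) ∈ K := by
        have h6 := h.conv h.P0 h.m_P0' (show 0 ≤ (1 + c) / 2 by linarith)
          (show 0 ≤ (1 - c) / 2 by linarith) (by ring)
        have h7 : ((1 + c) / 2) • (((1 : ℝ), (0 : ℝ), (0 : ℝ)) : E) +
            ((1 - c) / 2) • (((-1 : ℝ), (0 : ℝ), (0 : ℝ)) : E) = (c, 0, 0) := by
          ext
          · simp only [Prod.fst_add, Prod.smul_fst, smul_eq_mul]
            ring
          · simp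
          · simp
        rwa [h7] at h6
      have h6 := h.conv h5 hp h4.le h1.le (by ring)
      have h7 : (1 - τ) • ((c, 0, 0) : E) + τ • ((x, y, 0) : E) = (u, v, 0) := by
        ext
        · simp only [Prod.fst_add, Prod.smul_fst, smul_eq_mul]
          rw [hu]
        · simp only [Prod.fst_add, Prod.snd_add, Prod.smul_fst, Prod.smul_snd, smul_eq_mul]
          rw [hv]
          ring
        · simp
      rw [h7] at h6
      exact h6
    · have o1 : IsOpen {w : ℝ × ℝ | 0 < w.2 / y} := isOpen_lt continuous_const (by fun_prop)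
      have o2 : IsOpen {w : ℝ × ℝ | w.2 / y < 1} := isOpen_lt (by fun_prop) continuous_const
      have o3 : IsOpen {w : ℝ × ℝ | |w.1 - (w.2 / y) * x| < 1 - w.2 / y} :=
        isOpen_lt (by fun_prop) (by fun_prop)
      exact o1.inter (o2.inter o3)
  refine ⟨(x / 2, y / 2), hsub ?_⟩
  have h1 : y / 2 / y = 1 / 2 := by field_simp
  refine ⟨?_, ?_, ?_⟩
  · simp only [h1]
    norm_num
  · simp only [h1]
    norm_num
  · simp only [h1]
    have : x / 2 - 1 / 2 * x = 0 := by ring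
    rw [this]
    norm_num

theorem YB.m_bad_fn (h : YB K z0 z1) (hz : z0 < 0 ∨ (z0 = 0 ∧ (interior (MSec K 0)).Nonempty))
    {t : ℝ} (ht : t = 1 ∨ t = -1) (hb : ¬ PI K 0 (-1) t ((1 : ℝ), (0 : ℝ), (0 : ℝ))) :
    ∃ a b : ℝ, 0 < a ∧ a ≤ t * b ∧ ∀ q ∈ K, q.2.2 ≤ 0 → |a * q.1 + b * q.2.1| ≤ a := by
  rcases hz with hz | ⟨hz, hi⟩
  · obtain ⟨a, b, c, H, Hi, hd⟩ := h.toHB'.toHB.sep h.P0 (d := ((-1 : ℝ), t, (0 : ℝ)))
      (fun h1 => hb (m_PI_of_ill h1))
    simp only at H Hi hd
    have h1 := Hi _ (h.ax 0 hz (lt_of_lt_of_le one_pos h.m_le_z1))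
    simp only at h1
    have h2 : b * t + c ≤ a := by
      rcases ht with rfl | rfl
      · have := H _ h.P1
        simp only at this
        linarith
      · have := H _ h.m_P1'
        simp only at this
        linarith
    have hc : c ≤ 0 := by linarith
    refine ⟨a, b, by linarith, by linarith, fun q hq hq0 => ?_⟩
    have h3 := H q hq
    have h4 : a * (-q.1) + b * (-q.2.1) + c * q.2.2 ≤ a * 1 + b * 0 + c * 0 :=
      H (J q) (h.sym _ hq)
    have h5 : 0 ≤ c * q.2.2 := mul_nonneg_of_nonpos_of_nonpos hc hq0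
    rw [abs_le]
    constructor <;> linarith
  · obtain ⟨m, n, hmn, H, hd⟩ := h.toHB'.toHB.sep2 h.P0 hi hb
    have hM := h.toHB'.toHB.m_sec_pos hi hmn H
    refine ⟨m, n, by linarith, by linarith, ?_⟩
    rintro ⟨x, y, e⟩ hq hq0
    have h1 : z0 ≤ e := h.lo _ hq
    have h2 : e = 0 := le_antisymm hq0 (by rw [← hz]; exact h1)
    subst h2
    have h3 := H _ _ hq
    have h4 : ((-x, -y, 0) : E) ∈ K := h.sym _ hq
    have h5 := H _ _ h4
    simp only
    rw [abs_le]
    constructor <;> linarith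

theorem m_l1_of {a b a' b' x y : ℝ} (ha : 0 < a) (hab : a ≤ -b) (ha' : 0 < a') (hab' : a' ≤ b')
    (h1 : |a * x + b * y| ≤ a) (h2 : |a' * x + b' * y| ≤ a') : |x| + |y| ≤ 1 := by
  have h3 := abs_le.1 h1
  have h4 := abs_le.1 h2
  rcases abs_cases x with ⟨hx, hx0⟩ | ⟨hx, hx0⟩ <;> rcases abs_cases y with ⟨hy, hy0⟩ | ⟨hy, hy0⟩ <;>
    rw [hx, hy]
  · have h5 := mul_nonneg (sub_nonneg.2 hab') hy0
    have h6 : a' * (x + y) ≤ a' * 1 := by linarith
    exact le_of_mul_le_mul_left h6 ha'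
  · have h5 := mul_nonneg (show 0 ≤ -b - a by linarith) (show 0 ≤ -y by linarith)
    have h6 : a * (x + -y) ≤ a * 1 := by linarith
    exact le_of_mul_le_mul_left h6 ha
  · have h5 := mul_nonneg (show 0 ≤ -b - a by linarith) hy0
    have h6 : a * (-x + y) ≤ a * 1 := by linarith
    exact le_of_mul_le_mul_left h6 ha
  · have h5 := mul_nonneg (sub_nonneg.2 hab') (show 0 ≤ -y by linarith)
    have h6 : a' * (-x + -y) ≤ a' * 1 := by linarith
    exact le_of_mul_le_mul_left h6 ha'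

/-- bad bottom -/
theorem YB.bad (h : YB K z0 z1) (hb : ¬ Good0 K) :
    (∀ p ∈ K, p.2.2 ≤ 0 → |p.1| + |p.2.1| ≤ 1) ∧
      ∀ p, Con K p → p.2.2 = 0 → p = (1, 0, 0) ∨ p = J (1, 0, 0) := by
  rw [Good0, not_or] at hb
  obtain ⟨hb1, hb2⟩ := hb
  have part1 : ∀ p ∈ K, p.2.2 ≤ 0 → |p.1| + |p.2.1| ≤ 1 := by
    by_cases hz : z0 < 0 ∨ (z0 = 0 ∧ (interior (MSec K 0)).Nonempty)
    · obtain ⟨a, b, ha, hab, h1⟩ := h.m_bad_fn hz (Or.inr rfl) hb1
      obtain ⟨a', b', ha', hab', h2⟩ := h.m_bad_fn hz (Or.inl rfl) hb2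
      intro p hp hp0
      exact m_l1_of ha (by linarith) ha' (by linarith) (h1 p hp hp0) (h2 p hp hp0)
    · rw [not_or, not_and] at hz
      obtain ⟨hz1, hz2⟩ := hz
      have hz0 : z0 = 0 := le_antisymm h.m_z0_le (not_lt.1 hz1)
      rintro ⟨x, y, e⟩ hp hp0
      have h1 : z0 ≤ e := h.lo _ hp
      have h2 : e = 0 := le_antisymm hp0 (by rw [← hz0]; exact h1)
      subst h2
      have hy : y = 0 := by
        by_contra hy
        exact hz2 hz0 (h.m_sec_nonempty hp hy)
      have h3 := h.abs1 hp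
      simp only [hy, abs_zero] at h3 ⊢
      linarith
  refine ⟨part1, ?_⟩
  rintro ⟨x, y, e⟩ ⟨hp, m, n, hmn, H⟩ he
  simp only at he H
  subst he
  have h1 := part1 _ hp le_rfl
  simp only at h1
  have H' : ∀ q ∈ K, |m * q.1 + n * q.2.1| ≤ m * x + n * y := by
    intro q hq
    have h2 := H q hq
    have h3 : m * (-q.1) + n * (-q.2.1) ≤ m * x + n * y := H (J q) (h.sym _ hq)
    rw [abs_le]
    constructor <;> linarith
  have hm : |m| ≤ m * x + n * y := by
    have := H' _ h.P0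
    simpa using this
  have hn : |n| ≤ m * x + n * y := by
    have := H' _ h.P1
    simpa using this
  obtain ⟨s, hs, hx⟩ := m_exists_sign x
  obtain ⟨t, ht, hy⟩ := m_exists_sign y
  have hs2 : s * s = 1 := by rcases hs with rfl | rfl <;> norm_num
  have ht2 : t * t = 1 := by rcases ht with rfl | rfl <;> norm_num
  have hsa : |s| = 1 := by rcases hs with rfl | rfl <;> norm_num
  have hta : |t| = 1 := by rcases ht with rfl | rfl <;> norm_num
  have ax : |x| = s * x := by
    rw [← abs_of_nonneg hx, abs_mul, hsa, one_mul]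
  have ay : |y| = t * y := by
    rw [← abs_of_nonneg hy, abs_mul, hta, one_mul]
  obtain ⟨M, hM⟩ : ∃ M, M = m * x + n * y := ⟨_, rfl⟩
  rw [← hM] at hm hn
  have em : m * x = (s * m) * (s * x) := by linear_combination (-(m * x)) * hs2
  have en : n * y = (t * n) * (t * y) := by linear_combination (-(n * y)) * ht2
  have hsm : s * m ≤ M := by
    refine (le_abs_self _).trans ?_
    rw [abs_mul, hsa, one_mul]
    exact hm
  have htn : t * n ≤ M := by
    refine (le_abs_self _).trans ?_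
    rw [abs_mul, hta, one_mul]
    exact hn
  have hM0 : 0 < M := by
    rcases hmn with h2 | h2
    · exact (abs_pos.2 h2).trans_le hm
    · exact (abs_pos.2 h2).trans_le hn
  rw [ax, ay] at h1
  have h2 : (M - s * m) * (s * x) + (M - t * n) * (t * y) ≤ 0 := by
    have h3 : M * (s * x + t * y) ≤ M * 1 := mul_le_mul_of_nonneg_left h1 hM0.le
    linarith
  have h3 : 0 ≤ (M - s * m) * (s * x) := mul_nonneg (by linarith) hx
  have h4 : 0 ≤ (M - t * n) * (t * y) := mul_nonneg (by linarith) hy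
  have h5 : s * x + t * y = 1 := by
    refine le_antisymm h1 ?_
    have h6 : M * 1 ≤ M * (s * x + t * y) := by linarith
    exact le_of_mul_le_mul_left h6 hM0
  by_cases hx0 : x = 0
  · rw [hx0, mul_zero, zero_add] at h5
    exfalso
    rcases ht with rfl | rfl
    · have : y = 1 := by linarith
      rw [hx0, this] at hp
      exact h.o0 hp
    · have : y = -1 := by linarith
      rw [hx0, this] at hp
      have := h.sym _ hp
      exact h.o0 (by simpa [J] using this)
  by_cases hy0 : y = 0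
  · rw [hy0, mul_zero, add_zero] at h5
    rcases hs with rfl | rfl
    · left
      have : x = 1 := by linarith
      rw [this, hy0]
    · right
      have : x = -1 := by linarith
      rw [this, hy0]
      simp [J]
  exfalso
  have hxp : 0 < s * x := by
    rw [← ax]
    exact abs_pos.2 hx0
  have hyp : 0 < t * y := by
    rw [← ay]
    exact abs_pos.2 hy0
  have h6 : s * m = M := by
    have h7 : (M - s * m) * (s * x) = 0 := by linarith
    rcases mul_eq_zero.1 h7 with h8 | h8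
    · linarith
    · linarith
  have h7 : t * n = M := by
    have h7 : (M - t * n) * (t * y) = 0 := by linarith
    rcases mul_eq_zero.1 h7 with h8 | h8
    · linarith
    · linarith
  have ht' : -t = 1 ∨ -t = -1 := by
    rcases ht with rfl | rfl
    · right; rfl
    · left; norm_num
  have hK : ∀ q ∈ K, s * q.1 - (-t) * q.2.1 ≤ 1 := by
    intro q hq
    have h8 := (le_abs_self _).trans (H' q hq)
    rw [← hM] at h8
    have h9 : m * q.1 + n * q.2.1 = M * (s * q.1 - (-t) * q.2.1) := by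
      linear_combination (-(m * q.1)) * hs2 - (n * q.2.1) * ht2 + (s * q.1) * h6 +
        (t * q.2.1) * h7
    rw [h9] at h8
    have h10 : M * (s * q.1 - (-t) * q.2.1) ≤ M * 1 := by linarith
    exact le_of_mul_le_mul_left h10 hM0
  have h8 := h.m_nw hs ht' hK hp (by
    show s * x - (-t) * y = 1
    linarith)
  simp only at h8
  linarith

end Pool.Agent.Zk54
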