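import Pool.Agent.Zk54.Basic

/-!
Third case: slopes `m1`, `-m2`.
-/

set_option autoImplicit false

open Set Topology Filter

namespace Pool.Agent.Zk54

variable {K : Set E} {z0 z1 : ℝ}

namespace SB

/-- first algebraic step, for one sign -/
lemma alg1 {n1 n2 α β z m : ℝ} (hm : 0 < m) (hm1 : m ≤ 1) (hz : 0 < z) (hz1 : z < 1)
    (hα : 0 ≤ α) (hβ : 0 ≤ β) (hd : n1 + m * n2 ≤ 0) (hpos : 0 < n1 * α + n2 * β)
    (q1 : (1 - z) * n1 + z * n2 ≤ n1 * α + n2 * β)
    (q2 : (1 - z) * n1 - z * n2 ≤ n1 * α + n2 * β)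
    (q3 : -((1 - z) * n1) + z * n2 ≤ n1 * α + n2 * β)
    (q4 : -((1 - z) * n1) - z * n2 ≤ n1 * α + n2 * β)
    (habs : α ≤ 1 + β) :
    (0 < n1 ∧ n2 = -n1 ∧ α = 1 + β) ∨ z + m * (α + 1 - z) ≤ β := by
  rcases lt_trichotomy n1 0 with h | h | h
  · right
    -- `n2 > 0`
    have hn2 : 0 < n2 := by
      by_contra hc
      push Not at hc
      have h1 : n1 * α ≤ 0 := mul_nonpos_of_nonpos_of_nonneg h.le hα
      have h2 : n2 * β ≤ 0 := mul_nonpos_of_nonpos_of_nonneg hc hβ
      linarith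
    -- `n2 (β - z) ≥ -n1 (α + 1 - z)`
    have h3 : -n1 * (α + 1 - z) ≤ n2 * (β - z) := by nlinarith
    have h4 : m * n2 ≤ -n1 := by linarith
    have h5 : 0 ≤ α + 1 - z := by linarith
    have h6 : m * n2 * (α + 1 - z) ≤ n2 * (β - z) :=
      (mul_le_mul_of_nonneg_right h4 h5).trans h3
    have h7 : n2 * (m * (α + 1 - z)) ≤ n2 * (β - z) := by linarith
    have h8 := le_of_mul_le_mul_left h7 hn2
    linarith
  · exfalso
    subst h
    have hn2 : n2 ≤ 0 := by
      by_contra hc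
      push Not at hc
      have : 0 < m * n2 := mul_pos hm hc
      linarith
    have h2 : n2 * β ≤ 0 := mul_nonpos_of_nonpos_of_nonneg hn2 hβ
    linarith
  · left
    -- `-n2 ≥ n1 / m ≥ n1`
    have hn2 : n1 ≤ -n2 := by
      have h1 : n1 ≤ m * -n2 := by linarith
      have h2 : 0 ≤ -n2 := by
        by_contra hc
        push Not at hc
        have : 0 < m * n2 := mul_pos hm (by linarith)
        linarith
      nlinarith
    have h3 : (1 - z) * n1 + -n2 * (β + z) ≤ n1 * α := by nlinarith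
    have h4 : n1 * (β + z) ≤ -n2 * (β + z) := mul_le_mul_of_nonneg_right hn2 (by linarith)
    have h5 : n1 * (1 + β) ≤ n1 * α := by nlinarith
    have h6 : 1 + β ≤ α := le_of_mul_le_mul_left h5 h
    have h7 : α = 1 + β := le_antisymm habs h6
    have h8 : (-n2 - n1) * (β + z) ≤ 0 := by
      subst h7
      nlinarith
    have h9 : -n2 - n1 ≤ 0 := by
      by_contra hc
      push Not at hc
      have : 0 < (-n2 - n1) * (β + z) := mul_pos hc (by linarith)
      linarith
    exact ⟨h, by linarith, h7⟩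

/-- second algebraic step, for one sign -/
lemma alg2 {n1 n2 n3 α β z σ : ℝ} (hz : 0 < z)
    (hα : 0 ≤ α) (hβ : 0 ≤ β) (hαz : α < 1 - z) (hσ : 0 < σ) (hσβ : σ * β < z)
    (hd : n2 + σ * n3 ≤ 0) (hpos : 0 < n1 * α + n2 * β)
    (q2 : (1 - z) * n1 - z * n2 ≤ n1 * α + n2 * β)
    (r1 : n1 ≤ n1 * α + n2 * β + n3 * z) (r2 : -n1 ≤ n1 * α + n2 * β + n3 * z) : False := by
  rcases le_or_gt 0 n3 with h | h
  · have hn2 : n2 ≤ 0 := by
      have : 0 ≤ σ * n3 := mul_nonneg hσ.le h
      linarith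
    rcases le_or_gt n1 0 with h1 | h1
    · have h3 : n1 * α ≤ 0 := mul_nonpos_of_nonpos_of_nonneg h1 hα
      have h4 : n2 * β ≤ 0 := mul_nonpos_of_nonpos_of_nonneg hn2 hβ
      linarith
    · have h4 : n2 * β ≤ 0 := mul_nonpos_of_nonpos_of_nonneg hn2 hβ
      have h5 : z * n2 ≤ 0 := mul_nonpos_of_nonneg_of_nonpos hz.le hn2
      have h6 : n1 * (1 - z) ≤ n1 * α := by nlinarith
      have h7 := le_of_mul_le_mul_left h6 h1
      linarith
  · -- `n3 = -k`
    have h1 : |n1| ≤ n1 * α + n2 * β + n3 * z := abs_le'.2 ⟨r1, r2⟩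
    have h2 : n1 * α ≤ |n1| * α := mul_le_mul_of_nonneg_right (le_abs_self _) hα
    have h3 : |n1| * α ≤ |n1| * 1 := mul_le_mul_of_nonneg_left (by linarith) (abs_nonneg _)
    have h4 : -n3 * z ≤ n2 * β := by nlinarith
    have h5 : n2 * β ≤ (-n3 * σ) * β := mul_le_mul_of_nonneg_right (by linarith) hβ
    have h6 : -n3 * z ≤ -n3 * (σ * β) := by linarith
    have h7 := le_of_mul_le_mul_left h6 (by linarith)
    linarith

end SB

theorem YB.abs1x (h : YB K z0 z1) {p : E} (hp : p ∈ K) : |p.1| ≤ 1 + |p.2.1| := by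
  obtain ⟨c, hc⟩ := h.c0
  have e1 := hc _ h.P1
  have e2 := hc _ (h.sym _ h.P1)
  have e3 := hc _ hp
  have e4 := hc _ (h.sym _ hp)
  simp only [J] at e1 e2 e3 e4
  have hc1 : |c| ≤ 1 := abs_le.2 ⟨by linarith, by linarith⟩
  have h5 : |c * p.2.1| ≤ |p.2.1| := by
    rw [abs_mul]
    exact mul_le_of_le_one_left (abs_nonneg _) hc1
  have h6 := abs_le.1 h5
  refine abs_le.2 ⟨?_, ?_⟩
  · have := h6.1
    have h7 : -p.1 + -(c * p.2.1) ≤ 1 := by linarith
    linarith [h6.2]
  · linarith [h6.1]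

/-- the four points of height `z` on the segments between `±P0` and `±P1` -/
theorem YB.four (h : YB K z0 z1) {z : ℝ} (h0 : 0 < z) (h1 : z < 1) :
    ((1 - z, z, z) : E) ∈ K ∧ ((1 - z, -z, z) : E) ∈ K ∧ ((-(1 - z), z, z) : E) ∈ K ∧
      ((-(1 - z), -z, z) : E) ∈ K := by
  have a := h.P0
  have b := h.P1
  have a' := h.sym _ a
  have b' := h.sym _ b
  have key : ∀ x ∈ K, ∀ y ∈ K, (1 - z) • x + z • y ∈ K := fun x hx y hy =>
    h.conv hx hy (by linarith) h0.le (by ring)
  refine ⟨?_, ?_, ?_, ?_⟩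
  · have := key _ a _ b
    have e : (1 - z) • (((1 : ℝ), (0 : ℝ), (0 : ℝ)) : E) + z • (((0 : ℝ), (1 : ℝ), (1 : ℝ)) : E) =
        (1 - z, z, z) := by
      ext <;> simp
    rwa [e] at this
  · have := key _ a _ b'
    have e : (1 - z) • (((1 : ℝ), (0 : ℝ), (0 : ℝ)) : E) + z • J (((0 : ℝ), (1 : ℝ), (1 : ℝ)) : E) =
        (1 - z, -z, z) := by
      ext <;> simp [J]
    rwa [e] at this
  · have := key _ a' _ b
    have e : (1 - z) • J (((1 : ℝ), (0 : ℝ), (0 : ℝ)) : E) + z • (((0 : ℝ), (1 : ℝ), (1 : ℝ)) : E) =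
        (-(1 - z), z, z) := by
      ext <;> simp [J]
    rwa [e] at this
  · have := key _ a' _ b'
    have e : (1 - z) • J (((1 : ℝ), (0 : ℝ), (0 : ℝ)) : E) +
        z • J (((0 : ℝ), (1 : ℝ), (1 : ℝ)) : E) = (-(1 - z), -z, z) := by
      ext <;> simp [J]
    rwa [e] at this

/-- The conclusion of `HB'.cover_tilt` for one point. -/
def SB.H (K : Set E) (z0 m1 m2 σ : ℝ) (p : E) : Prop :=
  Ill K ((0 : ℝ), (-1 : ℝ), -σ) p ∨ Ill K (J ((0 : ℝ), (-1 : ℝ), -σ)) p ∨
      Ill K (1, m1, 0) p ∨ Ill K (-1, -m1, 0) p ∨ Ill K (1, -m2, 0) p ∨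
      Ill K (-1, -(-m2), 0) p ∨
      (p.2.2 = z0 ∧ (PI K z0 1 m1 p ∨ PI K z0 (-1) (-m1) p ∨ PI K z0 1 (-m2) p ∨
        PI K z0 (-1) (-(-m2)) p))

theorem SB.J_J (p : E) : J (J p) = p := by
  simp [J]

theorem SB.PI_symm (h : HB K) {e a b : ℝ} {p : E} (hp : PI K e a b p) :
    PI K e (-a) (-b) (J p) := by
  obtain ⟨l, hl, hi⟩ := hp
  refine ⟨l, hl, ?_⟩
  have hS : ∀ w ∈ {y : ℝ × ℝ | ((y.1, y.2, e) : E) ∈ K}, -w ∈
      {y : ℝ × ℝ | ((y.1, y.2, e) : E) ∈ K} := by
    intro w hw
    exact h.sym _ hw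
  have hS' : (Homeomorph.neg (ℝ × ℝ)) ⁻¹' {y : ℝ × ℝ | ((y.1, y.2, e) : E) ∈ K} =
      {y : ℝ × ℝ | ((y.1, y.2, e) : E) ∈ K} := by
    ext w
    constructor
    · intro hw
      have := hS _ hw
      simpa using this
    · intro hw
      exact hS _ hw
  have h1 : -((p.1 + l * a, p.2.1 + l * b) : ℝ × ℝ) ∈
      interior {y : ℝ × ℝ | ((y.1, y.2, e) : E) ∈ K} := by
    rw [← hS', ← Homeomorph.preimage_interior]
    simpa using hi
  have h2 : (((J p).1 + l * -a, (J p).2.1 + l * -b) : ℝ × ℝ) =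
      -((p.1 + l * a, p.2.1 + l * b) : ℝ × ℝ) := by
    ext <;> simp [J] <;> ring
  rwa [h2]

theorem SB.H_symm (h : HB K) {m1 m2 σ : ℝ} {p : E} (hp : SB.H K z0 m1 m2 σ (J p)) :
    SB.H K z0 m1 m2 σ p := by
  have key : ∀ v, Ill K v (J p) → Ill K (J v) p := fun v hv => by
    have := Ill.symm h hv
    rwa [SB.J_J] at this
  have keyP : ∀ e a b, PI K e a b (J p) → PI K e (-a) (-b) p := fun e a b hv => by
    have := SB.PI_symm h hv
    rwa [SB.J_J] at this
  unfold SB.H at hp ⊢
  rcases hp with hp | hp | hp | hp | hp | hp | ⟨hz, hp⟩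
  · right; left; exact key _ hp
  · left
    have := key _ hp
    rwa [SB.J_J] at this
  · right; right; right; left
    simpa [J] using key _ hp
  · right; right; left
    simpa [J] using key _ hp
  · right; right; right; right; right; left
    simpa [J] using key _ hp
  · right; right; right; right; left
    simpa [J] using key _ hp
  · right; right; right; right; right; right
    refine ⟨hz, ?_⟩
    rcases hp with hp | hp | hp | hp
    · right; left
      exact keyP _ _ _ hp
    · left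
      simpa using keyP _ _ _ hp
    · right; right; right
      exact keyP _ _ _ hp
    · right; right; left
      simpa using keyP _ _ _ hp

/-- the main step: contact points of inner height with `x ≥ 0`, `y ≥ 0` -/
theorem SB.main (h : YB K z0 z1) {m σ : ℝ} (h1 : 0 < m) (h1' : m ≤ 1) (hσ : 0 < σ) {p : E}
    (hpK : p ∈ K) (s : ℝ) (hs : s = 1 ∨ s = -1) (hz : 0 < p.2.2) (hz1 : p.2.2 < 1)
    (hα : 0 ≤ p.1) (hβ : 0 ≤ s * p.2.1)
    (hσβ : m ≤ s * p.2.1 → σ * (s * p.2.1) < p.2.2)
    (D : 1 - p.2.2 ≤ p.1 → s * p.2.1 < p.2.2 + m * (p.1 + 1 - p.2.2)) :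
    Ill K (-1, -(s * m), 0) p ∨ Ill K (0, -s, -σ) p := by
  by_contra hcon
  push Not at hcon
  obtain ⟨hc1, hc2⟩ := hcon
  obtain ⟨q1, q2, q3, q4⟩ := h.four hz hz1
  have hz1' : p.2.2 < z1 := hz1.trans_le (by have := h.hi _ h.P1; simpa using this)
  have hz0' : z0 < p.2.2 := lt_of_le_of_lt (by have := h.lo _ h.P0; simpa using this) hz
  have hax := h.ax _ hz0' hz1'
  have habs := h.abs1x hpK
  obtain ⟨x, y, z⟩ := p
  simp only at *
  have hss : s * s = 1 := by rcases hs with rfl | rfl <;> norm_num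
  have habs' : x ≤ 1 + s * y := by
    have e1 : |y| = s * y := by
      have : |s * y| = s * y := abs_of_nonneg hβ
      rw [← this, abs_mul]
      rcases hs with rfl | rfl <;> simp
    rw [e1] at habs
    exact (le_abs_self x).trans habs
  -- first functional
  obtain ⟨a, b, c, H1, H2, H3⟩ := h.toHB'.toHB.sep hpK hc1
  have k0 := H2 _ hax
  have k1 := H1 _ q1
  have k2 := H1 _ q2
  have k3 := H1 _ q3
  have k4 := H1 _ q4
  simp only [mul_zero, zero_add, add_zero] at k0 k1 k2 k3 k4 H3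
  have hby : b * y = (s * b) * (s * y) := by
    linear_combination (-(b * y)) * hss
  have step1 := SB.alg1 (n1 := a) (n2 := s * b) (α := x) (β := s * y) (z := z) (m := m) h1 h1' hz
    hz1 hα hβ (by linarith) (by rw [← hby]; linarith)
    (by rw [← hby]; rcases hs with rfl | rfl <;> linarith)
    (by rw [← hby]; rcases hs with rfl | rfl <;> linarith)
    (by rw [← hby]; rcases hs with rfl | rfl <;> linarith)
    (by rw [← hby]; rcases hs with rfl | rfl <;> linarith) habs'
  rcases step1 with ⟨ha, hb, hxy⟩ | hge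
  · -- equality: `x - s y ≤ 1` on `K`
    have hb' : b = -(s * a) := by
      linear_combination (-b) * hss + s * hb
    have r1 := H1 _ h.P0
    have r2 := H1 _ (h.sym _ h.P1)
    have r3 := H1 _ h.P1
    simp only [J] at r1 r2 r3
    subst hb'
    have e1 : a * x + -(s * a) * y = a := by
      rw [hxy]; ring
    have hc0 : 0 ≤ c := by
      have : 0 ≤ c * z := by linarith
      exact nonneg_of_mul_nonneg_left this hz
    have hc0' : c ≤ 0 := by
      have : c * (1 - z) ≤ 0 := by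
        rcases hs with rfl | rfl <;> linarith
      exact nonpos_of_mul_nonpos_left this (by linarith)
    have hc00 : c = 0 := le_antisymm hc0' hc0
    subst hc00
    have hle : ∀ q ∈ K, q.1 - s * q.2.1 ≤ 1 := by
      intro q hq
      have := H1 q hq
      rw [e1] at this
      have h2 : a * (q.1 - s * q.2.1) ≤ a * 1 := by linarith
      exact le_of_mul_le_mul_left h2 ha
    have hfin : x = 1 - z := by
      rcases hs with rfl | rfl
      · exact h.nw1 (fun q hq => by have := hle q hq; linarith) (x, y, z) hpK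
          (by simp only; linarith)
      · exact h.nw2 (fun q hq => by have := hle q hq; linarith) (x, y, z) hpK
          (by simp only; linarith)
    linarith
  · -- the tilted direction
    have hxz : x < 1 - z := by
      by_contra hc
      push Not at hc
      have := D hc
      linarith
    have hmβ : m ≤ s * y := by nlinarith
    have hσβ' := hσβ hmβ
    obtain ⟨a', b', c', G1, G2, G3⟩ := h.toHB'.toHB.sep hpK hc2
    have g0 := G2 _ hax
    have g1 := G1 _ q1
    have g2 := G1 _ q2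
    have r1 := G1 _ h.P0
    have r2 := G1 _ (h.sym _ h.P0)
    simp only [J, mul_zero, zero_add, add_zero] at g0 g1 g2 G3 r1 r2
    have hby' : b' * y = (s * b') * (s * y) := by
      linear_combination (-(b' * y)) * hss
    exact SB.alg2 (n1 := a') (n2 := s * b') (n3 := c') (α := x) (β := s * y) (z := z) (σ := σ)
      hz hα hβ hxz hσ hσβ' (by linarith) (by rw [← hby']; linarith)
      (by rw [← hby']; rcases hs with rfl | rfl <;> linarith) (by rw [← hby']; linarith)
      (by rw [← hby']; linarith)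

/-- Proof idea: `HB'.cover_tilt` with `e = (0,-1,-σ)`, `(a1,b1) = (1,m1)`, `(a2,b2) = (1,-m2)`,
`σ > 0` fixed small. Contact points `p = (α,β,z)` (WLOG `α ≥ 0` by `J`): put `λ = 1-z`, `μ = z`;
for `0 < z < 1` and a supporting functional `n` of `HB.sep` the points `(±λ,±μ,z) ∈ K` give
`n1 α + n2 β ≥ λ|n1| + μ|n2|`; `|α| ≤ 1 + |β|`, `|β| ≤ 1 + |α|` on `K` (from `c0`, `c1` and
`±P0`, `±P1`).
* `z = 0`: `p = ±P0` by T0: `hP0` (if `z0 < 0` use `HB'.ill_of_PI`).
* `z = 1`: `p = ±P1` by T1: illuminated by `(0,∓1,-σ)`, as `(0,0,1-σ)` is an interior point.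
* `0 < z < 1`, `β ≥ 0`. If `-(1,m1,0)` fails: `n1 + m1 n2 ≤ 0`. `n1 > 0 > n2` gives
  `α ≥ λ + (β+μ)/m1 ≥ 1 + β`: contradiction if `m1 < 1`; if `m1 = 1` then `α = 1 + β`,
  `|n2| = n1`, then (from `n·P0 ≤ n·p`, `n·(-P1) ≤ n·p`) `n3 = 0` and `x - y ≤ 1` on `K`,
  so `nw1` gives `α = 1 - z`, contradiction. So `n1 < 0 < n2` and `β ≥ μ + m1(α+λ) ≥ m1`.
  By D1 then `α < λ`. Then `(0,-1,-σ)` illuminates `p` provided `z > σβ`: otherwise
  `n2 ≤ -σ n3`; `n3 ≥ 0` gives `n2 ≤ 0` and `n1 α - |n2|β ≥ λ|n1| + μ|n2|`, so `α ≥ λ` (or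
  `n1 = n2 = 0`, `n3 ≤ 0`, contradiction with `P0`); `n3 = -k < 0`: `n·p ≥ |n1|` gives
  `k(z - σβ) ≤ |n1|(α - 1) ≤ 0`, contradiction.
  The contact points with `|β| ≥ min m1 m2` form a compact set (`HB.con_compact`) on which
  `z > 0` by T0 and `con`, so `z ≥ ζ > 0` there; `K` is bounded, so `z > σβ` for small `σ`.
* `0 < z < 1`, `β ≤ 0`: symmetric, with `-(1,-m2,0)`, `D2`, `(0,1,-σ)`, `nw2`. -/
theorem YB.SB (h : YB K z0 z1) {m1 m2 : ℝ} (h1 : 0 < m1) (h1' : m1 ≤ 1) (h2 : 0 < m2)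
    (h2' : m2 ≤ 1)
    (hP0 : PI K 0 (-1) (-m1) (1, 0, 0) ∨ PI K 0 (-1) m2 (1, 0, 0))
    (T0 : ∀ p, Con K p → p.2.2 = 0 → p = (1, 0, 0) ∨ p = J (1, 0, 0))
    (T1 : ∀ p, Con K p → p.2.2 = 1 → p = (0, 1, 1) ∨ p = J (0, 1, 1))
    (D1 : ∀ p, Con K p → 0 < p.2.2 → p.2.2 < 1 → 1 - p.2.2 ≤ p.1 → 0 ≤ p.2.1 →
      p.2.1 < p.2.2 + m1 * (p.1 + 1 - p.2.2))
    (D2 : ∀ p, Con K p → 0 < p.2.2 → p.2.2 < 1 → 1 - p.2.2 ≤ p.1 → p.2.1 ≤ 0 →
      -p.2.1 < p.2.2 + m2 * (p.1 + 1 - p.2.2)) : Cov8 K := by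
  have hz0 : z0 ≤ 0 := by have := h.lo _ h.P0; simpa using this
  have hz1 : 1 ≤ z1 := by have := h.hi _ h.P1; simpa using this
  -- choice of `σ`
  obtain ⟨σ, hσ, hσ1, hσC⟩ : ∃ σ : ℝ, 0 < σ ∧ σ < 1 ∧
      ∀ p, Con K p → min m1 m2 ≤ |p.2.1| → σ * |p.2.1| < p.2.2 := by
    have hm : 0 < min m1 m2 := lt_min h1 h2
    have hC : IsCompact ({p | Con K p} ∩ {p : E | min m1 m2 ≤ |p.2.1|}) := by
      refine h.toHB'.toHB.con_compact.inter_right ?_
      exact isClosed_le continuous_const (by fun_prop)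
    by_cases hne : ({p | Con K p} ∩ {p : E | min m1 m2 ≤ |p.2.1|}).Nonempty
    · obtain ⟨p, hp, hpmin⟩ := hC.exists_isMinOn hne (f := fun p : E => p.2.2)
        (by fun_prop)
      obtain ⟨q, hq, hqmax⟩ := hC.exists_isMaxOn hne (f := fun p : E => |p.2.1|)
        (by fun_prop)
      have hp0 : 0 < p.2.2 := by
        refine lt_of_le_of_ne (h.con p hp.1).1 fun h0 => ?_
        have h3 : min m1 m2 ≤ |p.2.1| := hp.2
        rcases T0 p hp.1 h0.symm with rfl | rfl
        · simp at h3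
          rcases h3 with h3 | h3 <;> linarith
        · simp [J] at h3
          rcases h3 with h3 | h3 <;> linarith
      have hq0 : 0 < |q.2.1| := hm.trans_le hq.2
      refine ⟨min (1 / 2) (p.2.2 / (2 * |q.2.1|)), by positivity, by
        exact (min_le_left _ _).trans_lt (by norm_num), fun r hr hr' => ?_⟩
      have h3 : p.2.2 ≤ r.2.2 := hpmin ⟨hr, hr'⟩
      have h4 : |r.2.1| ≤ |q.2.1| := hqmax ⟨hr, hr'⟩
      have h5 : min (1 / 2) (p.2.2 / (2 * |q.2.1|)) * |r.2.1| ≤
          p.2.2 / (2 * |q.2.1|) * |q.2.1| := by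
        refine mul_le_mul (min_le_right _ _) h4 (abs_nonneg _) (by positivity)
      have h6 : p.2.2 / (2 * |q.2.1|) * |q.2.1| = p.2.2 / 2 := by
        field_simp
      linarith
    · refine ⟨1 / 2, by norm_num, by norm_num, fun r hr hr' => ?_⟩
      exact absurd ⟨r, hr, hr'⟩ hne
  have hall : ∀ p, Con K p → SB.H K z0 m1 m2 σ p := by
    -- reduction to `x ≥ 0`
    suffices hpos : ∀ p, Con K p → 0 ≤ p.1 → SB.H K z0 m1 m2 σ p by
      intro p hp
      rcases le_total 0 p.1 with h0 | h0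
      · exact hpos p hp h0
      · exact SB.H_symm h.toHB'.toHB (hpos (J p) (Con.symm h.toHB'.toHB hp)
          (by simp only [J]; linarith))
    intro p hp hα
    obtain ⟨c1, c2⟩ := h.con p hp
    rcases c1.eq_or_lt with e0 | l0
    · -- height `0`
      have hp' : p = (1, 0, 0) := by
        rcases T0 p hp e0.symm with rfl | rfl
        · rfl
        · exfalso
          simp [J] at hα
          linarith
      subst hp'
      rcases hz0.eq_or_lt with e | l
      · subst e
        right; right; right; right; right; right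
        refine ⟨rfl, ?_⟩
        rcases hP0 with hP | hP
        · right; left; exact hP
        · right; right; right
          rw [neg_neg]; exact hP
      · rcases hP0 with hP | hP
        · right; right; right; left
          exact h.toHB'.ill_of_PI l (by linarith) hP
        · right; right; right; right; right; left
          rw [neg_neg]
          exact h.toHB'.ill_of_PI l (by linarith) hP
    rcases c2.eq_or_lt with e1 | l1
    · -- height `1`
      have hax := h.ax (1 - σ) (by linarith) (by linarith)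
      rcases T1 p hp e1 with rfl | rfl
      · left
        refine ⟨1, one_pos, ?_⟩
        have e : (((0 : ℝ), (1 : ℝ), (1 : ℝ)) : E) + (1 : ℝ) • (((0 : ℝ), (-1 : ℝ), -σ) : E) =
            (0, 0, 1 - σ) := by
          ext <;> simp [sub_eq_add_neg]
        rwa [e]
      · right; left
        refine ⟨1, one_pos, ?_⟩
        have e : J (((0 : ℝ), (1 : ℝ), (1 : ℝ)) : E) + (1 : ℝ) • J (((0 : ℝ), (-1 : ℝ), -σ) : E) =
            (0, 0, 1 - σ) := by
          ext <;> simp [J, sub_eq_add_neg]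
        rwa [e]
    -- inner heights
    rcases le_total 0 p.2.1 with hβ | hβ
    · have hm := SB.main h (m := m1) (σ := σ) h1 h1' hσ hp.1 1 (Or.inl rfl) l0 l1 hα
        (by linarith) (fun hmβ => by
          have := hσC p hp (by
            rw [abs_of_nonneg hβ]
            exact (min_le_left _ _).trans (by linarith))
          rw [abs_of_nonneg hβ] at this
          linarith) (fun hx => by
          have := D1 p hp l0 l1 hx hβ
          linarith)
      rcases hm with hm | hm
      · right; right; right; left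
        simpa using hm
      · left
        simpa using hm
    · have hm := SB.main h (m := m2) (σ := σ) h2 h2' hσ hp.1 (-1) (Or.inr rfl) l0 l1 hα
        (by linarith) (fun hmβ => by
          have := hσC p hp (by
            rw [abs_of_nonpos hβ]
            exact (min_le_right _ _).trans (by linarith))
          rw [abs_of_nonpos hβ] at this
          linarith) (fun hx => by
          have := D2 p hp l0 l1 hx hβ
          linarith)
      rcases hm with hm | hm
      · right; right; right; right; right; left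
        simpa using hm
      · right; left
        simpa [J] using hm
  exact h.toHB'.cover_tilt (0, -1, -σ) 1 m1 1 (-m2) hall

end Pool.Agent.Zk54
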