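import Pool.Agent.Zk54.Trans
import Pool.Agent.Zk54.YLow
import Pool.Agent.Zk54.YSB
import Pool.Agent.Zk54.YMid

/-!
Third case: assembly (helper96).
-/

set_option autoImplicit false

open Set Topology Filter

namespace Pool.Agent.Zk54

variable {K : Set E} {z0 z1 : ℝ}

/-- reflection `x → -x` -/
theorem YB.mir (h : YB K z0 z1) : YB {p | T (-1) 0 0 1 1 0 p ∈ K} z0 z1 := by
  have hm : (-1 : ℝ) * 1 - 0 * 0 ≠ 0 := by norm_num
  have hHB : HB' {p | T (-1) 0 0 1 1 0 p ∈ K} z0 z1 := by
    have := h.toHB'.T_pos (m11 := -1) (m12 := 0) (m21 := 0) (m22 := 1) (k := 1) (d := 0) hm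
      one_pos
    simpa using this
  have key : ∀ x y z : ℝ, T (-1) 0 0 1 1 0 (x, y, z) ∈ K ↔ ((x, -y, z) : E) ∈ K := by
    intro x y z
    have e : J (x, -y, z) = T (-1) 0 0 1 1 0 (x, y, z) := by
      simp [J, T]
    constructor
    · intro hp
      rw [← e] at hp
      have := h.sym _ hp
      rwa [J_J] at this
    · intro hp
      rw [← e]
      exact h.sym _ hp
  refine { toHB' := hHB, P0 := ?_, P1 := ?_, c0 := ?_, c1 := ?_, con := ?_, o0 := ?_, o1 := ?_, nw1 := ?_, nw2 := ?_ }
  · rw [mem_ofPred_eq, key]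
    simpa using h.P0
  · rw [mem_ofPred_eq]
    simpa [T] using h.P1
  · obtain ⟨c, hc⟩ := h.c0
    refine ⟨-c, fun p hp => ?_⟩
    obtain ⟨x, y, z⟩ := p
    have := hc _ ((key x y z).1 hp)
    simp only at this ⊢
    linarith
  · obtain ⟨c, hc⟩ := h.c1
    refine ⟨-c, fun p hp => ?_⟩
    obtain ⟨x, y, z⟩ := p
    have := hc _ hp
    simp only [T] at this ⊢
    linarith
  · intro p hp
    have := h.con _ ((con_T hm one_ne_zero).1 hp)
    simpa [T] using this
  · intro hp
    apply h.o0
    simpa [T] using hp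
  · intro hp
    apply h.o1
    have := (key 1 0 1).1 hp
    simpa using this
  · intro H p hp hpe
    obtain ⟨x, y, z⟩ := p
    have := h.nw2 (fun q hq => by
      obtain ⟨a, b, c⟩ := q
      have h1 := H (a, -b, c) ((key a (-b) c).2 (by simpa using hq))
      simp only at h1 ⊢
      linarith) _ ((key x y z).1 hp) (by
        simp only at hpe ⊢
        linarith)
    exact this
  · intro H p hp hpe
    obtain ⟨x, y, z⟩ := p
    have := h.nw1 (fun q hq => by
      obtain ⟨a, b, c⟩ := q
      have h1 := H (a, -b, c) ((key a (-b) c).2 (by simpa using hq))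
      simp only at h1 ⊢
      linarith) _ ((key x y z).1 hp) (by
        simp only at hpe ⊢
        linarith)
    exact this

/-- exchange of bottom and top -/
theorem YB.swp (h : YB K z0 z1) : YB {p | T 0 1 1 0 (-1) 1 p ∈ K} (1 - z1) (1 - z0) := by
  have hm : (0 : ℝ) * 0 - 1 * 1 ≠ 0 := by norm_num
  have hHB : HB' {p | T 0 1 1 0 (-1) 1 p ∈ K} (1 - z1) (1 - z0) := by
    have := h.toHB'.T_neg (m11 := 0) (m12 := 1) (m21 := 1) (m22 := 0) (k := -1) (d := 1) hm
      (by norm_num)
    have e1 : (z1 - 1) / (-1) = 1 - z1 := by ring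
    have e2 : (z0 - 1) / (-1) = 1 - z0 := by ring
    rwa [e1, e2] at this
  have key : ∀ x y z : ℝ, T 0 1 1 0 (-1) 1 (x, y, z) = (y, x, 1 - z) := by
    intro x y z
    simp only [T, Prod.mk.injEq]
    refine ⟨by ring, by ring, by ring⟩
  refine { toHB' := hHB, P0 := ?_, P1 := ?_, c0 := ?_, c1 := ?_, con := ?_, o0 := ?_, o1 := ?_, nw1 := ?_, nw2 := ?_ }
  · rw [mem_ofPred_eq, key]
    simpa using h.P1
  · rw [mem_ofPred_eq, key]
    simpa using h.P0
  · obtain ⟨c, hc⟩ := h.c1
    refine ⟨c, fun p hp => ?_⟩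
    obtain ⟨x, y, z⟩ := p
    rw [mem_ofPred_eq, key] at hp
    have := hc _ hp
    simp only at this ⊢
    linarith
  · obtain ⟨c, hc⟩ := h.c0
    refine ⟨c, fun p hp => ?_⟩
    obtain ⟨x, y, z⟩ := p
    rw [mem_ofPred_eq, key] at hp
    have := hc _ hp
    simp only at this ⊢
    linarith
  · intro p hp
    obtain ⟨x, y, z⟩ := p
    have := h.con _ ((con_T hm (by norm_num)).1 hp)
    rw [key] at this
    simp only at this ⊢
    constructor <;> linarith [this.1, this.2]
  · intro hp
    rw [mem_ofPred_eq, key] at hp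
    exact h.o1 (by simpa using hp)
  · intro hp
    rw [mem_ofPred_eq, key] at hp
    exact h.o0 (by simpa using hp)
  · intro H p hp hpe
    obtain ⟨x, y, z⟩ := p
    rw [mem_ofPred_eq, key] at hp
    have := h.nw1 (fun q hq => by
      obtain ⟨a, b, c⟩ := q
      have h0 := h.sym _ hq
      have h1 := H (-b, -a, 1 - c) (by
        rw [mem_ofPred_eq, key]
        simpa [J] using h0)
      simp only at h1 ⊢
      linarith) _ (h.sym _ hp) (by
        simp only [J] at hpe ⊢
        linarith)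
    simp only [J] at this hpe ⊢
    linarith
  · intro H p hp hpe
    obtain ⟨x, y, z⟩ := p
    rw [mem_ofPred_eq, key] at hp
    have := h.nw2 (fun q hq => by
      obtain ⟨a, b, c⟩ := q
      have h1 := H (b, a, 1 - c) (by
        rw [mem_ofPred_eq, key]
        simpa using hq)
      simp only at h1 ⊢
      linarith) _ hp (by
        simp only at hpe ⊢
        linarith)
    simp only at this hpe ⊢
    linarith

theorem PI_J (h : HB K) {e a b : ℝ} {p : E} : PI K e a b p ↔ PI K e (-a) (-b) (J p) := by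
  have hK : {p | T (-1) 0 0 (-1) 1 0 p ∈ K} = K := by
    ext p
    have e : T (-1) 0 0 (-1) 1 0 p = J p := by
      simp [J, T]
    rw [mem_ofPred_eq, e]
    constructor
    · intro hp
      have := h.sym _ hp
      rwa [J_J] at this
    · exact h.sym p
  have h1 := PI_T (K := K) (m11 := -1) (m12 := 0) (m21 := 0) (m22 := -1) (k := 1) (d := 0)
    (e := e) (a := a) (b := b) (p := p) (by norm_num) one_ne_zero
  rw [hK] at h1
  have e1 : T (-1) 0 0 (-1) 1 0 p = J p := by
    simp [J, T]
  rw [e1] at h1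
  simpa using h1

theorem ill_PI {a b x y e : ℝ} (hp : Ill K (a, b, 0) (x, y, e)) : PI K e a b (x, y, e) := by
  obtain ⟨l, hl, hi⟩ := hp
  refine ⟨l, hl, ?_⟩
  have h1 : IsOpen {w : ℝ × ℝ | ((w.1, w.2, e) : E) ∈ interior K} :=
    isOpen_interior.preimage (by fun_prop)
  have hs : {w : ℝ × ℝ | ((w.1, w.2, e) : E) ∈ interior K} ⊆
      {w : ℝ × ℝ | ((w.1, w.2, e) : E) ∈ K} := fun w hw => interior_subset (s := K) hw
  have h2 : ((x, y, e) : E) + l • ((a, b, 0) : E) = (x + l * a, y + l * b, e) := by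
    simp
  rw [h2] at hi
  exact interior_maximal hs h1 hi

theorem YB.d2one (h : YB K z0 z1) {p : E} (hp : p ∈ K) (h1 : p.2.2 < 1)
    (h2 : 1 - p.2.2 ≤ p.1) : -p.2.1 < p.2.2 + 1 * (p.1 + 1 - p.2.2) := by
  by_contra hcon
  push Not at hcon
  obtain ⟨c, hc⟩ := h.c1
  have e1 := hc _ (h.sym p hp)
  have e2 := hc _ h.P0
  simp only [J] at e1 e2
  have hc1 : c = 1 := by
    have : c ≤ 1 := by linarith
    have h3 : 0 < p.1 := by linarith
    have h4 : p.1 * 1 ≤ p.1 * c := by linarith
    have := le_of_mul_le_mul_left h4 h3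
    linarith
  subst hc1
  have := h.nw2 (fun q hq => by
    have := hc q hq
    linarith) _ (h.sym p hp) (by
      simp only [J]
      linarith)
  simp only [J] at this
  linarith

theorem YB.d1one (h : YB K z0 z1) {p : E} (hp : p ∈ K) (h1 : p.2.2 < 1)
    (h2 : 1 - p.2.2 ≤ p.1) : p.2.1 < p.2.2 + 1 * (p.1 + 1 - p.2.2) := by
  by_contra hcon
  push Not at hcon
  obtain ⟨c, hc⟩ := h.c1
  have e1 := hc _ hp
  have e2 := hc _ (h.sym _ h.P0)
  simp only [J] at e1 e2
  have hc1 : c = -1 := by
    have h3 : 0 < p.1 := by linarith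
    have h4 : p.1 * c ≤ p.1 * (-1) := by linarith
    have := le_of_mul_le_mul_left h4 h3
    linarith
  subst hc1
  have := h.nw1 (fun q hq => by
    have := hc _ (h.sym q hq)
    simp only [J] at this
    linarith) _ (h.sym p hp) (by
      simp only [J]
      have := hc p hp
      linarith)
  simp only [J] at this
  linarith

/-- the origin is interior to the section at height `0` -/
theorem YB.origin (h : YB K z0 z1)
    (hi : (interior {w : ℝ × ℝ | ((w.1, w.2, (0 : ℝ)) : E) ∈ K}).Nonempty) :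
    ((0 : ℝ), (0 : ℝ)) ∈ interior {w : ℝ × ℝ | ((w.1, w.2, (0 : ℝ)) : E) ∈ K} := by
  have hconv : Convex ℝ {w : ℝ × ℝ | ((w.1, w.2, (0 : ℝ)) : E) ∈ K} := by
    intro u hu v hv s t hs ht hst
    have := h.conv hu hv hs ht hst
    simpa using this
  obtain ⟨w, hw⟩ := hi
  have hw2 : ((-w.1, -w.2) : ℝ × ℝ) ∈ {w : ℝ × ℝ | ((w.1, w.2, (0 : ℝ)) : E) ∈ K} := by
    have hw' : w ∈ {w : ℝ × ℝ | ((w.1, w.2, (0 : ℝ)) : E) ∈ K} := interior_subset hw
    have := h.sym _ hw'
    simpa [J] using this
  have := hconv.combo_interior_self_mem_interior hw hw2 (a := 1 / 2) (b := 1 / 2)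
    (by norm_num) (by norm_num) (by norm_num)
  convert this using 1
  ext <;> simp

theorem YB.z1_ge (h : YB K z0 z1) : 1 ≤ z1 := h.hi _ h.P1

theorem YB.z0_le (h : YB K z0 z1) : z0 ≤ 0 := h.lo _ h.P0

/-- case (b) -/
theorem YB.low_b (h : YB K z0 z1) (hb : ¬ Good0 K)
    (T1 : ∀ p, Con K p → p.2.2 = 1 → p = (0, 1, 1) ∨ p = J (0, 1, 1))
    (hi : (interior {w : ℝ × ℝ | ((w.1, w.2, (0 : ℝ)) : E) ∈ K}).Nonempty)
    (hP : ¬ PI K 0 (-1) (-(1 / 2)) (1, 0, 0)) :
    Cov8 K ∨ ∃ t : ℝ, 0 < t ∧ t < 1 ∧ ∀ p ∈ K, p.2.2 ≤ 0 →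
      Ill K (-1, 0, t) p ∨ Ill K (1, 0, t) p := by
  obtain ⟨L2, T0⟩ := h.bad hb
  have hO := h.origin hi
  -- the functional
  obtain ⟨ρ, θ, hρ, hθ, hL1, hL⟩ : ∃ ρ θ : ℝ, 2 ≤ ρ ∧ 1 ≤ θ ∧
      (∀ p ∈ K, p.2.2 ≤ 0 → |p.1 - ρ * p.2.1| ≤ 1 + θ * p.2.2) ∧
      (1 < θ ∨ ∀ p ∈ K, |p.1 - 2 * p.2.1| ≤ 1 + p.2.2) := by
    rcases h.z0_le.lt_or_eq with hz | hz
    · have hnI : ¬ Ill K (-1, -(1 / 2), 0) (1, 0, 0) := fun hI => hP (ill_PI hI)
      obtain ⟨a, b, c, s1, s2, s3⟩ := h.toHB.sep h.P0 hnI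
      have ha := s2 _ (h.ax 0 hz (by linarith [h.z1_ge]))
      have e1 := s1 _ (h.sym _ h.P1)
      simp only [J] at ha e1 s3 s1
      have ha0 : 0 < a := by linarith
      have hall : ∀ q ∈ K, |q.1 - (-b / a) * q.2.1| ≤ 1 + (-c / a) * q.2.2 := by
        intro q hq
        have f1 := s1 q hq
        have f2 := s1 _ (h.sym q hq)
        simp only [J] at f2
        rw [abs_le]
        constructor
        · have : -(1 + -c / a * q.2.2) = (-(a - c * q.2.2)) / a := by
            field_simp
            ring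
          rw [this, div_le_iff₀ ha0]
          have : (q.1 - -b / a * q.2.1) * a = a * q.1 + b * q.2.1 := by
            field_simp
            ring
          rw [this]
          linarith
        · have : 1 + -c / a * q.2.2 = (a - c * q.2.2) / a := by
            field_simp
            ring
          rw [this, le_div_iff₀ ha0]
          have : (q.1 - -b / a * q.2.1) * a = a * q.1 + b * q.2.1 := by
            field_simp
            ring
          rw [this]
          linarith
      have hρ : 2 ≤ -b / a := by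
        rw [le_div_iff₀ ha0]
        linarith
      have hθ : -b / a - 1 ≤ -c / a := by
        rw [div_sub_one ha0.ne', div_le_div_iff_of_pos_right ha0]
        linarith
      refine ⟨-b / a, -c / a, hρ, by linarith, fun p hp _ => hall p hp, ?_⟩
      by_cases hθ1 : 1 < -c / a
      · exact Or.inl hθ1
      · right
        push Not at hθ1
        have hρ2 : -b / a = 2 := le_antisymm (by linarith) hρ
        have hθ2 : -c / a = 1 := le_antisymm hθ1 (by linarith)
        intro p hp
        have := hall p hp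
        rw [hρ2, hθ2] at this
        linarith
    · obtain ⟨m, n, hmn, s1, s2⟩ := h.toHB.sep2 h.P0 hi hP
      have e1 := s1 (-1) 0 (by simpa [J] using h.sym _ h.P0)
      have hm0 : 0 ≤ m := by linarith
      have hm : 0 < m := by
        rcases hm0.lt_or_eq with h1 | h1
        · exact h1
        · exfalso
          have hn : n ≠ 0 := by
            rcases hmn with h2 | h2
            · exact absurd h1.symm h2
            · exact h2
          -- move from the origin in the direction (0, n)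
          have hcont : ContinuousAt (fun s : ℝ => ((0, s * n) : ℝ × ℝ)) 0 := by fun_prop
          have h2 := hcont.eventually_mem (isOpen_interior.mem_nhds (by simpa using hO))
          obtain ⟨ε, hε, h3⟩ := Metric.eventually_nhds_iff.1 h2
          have h4 : dist (ε / 2) 0 < ε := by
            rw [Real.dist_eq, sub_zero, abs_of_pos (by linarith)]
            linarith
          have h4' : ((0, ε / 2 * n) : ℝ × ℝ) ∈ {w : ℝ × ℝ | ((w.1, w.2, (0 : ℝ)) : E) ∈ K} :=
            interior_subset (h3 h4)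
          have h5 := s1 0 (ε / 2 * n) h4'
          rw [← h1] at h5
          have h6 : 0 < n ^ 2 := by positivity
          simp only [zero_mul, mul_zero, add_zero, zero_add, mul_one] at h5
          have h7 : 0 < ε / 2 * n ^ 2 := by positivity
          nlinarith
      have hall : ∀ u v : ℝ, ((u, v, 0) : E) ∈ K → |u - (-n / m) * v| ≤ 1 := by
        intro u v huv
        have f1 := s1 u v huv
        have f2 := s1 (-u) (-v) (by simpa [J] using h.sym _ huv)
        rw [abs_le]
        have e3 : u - -n / m * v = (m * u + n * v) / m := by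
          field_simp
          ring
        rw [e3, le_div_iff₀ hm, div_le_iff₀ hm]
        constructor <;> linarith
      refine ⟨-n / m, 2, ?_, by norm_num, ?_, Or.inl (by norm_num)⟩
      · rw [le_div_iff₀ hm]
        linarith
      · intro p hp hp0
        have h1 := h.lo p hp
        have h2 : p.2.2 = 0 := by linarith
        obtain ⟨x, y, z⟩ := p
        simp only at h2 ⊢
        subst h2
        have := hall x y hp
        linarith
  -- small slope
  obtain ⟨m, hm0, hm1, hm⟩ : ∃ m : ℝ, 0 < m ∧ m ≤ 1 ∧ PI K 0 (-1) m (1, 0, 0) := by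
    have hcont : ContinuousAt (fun s : ℝ => ((0, s) : ℝ × ℝ)) 0 := by fun_prop
    have h2 := hcont.eventually_mem (isOpen_interior.mem_nhds hO)
    obtain ⟨ε, hε, h3⟩ := Metric.eventually_nhds_iff.1 h2
    have h4 : dist (min (ε / 2) 1) 0 < ε := by
      have : 0 < min (ε / 2) 1 := lt_min (by linarith) one_pos
      rw [Real.dist_eq, sub_zero, abs_of_pos this]
      exact (min_le_left _ _).trans_lt (by linarith)
    refine ⟨min (ε / 2) 1, lt_min (by linarith) one_pos, min_le_right _ _, 1, one_pos, ?_⟩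
    have := h3 h4
    convert this using 1
    ext <;> simp
  by_cases hD2 : ∀ p, Con K p → 0 < p.2.2 → p.2.2 < 1 → 1 - p.2.2 ≤ p.1 → p.2.1 ≤ 0 →
      -p.2.1 < p.2.2 + m * (p.1 + 1 - p.2.2)
  · left
    exact h.SB one_pos le_rfl hm0 hm1 (Or.inr hm) T0 T1
      (fun p hp _ h1 h2 _ => h.d1one hp.1 h1 h2) hD2
  · right
    push Not at hD2
    obtain ⟨p, hp, p1, p2, p3, p4, p5⟩ := hD2
    have hL3 : 1 + p.2.2 < |p.1 - 2 * p.2.1| := by
      have h1 : 0 < m * (p.1 + 1 - p.2.2) := mul_pos hm0 (by linarith)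
      refine lt_of_lt_of_le ?_ (le_abs_self _)
      linarith
    refine h.low_region hρ ?_ hL1 L2 ⟨p, hp.1, hL3⟩
    rcases hL with h1 | h1
    · exact h1
    · have := h1 p hp.1
      linarith

theorem YB.low (h : YB K z0 z1) (hb : ¬ Good0 K)
    (T1 : ∀ p, Con K p → p.2.2 = 1 → p = (0, 1, 1) ∨ p = J (0, 1, 1)) :
    Cov8 K ∨ ∃ t : ℝ, 0 < t ∧ t < 1 ∧ ∀ p ∈ K, p.2.2 ≤ 0 →
      Ill K (-1, 0, t) p ∨ Ill K (1, 0, t) p := by
  obtain ⟨L2, T0⟩ := h.bad hb
  by_cases hi : (interior {w : ℝ × ℝ | ((w.1, w.2, (0 : ℝ)) : E) ∈ K}).Nonempty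
  · by_cases hP : PI K 0 (-1) (-(1 / 2)) (1, 0, 0)
    · by_cases hP' : PI K 0 (-1) (1 / 2) (1, 0, 0)
      · left
        -- open conditions
        obtain ⟨m, hm1, hm2, hPm, hPm'⟩ : ∃ m : ℝ, 1 / 2 < m ∧ m ≤ 1 ∧
            PI K 0 (-1) (-m) (1, 0, 0) ∧ PI K 0 (-1) m (1, 0, 0) := by
          obtain ⟨l, hl, hl2⟩ := hP
          obtain ⟨l', hl', hl2'⟩ := hP'
          have hcont : ContinuousAt (fun s : ℝ => (((1 : ℝ) + l * (-1), 0 + l * (-s)) : ℝ × ℝ))
              (1 / 2) := by fun_prop
          have hcont' : ContinuousAt (fun s : ℝ => (((1 : ℝ) + l' * (-1), 0 + l' * s) : ℝ × ℝ))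
              (1 / 2) := by fun_prop
          have h2 := hcont.eventually_mem (isOpen_interior.mem_nhds hl2)
          have h2' := hcont'.eventually_mem (isOpen_interior.mem_nhds hl2')
          obtain ⟨ε, hε, h3⟩ := Metric.eventually_nhds_iff.1 (h2.and h2')
          have hpos : 0 < min (ε / 2) (1 / 2) := lt_min (by linarith) (by norm_num)
          have h4 : dist (1 / 2 + min (ε / 2) (1 / 2)) (1 / 2) < ε := by
            rw [Real.dist_eq, add_sub_cancel_left, abs_of_pos hpos]
            exact (min_le_left _ _).trans_lt (by linarith)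
          have h5 := h3 h4
          exact ⟨1 / 2 + min (ε / 2) (1 / 2), by linarith,
            by linarith [min_le_right (ε / 2) (1 / 2 : ℝ)], ⟨l, hl, h5.1⟩, ⟨l', hl', h5.2⟩⟩
        by_cases hD1 : ∀ p, Con K p → 0 < p.2.2 → p.2.2 < 1 → 1 - p.2.2 ≤ p.1 → 0 ≤ p.2.1 →
            p.2.1 < p.2.2 + m * (p.1 + 1 - p.2.2)
        · exact h.SB (by linarith) hm2 one_pos le_rfl (Or.inl hPm) T0 T1 hD1
            (fun p hp _ h1 h2 _ => h.d2one hp.1 h1 h2)
        by_cases hD2 : ∀ p, Con K p → 0 < p.2.2 → p.2.2 < 1 → 1 - p.2.2 ≤ p.1 → p.2.1 ≤ 0 →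
            -p.2.1 < p.2.2 + m * (p.1 + 1 - p.2.2)
        · exact h.SB one_pos le_rfl (by linarith) hm2 (Or.inr hPm') T0 T1
            (fun p hp _ h1 h2 _ => h.d1one hp.1 h1 h2) hD2
        exfalso
        push Not at hD1 hD2
        obtain ⟨p, hp, p1, p2, p3, -, p5⟩ := hD1
        obtain ⟨q, hq, q1, q2, q3, -, q5⟩ := hD2
        obtain ⟨c, hc⟩ := h.c1
        have e1 := hc p hp.1
        have e2 := hc _ (h.sym q hq.1)
        simp only [J] at e2
        have f1 : (2 * m - 1) * p.1 ≤ p.2.1 - 1 := by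
          nlinarith [mul_le_mul_of_nonneg_right p3 (by linarith : (0 : ℝ) ≤ 1 - m)]
        have f2 : (2 * m - 1) * q.1 ≤ -q.2.1 - 1 := by
          nlinarith [mul_le_mul_of_nonneg_right q3 (by linarith : (0 : ℝ) ≤ 1 - m)]
        have g1 : p.1 * c ≤ p.1 * (-(2 * m - 1)) := by linarith
        have g2 : q.1 * (2 * m - 1) ≤ q.1 * c := by linarith
        have k1 := le_of_mul_le_mul_left g1 (by linarith)
        have k2 := le_of_mul_le_mul_left g2 (by linarith)
        linarith
      · -- mirror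
        have hm : (-1 : ℝ) * 1 - 0 * 0 ≠ 0 := by norm_num
        have hT : ∀ x y z : ℝ, T (-1) 0 0 1 1 0 (x, y, z) = (-x, y, z) := by
          intro x y z
          simp [T]
        have hPI : ∀ b : ℝ, PI {p | T (-1) 0 0 1 1 0 p ∈ K} 0 (-1) b (1, 0, 0) ↔
            PI K 0 (-1) (-b) (1, 0, 0) := by
          intro b
          rw [PI_T hm one_ne_zero, hT, PI_J h.toHB (a := -1) (b := -b)]
          simp [J]
        have hb' : ¬ Good0 {p | T (-1) 0 0 1 1 0 p ∈ K} := by
          rintro (h1 | h1)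
          · rw [hPI] at h1
            exact hb (Or.inr (by simpa using h1))
          · rw [hPI] at h1
            exact hb (Or.inl h1)
        have T1' : ∀ p, Con {p | T (-1) 0 0 1 1 0 p ∈ K} p → p.2.2 = 1 →
            p = (0, 1, 1) ∨ p = J (0, 1, 1) := by
          intro p hp hp1
          obtain ⟨x, y, z⟩ := p
          have h1 := (con_T hm one_ne_zero).1 hp
          rw [hT] at h1
          rcases T1 _ h1 hp1 with h2 | h2
          · left
            simp only [Prod.mk.injEq] at h2 ⊢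
            exact ⟨by linarith [h2.1], h2.2⟩
          · right
            simp only [J, Prod.mk.injEq] at h2 ⊢
            exact ⟨by linarith [h2.1], h2.2⟩
        have hi' : (interior {w : ℝ × ℝ | ((w.1, w.2, (0 : ℝ)) : E) ∈
            {p | T (-1) 0 0 1 1 0 p ∈ K}}).Nonempty := by
          have hO := h.origin hi
          refine ⟨(0, 0), ?_⟩
          have h1 : IsOpen {w : ℝ × ℝ | ((-w.1, w.2) : ℝ × ℝ) ∈
              interior {w : ℝ × ℝ | ((w.1, w.2, (0 : ℝ)) : E) ∈ K}} :=
            isOpen_interior.preimage (by fun_prop)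
          refine interior_maximal ?_ h1 ?_
          · intro w hw
            have h2 : ((-w.1, w.2) : ℝ × ℝ) ∈ {w : ℝ × ℝ | ((w.1, w.2, (0 : ℝ)) : E) ∈ K} :=
              interior_subset hw
            rw [mem_ofPred_eq, mem_ofPred_eq, hT]
            exact h2
          · simpa using hO
        have hmain := h.mir.low_b hb' T1' hi' (by
          rw [hPI]
          simpa using hP')
        rcases hmain with h1 | ⟨t, ht0, ht1, h1⟩
        · exact Or.inl (Cov8.of_T hm one_ne_zero h1)
        · refine Or.inr ⟨t, ht0, ht1, fun p hp hp0 => ?_⟩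
          obtain ⟨x, y, z⟩ := p
          have h2 := h1 (-x, y, z) (by
            rw [mem_ofPred_eq, hT]
            simpa using hp) hp0
          rw [ill_T hm one_ne_zero, ill_T hm one_ne_zero, hT, hT, hT] at h2
          simp only [neg_neg] at h2
          exact h2.symm
    · exact h.low_b hb T1 hi hP
  · -- thin bottom
    right
    have hz : z0 = 0 := by
      by_contra hz
      have hz' : z0 < 0 := lt_of_le_of_ne h.z0_le hz
      apply hi
      have h1 := h.ax 0 hz' (by linarith [h.z1_ge])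
      have h2 : IsOpen {w : ℝ × ℝ | ((w.1, w.2, (0 : ℝ)) : E) ∈ interior K} :=
        isOpen_interior.preimage (by fun_prop)
      have hs : {w : ℝ × ℝ | ((w.1, w.2, (0 : ℝ)) : E) ∈ interior K} ⊆
          {w : ℝ × ℝ | ((w.1, w.2, (0 : ℝ)) : E) ∈ K} := fun w hw => interior_subset (s := K) hw
      exact ⟨(0, 0), interior_maximal hs h2 h1⟩
    refine h.low_thin hz fun p hp hp0 => ?_
    by_contra hy
    apply hi
    obtain ⟨x, y, z⟩ := p
    simp only at hp0 hy
    subst hp0
    have hO1 : IsOpen {w : ℝ × ℝ | 0 < w.2 / y} :=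
      isOpen_lt (f := fun _ : ℝ × ℝ => (0 : ℝ)) (g := fun w : ℝ × ℝ => w.2 / y) (by fun_prop)
        (by fun_prop)
    have hO2 : IsOpen {w : ℝ × ℝ | |w.1 - w.2 / y * x| < 1 - w.2 / y} :=
      isOpen_lt (f := fun w : ℝ × ℝ => |w.1 - w.2 / y * x|)
        (g := fun w : ℝ × ℝ => 1 - w.2 / y) (by fun_prop) (by fun_prop)
    have hO : IsOpen {w : ℝ × ℝ | 0 < w.2 / y ∧ |w.1 - w.2 / y * x| < 1 - w.2 / y} :=
      hO1.inter hO2
    refine ⟨(1 / 2 * x, 1 / 2 * y), interior_maximal ?_ hO ?_⟩
    · rintro ⟨u, v⟩ ⟨h1, h2⟩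
      simp only at h1 h2
      set c : ℝ := v / y with hc
      have hv : v = c * y := by
        rw [hc]
        field_simp
      have h3 := abs_lt.1 h2
      have h4 : 0 < 1 - c := lt_of_le_of_lt (abs_nonneg _) h2
      -- the point of the segment
      have h5 : (((u - c * x) / (1 - c), 0, 0) : E) ∈ K := by
        have := h.conv h.P0 (h.sym _ h.P0) (a := (1 + (u - c * x) / (1 - c)) / 2)
          (b := (1 - (u - c * x) / (1 - c)) / 2) (by
            have : -1 ≤ (u - c * x) / (1 - c) := by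
              rw [le_div_iff₀ h4]
              linarith [h3.1]
            linarith) (by
            have : (u - c * x) / (1 - c) ≤ 1 := by
              rw [div_le_iff₀ h4]
              linarith [h3.2]
            linarith) (by ring)
        convert this using 1
        ext
        · simp only [J, Prod.fst_add, Prod.smul_fst, smul_eq_mul]
          ring
        · simp [J]
        · simp [J]
      have h6 := h.conv h5 hp h4.le h1.le (by ring)
      rw [mem_ofPred_eq]
      convert h6 using 1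
      ext
      · simp only [Prod.fst_add, Prod.smul_fst, smul_eq_mul]
        field_simp
        ring
      · simp only [Prod.fst_add, Prod.snd_add, Prod.smul_fst, Prod.smul_snd, smul_eq_mul]
        rw [hv]
        ring
      · simp
    · simp only [mem_ofPred_eq]
      have : 1 / 2 * y / y = 1 / 2 := by field_simp
      rw [this]
      norm_num

/-- Assembly. -/
theorem YB.cov (h : YB K z0 z1) : Cov8 K := by
  have hm : (0 : ℝ) * 0 - 1 * 1 ≠ 0 := by norm_num
  have hk : (-1 : ℝ) ≠ 0 := by norm_num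
  have key : ∀ x y z : ℝ, T 0 1 1 0 (-1) 1 (x, y, z) = (y, x, 1 - z) := by
    intro x y z
    simp only [T, Prod.mk.injEq]
    refine ⟨by ring, by ring, by ring⟩
  have key0 : ∀ x y z : ℝ, T 0 1 1 0 (-1) 0 (x, y, z) = (y, x, - z) := by
    intro x y z
    simp only [T, Prod.mk.injEq]
    refine ⟨by ring, by ring, by ring⟩
  have hPI : ∀ a b : ℝ, PI {p | T 0 1 1 0 (-1) 1 p ∈ K} 0 a b (1, 0, 0) ↔
      PI K 1 b a (0, 1, 1) := by
    intro a b
    rw [PI_T hm hk, key]
    simp
  have hgood : Good0 {p | T 0 1 1 0 (-1) 1 p ∈ K} ↔ Good1 K := by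
    unfold Good0 Good1
    rw [hPI, hPI]
  have back : Cov8 {p | T 0 1 1 0 (-1) 1 p ∈ K} → Cov8 K := Cov8.of_T hm hk
  -- `T0` for one body gives `T1` for the other one
  have tr1 : (∀ p, Con {p | T 0 1 1 0 (-1) 1 p ∈ K} p → p.2.2 = 0 →
      p = (1, 0, 0) ∨ p = J (1, 0, 0)) → ∀ p, Con K p → p.2.2 = 1 →
      p = (0, 1, 1) ∨ p = J (0, 1, 1) := by
    intro H p hp hp1
    obtain ⟨x, y, z⟩ := p
    have h1 : Con {p | T 0 1 1 0 (-1) 1 p ∈ K} (y, x, 1 - z) := by
      rw [con_T hm hk, key]
      simpa using hp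
    simp only at hp1
    rcases H _ h1 (by simp only; linarith) with h2 | h2
    · left
      simp only [Prod.mk.injEq] at h2 ⊢
      exact ⟨h2.2.1, h2.1, hp1⟩
    · right
      simp only [J, Prod.mk.injEq] at h2 ⊢
      exact ⟨by linarith [h2.2.1], by linarith [h2.1], hp1⟩
  have tr2 : (∀ p, Con K p → p.2.2 = 0 → p = (1, 0, 0) ∨ p = J (1, 0, 0)) →
      ∀ p, Con {p | T 0 1 1 0 (-1) 1 p ∈ K} p → p.2.2 = 1 →
      p = (0, 1, 1) ∨ p = J (0, 1, 1) := by
    intro H p hp hp1
    obtain ⟨x, y, z⟩ := p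
    have h1 := (con_T hm hk).1 hp
    rw [key] at h1
    simp only at hp1
    rcases H _ h1 (by simp only; linarith) with h2 | h2
    · left
      simp only [Prod.mk.injEq] at h2 ⊢
      exact ⟨h2.2.1, h2.1, hp1⟩
    · right
      simp only [J, Prod.mk.injEq] at h2 ⊢
      exact ⟨by linarith [h2.2.1], by linarith [h2.1], hp1⟩
  by_cases hg0 : Good0 K
  · rcases h.z1_ge.lt_or_eq with hz1 | hz1
    · exact h.one hg0 (Or.inl hz1)
    · by_cases hg1 : Good1 K
      · rcases h.z0_le.lt_or_eq with hz0 | hz0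
        · exact back (h.swp.one (hgood.2 hg1) (Or.inl (by linarith)))
        · subst hz0
          subst hz1
          exact h.two hg0 hg1
      · exact h.one hg0 (Or.inr (tr1 (h.swp.bad (fun hh => hg1 (hgood.1 hh))).2))
  · have T0 := (h.bad hg0).2
    by_cases hg1 : Good1 K
    · exact back (h.swp.one (hgood.2 hg1) (Or.inr (tr2 T0)))
    · have hg1' : ¬ Good0 {p | T 0 1 1 0 (-1) 1 p ∈ K} := fun hh => hg1 (hgood.1 hh)
      have T1 := tr1 (h.swp.bad hg1').2
      rcases h.low hg0 T1 with h1 | ⟨t, -, -, h1⟩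
      · exact h1
      rcases h.swp.low hg1' (tr2 T0) with h2 | ⟨t', -, -, h2⟩
      · exact back h2
      refine h.final ⟨t, h1⟩ ⟨t', fun p hp hp1 => ?_⟩
      obtain ⟨x, y, z⟩ := p
      have h3 := h2 (y, x, 1 - z) (by
        rw [mem_ofPred_eq, key]
        simpa using hp) (by
          simp only at hp1 ⊢
          linarith)
      rw [ill_T hm hk, ill_T hm hk, key0, key0, key] at h3
      simpa using h3

end Pool.Agent.Zk54
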