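import Pool.Agent.Zk54.Reduction
import Pool.Agent.Zk54.YCases
import Pool.Agent.Zk54.UW
import Pool.Agent.Zk54.Fin3

/-!
Convex bodies with a half-turn symmetry: the theorem.
-/

set_option autoImplicit false

namespace Pool.Agent.Zk54

/-- every convex body in `ℝ × ℝ × ℝ` with the half-turn symmetry `(x, y, z) ↦ (-x, -y, z)` is
covered by 8 translates of its interior -/
theorem HB.cov (K : Set E) (h : HB K) : Cov8 K :=
  HB.cov_of (fun _ _ _ _ _ h hF => h.cov_thin hF) (fun _ _ _ _ _ h hF => h.cov_fat hF)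
    (fun _ _ _ h => h.cov) K h

end Pool.Agent.Zk54
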