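import Pool.Agent.Zk54.Trans

/-!
Reduction to three normal forms.
-/

set_option autoImplicit false

open Set Topology Filter

namespace Pool.Agent.Zk54

namespace Red

variable {K : Set E}

/-- a convex subset of the plane with three points which are not on a line has interior points -/
theorem interior_of_three {S : Set (ℝ × ℝ)} (hS : Convex ℝ S) {A B C : ℝ × ℝ} (hA : A ∈ S)
    (hB : B ∈ S) (hC : C ∈ S)
    (hD : (B.1 - A.1) * (C.2 - A.2) - (B.2 - A.2) * (C.1 - A.1) ≠ 0) :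
    (interior S).Nonempty := by
  obtain ⟨a1, a2⟩ := A
  obtain ⟨b1, b2⟩ := B
  obtain ⟨c1, c2⟩ := C
  simp only at hD
  set D := (b1 - a1) * (c2 - a2) - (b2 - a2) * (c1 - a1) with hDdef
  let s : ℝ × ℝ → ℝ := fun w => ((w.1 - a1) * (c2 - a2) - (w.2 - a2) * (c1 - a1)) / D
  let t : ℝ × ℝ → ℝ := fun w => ((b1 - a1) * (w.2 - a2) - (b2 - a2) * (w.1 - a1)) / D
  have hs : Continuous s := by simp only [s]; fun_prop
  have ht : Continuous t := by simp only [t]; fun_prop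
  have hU : IsOpen {w : ℝ × ℝ | 0 < s w ∧ 0 < t w ∧ s w + t w < 1} :=
    (isOpen_lt continuous_const hs).inter
      ((isOpen_lt continuous_const ht).inter (isOpen_lt (hs.add ht) continuous_const))
  refine ⟨((a1 + b1 + c1) / 3, (a2 + b2 + c2) / 3), mem_interior.2
    ⟨{w : ℝ × ℝ | 0 < s w ∧ 0 < t w ∧ s w + t w < 1}, ?_, hU, ?_⟩⟩
  · rintro ⟨w1, w2⟩ ⟨h1, h2, h3⟩
    have e : ((w1, w2) : ℝ × ℝ) = (1 - s (w1, w2) - t (w1, w2)) • ((a1, a2) : ℝ × ℝ) +
        (s (w1, w2) + t (w1, w2)) • ((s (w1, w2) / (s (w1, w2) + t (w1, w2))) •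
          ((b1, b2) : ℝ × ℝ) + (t (w1, w2) / (s (w1, w2) + t (w1, w2))) • ((c1, c2) : ℝ × ℝ)) := by
      have h4 : s (w1, w2) + t (w1, w2) ≠ 0 := by linarith
      rw [smul_add, smul_smul, smul_smul, mul_div_cancel₀ _ h4, mul_div_cancel₀ _ h4]
      have e1 : s (w1, w2) * D = (w1 - a1) * (c2 - a2) - (w2 - a2) * (c1 - a1) := by
        simp only [s]
        field_simp
      have e2 : t (w1, w2) * D = (b1 - a1) * (w2 - a2) - (b2 - a2) * (w1 - a1) := by
        simp only [t]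
        field_simp
      ext
      · simp only [Prod.smul_mk, Prod.mk_add_mk, smul_eq_mul]
        apply mul_right_cancel₀ hD
        linear_combination (a1 - b1) * e1 + (a1 - c1) * e2 + (w1 - a1) * hDdef
      · simp only [Prod.smul_mk, Prod.mk_add_mk, smul_eq_mul]
        apply mul_right_cancel₀ hD
        linear_combination (a2 - b2) * e1 + (a2 - c2) * e2 + (w2 - a2) * hDdef
    rw [e]
    have h4 : 0 < s (w1, w2) + t (w1, w2) := by linarith
    refine hS hA (hS hB hC (by positivity) (by positivity) ?_) (by linarith) h4.le (by ring)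
    field_simp
  · have e1 : s ((a1 + b1 + c1) / 3, (a2 + b2 + c2) / 3) = 1 / 3 := by
      simp only [s]
      rw [div_eq_iff hD, hDdef]
      ring
    have e2 : t ((a1 + b1 + c1) / 3, (a2 + b2 + c2) / 3) = 1 / 3 := by
      simp only [t]
      rw [div_eq_iff hD, hDdef]
      ring
    simp only [mem_ofPred_eq]
    rw [e1, e2]
    norm_num

/-- the maximum of a horizontal functional is positive -/
theorem pos (h : HB K) {n1 n2 M : ℝ} (hn : n1 ≠ 0 ∨ n2 ≠ 0)
    (hM : ∀ q ∈ K, n1 * q.1 + n2 * q.2.1 ≤ M) : 0 < M := by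
  obtain ⟨q, hq⟩ := h.int
  have hax := h.axis_int hq
  have hcont : ContinuousAt (fun s : ℝ => (((0 : ℝ), (0 : ℝ), q.2.2) : E) +
      s • ((n1, n2, 0) : E)) 0 := by fun_prop
  have h1 := hcont.eventually_mem (isOpen_interior.mem_nhds (by simpa using hax))
  obtain ⟨ε, hε, h2⟩ := Metric.eventually_nhds_iff.1 h1
  have h3 := hM _ (interior_subset (h2 (y := ε / 2) (by
    rw [Real.dist_eq, sub_zero, abs_of_pos (by linarith)]
    linarith)))
  simp at h3
  have h4 : 0 < n1 * n1 + n2 * n2 := by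
    rcases hn with hn | hn
    · have := mul_self_pos.2 hn
      nlinarith [mul_self_nonneg n2]
    · have := mul_self_pos.2 hn
      nlinarith [mul_self_nonneg n1]
  nlinarith

/-- all contact points have the same height -/
theorem case_eq (HO : ∀ (K : Set E) (z0 z1 a b : ℝ), UB K z0 z1 a b →
      (∀ p ∈ K, p.1 = 1 → p.2.1 = 0) → Cov8 K) (h : HB K) {a : ℝ}
      (hcon : ∀ p, Con K p → p.2.2 = a) : Cov8 K := by
  have hne : K.Nonempty := h.int.mono interior_subset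
  obtain ⟨q, hq, hmax⟩ := h.comp.exists_isMaxOn hne
    (f := fun p : E => p.1 * p.1 + p.2.1 * p.2.1) (by fun_prop)
  have hmax' : ∀ p ∈ K, p.1 * p.1 + p.2.1 * p.2.1 ≤ q.1 * q.1 + q.2.1 * q.2.1 :=
    fun p hp => hmax hp
  have hq0 : q.1 ≠ 0 ∨ q.2.1 ≠ 0 := by
    by_contra hc
    push Not at hc
    have := pos h (n1 := 1) (n2 := 0) (M := 0) (Or.inl one_ne_zero) (fun p hp => by
      have h1 := hmax' p hp
      rw [hc.1, hc.2] at h1
      have h2 : p.1 * p.1 ≤ 0 := by nlinarith [mul_self_nonneg p.2.1]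
      have h3 : p.1 = 0 := mul_self_eq_zero.1 (le_antisymm h2 (mul_self_nonneg _))
      rw [h3]
      simp)
    exact lt_irrefl _ this
  have hR : 0 < q.1 * q.1 + q.2.1 * q.2.1 := by
    rcases hq0 with hn | hn
    · have := mul_self_pos.2 hn
      nlinarith [mul_self_nonneg q.2.1]
    · have := mul_self_pos.2 hn
      nlinarith [mul_self_nonneg q.1]
  have hqc : Con K q := by
    refine ⟨hq, q.1, q.2.1, hq0, fun p hp => ?_⟩
    have h1 := hmax' p hp
    nlinarith [mul_self_nonneg (p.1 - q.1), mul_self_nonneg (p.2.1 - q.2.1)]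
  have hqa := hcon q hqc
  have hdet : q.1 * q.1 - -q.2.1 * q.2.1 ≠ 0 := by nlinarith
  have hK' := h.T (k := 1) (d := 0) hdet one_ne_zero
  obtain ⟨z0, z1, h'⟩ := hK'.exists_range
  have hr : ∀ p ∈ {p | T q.1 (-q.2.1) q.2.1 q.1 1 0 p ∈ K}, p.1 * p.1 + p.2.1 * p.2.1 ≤ 1 := by
    intro p hp
    have h1 := hmax' _ hp
    simp only [T] at h1
    have h2 : (q.1 * q.1 + q.2.1 * q.2.1) * (p.1 * p.1 + p.2.1 * p.2.1) ≤
        (q.1 * q.1 + q.2.1 * q.2.1) * 1 := by nlinarith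
    exact le_of_mul_le_mul_left h2 hR
  have hqK : ((1, 0, a) : E) ∈ {p | T q.1 (-q.2.1) q.2.1 q.1 1 0 p ∈ K} := by
    have : T q.1 (-q.2.1) q.2.1 q.1 1 0 ((1 : ℝ), (0 : ℝ), a) = q := by
      ext <;> simp [T, hqa]
    simpa only [mem_ofPred_eq, this] using hq
  refine Cov8.of_T (k := 1) (d := 0) hdet one_ne_zero (HO _ z0 z1 a a
    { h' with
      w := ?_
      hab := le_rfl
      con := ?_
      fa := ⟨0, hqK⟩
      fb := ⟨0, hqK⟩ } ?_)
  · intro p hp
    have := hr p hp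
    nlinarith [mul_self_nonneg p.2.1, mul_self_nonneg (p.1 - 1)]
  · intro p hp
    have h1 := hcon _ ((con_T hdet one_ne_zero).1 hp)
    simp only [T, one_mul, add_zero] at h1
    exact ⟨h1.ge, h1.le⟩
  · intro p hp h1
    have h2 := hr p hp
    rw [h1] at h2
    have h3 : p.2.1 * p.2.1 ≤ 0 := by linarith
    exact mul_self_eq_zero.1 (le_antisymm h3 (mul_self_nonneg _))

/-- the face of a horizontal functional reaches both heights, and either over the same position,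
or it is not contained in the line through two points `P`, `Q` -/
def Bad (K : Set E) (a b : ℝ) : Prop :=
  ∃ (n1 n2 : ℝ) (P Q : E), (n1 ≠ 0 ∨ n2 ≠ 0) ∧ P ∈ K ∧ Q ∈ K ∧
    (∀ q ∈ K, n1 * q.1 + n2 * q.2.1 ≤ n1 * P.1 + n2 * P.2.1) ∧
    n1 * Q.1 + n2 * Q.2.1 = n1 * P.1 + n2 * P.2.1 ∧ P.2.2 = a ∧ Q.2.2 = b ∧
    ((P.1 = Q.1 ∧ P.2.1 = Q.2.1) ∨ ∃ p ∈ K, n1 * p.1 + n2 * p.2.1 = n1 * P.1 + n2 * P.2.1 ∧
      ¬ ((b - a) * (p.1 - P.1) = (p.2.2 - a) * (Q.1 - P.1) ∧
        (b - a) * (p.2.1 - P.2.1) = (p.2.2 - a) * (Q.2.1 - P.2.1)))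

theorem case_bad (HO : ∀ (K : Set E) (z0 z1 a b : ℝ), UB K z0 z1 a b →
      (∀ p ∈ K, p.1 = 1 → p.2.1 = 0) → Cov8 K)
    (HW : ∀ (K : Set E) (z0 z1 a b : ℝ), UB K z0 z1 a b →
      (interior {w : ℝ × ℝ | (((1 : ℝ), w) : E) ∈ K}).Nonempty → Cov8 K) (h : HB K) {a b : ℝ}
    (hab : a < b) (hcon : ∀ p, Con K p → a ≤ p.2.2 ∧ p.2.2 ≤ b) (hbad : Bad K a b) : Cov8 K := by
  obtain ⟨n1, n2, P, Q, hn, hP, hQ, hmax, hPQ, hPa, hQb, hcase⟩ := hbad
  set M := n1 * P.1 + n2 * P.2.1 with hM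
  have hM0 : 0 < M := pos h hn hmax
  have hdet : P.1 * n1 - -n2 * P.2.1 ≠ 0 := by
    have : P.1 * n1 - -n2 * P.2.1 = M := by rw [hM]; ring
    rw [this]
    exact hM0.ne'
  have hK' := h.T (k := 1) (d := 0) hdet one_ne_zero
  obtain ⟨z0, z1, h'⟩ := hK'.exists_range
  -- coordinates of the points of the face
  have hface : ∀ p ∈ K, n1 * p.1 + n2 * p.2.1 = M →
      ((1, (P.1 * p.2.1 - P.2.1 * p.1) / M, p.2.2) : E) ∈
        {p | T P.1 (-n2) P.2.1 n1 1 0 p ∈ K} := by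
    intro p hp hpM
    have : T P.1 (-n2) P.2.1 n1 1 0 ((1 : ℝ), (P.1 * p.2.1 - P.2.1 * p.1) / M, p.2.2) = p := by
      have e1 : P.1 * 1 + -n2 * ((P.1 * p.2.1 - P.2.1 * p.1) / M) = p.1 := by
        field_simp
        rw [hM] at hpM ⊢
        linear_combination (-P.1) * hpM
      have e2 : P.2.1 * 1 + n1 * ((P.1 * p.2.1 - P.2.1 * p.1) / M) = p.2.1 := by
        field_simp
        rw [hM] at hpM ⊢
        linear_combination (-P.2.1) * hpM
      refine Prod.ext e1 (Prod.ext e2 ?_)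
      simp [T]
    simpa only [mem_ofPred_eq, this] using hp
  have hPf := hface P hP rfl
  have hQf := hface Q hQ hPQ
  have e0 : (P.1 * P.2.1 - P.2.1 * P.1) / M = 0 := by
    rw [mul_comm, sub_self, zero_div]
  rw [e0, hPa] at hPf
  rw [hQb] at hQf
  have hUB : UB {p | T P.1 (-n2) P.2.1 n1 1 0 p ∈ K} z0 z1 a b :=
    { h' with
      w := by
        intro p hp
        have h1 := hmax _ hp
        simp only [T] at h1
        have h2 : M * p.1 ≤ M * 1 := by
          rw [hM] at h1 ⊢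
          linarith
        exact le_of_mul_le_mul_left h2 hM0
      hab := hab.le
      con := by
        intro p hp
        have h1 := hcon _ ((con_T hdet one_ne_zero).1 hp)
        simpa only [T, one_mul, add_zero] using h1
      fa := ⟨0, hPf⟩
      fb := ⟨_, hQf⟩ }
  have hconv : Convex ℝ {w : ℝ × ℝ | (((1 : ℝ), w) : E) ∈
      {p | T P.1 (-n2) P.2.1 n1 1 0 p ∈ K}} := by
    intro x hx y hy s t hs ht hst
    have := hK'.conv hx hy hs ht hst
    have e : s • (((1 : ℝ), x) : E) + t • (((1 : ℝ), y) : E) = ((1 : ℝ), s • x + t • y) := by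
      ext <;> simp [hst]
    rwa [e] at this
  refine Cov8.of_T (k := 1) (d := 0) hdet one_ne_zero ?_
  by_cases hd : ∃ p ∈ K, n1 * p.1 + n2 * p.2.1 = M ∧
      ((P.1 * Q.2.1 - P.2.1 * Q.1) / M - 0) * (p.2.2 - a) -
        (b - a) * ((P.1 * p.2.1 - P.2.1 * p.1) / M - 0) ≠ 0
  · obtain ⟨p, hp, hpM, hd⟩ := hd
    exact HW _ z0 z1 a b hUB (interior_of_three hconv (A := (0, a))
      (B := ((P.1 * Q.2.1 - P.2.1 * Q.1) / M, b)) (C := ((P.1 * p.2.1 - P.2.1 * p.1) / M, p.2.2))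
      hPf hQf (hface p hp hpM) hd)
  · push Not at hd
    have hsame : P.1 = Q.1 ∧ P.2.1 = Q.2.1 := by
      rcases hcase with hc | ⟨p, hp, hpM, hne⟩
      · exact hc
      · exfalso
        apply hne
        have h1 := hd p hp hpM
        -- `(b-a) y_p = (z-a) y_Q`
        have h2 : (P.1 * Q.2.1 - P.2.1 * Q.1) * (p.2.2 - a) =
            (b - a) * (P.1 * p.2.1 - P.2.1 * p.1) := by
          field_simp at h1
          linarith
        have hQ1 : M * (Q.1 - P.1) = -n2 * (P.1 * Q.2.1 - P.2.1 * Q.1) := by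
          rw [hM] at hPQ ⊢
          linear_combination P.1 * hPQ
        have hQ2 : M * (Q.2.1 - P.2.1) = n1 * (P.1 * Q.2.1 - P.2.1 * Q.1) := by
          rw [hM] at hPQ ⊢
          linear_combination P.2.1 * hPQ
        have hp1 : M * (p.1 - P.1) = -n2 * (P.1 * p.2.1 - P.2.1 * p.1) := by
          rw [hM] at hpM ⊢
          linear_combination P.1 * hpM
        have hp2 : M * (p.2.1 - P.2.1) = n1 * (P.1 * p.2.1 - P.2.1 * p.1) := by
          rw [hM] at hpM ⊢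
          linear_combination P.2.1 * hpM
        constructor
        · apply mul_left_cancel₀ hM0.ne'
          linear_combination (b - a) * hp1 - (p.2.2 - a) * hQ1 + n2 * h2
        · apply mul_left_cancel₀ hM0.ne'
          linear_combination (b - a) * hp2 - (p.2.2 - a) * hQ2 - n1 * h2
    refine HO _ z0 z1 a b hUB fun p hp h1 => ?_
    -- the point of `K`
    have hTp : T P.1 (-n2) P.2.1 n1 1 0 p ∈ K := hp
    have hpM : n1 * (T P.1 (-n2) P.2.1 n1 1 0 p).1 + n2 * (T P.1 (-n2) P.2.1 n1 1 0 p).2.1 = M := by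
      simp only [T, h1]
      rw [hM]
      ring
    have h2 := hd _ hTp hpM
    have e1 : (P.1 * Q.2.1 - P.2.1 * Q.1) / M = 0 := by
      rw [← hsame.1, ← hsame.2, mul_comm, sub_self, zero_div]
    have e2 : (P.1 * (T P.1 (-n2) P.2.1 n1 1 0 p).2.1 -
        P.2.1 * (T P.1 (-n2) P.2.1 n1 1 0 p).1) / M = p.2.1 := by
      rw [div_eq_iff hM0.ne']
      simp only [T, h1]
      rw [hM]
      ring
    rw [e1, e2] at h2
    have h3 : (b - a) * p.2.1 = 0 := by linarith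
    rcases mul_eq_zero.1 h3 with h4 | h4
    · linarith
    · exact h4

/-- the positions of contact points of the lowest and of the highest height -/
theorem indep (h : HB K) {a b : ℝ} (hbad : ¬ Bad K a b) {P Q : E} (hP : Con K P)
    (hQ : Con K Q) (hPa : P.2.2 = a) (hQb : Q.2.2 = b) : P.1 * Q.2.1 - Q.1 * P.2.1 ≠ 0 := by
  intro hdet
  obtain ⟨hPK, n1, n2, hn, hmax⟩ := hP
  obtain ⟨hQK, m1, m2, hm, hmax'⟩ := hQ
  have hM := pos h hn hmax
  have hM' := pos h hm hmax'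
  -- `Q = t P` horizontally
  obtain ⟨t, ht1, ht2⟩ : ∃ t : ℝ, Q.1 = t * P.1 ∧ Q.2.1 = t * P.2.1 := by
    refine ⟨(n1 * Q.1 + n2 * Q.2.1) / (n1 * P.1 + n2 * P.2.1), ?_, ?_⟩
    · field_simp
      linear_combination (-n2) * hdet
    · field_simp
      linear_combination n1 * hdet
  have hJQ := h.sym _ hQK
  have hJP := h.sym _ hPK
  rcases lt_trichotomy t 0 with ht | ht | ht
  · -- use `J Q`
    have a1 := hmax _ hJQ
    have a2 := hmax' _ hJP
    simp only [J] at a1 a2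
    rw [ht1, ht2] at a1 a2 hM'
    have b1 : (-t) * (n1 * P.1 + n2 * P.2.1) ≤ 1 * (n1 * P.1 + n2 * P.2.1) := by linarith
    have c1 := le_of_mul_le_mul_right b1 hM
    have d1 : 0 < -(m1 * P.1 + m2 * P.2.1) := by
      have : 0 < t * (m1 * P.1 + m2 * P.2.1) := by linarith
      by_contra hc
      have h5 : 0 ≤ m1 * P.1 + m2 * P.2.1 := by linarith
      nlinarith
    have b2 : 1 * -(m1 * P.1 + m2 * P.2.1) ≤ (-t) * -(m1 * P.1 + m2 * P.2.1) := by linarith
    have c2 := le_of_mul_le_mul_right b2 d1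
    have ht' : t = -1 := by linarith
    apply hbad
    refine ⟨n1, n2, P, J Q, hn, hPK, hJQ, hmax, ?_, hPa, hQb, Or.inl ⟨?_, ?_⟩⟩
    · simp only [J]
      rw [ht1, ht2, ht']
      ring
    · simp only [J]
      rw [ht1, ht']
      ring
    · simp only [J]
      rw [ht2, ht']
      ring
  · rw [ht1, ht2, ht] at hM'
    simp at hM'
  · have a1 := hmax _ hQK
    have a2 := hmax' _ hPK
    rw [ht1, ht2] at a1 a2 hM'
    have b1 : t * (n1 * P.1 + n2 * P.2.1) ≤ 1 * (n1 * P.1 + n2 * P.2.1) := by linarith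
    have c1 := le_of_mul_le_mul_right b1 hM
    have d1 : 0 < m1 * P.1 + m2 * P.2.1 := by
      have : 0 < t * (m1 * P.1 + m2 * P.2.1) := by linarith
      by_contra hc
      push Not at hc
      nlinarith
    have b2 : 1 * (m1 * P.1 + m2 * P.2.1) ≤ t * (m1 * P.1 + m2 * P.2.1) := by linarith
    have c2 := le_of_mul_le_mul_right b2 d1
    have ht' : t = 1 := le_antisymm c1 c2
    apply hbad
    refine ⟨n1, n2, P, Q, hn, hPK, hQK, hmax, ?_, hPa, hQb, Or.inl ⟨?_, ?_⟩⟩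
    · rw [ht1, ht2, ht']
      ring
    · rw [ht1, ht']
      ring
    · rw [ht2, ht']
      ring

/-- a face through a lowest and a highest contact point is the segment between them -/
theorem line {a b : ℝ} (hbad : ¬ Bad K a b) {P R : E} (hP : P ∈ K)
    (hR : R ∈ K) (hPa : P.2.2 = a) (hRb : R.2.2 = b) {D : ℝ}
    (hD : D = P.1 * R.2.1 - R.1 * P.2.1) (hD0 : D ≠ 0)
    (hmax : ∀ q ∈ K, ((R.2.1 - P.2.1) * q.1 + (P.1 - R.1) * q.2.1) / D ≤ 1) {q : E} (hq : q ∈ K)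
    (hq1 : ((R.2.1 - P.2.1) * q.1 + (P.1 - R.1) * q.2.1) / D = 1) :
    (b - a) * (q.1 - P.1) = (q.2.2 - a) * (R.1 - P.1) ∧
      (b - a) * (q.2.1 - P.2.1) = (q.2.2 - a) * (R.2.1 - P.2.1) := by
  by_contra hcon
  apply hbad
  have e : ∀ q : E, (R.2.1 - P.2.1) / D * q.1 + (P.1 - R.1) / D * q.2.1 =
      ((R.2.1 - P.2.1) * q.1 + (P.1 - R.1) * q.2.1) / D := by
    intro q
    ring
  have eP : ((R.2.1 - P.2.1) * P.1 + (P.1 - R.1) * P.2.1) / D = 1 := by
    rw [div_eq_one_iff_eq hD0, hD]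
    ring
  have eR : ((R.2.1 - P.2.1) * R.1 + (P.1 - R.1) * R.2.1) / D = 1 := by
    rw [div_eq_one_iff_eq hD0, hD]
    ring
  refine ⟨(R.2.1 - P.2.1) / D, (P.1 - R.1) / D, P, R, ?_, hP, hR, fun q hq => ?_, ?_, hPa, hRb,
    Or.inr ⟨q, hq, ?_, hcon⟩⟩
  · by_contra h0
    push Not at h0
    have := e P
    rw [h0.1, h0.2, eP] at this
    simp at this
  · rw [e, e, eP]
    exact hmax q hq
  · rw [e, e, eP, eR]
  · rw [e, e, eP, hq1]

theorem T_inv {m11 m12 m21 m22 k d : ℝ} (hm : m11 * m22 - m12 * m21 ≠ 0) (hk : k ≠ 0) {q : E} :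
    T m11 m12 m21 m22 k d ((m22 * q.1 - m12 * q.2.1) / (m11 * m22 - m12 * m21),
      (m11 * q.2.1 - m21 * q.1) / (m11 * m22 - m12 * m21), (q.2.2 - d) / k) = q := by
  refine Prod.ext ?_ (Prod.ext ?_ ?_)
  · simp only [T]
    rw [mul_div_assoc', mul_div_assoc', ← add_div, div_eq_iff hm]
    ring
  · simp only [T]
    rw [mul_div_assoc', mul_div_assoc', ← add_div, div_eq_iff hm]
    ring
  · simp only [T]
    rw [mul_div_cancel₀ _ hk]
    ring

theorem inv_T {m11 m12 m21 m22 k d : ℝ} (hm : m11 * m22 - m12 * m21 ≠ 0) (p : E) :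
    (m22 * (T m11 m12 m21 m22 k d p).1 - m12 * (T m11 m12 m21 m22 k d p).2.1) /
        (m11 * m22 - m12 * m21) = p.1 ∧
      (m11 * (T m11 m12 m21 m22 k d p).2.1 - m21 * (T m11 m12 m21 m22 k d p).1) /
        (m11 * m22 - m12 * m21) = p.2.1 := by
  constructor
  · rw [div_eq_iff hm]
    simp only [T]
    ring
  · rw [div_eq_iff hm]
    simp only [T]
    ring

/-- every body with a half-turn symmetry has one of three normal forms -/
theorem cov_of
    (HO : ∀ (K : Set E) (z0 z1 a b : ℝ), UB K z0 z1 a b → (∀ p ∈ K, p.1 = 1 → p.2.1 = 0) → Cov8 K)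
    (HW : ∀ (K : Set E) (z0 z1 a b : ℝ), UB K z0 z1 a b →
      (interior {w : ℝ × ℝ | (((1 : ℝ), w) : E) ∈ K}).Nonempty → Cov8 K)
    (HY : ∀ (K : Set E) (z0 z1 : ℝ), YB K z0 z1 → Cov8 K) (K : Set E) (h : HB K) : Cov8 K := by
  have hne : K.Nonempty := h.int.mono interior_subset
  have hCne : {p | Con K p}.Nonempty := by
    obtain ⟨q, hq, hmax⟩ := h.comp.exists_isMaxOn hne (f := fun p : E => p.1) (by fun_prop)
    have hmax' : ∀ p ∈ K, p.1 ≤ q.1 := fun p hp => hmax hp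
    exact ⟨q, hq, 1, 0, Or.inl one_ne_zero, fun p hp => by simpa using hmax' p hp⟩
  obtain ⟨P, hP, hPmin⟩ := h.con_compact.exists_isMinOn hCne (f := fun p : E => p.2.2)
    (by fun_prop)
  obtain ⟨Q, hQ, hQmax⟩ := h.con_compact.exists_isMaxOn hCne (f := fun p : E => p.2.2)
    (by fun_prop)
  have hlo : ∀ p, Con K p → P.2.2 ≤ p.2.2 := fun p hp => hPmin hp
  have hhi : ∀ p, Con K p → p.2.2 ≤ Q.2.2 := fun p hp => hQmax hp
  have hPC : Con K P := hP
  have hQC : Con K Q := hQ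
  obtain ⟨a, ha⟩ : ∃ a, P.2.2 = a := ⟨_, rfl⟩
  obtain ⟨b, hb⟩ : ∃ b, Q.2.2 = b := ⟨_, rfl⟩
  rw [ha] at hlo
  rw [hb] at hhi
  have hab : a ≤ b := hb ▸ hlo Q hQC
  rcases hab.eq_or_lt with hab | hab
  · exact case_eq HO h (a := a) fun p hp => le_antisymm (hab ▸ hhi p hp) (hlo p hp)
  by_cases hbad : Bad K a b
  · exact case_bad HO HW h hab (fun p hp => ⟨hlo p hp, hhi p hp⟩) hbad
  have hdet := indep h hbad hPC hQC ha hb
  have hk : 0 < b - a := by linarith
  obtain ⟨hPK, n1, n2, hn, hnmax⟩ := hPC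
  obtain ⟨hQK, m1, m2, hm, hmmax⟩ := hQC
  have hM := pos h hn hnmax
  have hM' := pos h hm hmmax
  obtain ⟨z0, z1, h'⟩ := (h.T (d := a) hdet hk.ne').exists_range
  refine Cov8.of_T (d := a) hdet hk.ne' (HY _ z0 z1
    { h' with
      P0 := ?_
      P1 := ?_
      c0 := ?_
      c1 := ?_
      con := ?_
      o0 := ?_
      o1 := ?_
      nw1 := ?_
      nw2 := ?_ })
  · have : T P.1 Q.1 P.2.1 Q.2.1 (b - a) a ((1 : ℝ), (0 : ℝ), (0 : ℝ)) = P := by
      ext <;> simp [T, ha]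
    simpa only [mem_ofPred_eq, this] using hPK
  · have : T P.1 Q.1 P.2.1 Q.2.1 (b - a) a ((0 : ℝ), (1 : ℝ), (1 : ℝ)) = Q := by
      ext <;> simp [T, hb]
    simpa only [mem_ofPred_eq, this] using hQK
  · refine ⟨(n1 * Q.1 + n2 * Q.2.1) / (n1 * P.1 + n2 * P.2.1), fun p hp => ?_⟩
    have h1 := hnmax _ hp
    simp only [T] at h1
    apply le_of_mul_le_mul_left _ hM
    have e : (n1 * P.1 + n2 * P.2.1) * (p.1 + (n1 * Q.1 + n2 * Q.2.1) / (n1 * P.1 + n2 * P.2.1) *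
        p.2.1) = (n1 * P.1 + n2 * P.2.1) * p.1 + (n1 * Q.1 + n2 * Q.2.1) * p.2.1 := by
      field_simp
    rw [e]
    linarith
  · refine ⟨(m1 * P.1 + m2 * P.2.1) / (m1 * Q.1 + m2 * Q.2.1), fun p hp => ?_⟩
    have h1 := hmmax _ hp
    simp only [T] at h1
    apply le_of_mul_le_mul_left _ hM'
    have e : (m1 * Q.1 + m2 * Q.2.1) * ((m1 * P.1 + m2 * P.2.1) / (m1 * Q.1 + m2 * Q.2.1) *
        p.1 + p.2.1) = (m1 * P.1 + m2 * P.2.1) * p.1 + (m1 * Q.1 + m2 * Q.2.1) * p.2.1 := by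
      field_simp
    rw [e]
    linarith
  · intro p hp
    have h1 := (con_T hdet hk.ne').1 hp
    have h2 := hlo _ h1
    have h3 := hhi _ h1
    simp only [T] at h2 h3
    constructor
    · have : (b - a) * 0 ≤ (b - a) * p.2.2 := by linarith
      exact le_of_mul_le_mul_left this hk
    · have : (b - a) * p.2.2 ≤ (b - a) * 1 := by linarith
      exact le_of_mul_le_mul_left this hk
  · intro hmem
    have hR : ((Q.1, Q.2.1, a) : E) ∈ K := by
      have : T P.1 Q.1 P.2.1 Q.2.1 (b - a) a ((0 : ℝ), (1 : ℝ), (0 : ℝ)) = (Q.1, Q.2.1, a) := by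
        ext <;> simp [T]
      simpa only [mem_ofPred_eq, this] using hmem
    exact hbad ⟨m1, m2, (Q.1, Q.2.1, a), Q, hm, hR, hQK, hmmax, rfl, rfl, hb, Or.inl ⟨rfl, rfl⟩⟩
  · intro hmem
    have hR : ((P.1, P.2.1, b) : E) ∈ K := by
      have : T P.1 Q.1 P.2.1 Q.2.1 (b - a) a ((1 : ℝ), (0 : ℝ), (1 : ℝ)) = (P.1, P.2.1, b) := by
        ext <;> simp [T]
      simpa only [mem_ofPred_eq, this] using hmem
    exact hbad ⟨n1, n2, P, (P.1, P.2.1, b), hn, hPK, hR, hnmax, rfl, ha, rfl, Or.inl ⟨rfl, rfl⟩⟩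
  · intro hmax p hp hp1
    have hTp : T P.1 Q.1 P.2.1 Q.2.1 (b - a) a p ∈ K := hp
    have hD : -(P.1 * Q.2.1 - Q.1 * P.2.1) = P.1 * (J Q).2.1 - (J Q).1 * P.2.1 := by
      simp only [J]
      ring
    have hb' : (J Q).2.2 = b := hb
    have e : ∀ q : E, (((J Q).2.1 - P.2.1) * q.1 + (P.1 - (J Q).1) * q.2.1) /
        -(P.1 * Q.2.1 - Q.1 * P.2.1) =
        (Q.2.1 * q.1 - Q.1 * q.2.1) / (P.1 * Q.2.1 - Q.1 * P.2.1) -
        (P.1 * q.2.1 - P.2.1 * q.1) / (P.1 * Q.2.1 - Q.1 * P.2.1) := by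
      intro q
      rw [div_neg, ← sub_div, ← neg_div]
      congr 1
      simp only [J]
      ring
    have h1 := line hbad hPK (h.sym _ hQK) ha hb' hD (neg_ne_zero.2 hdet) (fun q hq => by
      rw [e]
      refine hmax ((Q.2.1 * q.1 - Q.1 * q.2.1) / (P.1 * Q.2.1 - Q.1 * P.2.1),
        (P.1 * q.2.1 - P.2.1 * q.1) / (P.1 * Q.2.1 - Q.1 * P.2.1), (q.2.2 - a) / (b - a)) ?_
      change T P.1 Q.1 P.2.1 Q.2.1 (b - a) a _ ∈ K
      rw [T_inv hdet hk.ne']
      exact hq) hTp (by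
      rw [e, ← hp1]
      obtain ⟨e1, e2⟩ := inv_T (k := b - a) (d := a) hdet p
      rw [e1, e2])
    have h2 : p.2.1 = p.1 - 1 := by linarith
    simp only [T, J, h2] at h1
    obtain ⟨h3, h4⟩ := h1
    have h5 : (P.1 + Q.1) * (p.1 - 1 + p.2.2) = 0 := by
      have : (b - a) * ((P.1 + Q.1) * (p.1 - 1 + p.2.2)) = 0 := by linear_combination h3
      exact (mul_eq_zero.1 this).resolve_left hk.ne'
    have h6 : (P.2.1 + Q.2.1) * (p.1 - 1 + p.2.2) = 0 := by
      have : (b - a) * ((P.2.1 + Q.2.1) * (p.1 - 1 + p.2.2)) = 0 := by linear_combination h4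
      exact (mul_eq_zero.1 this).resolve_left hk.ne'
    by_contra hne
    have h7 : p.1 - 1 + p.2.2 ≠ 0 := fun h0 => hne (by linarith)
    have h8 := (mul_eq_zero.1 h5).resolve_right h7
    have h9 := (mul_eq_zero.1 h6).resolve_right h7
    apply hdet
    linear_combination Q.2.1 * h8 - Q.1 * h9
  · intro hmax p hp hp1
    have hTp : T P.1 Q.1 P.2.1 Q.2.1 (b - a) a p ∈ K := hp
    have e : ∀ q : E, ((Q.2.1 - P.2.1) * q.1 + (P.1 - Q.1) * q.2.1) /
        (P.1 * Q.2.1 - Q.1 * P.2.1) =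
        (Q.2.1 * q.1 - Q.1 * q.2.1) / (P.1 * Q.2.1 - Q.1 * P.2.1) +
        (P.1 * q.2.1 - P.2.1 * q.1) / (P.1 * Q.2.1 - Q.1 * P.2.1) := by
      intro q
      rw [← add_div]
      congr 1
      ring
    have h1 := line hbad hPK hQK ha hb rfl hdet (fun q hq => by
      rw [e]
      refine hmax ((Q.2.1 * q.1 - Q.1 * q.2.1) / (P.1 * Q.2.1 - Q.1 * P.2.1),
        (P.1 * q.2.1 - P.2.1 * q.1) / (P.1 * Q.2.1 - Q.1 * P.2.1), (q.2.2 - a) / (b - a)) ?_
      change T P.1 Q.1 P.2.1 Q.2.1 (b - a) a _ ∈ K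
      rw [T_inv hdet hk.ne']
      exact hq) hTp (by
      rw [e, ← hp1]
      obtain ⟨e1, e2⟩ := inv_T (k := b - a) (d := a) hdet p
      rw [e1, e2])
    have h2 : p.2.1 = 1 - p.1 := by linarith
    simp only [T, h2] at h1
    obtain ⟨h3, h4⟩ := h1
    have h5 : (Q.1 - P.1) * (1 - p.1 - p.2.2) = 0 := by
      have : (b - a) * ((Q.1 - P.1) * (1 - p.1 - p.2.2)) = 0 := by linear_combination h3
      exact (mul_eq_zero.1 this).resolve_left hk.ne'
    have h6 : (Q.2.1 - P.2.1) * (1 - p.1 - p.2.2) = 0 := by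
      have : (b - a) * ((Q.2.1 - P.2.1) * (1 - p.1 - p.2.2)) = 0 := by linear_combination h4
      exact (mul_eq_zero.1 this).resolve_left hk.ne'
    by_contra hne
    have h7 : 1 - p.1 - p.2.2 ≠ 0 := fun h0 => hne (by linarith)
    have h8 := (mul_eq_zero.1 h5).resolve_right h7
    have h9 := (mul_eq_zero.1 h6).resolve_right h7
    apply hdet
    linear_combination Q.1 * h9 - Q.2.1 * h8

end Red

/-- every body with a half-turn symmetry has one of three normal forms -/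
theorem HB.cov_of
    (HO : ∀ (K : Set E) (z0 z1 a b : ℝ), UB K z0 z1 a b → (∀ p ∈ K, p.1 = 1 → p.2.1 = 0) → Cov8 K)
    (HW : ∀ (K : Set E) (z0 z1 a b : ℝ), UB K z0 z1 a b →
      (interior {w : ℝ × ℝ | (((1 : ℝ), w) : E) ∈ K}).Nonempty → Cov8 K)
    (HY : ∀ (K : Set E) (z0 z1 : ℝ), YB K z0 z1 → Cov8 K) (K : Set E) (h : HB K) : Cov8 K :=
  Red.cov_of HO HW HY K h

end Pool.Agent.Zk54
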