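import Pool.Agent.Zk54.Basic

/-!
Changes of coordinates.  (helper86)
-/

set_option autoImplicit false

open Set Topology Filter

namespace Pool.Agent.Zk54

/-- `T` as a homeomorphism of space -/
noncomputable def TH {m11 m12 m21 m22 k : ℝ} (d : ℝ) (hm : m11 * m22 - m12 * m21 ≠ 0) (hk : k ≠ 0) : E ≃ₜ E where
  toFun := T m11 m12 m21 m22 k d
  invFun p := ((m22 * p.1 - m12 * p.2.1) / (m11 * m22 - m12 * m21),
    (m11 * p.2.1 - m21 * p.1) / (m11 * m22 - m12 * m21), (p.2.2 - d) / k)
  left_inv p := by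
    obtain ⟨x, y, z⟩ := p
    simp only [T, Prod.mk.injEq]
    refine ⟨?_, ?_, ?_⟩
    · rw [div_eq_iff hm]; ring
    · rw [div_eq_iff hm]; ring
    · rw [div_eq_iff hk]; ring
  right_inv p := by
    obtain ⟨x, y, z⟩ := p
    simp only [T, Prod.mk.injEq]
    refine ⟨?_, ?_, ?_⟩
    · rw [← mul_div_assoc, ← mul_div_assoc, ← add_div, div_eq_iff hm]; ring
    · rw [← mul_div_assoc, ← mul_div_assoc, ← add_div, div_eq_iff hm]; ring
    · rw [mul_div_cancel₀ _ hk]; ring
  continuous_toFun := by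
    unfold T
    fun_prop
  continuous_invFun := by
    fun_prop

/-- the planar part of `T` as a homeomorphism of the plane -/
noncomputable def MH {m11 m12 m21 m22 : ℝ} (hm : m11 * m22 - m12 * m21 ≠ 0) : (ℝ × ℝ) ≃ₜ (ℝ × ℝ) where
  toFun p := (m11 * p.1 + m12 * p.2, m21 * p.1 + m22 * p.2)
  invFun p := ((m22 * p.1 - m12 * p.2) / (m11 * m22 - m12 * m21),
    (m11 * p.2 - m21 * p.1) / (m11 * m22 - m12 * m21))
  left_inv p := by
    obtain ⟨x, y⟩ := p
    simp only [Prod.mk.injEq]
    refine ⟨?_, ?_⟩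
    · rw [div_eq_iff hm]; ring
    · rw [div_eq_iff hm]; ring
  right_inv p := by
    obtain ⟨x, y⟩ := p
    simp only [Prod.mk.injEq]
    refine ⟨?_, ?_⟩
    · rw [← mul_div_assoc, ← mul_div_assoc, ← add_div, div_eq_iff hm]; ring
    · rw [← mul_div_assoc, ← mul_div_assoc, ← add_div, div_eq_iff hm]; ring
  continuous_toFun := by fun_prop
  continuous_invFun := by fun_prop

theorem T_add (m11 m12 m21 m22 k d l : ℝ) (p v : E) :
    T m11 m12 m21 m22 k d (p + l • v) =
      T m11 m12 m21 m22 k d p + l • T m11 m12 m21 m22 k 0 v := by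
  obtain ⟨x, y, z⟩ := p
  obtain ⟨a, b, c⟩ := v
  simp only [T, Prod.smul_mk, Prod.mk_add_mk, smul_eq_mul, Prod.mk.injEq]
  refine ⟨by ring, by ring, by ring⟩

theorem T_J (m11 m12 m21 m22 k d : ℝ) (p : E) :
    T m11 m12 m21 m22 k d (J p) = J (T m11 m12 m21 m22 k d p) := by
  obtain ⟨x, y, z⟩ := p
  simp only [T, J, Prod.mk.injEq]
  refine ⟨by ring, by ring, trivial⟩

section

variable {K : Set E} {z0 z1 m11 m12 m21 m22 k d : ℝ}

theorem interior_T (hm : m11 * m22 - m12 * m21 ≠ 0) (hk : k ≠ 0) :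
    interior {p | T m11 m12 m21 m22 k d p ∈ K} = {p | T m11 m12 m21 m22 k d p ∈ interior K} := by
  exact ((TH d hm hk).preimage_interior K).symm

theorem Cov8.of_T (hm : m11 * m22 - m12 * m21 ≠ 0) (hk : k ≠ 0)
    (h : Cov8 {p | T m11 m12 m21 m22 k d p ∈ K}) : Cov8 K := by
  classical
  obtain ⟨F, hF, hc⟩ := h
  refine ⟨F.image (T m11 m12 m21 m22 k 0), (Finset.card_image_le).trans hF, ?_⟩
  intro q hq
  have hq' : (TH d hm hk).symm q ∈ {p | T m11 m12 m21 m22 k d p ∈ K} := by
    change (TH d hm hk) ((TH d hm hk).symm q) ∈ K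
    rw [Homeomorph.apply_symm_apply]
    exact hq
  have h1 := hc hq'
  simp only [mem_iUnion, mem_image, exists_prop] at h1
  obtain ⟨t, ht, x, hx, hxe⟩ := h1
  rw [interior_T hm hk] at hx
  simp only [mem_iUnion, mem_image, exists_prop]
  refine ⟨T m11 m12 m21 m22 k 0 t, Finset.mem_image_of_mem _ ht, T m11 m12 m21 m22 k d x, hx, ?_⟩
  have h2 : q = (TH d hm hk) (t + x) := by
    rw [hxe, Homeomorph.apply_symm_apply]
  rw [h2]
  change _ = T m11 m12 m21 m22 k d (t + x)
  have h3 := T_add m11 m12 m21 m22 k d 1 x t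
  rw [one_smul, one_smul] at h3
  rw [add_comm t x, h3, add_comm]

theorem HB.T (h : HB K) (hm : m11 * m22 - m12 * m21 ≠ 0) (hk : k ≠ 0) :
    HB {p | T m11 m12 m21 m22 k d p ∈ K} where
  conv := by
    intro p hp q hq a b ha hb hab
    have e : Pool.Agent.Zk54.T m11 m12 m21 m22 k d (a • p + b • q) =
        a • Pool.Agent.Zk54.T m11 m12 m21 m22 k d p +
          b • Pool.Agent.Zk54.T m11 m12 m21 m22 k d q := by
      obtain ⟨x, y, z⟩ := p
      obtain ⟨x', y', z'⟩ := q
      simp only [Pool.Agent.Zk54.T, Prod.smul_mk, Prod.mk_add_mk, smul_eq_mul, Prod.mk.injEq]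
      refine ⟨by ring, by ring, ?_⟩
      have : d = a * d + b * d := by rw [← add_mul, hab, one_mul]
      linarith [this]
    change Pool.Agent.Zk54.T m11 m12 m21 m22 k d (a • p + b • q) ∈ K
    rw [e]
    exact h.conv hp hq ha hb hab
  comp := by
    have e : {p | Pool.Agent.Zk54.T m11 m12 m21 m22 k d p ∈ K} = (TH d hm hk).symm '' K := by
      ext p
      constructor
      · intro hp
        exact ⟨(TH d hm hk) p, hp, (TH d hm hk).symm_apply_apply p⟩
      · rintro ⟨q, hq, rfl⟩
        change (TH d hm hk) ((TH d hm hk).symm q) ∈ K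
        rw [Homeomorph.apply_symm_apply]
        exact hq
    rw [e]
    exact h.comp.image (TH d hm hk).symm.continuous
  int := by
    obtain ⟨q, hq⟩ := h.int
    rw [interior_T hm hk]
    refine ⟨(TH d hm hk).symm q, ?_⟩
    change (TH d hm hk) ((TH d hm hk).symm q) ∈ interior K
    rw [Homeomorph.apply_symm_apply]
    exact hq
  sym := by
    intro p hp
    change Pool.Agent.Zk54.T m11 m12 m21 m22 k d (J p) ∈ K
    rw [T_J]
    exact h.sym _ hp

theorem HB'.T_pos (h : HB' K z0 z1) (hm : m11 * m22 - m12 * m21 ≠ 0) (hk : 0 < k) :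
    HB' {p | T m11 m12 m21 m22 k d p ∈ K} ((z0 - d) / k) ((z1 - d) / k) where
  toHB := h.toHB.T hm hk.ne'
  lt := by
    have := h.lt
    gcongr
  lo := by
    intro p hp
    have h1 := h.lo _ hp
    simp only [T] at h1
    rw [div_le_iff₀ hk]
    linarith
  hi := by
    intro p hp
    have h1 := h.hi _ hp
    simp only [T] at h1
    rw [le_div_iff₀ hk]
    linarith
  ax := by
    intro z h0 h1
    rw [interior_T hm hk.ne']
    rw [div_lt_iff₀ hk] at h0
    rw [lt_div_iff₀ hk] at h1
    have h2 := h.ax (k * z + d) (by linarith) (by linarith)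
    simpa [T] using h2
  ax0 := by
    have h2 := h.ax0
    have e : k * ((z0 - d) / k) + d = z0 := by
      rw [mul_div_cancel₀ _ hk.ne']; ring
    simpa [T, e] using h2
  ax1 := by
    have h2 := h.ax1
    have e : k * ((z1 - d) / k) + d = z1 := by
      rw [mul_div_cancel₀ _ hk.ne']; ring
    simpa [T, e] using h2

theorem HB'.T_neg (h : HB' K z0 z1) (hm : m11 * m22 - m12 * m21 ≠ 0) (hk : k < 0) :
    HB' {p | T m11 m12 m21 m22 k d p ∈ K} ((z1 - d) / k) ((z0 - d) / k) where
  toHB := h.toHB.T hm hk.ne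
  lt := by
    have := h.lt
    rw [div_lt_div_right_of_neg hk]
    linarith
  lo := by
    intro p hp
    have h1 := h.hi _ hp
    simp only [T] at h1
    rw [div_le_iff_of_neg hk]
    linarith
  hi := by
    intro p hp
    have h1 := h.lo _ hp
    simp only [T] at h1
    rw [le_div_iff_of_neg hk]
    linarith
  ax := by
    intro z h0 h1
    rw [interior_T hm hk.ne]
    rw [div_lt_iff_of_neg hk] at h0
    rw [lt_div_iff_of_neg hk] at h1
    have h2 := h.ax (k * z + d) (by linarith) (by linarith)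
    simpa [T] using h2
  ax0 := by
    have h2 := h.ax1
    have e : k * ((z1 - d) / k) + d = z1 := by
      rw [mul_div_cancel₀ _ hk.ne]; ring
    simpa [T, e] using h2
  ax1 := by
    have h2 := h.ax0
    have e : k * ((z0 - d) / k) + d = z0 := by
      rw [mul_div_cancel₀ _ hk.ne]; ring
    simpa [T, e] using h2

theorem con_T (hm : m11 * m22 - m12 * m21 ≠ 0) (hk : k ≠ 0) {p : E} :
    Con {p | T m11 m12 m21 m22 k d p ∈ K} p ↔ Con K (T m11 m12 m21 m22 k d p) := by
  constructor
  · rintro ⟨hp, a, b, hab, hq⟩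
    refine ⟨hp, (a * m22 - b * m21) / (m11 * m22 - m12 * m21),
      (b * m11 - a * m12) / (m11 * m22 - m12 * m21), ?_, ?_⟩
    · by_contra hcon
      push Not at hcon
      obtain ⟨h1, h2⟩ := hcon
      rw [div_eq_zero_iff, or_iff_left hm] at h1 h2
      have h3 : a * (m11 * m22 - m12 * m21) = 0 := by linear_combination m11 * h1 + m21 * h2
      have h4 : b * (m11 * m22 - m12 * m21) = 0 := by linear_combination m12 * h1 + m22 * h2
      rcases hab with h | h
      · exact h ((mul_eq_zero.1 h3).resolve_right hm)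
      · exact h ((mul_eq_zero.1 h4).resolve_right hm)
    · intro q hqK
      have hq' : (TH d hm hk).symm q ∈ {p | T m11 m12 m21 m22 k d p ∈ K} := by
        change (TH d hm hk) ((TH d hm hk).symm q) ∈ K
        rw [Homeomorph.apply_symm_apply]
        exact hqK
      have h1 := hq _ hq'
      obtain ⟨r, hr⟩ : ∃ r, r = (TH d hm hk).symm q := ⟨_, rfl⟩
      have h2 : q = T m11 m12 m21 m22 k d r := by
        rw [hr]
        exact ((TH d hm hk).apply_symm_apply q).symm
      rw [← hr] at h1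
      rw [h2]
      have key : ∀ s : E, (a * m22 - b * m21) / (m11 * m22 - m12 * m21) *
          (T m11 m12 m21 m22 k d s).1 + (b * m11 - a * m12) / (m11 * m22 - m12 * m21) *
          (T m11 m12 m21 m22 k d s).2.1 = a * s.1 + b * s.2.1 := by
        intro s
        simp only [T]
        rw [div_mul_eq_mul_div, div_mul_eq_mul_div, ← add_div, div_eq_iff hm]
        ring
      rw [key, key]
      exact h1
  · rintro ⟨hp, a, b, hab, hq⟩
    refine ⟨hp, a * m11 + b * m21, a * m12 + b * m22, ?_, ?_⟩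
    · by_contra hcon
      push Not at hcon
      obtain ⟨h1, h2⟩ := hcon
      have h3 : a * (m11 * m22 - m12 * m21) = 0 := by linear_combination m22 * h1 - m21 * h2
      have h4 : b * (m11 * m22 - m12 * m21) = 0 := by linear_combination m11 * h2 - m12 * h1
      rcases hab with h | h
      · exact h ((mul_eq_zero.1 h3).resolve_right hm)
      · exact h ((mul_eq_zero.1 h4).resolve_right hm)
    · intro q hqK
      have h1 := hq _ hqK
      simp only [T] at h1
      linarith

theorem ill_T (hm : m11 * m22 - m12 * m21 ≠ 0) (hk : k ≠ 0) {v p : E} :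
    Ill {p | T m11 m12 m21 m22 k d p ∈ K} v p ↔
      Ill K (T m11 m12 m21 m22 k 0 v) (T m11 m12 m21 m22 k d p) := by
  unfold Ill
  rw [interior_T hm hk]
  refine exists_congr fun l => and_congr_right fun _ => ?_
  change T m11 m12 m21 m22 k d (p + l • v) ∈ interior K ↔ _
  rw [T_add]

theorem PI_T (hm : m11 * m22 - m12 * m21 ≠ 0) (hk : k ≠ 0) {e a b : ℝ} {p : E} :
    PI {p | T m11 m12 m21 m22 k d p ∈ K} e a b p ↔
      PI K (k * e + d) (m11 * a + m12 * b) (m21 * a + m22 * b) (T m11 m12 m21 m22 k d p) := by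
  unfold PI
  refine exists_congr fun l => and_congr_right fun _ => ?_
  have h1 : {y : ℝ × ℝ | ((y.1, y.2, e) : E) ∈ {p | T m11 m12 m21 m22 k d p ∈ K}} =
      (MH hm) ⁻¹' {y : ℝ × ℝ | ((y.1, y.2, k * e + d) : E) ∈ K} := by
    ext y
    rfl
  rw [h1, ← (MH hm).preimage_interior]
  have h2 : (MH hm) (p.1 + l * a, p.2.1 + l * b) =
      ((T m11 m12 m21 m22 k d p).1 + l * (m11 * a + m12 * b),
        (T m11 m12 m21 m22 k d p).2.1 + l * (m21 * a + m22 * b)) := by
    simp only [MH, T, Homeomorph.homeomorph_mk_coe, Equiv.coe_fn_mk, Prod.mk.injEq]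
    refine ⟨by ring, by ring⟩
  rw [mem_preimage, h2]

end

end Pool.Agent.Zk54
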