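import Pool.Agent.Zk54.Trans

/-!
First case (the face `x = 1` reaches the extreme contact levels): the top is deep.
-/

set_option autoImplicit false

open Set Topology Filter

namespace Pool.Agent.Zk54

variable {K : Set E} {z0 z1 a b : ℝ}

namespace UD

/-- a horizontal supporting functional has a positive maximum -/
theorem fun_pos (h : HB' K z0 z1) {p : E} {α β : ℝ} (hab : α ≠ 0 ∨ β ≠ 0)
    (hmax : ∀ q ∈ K, α * q.1 + β * q.2.1 ≤ α * p.1 + β * p.2.1) :
    0 < α * p.1 + β * p.2.1 := by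
  have hm := h.ax ((z0 + z1) / 2) (by linarith [h.lt]) (by linarith [h.lt])
  have hcont : ContinuousAt (fun s : ℝ => (((s * α), (s * β), (z0 + z1) / 2) : E)) 0 := by
    fun_prop
  have h1 := hcont.eventually_mem (isOpen_interior.mem_nhds (by simpa using hm))
  obtain ⟨ε, hε, h2⟩ := Metric.eventually_nhds_iff.1 h1
  have h3 : dist (ε / 2) 0 < ε := by
    rw [Real.dist_eq, sub_zero, abs_of_pos (by linarith)]
    linarith
  have h5 := hmax _ (interior_subset (h2 h3))
  simp only at h5
  have h6 : 0 < α ^ 2 + β ^ 2 := by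
    rcases hab with h | h <;> positivity
  have h7 : 0 < ε / 2 * (α ^ 2 + β ^ 2) := by positivity
  nlinarith

/-- at every height between `a` and `b` there is a point of the face `x = 1` -/
theorem face (h : UB K z0 z1 a b) {z : ℝ} (ha : a ≤ z) (hb : z ≤ b) :
    ∃ c : ℝ, (((1 : ℝ), c, z) : E) ∈ K := by
  obtain ⟨ya, hya⟩ := h.fa
  obtain ⟨yb, hyb⟩ := h.fb
  rcases h.hab.lt_or_eq with hab | hab
  · have h1 : 0 < b - a := by linarith
    have := h.conv hya hyb (a := (b - z) / (b - a)) (b := (z - a) / (b - a))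
      (div_nonneg (by linarith) h1.le) (div_nonneg (by linarith) h1.le) (by field_simp; ring)
    refine ⟨(b - z) / (b - a) * ya + (z - a) / (b - a) * yb, ?_⟩
    convert this using 1
    ext
    · simp only [Prod.fst_add, Prod.smul_fst, smul_eq_mul]
      field_simp
      ring
    · simp
    · simp only [Prod.snd_add, Prod.smul_snd, smul_eq_mul]
      field_simp
      ring
  · have : z = a := by linarith
    rw [this]
    exact ⟨ya, hya⟩

/-- a contact point with `|x| < 1` is not on the line to the face -/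
theorem ne_line (h : HB' K z0 z1) {c : ℝ} {p : E} (hp : Con K p) (hx : |p.1| < 1)
    (hc : (((1 : ℝ), c, p.2.2) : E) ∈ K) : p.2.1 ≠ p.1 * c := by
  intro heq
  obtain ⟨hpK, α, β, hab, hmax⟩ := hp
  have hpos := fun_pos h hab hmax
  have h1 := hmax _ hc
  have h2 := hmax _ (h.sym _ hc)
  simp only [J] at h1 h2
  rw [heq] at hpos h1 h2
  have h3 := abs_lt.1 hx
  by_cases hm : 0 ≤ α + β * c
  · have : (1 - p.1) * (α + β * c) ≤ 0 := by nlinarith
    have h4 : α + β * c ≤ 0 := by
      by_contra h5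
      push Not at h5
      have : 0 < (1 - p.1) * (α + β * c) := mul_pos (by linarith) h5
      linarith
    have h5 : α + β * c = 0 := le_antisymm h4 hm
    have : α * p.1 + β * (p.1 * c) = p.1 * (α + β * c) := by ring
    rw [this, h5] at hpos
    simp at hpos
  · push Not at hm
    have : (1 + p.1) * (-(α + β * c)) ≤ 0 := by nlinarith
    have h5 : 0 < (1 + p.1) * (-(α + β * c)) := mul_pos (by linarith) (by linarith)
    linarith

end UD

/-- contact points with `|x| < 1`. Proof idea: by `J` and by symmetry between the two families one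
may move towards the axis plane. Let `z` be the height, `a ≤ z ≤ b < z1`. By convexity of the
segment from the point `(1, ya, a)` to `(1, yb, b)` there is `c` with `(1, c, z) ∈ K`, so (by
`HB'.mem_tri`) `(x', x' c, z') ∈ interior K` for `|x'| < 1`, if `z0 < z' < z1` is close to `z`
(for `z = z0`: `z0 < z'`, `z' - z0 < (1 - |x'|)(z1 - z0)`). A contact point `p = (x, y, z)` with
`|x| < 1` has `y ≠ x c` (otherwise, if `z0 < z`, it is an interior point, and if `z = z0` it is
`x • (1,c) `, a proper convex combination of `±(1, c, z0)`, whose position is inner: a horizontal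
functional maximal at `p` would be constant on the segment `±(1,c)`, so zero at `(1,c)`, so maximal
value `0`, but the axis points give `ν = 0`...). If `y > x c` use `(t, -1, t)`: from `p' = (x',y',z')`
near `p` go `l = (y' - x' c)/(1 + t c)`: then `p' + l (t, -1, t) = (X, X c, z' + l t)`,
`X = x' + l t`. If `y < x c` use `(-t, 1, t)`. -/
theorem UB.side (h : UB K z0 z1 a b) (hb : b < z1) {s0 : ℝ} (hs0 : 0 < s0) {ι : Type*}
    {v : ι → ℝ → E} (i j : ι)
    (hi : ∀ t, v i t = (-t, 1, s0 * t)) (hj : ∀ t, v j t = (t, -1, s0 * t)) {p : E}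
    (hp : Con K p) (hx : |p.1| < 1) : GoodAt K v p := by
  obtain ⟨hza, hzb⟩ := h.con p hp
  obtain ⟨c, hc⟩ := UD.face h hza hzb
  have hne := UD.ne_line h.toHB' hp hx hc
  have hpK := hp.1
  -- the generic step
  have key : ∀ s : ℝ, (s = 1 ∨ s = -1) → 0 < s * (p.2.1 - p.1 * c) →
      ∀ᶠ q : ℝ × E in 𝓝 ((0 : ℝ), p), 0 < q.1 → q.2 ∈ K →
        Ill K ((s * q.1, -s, s0 * q.1) : E) q.2 := by
    intro s hs hpos
    -- the length of the step
    let L : ℝ × E → ℝ := fun q => (s * (q.2.2.1 - q.2.1 * c)) * (1 + q.1 * c)⁻¹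
    have hLc : ContinuousAt L ((0 : ℝ), p) := by
      have h0' : ContinuousAt (fun q : ℝ × E => 1 + q.1 * c) ((0 : ℝ), p) := by fun_prop
      have h0 : ContinuousAt (fun q : ℝ × E => (1 + q.1 * c)⁻¹) ((0 : ℝ), p) :=
        h0'.inv₀ (by simp)
      have h1 : ContinuousAt (fun q : ℝ × E => s * (q.2.2.1 - q.2.1 * c)) ((0 : ℝ), p) := by
        fun_prop
      exact h1.mul h0
    have hL0 : L ((0 : ℝ), p) = s * (p.2.1 - p.1 * c) := by simp [L]
    let X : ℝ × E → ℝ := fun q => q.2.1 + L q * (s * q.1)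
    have hXc : ContinuousAt X ((0 : ℝ), p) := by
      have h1 : ContinuousAt (fun q : ℝ × E => q.2.1) ((0 : ℝ), p) := by fun_prop
      have h2 : ContinuousAt (fun q : ℝ × E => s * q.1) ((0 : ℝ), p) := by fun_prop
      exact h1.add (hLc.mul h2)
    have hX0 : X ((0 : ℝ), p) = p.1 := by simp [X]
    have e1 : ∀ᶠ q : ℝ × E in 𝓝 ((0 : ℝ), p), 0 < L q :=
      continuousAt_const.eventually_lt hLc (by rw [hL0]; exact hpos)
    have e2 : ∀ᶠ q : ℝ × E in 𝓝 ((0 : ℝ), p), |X q| < 1 :=
      hXc.abs.eventually_lt continuousAt_const (by rw [hX0]; exact hx)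
    have e3 : ∀ᶠ q : ℝ × E in 𝓝 ((0 : ℝ), p),
        (q.2.2.2 + L q * (s0 * q.1)) - |X q| * p.2.2 < (1 - |X q|) * z1 := by
      have h1 : ContinuousAt (fun q : ℝ × E => (q.2.2.2 + L q * (s0 * q.1)) - |X q| * p.2.2)
          ((0 : ℝ), p) := by
        have h1 : ContinuousAt (fun q : ℝ × E => q.2.2.2) ((0 : ℝ), p) := by fun_prop
        exact (h1.add (hLc.mul (continuousAt_const.mul continuousAt_fst))).sub (hXc.abs.mul continuousAt_const)
      have h2 : ContinuousAt (fun q : ℝ × E => (1 - |X q|) * z1) ((0 : ℝ), p) :=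
        (continuousAt_const.sub hXc.abs).mul continuousAt_const
      refine h1.eventually_lt h2 ?_
      simp only [hX0, mul_zero, add_zero]
      have h3 : 0 < (1 - |p.1|) * (z1 - p.2.2) := mul_pos (by linarith) (by linarith)
      linarith
    have e4 : ∀ᶠ q : ℝ × E in 𝓝 ((0 : ℝ), p), z0 < p.2.2 →
        (1 - |X q|) * z0 < (q.2.2.2 + L q * (s0 * q.1)) - |X q| * p.2.2 := by
      by_cases hz : z0 < p.2.2
      · have h1 : ContinuousAt (fun q : ℝ × E => (q.2.2.2 + L q * (s0 * q.1)) - |X q| * p.2.2)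
            ((0 : ℝ), p) := by
          have h1 : ContinuousAt (fun q : ℝ × E => q.2.2.2) ((0 : ℝ), p) := by fun_prop
          exact (h1.add (hLc.mul (continuousAt_const.mul continuousAt_fst))).sub (hXc.abs.mul continuousAt_const)
        have h2 : ContinuousAt (fun q : ℝ × E => (1 - |X q|) * z0) ((0 : ℝ), p) :=
          (continuousAt_const.sub hXc.abs).mul continuousAt_const
        refine (h2.eventually_lt h1 ?_).mono fun q hq _ => hq
        simp only [hX0, mul_zero, add_zero]
        have h3 : 0 < (1 - |p.1|) * (p.2.2 - z0) := mul_pos (by linarith) (by linarith)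
        linarith
      · exact Eventually.of_forall fun q hq => absurd hq hz
    have e5 : ∀ᶠ q : ℝ × E in 𝓝 ((0 : ℝ), p), 0 < 1 + q.1 * c := by
      have h0' : ContinuousAt (fun q : ℝ × E => 1 + q.1 * c) ((0 : ℝ), p) := by fun_prop
      exact continuousAt_const.eventually_lt h0' (by simp)
    filter_upwards [e1, e2, e3, e4, e5] with q h1 h2 h3 h4 h5 hq0 hqK
    refine ⟨L q, h1, ?_⟩
    have h6 : (1 - |X q|) * z0 < (q.2.2.2 + L q * (s0 * q.1)) - |X q| * p.2.2 := by
      rcases (h.lo p hpK).lt_or_eq with hz | hz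
      · exact h4 hz
      · rw [← hz]
        have h7 := h.lo _ hqK
        have h8 : 0 < L q * (s0 * q.1) := mul_pos h1 (mul_pos hs0 hq0)
        linarith
    have h7 := h.mem_tri hc h2 h6 h3
    convert h7 using 1
    have h8 : L q * (1 + q.1 * c) = s * (q.2.2.1 - q.2.1 * c) := by
      simp only [L]
      rw [mul_assoc, inv_mul_cancel₀ h5.ne', mul_one]
    have hs2 : s * s = 1 := by rcases hs with rfl | rfl <;> norm_num
    ext
    · simp [X]
    · simp only [Prod.fst_add, Prod.smul_fst, Prod.snd_add, Prod.smul_snd, smul_eq_mul, X]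
      linear_combination (-s) * h8 - (q.2.2.1 - q.2.1 * c) * hs2
    · simp
  rcases lt_or_gt_of_ne hne with hlt | hgt
  · refine (key (-1) (Or.inr rfl) (by linarith)).mono fun q hq h0 hK => ⟨i, ?_⟩
    rw [hi]
    have := hq h0 hK
    simpa using this
  · refine (key 1 (Or.inl rfl) (by linarith)).mono fun q hq h0 hK => ⟨j, ?_⟩
    rw [hj]
    have := hq h0 hK
    simpa using this

/-- the six families of `UB.cover_D` -/
def vD (s : ℝ) (e1 e2 : E) : Fin 6 → ℝ → E :=
  ![fun t => (-t, 1, s * t), fun t => (t, -1, s * t), fun _ => e1, fun _ => J e1,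
    fun _ => e2, fun _ => J e2]

/-- six families `(-t,1,st)`, `(t,-1,st)`, `e1`, `J e1`, `e2`, `J e2` (`HB.cover_of_goodC`);
`UB.side` for `|x| < 1`, `H` for `x = 1`, `GoodC.symm` for `x = -1`. -/
theorem UB.cover_D (h : UB K z0 z1 a b) (hb : b < z1) {s : ℝ} (hs : 0 < s) (e1 e2 : E)
    (H : ∀ p ∈ K, p.1 = 1 → GoodC K (vD s e1 e2) p) : Cov8 K := by
  have hsym : ∀ i, ∃ j, ∀ t, vD s e1 e2 j t = J (vD s e1 e2 i t) := by
    intro i
    fin_cases i
    · exact ⟨1, fun t => by simp [vD, J]⟩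
    · exact ⟨0, fun t => by simp [vD, J]⟩
    · exact ⟨3, fun t => by simp [vD]⟩
    · exact ⟨2, fun t => by simp [vD, J_J]⟩
    · exact ⟨5, fun t => by simp [vD]⟩
    · exact ⟨4, fun t => by simp [vD, J_J]⟩
  refine h.cover_of_goodC (ι := Fin 6) (by simp) (vD s e1 e2) fun p hp => ?_
  have hx1 := h.w p hp.1
  have hx2 := h.w _ (h.sym p hp.1)
  simp only [J] at hx2
  rcases hx1.lt_or_eq with h1 | h1
  · rcases hx2.lt_or_eq with h2 | h2
    · exact (h.side hb hs 0 1 (fun t => rfl) (fun t => rfl) hp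
        (abs_lt.2 ⟨by linarith, h1⟩)).goodC
    · have := (H (J p) (h.sym p hp.1) h2).symm h.toHB hsym
      rwa [J_J] at this
  · exact H p hp.1 h1

/-- eight families `(∓t,±1,t)`, `(∓t,∓1,t)`, `(∓t,0,1)`, `(∓t,0,-1)`: non-contact points by
`HB.vertical` (limit `t → 0`), contact points with `|x| < 1` by `UB.side`, with `x = 1` by
`HB'.good_wedge`. -/
theorem UB.cover_N (h : UB K z0 z1 a b) (hb : b < z1)
    (H : ∀ p ∈ K, p.1 = 1 → ∃ l : ℝ, 0 < l ∧
      (((p.2.1 + l, p.2.2) : ℝ × ℝ) ∈ interior {w : ℝ × ℝ | (((1 : ℝ), w) : E) ∈ K} ∨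
       ((p.2.1 - l, p.2.2) : ℝ × ℝ) ∈ interior {w : ℝ × ℝ | (((1 : ℝ), w) : E) ∈ K} ∨
       ((p.2.1, p.2.2 + l) : ℝ × ℝ) ∈ interior {w : ℝ × ℝ | (((1 : ℝ), w) : E) ∈ K} ∨
       ((p.2.1, p.2.2 - l) : ℝ × ℝ) ∈ interior {w : ℝ × ℝ | (((1 : ℝ), w) : E) ∈ K})) :
    Cov8 K := by
  let v : Fin 8 → ℝ → E := ![fun t => (-t, 1, t), fun t => (t, -1, t), fun t => (-t, -1, t),
    fun t => (t, 1, t), fun t => (-t, 0, 1), fun t => (t, 0, 1), fun t => (-t, 0, -1),
    fun t => (t, 0, -1)]
  have hsym : ∀ i, ∃ j, ∀ t, v j t = J (v i t) := by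
    intro i
    fin_cases i
    · exact ⟨1, fun t => by simp [v, J]⟩
    · exact ⟨0, fun t => by simp [v, J]⟩
    · exact ⟨3, fun t => by simp [v, J]⟩
    · exact ⟨2, fun t => by simp [v, J]⟩
    · exact ⟨5, fun t => by simp [v, J]⟩
    · exact ⟨4, fun t => by simp [v, J]⟩
    · exact ⟨7, fun t => by simp [v, J]⟩
    · exact ⟨6, fun t => by simp [v, J]⟩
  have face : ∀ p ∈ K, p.1 = 1 → GoodAt K v p := by
    intro p hpK hp1
    obtain ⟨x, y, z⟩ := p
    simp only at hp1
    subst hp1
    obtain ⟨l, hl, h1 | h1 | h1 | h1⟩ := H _ hpK rfl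
    · exact h.toHB'.good_wedge h.w (i := (0 : Fin 8)) (b := 1) (c := 0) (w := fun t => (1, t))
        (by fun_prop) rfl (fun t => rfl) hl (by simpa using h1)
    · exact h.toHB'.good_wedge h.w (i := (2 : Fin 8)) (b := -1) (c := 0) (w := fun t => (-1, t))
        (by fun_prop) rfl (fun t => rfl) hl (by simpa [sub_eq_add_neg] using h1)
    · exact h.toHB'.good_wedge h.w (i := (4 : Fin 8)) (b := 0) (c := 1) (w := fun _ => (0, 1))
        (by fun_prop) rfl (fun t => rfl) hl (by simpa using h1)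
    · exact h.toHB'.good_wedge h.w (i := (6 : Fin 8)) (b := 0) (c := -1) (w := fun _ => (0, -1))
        (by fun_prop) rfl (fun t => rfl) hl (by simpa [sub_eq_add_neg] using h1)
  refine cover_of_good (ι := Fin 8) (by simp) h.conv h.comp v fun p hp => ?_
  by_cases hcon : Con K p
  · have hx1 := h.w p hp
    have hx2 := h.w _ (h.sym p hp)
    simp only [J] at hx2
    rcases hx1.lt_or_eq with h1 | h1
    · rcases hx2.lt_or_eq with h2 | h2
      · exact h.side hb one_pos 0 1 (fun t => by simp [v]) (fun t => by simp [v]) hcon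
          (abs_lt.2 ⟨by linarith, h1⟩)
      · have := (face (J p) (h.sym p hp) h2).symm h.toHB hsym
        rwa [J_J] at this
    · exact face p hp h1
  · rcases h.vertical hp hcon with h1 | h1
    · exact GoodAt.of_ill 4 (by
        change ContinuousAt (fun t : ℝ => ((-t, 0, 1) : E)) 0
        fun_prop) (by simpa [v] using h1)
    · exact GoodAt.of_ill 6 (by
        change ContinuousAt (fun t : ℝ => ((-t, 0, -1) : E)) 0
        fun_prop) (by simpa [v] using h1)

namespace UD

/-- the face is on the levels between `a` and `b` -/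
theorem face_levels (h : UB K z0 z1 a b) {p : E} (hp : p ∈ K) (hp1 : p.1 = 1) :
    a ≤ p.2.2 ∧ p.2.2 ≤ b := by
  refine h.con p ⟨hp, 1, 0, Or.inl one_ne_zero, fun q hq => ?_⟩
  have := h.w q hq
  rw [hp1]
  linarith

/-- thin face, deep top -/
theorem thin_top (h : UB K z0 z1 a b) (hb : b < z1) (hF : ∀ p ∈ K, p.1 = 1 → p.2.1 = 0) :
    Cov8 K := by
  refine h.cover_D hb one_pos (-1, 0, (z1 - b) / 2) 0 fun p hp hp1 =>
    (GoodAt.of_ill (v := vD 1 (-1, 0, (z1 - b) / 2) 0) 2 continuousAt_const ?_).goodC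
  change Ill K ((-1, 0, (z1 - b) / 2) : E) p
  obtain ⟨x, y, z⟩ := p
  have h1 := hF _ hp hp1
  obtain ⟨h2, h3⟩ := face_levels h hp hp1
  have h4 := h.lo _ hp
  simp only at h1 hp1 h2 h3 h4
  subst h1 hp1
  refine ⟨1, one_pos, ?_⟩
  have h5 := h.ax (z + (z1 - b) / 2) (by linarith) (by linarith)
  convert h5 using 1
  ext <;> simp

/-- thin face, the two ends are flat -/
theorem thin_flat (h : UB K z0 z1 z0 z1) (hF : ∀ p ∈ K, p.1 = 1 → p.2.1 = 0) : Cov8 K := by
  obtain ⟨R, hR⟩ := h.comp.isBounded.exists_norm_le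
  have hRy : ∀ p ∈ K, |p.2.1| ≤ R := by
    intro p hp
    have h1 := hR p hp
    have h2 : ‖p.2‖ ≤ ‖p‖ := norm_snd_le p
    have h3 : ‖p.2.1‖ ≤ ‖p.2‖ := norm_fst_le p.2
    rw [Real.norm_eq_abs] at h3
    linarith
  have hR0 : 0 ≤ R := (abs_nonneg _).trans (hRy _ h.ax0)
  have hd : 0 < z1 - z0 := by linarith [h.lt]
  obtain ⟨σ, hσ0, hσ1, hσ2⟩ : ∃ σ : ℝ, 0 < σ ∧ 2 * σ * R < z1 - z0 ∧ σ < z1 - z0 := by
    refine ⟨(z1 - z0) / (2 * (R + 1)), by positivity, ?_, ?_⟩
    · have : 2 * ((z1 - z0) / (2 * (R + 1))) * R = (z1 - z0) * (R / (R + 1)) := by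
        field_simp
      rw [this]
      have h1 : R / (R + 1) < 1 := by
        rw [div_lt_one (by positivity)]
        linarith
      calc (z1 - z0) * (R / (R + 1)) < (z1 - z0) * 1 := by gcongr
        _ = z1 - z0 := mul_one _
    · exact div_lt_self hd (by linarith)
  -- the interior points
  have hint : ∀ x z : ℝ, |x| < 1 → z0 < z → z < z1 → (((x, 0, z) : E)) ∈ interior K := by
    intro x z hx h0 h1
    obtain ⟨c, hc⟩ := face h h0.le h1.le
    have hc0 : c = 0 := hF _ hc rfl
    subst hc0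
    have := h.mem_tri hc (s := x) (z := z) hx
      (by nlinarith [mul_pos (sub_pos.2 hx) (sub_pos.2 h0)])
      (by nlinarith [mul_pos (sub_pos.2 hx) (sub_pos.2 h1)])
    simpa using this
  let v : Fin 8 → E := ![(-1, 0, σ), (1, 0, σ), (-1, 0, -σ), (1, 0, -σ), (0, -1, σ), (0, 1, σ),
    (0, -1, -σ), (0, 1, -σ)]
  refine cover_of_ill (ι := Fin 8) (by simp) h.conv h.comp v fun p hp => ?_
  have hx1 := h.w p hp
  have hx2 := h.w _ (h.sym p hp)
  have hlo := h.lo p hp
  have hhi := h.hi p hp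
  have hy := hRy p hp
  have hF1 := hF p hp
  have hF2 := hF _ (h.sym p hp)
  simp only [J] at hx2 hF2
  obtain ⟨x, y, z⟩ := p
  simp only at hx1 hx2 hlo hhi hy hF1 hF2
  have hyσ : |y| * σ ≤ R * σ := by gcongr
  have hyσ0 : 0 ≤ |y| * σ := by positivity
  by_cases hy0 : y = 0
  · subst hy0
    rcases le_or_gt 0 x with hx | hx
    · have hxx : |x - 1 / 2| < 1 := abs_lt.2 ⟨by linarith, by linarith⟩
      rcases le_or_gt z ((z0 + z1) / 2) with hz | hz
      · refine ⟨0, 1 / 2, by norm_num, ?_⟩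
        have := hint (x - 1 / 2) (z + σ / 2) hxx (by linarith) (by linarith)
        convert this using 1
        ext <;> simp [v] <;> ring
      · refine ⟨2, 1 / 2, by norm_num, ?_⟩
        have := hint (x - 1 / 2) (z - σ / 2) hxx (by linarith) (by linarith)
        convert this using 1
        ext <;> simp [v] <;> ring
    · have hxx : |x + 1 / 2| < 1 := abs_lt.2 ⟨by linarith, by linarith⟩
      rcases le_or_gt z ((z0 + z1) / 2) with hz | hz
      · refine ⟨1, 1 / 2, by norm_num, ?_⟩
        have := hint (x + 1 / 2) (z + σ / 2) hxx (by linarith) (by linarith)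
        convert this using 1
        ext <;> simp [v] <;> ring
      · refine ⟨3, 1 / 2, by norm_num, ?_⟩
        have := hint (x + 1 / 2) (z - σ / 2) hxx (by linarith) (by linarith)
        convert this using 1
        ext <;> simp [v] <;> ring
  · have hxx : |x| < 1 := by
      rw [abs_lt]
      constructor
      · rcases hx2.lt_or_eq with h1 | h1
        · linarith
        · exact absurd (neg_eq_zero.1 (hF2 h1)) hy0
      · rcases hx1.lt_or_eq with h1 | h1
        · exact h1
        · exact absurd (hF1 h1) hy0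
    have hya : 0 < |y| := abs_pos.2 hy0
    have hyσ1 : 0 < |y| * σ := by positivity
    rcases le_or_gt z ((z0 + z1) / 2) with hz | hz
    · have := hint x (z + |y| * σ) hxx (by linarith) (by linarith)
      rcases lt_or_gt_of_ne hy0 with h1 | h1
      · refine ⟨5, |y|, hya, ?_⟩
        convert this using 1
        rw [abs_of_neg h1]
        ext <;> simp [v]
      · refine ⟨4, |y|, hya, ?_⟩
        convert this using 1
        rw [abs_of_pos h1]
        ext <;> simp [v]
    · have := hint x (z - |y| * σ) hxx (by linarith) (by linarith)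
      rcases lt_or_gt_of_ne hy0 with h1 | h1
      · refine ⟨7, |y|, hya, ?_⟩
        convert this using 1
        rw [abs_of_neg h1]
        ext <;> simp [v]
      · refine ⟨6, |y|, hya, ?_⟩
        convert this using 1
        rw [abs_of_pos h1]
        ext <;> simp [v] <;> ring

end UD

/-- thin face. If `b < z1`: `UB.cover_D` with `e1 = (-1,0,σ)`, `0 < σ < z1 - b`: a point
`(1,0,z)`, `a ≤ z ≤ b`, moves to `(0,0,z+σ)`. If `z0 < a`: the same for the body upside down
(`T 1 0 0 1 (-1) 0`, `HB'.T_neg`, `con_T`, `Cov8.of_T`). If `a = z0`, `b = z1`: exact set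
`(∓1,0,±σ)`, `(0,∓1,±σ)` (`cover_of_ill`), `σ > 0` with `2 σ R < z1 - z0`, `|y| ≤ R` on `K`:
`(x,0,z)` is an interior point for `|x| < 1`, `z0 < z < z1` (`HB'.mem_tri` and convexity);
`p = (x,y,z)` with `y ≠ 0` (so `|x| < 1`) moves to `y = 0` with the tilt up if `z ≤ (z0+z1)/2`, down
otherwise; `p = (x,0,z)` moves towards the axis and up or down. -/
theorem UB.cov_thin (h : UB K z0 z1 a b) (hF : ∀ p ∈ K, p.1 = 1 → p.2.1 = 0) : Cov8 K := by
  obtain ⟨ya, hya⟩ := h.fa
  obtain ⟨yb, hyb⟩ := h.fb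
  have ha := h.lo _ hya
  have hb := h.hi _ hyb
  simp only at ha hb
  rcases hb.lt_or_eq with hb1 | hb1
  · exact UD.thin_top h hb1 hF
  rcases ha.lt_or_eq with ha1 | ha1
  · -- upside down
    have hm : (1 : ℝ) * 1 - 0 * 0 ≠ 0 := by norm_num
    have hk : (-1 : ℝ) < 0 := by norm_num
    refine Cov8.of_T (d := 0) hm hk.ne ?_
    have h1 := h.toHB'.T_neg (d := 0) hm hk
    have hT : ∀ p : E, T 1 0 0 1 (-1) 0 p = (p.1, p.2.1, -p.2.2) := by
      intro p
      simp [T]
    have h2 : UB {p | T 1 0 0 1 (-1) 0 p ∈ K} ((z1 - 0) / -1) ((z0 - 0) / -1) (-b) (-a) :=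
      { toHB' := h1
        w := fun p hp => by
          have := h.w _ hp
          rwa [hT] at this
        hab := by linarith [h.hab]
        con := fun p hp => by
          have := h.con _ ((con_T hm hk.ne).1 hp)
          rw [hT] at this
          simp only at this
          constructor <;> linarith [this.1, this.2]
        fa := ⟨yb, by
          change T 1 0 0 1 (-1) 0 _ ∈ K
          rw [hT]
          simpa using hyb⟩
        fb := ⟨ya, by
          change T 1 0 0 1 (-1) 0 _ ∈ K
          rw [hT]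
          simpa using hya⟩ }
    refine UD.thin_top h2 (by linarith) fun p hp hp1 => ?_
    have := hF _ hp
    rw [hT] at this
    exact this hp1
  · subst ha1 hb1
    exact UD.thin_flat h hF

end Pool.Agent.Zk54
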